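import Pool.Agent.Lib.MP_94a9ea_al.H25.St

/-! From the top group to the example. -/

set_option autoImplicit false

namespace Pool.Agent.Lib.MP_94a9ea_al.H25

namespace Absx

open Finset

section Ring
variable {Q : Type} [Group Q]

/-- group elements inside the group ring -/
noncomputable def o (Q : Type) [Group Q] : Q →* MonoidAlgebra ℤ Q := MonoidAlgebra.of ℤ Q

/-- the ring map to the integers given by a sign character -/
noncomputable def chi (s : Q →* ℤ) : MonoidAlgebra ℤ Q →+* ℤ :=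
  (MonoidAlgebra.lift ℤ ℤ Q s).toRingHom

theorem chi_o (s : Q →* ℤ) (q : Q) : chi s (o Q q) = s q := MonoidAlgebra.lift_of s q

/-- the augmentation -/
noncomputable def eps (Q : Type) [Group Q] : MonoidAlgebra ℤ Q →+* ℤ := chi 1

theorem eps_o (q : Q) : eps Q (o Q q) = 1 := chi_o 1 q

/-- additive extension of a function on the group -/
noncomputable def ex {A : Type} [AddCommGroup A] (b : Q → A) : MonoidAlgebra ℤ Q →+ A :=
  (Finsupp.linearCombination ℤ b).toAddMonoidHom.comp MonoidAlgebra.coeffAddEquiv.toAddMonoidHom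

theorem ex_o {A : Type} [AddCommGroup A] (b : Q → A) (q : Q) : ex b (o Q q) = b q := by
  show Finsupp.linearCombination ℤ b (Finsupp.single q 1) = b q
  simp

theorem ind {p : MonoidAlgebra ℤ Q → Prop} (h1 : ∀ q, p (o Q q)) (h0 : p 0)
    (ha : ∀ x y, p x → p y → p (x + y)) (hn : ∀ x, p x → p (-x)) (u : MonoidAlgebra ℤ Q) :
    p u := by
  let S : AddSubgroup (MonoidAlgebra ℤ Q) :=
    { carrier := {x | p x}, zero_mem' := h0, add_mem' := fun {a b} => ha a b,
      neg_mem' := fun {a} => hn a }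
  exact MonoidAlgebra.induction_on u h1 ha (fun r x hx => S.zsmul_mem (x := x) hx r)

theorem hom_ext {A : Type} [AddCommGroup A] {f g : MonoidAlgebra ℤ Q →+ A}
    (h : ∀ q, f (o Q q) = g (o Q q)) (u : MonoidAlgebra ℤ Q) : f u = g u :=
  ind (p := fun u => f u = g u) h (by simp) (fun x y hx hy => by simp [hx, hy])
    (fun x hx => by simp [hx]) u

/-- the map of group rings -/
noncomputable def push {W : Type} [Group W] (p : Q →* W) :
    MonoidAlgebra ℤ Q →+* MonoidAlgebra ℤ W := MonoidAlgebra.mapDomainRingHom ℤ p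

theorem push_o {W : Type} [Group W] (p : Q →* W) (q : Q) : push p (o Q q) = o W (p q) := by
  simp [push, o]

theorem chi_push {W : Type} [Group W] (p : Q →* W) (s : W →* ℤ) (u : MonoidAlgebra ℤ Q) :
    chi s (push p u) = chi (s.comp p) u :=
  hom_ext (f := (chi s).toAddMonoidHom.comp (push p).toAddMonoidHom)
    (g := (chi (s.comp p)).toAddMonoidHom) (fun q => by
      show chi s (push p (o Q q)) = chi (s.comp p) (o Q q)
      rw [push_o, chi_o, chi_o]; rfl) u

theorem torsion {n : ℕ} (hn : ∀ q : Q, q ^ n ∈ commutator Q) {A : Type} [AddCommGroup A]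
    (l : Q → A) (hl : ∀ x y, l (x * y) = l x + l y) (q : Q) : n • l q = 0 := by
  let f : Q →* Multiplicative A :=
    MonoidHom.mk' (fun x => Multiplicative.ofAdd (l x)) (fun x y => by rw [hl]; rfl)
  have h := Abelianization.commutator_subset_ker f (hn q)
  rw [MonoidHom.mem_ker, map_pow] at h
  exact congrArg Multiplicative.toAdd h

end Ring

/-- A product of conjugates, seen through a cocycle with values in a domain. -/
theorem conj_ne {G S : Type} [Group G] [Ring S] [NoZeroDivisors S] (π : G →* S) (F : G → S)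
    (hF : ∀ g h, F (g * h) = F g + π g * F h) (e : S →+* ℤ) (he : ∀ g, e (π g) = 1) (g : G)
    (h1 : π g = 1) (h2 : F g ≠ 0) (l : List G) (hl : l ≠ []) :
    (l.map (fun h => h⁻¹ * g * h)).prod ≠ 1 := by
  have F1 : F 1 = 0 := by
    have := hF 1 1
    simpa using this
  have hc : ∀ h : G, π (h⁻¹ * g * h) = 1 ∧ F (h⁻¹ * g * h) = π h⁻¹ * F g := fun h => by
    have a1 : π (h⁻¹ * g) = π h⁻¹ := by rw [map_mul, h1, mul_one]
    have a2 := hF h⁻¹ h
    rw [inv_mul_cancel, F1] at a2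
    refine ⟨by rw [map_mul, a1, ← map_mul, inv_mul_cancel, map_one], ?_⟩
    rw [hF, a1, hF, add_right_comm, ← a2, zero_add]
  have key : ∀ l : List G, ∃ u : S, e u = (l.length : ℤ) ∧
      F (l.map (fun h => h⁻¹ * g * h)).prod = u * F g := by
    intro l
    induction l with
    | nil => exact ⟨0, by simp, by simp [F1]⟩
    | cons h l ih =>
      obtain ⟨u, hu, hu'⟩ := ih
      refine ⟨π h⁻¹ + u, by rw [map_add, he, hu, List.length_cons]; push_cast; ring, ?_⟩
      rw [List.map_cons, List.prod_cons, hF, (hc h).1, (hc h).2, hu', one_mul, add_mul]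
  obtain ⟨u, hu, hu'⟩ := key l
  intro h
  rw [h, F1] at hu'
  rcases mul_eq_zero.1 hu'.symm with h0 | h0
  · rw [h0, map_zero] at hu
    exact hl (List.length_eq_zero_iff.1 (by exact_mod_cast hu.symm))
  · exact h2 h0

/-- The split extension of a free module by the group. -/
structure Sd (Q ι : Type) [Group Q] where
  j : ι → MonoidAlgebra ℤ Q
  q : Q

variable {Q ι : Type} [Group Q]

theorem Sd.eq {a b : Sd Q ι} (h1 : a.j = b.j) (h2 : a.q = b.q) : a = b := by
  cases a; cases b; cases h1; cases h2; rfl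

noncomputable instance : Mul (Sd Q ι) := ⟨fun a b => ⟨a.j + o Q a.q • b.j, a.q * b.q⟩⟩
noncomputable instance : One (Sd Q ι) := ⟨⟨0, 1⟩⟩
noncomputable instance : Inv (Sd Q ι) := ⟨fun a => ⟨-(o Q a.q⁻¹ • a.j), a.q⁻¹⟩⟩

theorem mul_j (a b : Sd Q ι) : (a * b).j = a.j + o Q a.q • b.j := rfl
theorem mul_q (a b : Sd Q ι) : (a * b).q = a.q * b.q := rfl
theorem one_j : (1 : Sd Q ι).j = 0 := rfl
theorem one_q : (1 : Sd Q ι).q = 1 := rfl
theorem inv_j (a : Sd Q ι) : (a⁻¹).j = -(o Q a.q⁻¹ • a.j) := rfl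
theorem inv_q (a : Sd Q ι) : (a⁻¹).q = a.q⁻¹ := rfl

noncomputable instance : Group (Sd Q ι) :=
  Group.ofLeftAxioms
    (fun a b c => Sd.eq
      (by simp only [mul_j, mul_q, map_mul, smul_add, mul_smul, add_assoc])
      (by simp only [mul_q, mul_assoc]))
    (fun a => Sd.eq (by simp only [mul_j, one_j, one_q, map_one, one_smul, zero_add])
      (by simp only [mul_q, one_q, one_mul]))
    (fun a => Sd.eq (by simp only [mul_j, inv_j, inv_q, one_j, neg_add_cancel])
      (by simp only [mul_q, inv_q, one_q, inv_mul_cancel]))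

variable [Fintype ι]

/-- the boundary map -/
noncomputable def bd (x : ι → Q) : (ι → MonoidAlgebra ℤ Q) →ₗ[MonoidAlgebra ℤ Q] MonoidAlgebra ℤ Q where
  toFun j := ∑ i, j i * (o Q (x i) - 1)
  map_add' a b := by simp only [Pi.add_apply, add_mul, sum_add_distrib]
  map_smul' r a := by simp only [Pi.smul_apply, smul_eq_mul, mul_assoc, mul_sum, RingHom.id_apply]

theorem bd_apply (x : ι → Q) (j : ι → MonoidAlgebra ℤ Q) :
    bd x j = ∑ i, j i * (o Q (x i) - 1) := rfl

/-- vectors with all entries in the augmentation ideal -/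
def Iv (Q ι : Type) [Group Q] : Submodule (MonoidAlgebra ℤ Q) (ι → MonoidAlgebra ℤ Q) where
  carrier := {j | ∀ i, eps Q (j i) = 0}
  zero_mem' := fun _ => map_zero _
  add_mem' := fun {a b} ha hb i => by rw [Pi.add_apply, map_add, ha i, hb i, add_zero]
  smul_mem' := fun r a ha i => by rw [Pi.smul_apply, smul_eq_mul, map_mul, ha i, mul_zero]

/-- The example. -/
def Ex (x : ι → Q) (n : ℕ) : Subgroup (Sd Q ι) where
  carrier := {g | g.j ∈ Iv Q ι ∧ bd x g.j = n • (o Q g.q - 1)}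
  one_mem' := ⟨zero_mem _, by rw [one_j, one_q, map_zero, map_one, sub_self, smul_zero]⟩
  mul_mem' := fun {a b} ha hb => ⟨add_mem ha.1 (Submodule.smul_mem _ _ hb.1), by
    rw [mul_j, mul_q, map_add, map_smul, ha.2, hb.2, map_mul, smul_eq_mul, mul_smul_comm,
      ← smul_add]
    congr 1; noncomm_ring⟩
  inv_mem' := fun {a} ha => ⟨neg_mem (Submodule.smul_mem _ _ ha.1), by
    rw [inv_j, inv_q, map_neg, map_smul, ha.2, smul_eq_mul, mul_smul_comm, ← smul_neg, mul_sub,
      ← map_mul, inv_mul_cancel, map_one, mul_one, neg_sub]⟩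

/-- the projection to the top group -/
noncomputable def pr (x : ι → Q) (n : ℕ) : Ex x n →* Q := MonoidHom.mk' (fun g => g.1.q) (fun _ _ => rfl)

theorem aug_mem {x : ι → Q} (hx : Subgroup.closure (Set.range x) = ⊤) (q : Q) :
    ∃ r, bd x r = o Q q - 1 := by
  classical
  have hq : q ∈ Subgroup.closure (Set.range x) := hx ▸ Subgroup.mem_top q
  induction hq using Subgroup.closure_induction with
  | mem y hy =>
    obtain ⟨i, rfl⟩ := hy
    refine ⟨Pi.single i 1, ?_⟩
    rw [bd_apply, sum_eq_single i] <;> simp +contextual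
  | one => exact ⟨0, by simp⟩
  | mul a b _ _ ha hb =>
    obtain ⟨r, hr⟩ := ha
    obtain ⟨s, hs⟩ := hb
    exact ⟨r + o Q a • s, by rw [map_add, map_smul, hr, hs, map_mul, smul_eq_mul]; noncomm_ring⟩
  | inv a _ ha =>
    obtain ⟨r, hr⟩ := ha
    exact ⟨-(o Q a⁻¹ • r), by
      rw [map_neg, map_smul, hr, smul_eq_mul, mul_sub, ← map_mul, inv_mul_cancel, map_one, mul_one,
        neg_sub]⟩

theorem pr_surj {x : ι → Q} (hx : Subgroup.closure (Set.range x) = ⊤) {n : ℕ}
    (hn : ∀ q : Q, q ^ n ∈ commutator Q) : Function.Surjective (pr x n) := fun q => by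
  let I2 : Submodule (MonoidAlgebra ℤ Q) (MonoidAlgebra ℤ Q) := (Iv Q ι).map (bd x)
  have h := torsion hn (fun q => I2.mkQ (o Q q - 1)) (fun a b => by
    obtain ⟨s, hs⟩ := aug_mem hx b
    have hm : (o Q a - 1) * (o Q b - 1) ∈ I2 :=
      ⟨(o Q a - 1) • s, fun i => by
        rw [Pi.smul_apply, smul_eq_mul, map_mul, map_sub, eps_o, map_one, sub_self, zero_mul],
        by rw [map_smul, hs, smul_eq_mul]⟩
    have e : o Q (a * b) - 1 = (o Q a - 1) * (o Q b - 1) + (o Q a - 1) + (o Q b - 1) := by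
      rw [map_mul]; noncomm_ring
    have z : I2.mkQ ((o Q a - 1) * (o Q b - 1)) = 0 := (Submodule.Quotient.mk_eq_zero _).2 hm
    rw [e, map_add, map_add, z, zero_add]) q
  rw [← map_nsmul] at h
  obtain ⟨j, hj, hj'⟩ := (Submodule.Quotient.mk_eq_zero I2).1 h
  exact ⟨⟨⟨j, q⟩, hj, hj'⟩, rfl⟩

/-- the kernel of the projection, as a module -/
noncomputable def Ker (x : ι → Q) : Submodule (MonoidAlgebra ℤ Q) (ι → MonoidAlgebra ℤ Q) :=
  Iv Q ι ⊓ LinearMap.ker (bd x)

theorem mem_base {x : ι → Q} {n : ℕ} {a : ι → MonoidAlgebra ℤ Q} :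
    (⟨a, 1⟩ : Sd Q ι) ∈ Ex x n ↔ a ∈ Ker x := by
  show (a ∈ Iv Q ι ∧ bd x a = n • (o Q 1 - 1)) ↔ (a ∈ Iv Q ι ∧ bd x a = 0)
  rw [map_one, sub_self, smul_zero]

omit [Fintype ι] in
theorem base_mul (a : ι → MonoidAlgebra ℤ Q) (g : Sd Q ι) :
    (⟨a, 1⟩ : Sd Q ι) * g = ⟨a + g.j, g.q⟩ :=
  Sd.eq (by simp only [mul_j, map_one, one_smul]) (by simp only [mul_q, one_mul])

theorem sub_mem_ker {x : ι → Q} {n : ℕ} {g h : Sd Q ι} (hg : g ∈ Ex x n) (hh : h ∈ Ex x n)
    (e : g.q = h.q) : g.j - h.j ∈ Ker x :=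
  ⟨sub_mem hg.1 hh.1, by
    show bd x (g.j - h.j) = 0
    rw [map_sub, hg.2, hh.2, e, sub_self]⟩

theorem fg {x : ι → Q} (hx : Subgroup.closure (Set.range x) = ⊤) {n : ℕ}
    (hs : Function.Surjective (pr x n)) [IsNoetherianRing (MonoidAlgebra ℤ Q)] :
    Group.FG (Ex x n) := by
  classical
  rw [Group.fg_iff_subgroup_fg, Subgroup.fg_iff]
  obtain ⟨T, hT⟩ : (Ker x).FG := IsNoetherian.noetherian _
  choose σ hσ using hs
  let Z : Set (Sd Q ι) := (fun a => (⟨a, 1⟩ : Sd Q ι)) '' (T : Set _) ∪ Set.range (fun i => (σ (x i)).1)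
  refine ⟨Z, le_antisymm ?_ ?_, (T.finite_toSet.image _).union (Set.finite_range _)⟩
  · rw [Subgroup.closure_le]
    rintro _ (⟨a, ha, rfl⟩ | ⟨i, rfl⟩)
    · exact mem_base.2 (hT ▸ Submodule.subset_span ha)
    · exact (σ (x i)).2
  have hle : Subgroup.closure Z ≤ Ex x n := by
    rw [Subgroup.closure_le]
    rintro _ (⟨a, ha, rfl⟩ | ⟨i, rfl⟩)
    · exact mem_base.2 (hT ▸ Submodule.subset_span ha)
    · exact (σ (x i)).2
  have lift : ∀ q : Q, ∃ h ∈ Subgroup.closure Z, h.q = q := fun q => by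
    have hq : q ∈ Subgroup.closure (Set.range x) := hx ▸ Subgroup.mem_top q
    induction hq using Subgroup.closure_induction with
    | mem y hy =>
      obtain ⟨i, rfl⟩ := hy
      exact ⟨_, Subgroup.subset_closure (Or.inr ⟨i, rfl⟩), hσ _⟩
    | one => exact ⟨1, one_mem _, rfl⟩
    | mul a b _ _ ha hb =>
      obtain ⟨r, hr, rfl⟩ := ha
      obtain ⟨s, hs, rfl⟩ := hb
      exact ⟨r * s, mul_mem hr hs, rfl⟩
    | inv a _ ha =>
      obtain ⟨r, hr, rfl⟩ := ha
      exact ⟨r⁻¹, inv_mem hr, rfl⟩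
  have hadd : ∀ a b : ι → MonoidAlgebra ℤ Q, (⟨a, 1⟩ : Sd Q ι) ∈ Subgroup.closure Z →
      (⟨b, 1⟩ : Sd Q ι) ∈ Subgroup.closure Z → (⟨a + b, 1⟩ : Sd Q ι) ∈ Subgroup.closure Z :=
    fun a b ha hb => by simpa only [base_mul] using mul_mem ha hb
  let M : Submodule (MonoidAlgebra ℤ Q) (ι → MonoidAlgebra ℤ Q) :=
    { carrier := {a | (⟨a, 1⟩ : Sd Q ι) ∈ Subgroup.closure Z}
      zero_mem' := one_mem (Subgroup.closure Z)
      add_mem' := fun {a b} => hadd a b
      smul_mem' := fun r a ha => by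
        refine ind (p := fun r => (⟨r • a, 1⟩ : Sd Q ι) ∈ Subgroup.closure Z) (fun q => ?_) ?_
          (fun u v hu hv => ?_) (fun u hu => ?_) r
        · obtain ⟨h, hh, rfl⟩ := lift q
          have e : (⟨o Q h.q • a, 1⟩ : Sd Q ι) * h = h * ⟨a, 1⟩ :=
            Sd.eq (by rw [base_mul, mul_j, add_comm]) (by rw [base_mul, mul_q, mul_one])
          rw [eq_mul_inv_of_mul_eq e]
          exact mul_mem (mul_mem hh ha) (inv_mem hh)
        · rw [zero_smul]; exact one_mem (Subgroup.closure Z)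
        · rw [add_smul]; exact hadd _ _ hu hv
        · have e : (⟨(-u) • a, 1⟩ : Sd Q ι) = (⟨u • a, 1⟩ : Sd Q ι)⁻¹ :=
            Sd.eq (by simp only [inv_j, inv_one, map_one, one_smul, neg_smul])
              (by simp only [inv_q, inv_one])
          rw [e]; exact inv_mem hu }
  have hM : Ker x ≤ M := by
    rw [← hT, Submodule.span_le]
    exact fun a ha => Subgroup.subset_closure (Or.inl ⟨a, ha, rfl⟩)
  intro g hg
  obtain ⟨h, hh, e⟩ := lift g.q
  have h1 : (⟨g.j - h.j, 1⟩ : Sd Q ι) ∈ Subgroup.closure Z := hM (sub_mem_ker hg (hle hh) e.symm)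
  have e2 : g = (⟨g.j - h.j, 1⟩ : Sd Q ι) * h :=
    Sd.eq (by rw [base_mul, sub_add_cancel]) (by rw [base_mul, e])
  rw [e2]
  exact mul_mem h1 hh

theorem solv (x : ι → Q) (n : ℕ) (h : derivedSeries Q 2 = ⊥) : derivedSeries (Ex x n) 3 = ⊥ := by
  have h2 : ∀ g ∈ derivedSeries (Ex x n) 2, g.1.q = 1 := fun g hg => by
    have := map_derivedSeries_le_derivedSeries (pr x n) 2 ⟨g, hg, rfl⟩
    rw [h] at this
    exact this
  rw [derivedSeries_succ, eq_bot_iff, Subgroup.commutator_le]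
  intro a ha b hb
  rw [Subgroup.mem_bot, commutatorElement_eq_one_iff_mul_comm]
  refine Subtype.ext (Sd.eq ?_ ?_)
  · show a.1.j + o Q a.1.q • b.1.j = b.1.j + o Q b.1.q • a.1.j
    rw [h2 a ha, h2 b hb, map_one, one_smul, one_smul, add_comm]
  · show a.1.q * b.1.q = b.1.q * a.1.q
    rw [h2 a ha, h2 b hb]

theorem rstar_of (x : ι → Q) (n : ℕ) {W : Type} [Group W] [NoZeroDivisors (MonoidAlgebra ℤ W)]
    (p : Q →* W) (g : Ex x n) (h1 : p g.1.q = 1) (i : ι) (h2 : push p (g.1.j i) ≠ 0)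
    (l : List (Ex x n)) (hl : l ≠ []) : (l.map (fun h => h⁻¹ * g * h)).prod ≠ 1 := by
  refine conj_ne ((o W).comp (p.comp (pr x n))) (fun g => push p (g.1.j i)) (fun a b => ?_) (eps W)
    (fun a => eps_o _) g ?_ h2 l hl
  · show push p (a.1.j i + o Q a.1.q * b.1.j i) = _
    rw [map_add, map_mul, push_o]; rfl
  · show o W (p g.1.q) = 1
    rw [h1, map_one]

theorem rstar (x : ι → Q) {n : ℕ} (hQ : Top Q n) (g : Ex x n) (hg : g ≠ 1)
    (l : List (Ex x n)) (hl : l ≠ []) : (l.map (fun h => h⁻¹ * g * h)).prod ≠ 1 := by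
  obtain ⟨-, -, -, hn, -, -, hD, hW⟩ := hQ
  by_cases hq : g.1.q = 1
  · have : ∃ i, g.1.j i ≠ 0 := by
      by_contra hc
      push Not at hc
      exact hg (Subtype.ext (Sd.eq (funext hc) hq))
    obtain ⟨i, hi⟩ := this
    refine rstar_of x n (MonoidHom.id Q) g hq i ?_ l hl
    rwa [push, MonoidAlgebra.mapDomainRingHom_id]
  · obtain ⟨W, _, p, s, a, hW1, h1, hc, ha⟩ := hW _ hq
    let s' : W →* ℤ := (Units.coeHom ℤ).comp s
    have a1 : a 1 = 0 := by simpa using hc 1 1
    have k : ∀ (y : Q) (r : MonoidAlgebra ℤ Q), ex a (r * (o Q y - 1)) = chi (s'.comp p) r * a y :=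
      fun y r => hom_ext (f := (ex a).comp (AddMonoidHom.mulRight (o Q y - 1)))
        (g := (AddMonoidHom.mulRight (a y)).comp (chi (s'.comp p)).toAddMonoidHom) (fun q => by
          show ex a (o Q q * (o Q y - 1)) = chi (s'.comp p) (o Q q) * a y
          rw [mul_sub, mul_one, ← map_mul, map_sub, ex_o, ex_o, chi_o, hc, add_sub_cancel_left]
          rfl) r
    have : ∃ i, push p (g.1.j i) ≠ 0 := by
      by_contra hz
      push Not at hz
      have e := congrArg (ex a) g.2.2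
      rw [bd_apply, map_sum, map_nsmul, map_sub, ex_o, ← map_one (o Q), ex_o, a1, sub_zero,
        sum_eq_zero (fun i _ => by rw [map_one, k, ← chi_push, hz, map_zero, zero_mul])] at e
      rcases smul_eq_zero.1 e.symm with h | h
      · omega
      · exact ha h
    obtain ⟨i, hi⟩ := this
    exact rstar_of x n p g h1 i hi l hl

theorem nohom {x : ι → Q} {n : ℕ} (hn0 : 0 < n) (hn : ∀ q : Q, q ^ n ∈ commutator Q)
    (hs : Function.Surjective (pr x n)) (φ : Ex x n → ℝ) (hφ : ∀ a b, φ (a * b) = φ a + φ b)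
    (g : Ex x n) : φ g = 0 := by
  classical
  choose σ hσ using hs
  have hσ' : ∀ q, (σ q).1.q = q := hσ
  let φA : Ker x →+ ℝ := AddMonoidHom.mk' (fun a => φ ⟨⟨a.1, 1⟩, mem_base.2 a.2⟩) (fun a b => by
    rw [← hφ]; exact congrArg φ (Subtype.ext (base_mul a.1 ⟨b.1, 1⟩).symm))
  obtain ⟨f, hf⟩ := (Module.Baer.of_divisible ℝ).extension_property_addMonoidHom
    (Ker x).subtype.toAddMonoidHom Subtype.val_injective φA
  have hf' : ∀ a (ha : a ∈ Ker x), f a = φ ⟨⟨a, 1⟩, mem_base.2 ha⟩ :=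
    fun a ha => DFunLike.congr_fun hf ⟨a, ha⟩
  let b : Q → ℝ := fun q => φ (σ q) - f (σ q).1.j
  have hb : ∀ u : Ex x n, φ u = f u.1.j + b u.1.q := fun u => by
    have hk := sub_mem_ker u.2 (σ u.1.q).2 (hσ' _).symm
    have e : u = ⟨⟨u.1.j - (σ u.1.q).1.j, 1⟩, mem_base.2 hk⟩ * σ u.1.q :=
      Subtype.ext (Sd.eq
        (by show _ = ((⟨_, 1⟩ : Sd Q ι) * _).j; rw [base_mul, sub_add_cancel])
        (by show _ = 1 * _; rw [one_mul, hσ']))
    have e2 := congrArg φ e
    rw [hφ, ← hf' _ hk, map_sub] at e2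
    simp only [b]; linarith
  have φ1 : φ 1 = 0 := by simpa using hφ 1 1
  have b1 : b 1 = 0 := by
    have := hb 1
    rw [φ1] at this
    have e : f (1 : Ex x n).1.j = 0 := map_zero f
    rw [e, zero_add] at this
    exact this.symm
  have ex1 : ex b 1 = 0 := by rw [← map_one (o Q), ex_o, b1]
  -- invariance on the cocycle
  have inv0 : ∀ (q : Q) (u : Ex x n), f (o Q q • u.1.j) + ex b (o Q q * (o Q u.1.q - 1)) =
      f u.1.j + ex b (o Q u.1.q - 1) := fun q u => by
    have e := hφ (σ q) u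
    rw [hb (σ q * u), hb (σ q), hb u] at e
    have e1 : (σ q * u).1.j = (σ q).1.j + o Q q • u.1.j := by
      show (σ q).1.j + o Q (σ q).1.q • u.1.j = _
      rw [hσ']
    have e2 : (σ q * u).1.q = q * u.1.q := by
      show (σ q).1.q * u.1.q = _
      rw [hσ']
    rw [e1, e2, map_add, hσ'] at e
    rw [mul_sub, mul_one, ← map_mul, map_sub, map_sub, ex_o, ex_o, ex_o, ex1]
    linarith
  have inv1 : ∀ (q : Q) (u : MonoidAlgebra ℤ Q), ∃ t ∈ Iv Q ι,
      bd x t = n • (u - (eps Q u : MonoidAlgebra ℤ Q)) ∧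
      f (o Q q • t) + ex b (o Q q * (u - (eps Q u : MonoidAlgebra ℤ Q))) =
        f t + ex b (u - (eps Q u : MonoidAlgebra ℤ Q)) := fun q u => by
    refine ind (p := fun u => ∃ t ∈ Iv Q ι, bd x t = n • (u - (eps Q u : MonoidAlgebra ℤ Q)) ∧
      f (o Q q • t) + ex b (o Q q * (u - (eps Q u : MonoidAlgebra ℤ Q))) =
        f t + ex b (u - (eps Q u : MonoidAlgebra ℤ Q))) (fun y => ?_) ?_ ?_ ?_ u
    · refine ⟨(σ y).1.j, (σ y).2.1, ?_, ?_⟩
      · rw [(σ y).2.2, hσ', eps_o, Int.cast_one]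
      · have := inv0 q (σ y)
        rwa [hσ', ← Int.cast_one (R := MonoidAlgebra ℤ Q), ← eps_o y] at this
    · exact ⟨0, zero_mem _, by simp, by simp⟩
    · rintro u v ⟨t, ht, h1, h2⟩ ⟨t', ht', h1', h2'⟩
      have e : u + v - (eps Q (u + v) : MonoidAlgebra ℤ Q) =
          (u - (eps Q u : MonoidAlgebra ℤ Q)) + (v - (eps Q v : MonoidAlgebra ℤ Q)) := by
        rw [map_add, Int.cast_add]; abel
      refine ⟨t + t', add_mem ht ht', by rw [e, map_add, h1, h1', smul_add], ?_⟩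
      rw [e, smul_add, mul_add, map_add, map_add, map_add, map_add]
      linarith
    · rintro u ⟨t, ht, h1, h2⟩
      have e : -u - (eps Q (-u) : MonoidAlgebra ℤ Q) = -(u - (eps Q u : MonoidAlgebra ℤ Q)) := by
        rw [map_neg, Int.cast_neg]; abel
      refine ⟨-t, neg_mem ht, by rw [e, map_neg, h1, smul_neg], ?_⟩
      rw [e, smul_neg, mul_neg, map_neg, map_neg, map_neg, map_neg]
      linarith
  have ebd : ∀ j, eps Q (bd x j) = 0 := fun j => by
    rw [bd_apply, map_sum]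
    exact sum_eq_zero fun i _ => by rw [map_mul, map_sub, eps_o, map_one, sub_self, mul_zero]
  let θ : (ι → MonoidAlgebra ℤ Q) →+ ℝ := AddMonoidHom.mk' (fun j => n • f j + ex b (bd x j))
    (fun u v => by rw [map_add, map_add, map_add, smul_add]; abel)
  have hθ : ∀ j, θ j = n • f j + ex b (bd x j) := fun _ => rfl
  have inv2 : ∀ (q : Q), ∀ j ∈ Iv Q ι, θ (o Q q • j) = θ j := fun q j hj => by
    obtain ⟨t, ht, h1, h2⟩ := inv1 q (bd x j)
    rw [ebd, Int.cast_zero, sub_zero] at h1 h2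
    have hk : n • j - t ∈ Ker x := ⟨sub_mem (nsmul_mem hj n) ht, by
      show bd x (n • j - t) = 0
      rw [map_sub, map_nsmul, h1, sub_self]⟩
    have h3 := inv0 q ⟨⟨n • j - t, 1⟩, mem_base.2 hk⟩
    simp only [map_one, sub_self, mul_zero, map_zero, add_zero] at h3
    rw [smul_sub, smul_comm, map_sub, map_sub, map_nsmul, map_nsmul] at h3
    rw [hθ, hθ, (bd x).map_smul, smul_eq_mul]
    linarith
  have z1 : ∀ (i : ι) (q : Q), θ (Pi.single i (o Q q - 1)) = 0 := fun i q => by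
    have h := torsion hn (fun q => θ (Pi.single i (o Q q - 1))) (fun a c => by
      have e : (Pi.single i (o Q (a * c) - 1) : ι → MonoidAlgebra ℤ Q) =
          Pi.single i (o Q a - 1) + o Q a • Pi.single i (o Q c - 1) := by
        rw [← Pi.single_smul, ← Pi.single_add, map_mul, smul_eq_mul]
        congr 1; noncomm_ring
      rw [e, map_add, inv2]
      intro k
      by_cases hk : k = i
      · subst hk; rw [Pi.single_eq_same, map_sub, eps_o, map_one, sub_self]
      · rw [Pi.single_eq_of_ne hk, map_zero]) q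
    rcases smul_eq_zero.1 h with h | h
    · omega
    · exact h
  have z2 : ∀ (i : ι) (r : MonoidAlgebra ℤ Q),
      θ (Pi.single i r) = eps Q r • θ (Pi.single i 1) := fun i r =>
    hom_ext (f := θ.comp (AddMonoidHom.single (fun _ : ι => MonoidAlgebra ℤ Q) i))
      (g := (zmultiplesHom ℝ (θ (Pi.single i 1))).comp (eps Q).toAddMonoidHom) (fun q => by
        show θ (Pi.single i (o Q q)) = eps Q (o Q q) • θ (Pi.single i 1)
        have := z1 i q
        rw [Pi.single_sub, map_sub] at this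
        rw [eps_o, one_smul]; linarith) r
  have z3 : θ g.1.j = 0 := by
    rw [← univ_sum_single g.1.j, map_sum]
    exact sum_eq_zero fun i _ => by rw [z2, g.2.1 i, zero_smul]
  rw [hθ, g.2.2, map_nsmul, ← smul_add, map_sub, ex_o, ex1, sub_zero, ← hb] at z3
  rcases smul_eq_zero.1 z3 with h | h
  · omega
  · exact h

end Absx

open Absx in
theorem abs_st : AbsSt := by
  intro Q _ n hQ
  obtain ⟨S, hS⟩ := hQ.1.out
  have hx : Subgroup.closure (Set.range (Subtype.val : S → Q)) = ⊤ := by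
    rw [Subtype.range_coe]; exact hS
  have hs := pr_surj hx hQ.2.2.2.2.1
  have := hQ.2.1
  have := hQ.2.2.1
  exact ⟨Ex (Subtype.val : S → Q) n, inferInstance, fg hx hs, solv _ n hQ.2.2.2.2.2.1,
    hs.nontrivial, rstar _ hQ, nohom hQ.2.2.2.1 hQ.2.2.2.2.1 hs⟩

end Pool.Agent.Lib.MP_94a9ea_al.H25
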