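import Mathlib

/-! Statements of the steps for the finitely presented example. -/

set_option autoImplicit false

namespace Pool.Agent.Lib.MP_94a9ea_al.H25

/-- Conjugation. -/
def cj {G : Type} [Group G] (a w : G) : G := w⁻¹ * a * w

/-- The members of a list of pairs. -/
def Ys {G : Type} (l : List (G × G)) : Set G := {y | ∃ p ∈ l, y = p.1 ∨ y = p.2}

/-- One step of the commutation argument. -/
def BSSt : Prop :=
  ∀ (G : Type) [Group G] (Y A : Set G) (x s : G),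
    (∀ a ∈ A, ∀ b ∈ A, ∀ w ∈ ({1, x, x⁻¹, s} : Set G), ∀ w' ∈ ({1, x, x⁻¹, s} : Set G),
      ∀ u ∈ Subgroup.closure Y, ∀ v ∈ Subgroup.closure Y,
        Commute (cj (cj a w) u) (cj (cj b w') v)) →
    (∀ y ∈ Y, ∀ w ∈ ({x, x⁻¹, s} : Set G), y⁻¹ * cj y w ∈ A) → x⁻¹ * cj x s ∈ A →
    (∀ a ∈ A, cj a s = cj a x * a⁻¹ * cj a x⁻¹) →
    ∀ a ∈ A, ∀ b ∈ A, ∀ u ∈ Subgroup.closure (Y ∪ {x, s}), ∀ v ∈ Subgroup.closure (Y ∪ {x, s}),
      Commute (cj a u) (cj b v)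

/-- Finitely many relations give all commutation relations. -/
def PKSt : Prop :=
  ∀ (F : Type) [Group F] (N B : Subgroup F) [N.Normal] [B.Normal],
    (∀ a ∈ B, ∀ b ∈ B, a * b * a⁻¹ * b⁻¹ ∈ N) → ∀ l : List (F × F),
    (∀ y ∈ Subgroup.closure (Ys l), ∀ y' ∈ Subgroup.closure (Ys l), y⁻¹ * cj y y' ∈ B) →
    (∀ p ∈ l, ∀ a ∈ B, (cj a p.2)⁻¹ * (cj a p.1 * a⁻¹ * cj a p.1⁻¹) ∈ N) →
    ∀ A : Set F, A.Finite → A ⊆ B →
    ∃ R : Set F, R.Finite ∧ R ⊆ N ∧ ∀ a ∈ A, ∀ b ∈ A,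
      ∀ u ∈ Subgroup.closure (Ys l), ∀ v ∈ Subgroup.closure (Ys l),
        cj a u * cj b v * (cj a u)⁻¹ * (cj b v)⁻¹ ∈ Subgroup.normalClosure R

/-- Submodules of finitely generated modules over a finitely generated commutative ring. -/
def NoeSt : Prop :=
  ∀ (G : Type) [Group G] (Y A : Set G), Y.Finite → A.Finite → ∀ U : Subgroup G,
    U = Subgroup.closure {g | ∃ a ∈ A, ∃ u ∈ Subgroup.closure Y, g = cj a u} →
    (∀ a ∈ U, ∀ b ∈ U, a * b = b * a) →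
    (∀ y ∈ Y, ∀ y' ∈ Y, y⁻¹ * cj y y' ∈ U) →
    ∀ N : Subgroup G, N.Normal → N ≤ U → N.IsFinitelyNormallyGenerated

/-- A criterion for finite presentation. -/
def FPSt : Prop :=
  ∀ (G : Type) [Group G] [Group.FG G] (H A : Subgroup G) [H.Normal] [A.Normal] [H.FiniteIndex],
    (∀ a ∈ A, ∀ b ∈ A, a * b = b * a) → (∀ x ∈ H, ∀ y ∈ H, x * y * x⁻¹ * y⁻¹ ∈ A) →
    ∀ l : List (G × G), Subgroup.closure (Ys l) ⊔ A = H →
    (∀ p ∈ l, ∀ a ∈ A, cj a p.2 = cj a p.1 * a⁻¹ * cj a p.1⁻¹) →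
    Group.IsFinitelyPresented G

/-- Inverting finitely many central elements of a domain. -/
def LocSt : Prop :=
  ∀ (A : Type) [Ring A] [NoZeroDivisors A] (E : Type) [Fintype E] [DecidableEq E] (c : E → A),
    (∀ e, c e ≠ 0) → (∀ e r, c e * r = r * c e) →
    ∃ (L : Type) (_ : Ring L) (ι : A →+* L) (ζ : Multiplicative (E → ℤ) →* L),
      NoZeroDivisors L ∧ Function.Injective ι ∧ (∀ k z, ζ k * z = z * ζ k) ∧
      (∀ e, ζ (Multiplicative.ofAdd (Pi.single e 1)) = ι (c e)) ∧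
      (∀ z : L, ∃ k r, z = ζ k * ι r) ∧
      (∀ k, ∃ d ∈ Submonoid.closure (Set.range c), ∃ d' ∈ Submonoid.closure (Set.range c),
        ι d * ζ k = ι d') ∧
      ∀ (B : Type) [Ring B] (f : A →+* B), (∀ e, IsUnit (f (c e))) →
        ∃ g : L →+* B, ∀ r, g (ι r) = f r

end Pool.Agent.Lib.MP_94a9ea_al.H25
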