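import Pool.Agent.Lib.MP_94a9ea_al.H25.Neg
import Pool.Agent.Lib.MP_94a9ea_al.H25.FSt

set_option autoImplicit false

namespace Pool.Agent.Lib.MP_94a9ea_al.H25
namespace Abs2
open Absx Finset

theorem gen {E : Type} [Fintype E] [DecidableEq E] (U : Subgroup (Multiplicative (E → ℤ)))
    (h : ∀ e, Multiplicative.ofAdd (Pi.single e 1) ∈ U) (k : Multiplicative (E → ℤ)) : k ∈ U := by
  have e1 : k = ∏ e, (Multiplicative.ofAdd (Pi.single e (1 : ℤ) : E → ℤ)) ^ (k.toAdd e) := by
    apply Multiplicative.toAdd.injective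
    rw [toAdd_prod]
    ext i
    simp [Finset.sum_apply, Pi.single_apply]
  rw [e1]
  exact U.prod_mem fun e _ => U.zpow_mem (h e) _

section
variable {P L : Type} [Group P] [Ring L]

/-- The split extension of a free module by a group acting through `O`. -/
structure S2 (ι : Type) (O : P →* L) where
  j : ι → L
  q : P

variable {ι : Type} {O : P →* L}

theorem S2.eq {a b : S2 ι O} (h1 : a.j = b.j) (h2 : a.q = b.q) : a = b := by
  cases a; cases b; cases h1; cases h2; rfl

instance : Mul (S2 ι O) := ⟨fun a b => ⟨a.j + O a.q • b.j, a.q * b.q⟩⟩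
instance : One (S2 ι O) := ⟨⟨0, 1⟩⟩
instance : Inv (S2 ι O) := ⟨fun a => ⟨-(O a.q⁻¹ • a.j), a.q⁻¹⟩⟩

theorem mul_j (a b : S2 ι O) : (a * b).j = a.j + O a.q • b.j := rfl
theorem mul_q (a b : S2 ι O) : (a * b).q = a.q * b.q := rfl
theorem one_j : (1 : S2 ι O).j = 0 := rfl
theorem one_q : (1 : S2 ι O).q = 1 := rfl
theorem inv_j (a : S2 ι O) : (a⁻¹).j = -(O a.q⁻¹ • a.j) := rfl
theorem inv_q (a : S2 ι O) : (a⁻¹).q = a.q⁻¹ := rfl

instance : Group (S2 ι O) :=
  Group.ofLeftAxioms
    (fun a b c => S2.eq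
      (by simp only [mul_j, mul_q, map_mul, smul_add, mul_smul, add_assoc])
      (by simp only [mul_q, mul_assoc]))
    (fun a => S2.eq (by simp only [mul_j, one_j, one_q, map_one, one_smul, zero_add])
      (by simp only [mul_q, one_q, one_mul]))
    (fun a => S2.eq (by simp only [mul_j, inv_j, inv_q, one_j, neg_add_cancel])
      (by simp only [mul_q, inv_q, one_q, inv_mul_cancel]))

theorem cj_base (a w : S2 ι O) (ha : a.q = 1) :
    (cj a w).j = O w.q⁻¹ • a.j ∧ (cj a w).q = 1 := by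
  simp only [cj, mul_j, mul_q, inv_j, inv_q, ha, mul_one, inv_mul_cancel, and_true]
  abel

variable [Fintype ι]

/-- the boundary map -/
def bd2 (O : P →* L) (x : ι → P) : (ι → L) →ₗ[L] L where
  toFun j := ∑ i, j i * (O (x i) - 1)
  map_add' a b := by simp only [Pi.add_apply, add_mul, sum_add_distrib]
  map_smul' r a := by simp only [Pi.smul_apply, smul_eq_mul, mul_assoc, mul_sum, RingHom.id_apply]

theorem bd2_apply (x : ι → P) (j : ι → L) : bd2 O x j = ∑ i, j i * (O (x i) - 1) := rfl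

/-- The example. -/
def Ex2 (O : P →* L) (x : ι → P) (n : ℕ) : Subgroup (S2 ι O) where
  carrier := {g | bd2 O x g.j = n • (O g.q - 1)}
  one_mem' := by
    show bd2 O x _ = _
    rw [one_j, one_q, map_zero, map_one, sub_self, smul_zero]
  mul_mem' := fun {a b} ha hb => by
    have ha' : bd2 O x a.j = n • (O a.q - 1) := ha
    have hb' : bd2 O x b.j = n • (O b.q - 1) := hb
    show bd2 O x _ = _
    rw [mul_j, mul_q, map_add, map_smul, ha', hb', map_mul, smul_eq_mul, mul_smul_comm,
      ← smul_add]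
    congr 1; noncomm_ring
  inv_mem' := fun {a} ha => by
    have ha' : bd2 O x a.j = n • (O a.q - 1) := ha
    show bd2 O x _ = _
    rw [inv_j, inv_q, map_neg, map_smul, ha', smul_eq_mul, mul_smul_comm, ← smul_neg, mul_sub,
      ← map_mul, inv_mul_cancel, map_one, mul_one, neg_sub]

/-- the projection to the top group -/
def pr2 (O : P →* L) (x : ι → P) (n : ℕ) : Ex2 O x n →* P :=
  MonoidHom.mk' (fun g => g.1.q) (fun _ _ => rfl)

/-- group elements whose difference with one is a boundary -/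
def Bd (O : P →* L) (x : ι → P) : Subgroup P where
  carrier := {q | ∃ r, bd2 O x r = O q - 1}
  one_mem' := ⟨0, by simp⟩
  mul_mem' := by
    rintro a b ⟨r, hr⟩ ⟨s, hs⟩
    exact ⟨r + O a • s, by rw [map_add, map_smul, hr, hs, map_mul, smul_eq_mul]; noncomm_ring⟩
  inv_mem' := by
    rintro a ⟨r, hr⟩
    exact ⟨-(O a⁻¹ • r), by
      rw [map_neg, map_smul, hr, smul_eq_mul, mul_sub, ← map_mul, inv_mul_cancel, map_one, mul_one,
        neg_sub]⟩

theorem fg2 [Group.FG P] {x : ι → P} {n : ℕ} (hs : Function.Surjective (pr2 O x n))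
    (hK : (LinearMap.ker (bd2 O x)).FG)
    (hind : ∀ U : AddSubgroup L, (∀ q, O q ∈ U) → ∀ z, z ∈ U) : Group.FG (Ex2 O x n) := by
  classical
  rw [Group.fg_iff_subgroup_fg, Subgroup.fg_iff]
  obtain ⟨T, hT⟩ := hK
  obtain ⟨X, hX⟩ := (inferInstance : Group.FG P).out
  choose σ hσ using hs
  let Z : Set (S2 ι O) := (fun a => (⟨a, 1⟩ : S2 ι O)) '' (T : Set _) ∪ (fun q => (σ q).1) '' X
  have base_mul : ∀ (a : ι → L) (g : S2 ι O), (⟨a, 1⟩ : S2 ι O) * g = ⟨a + g.j, g.q⟩ := fun a g =>
    S2.eq (by simp only [mul_j, map_one, one_smul]) (by simp only [mul_q, one_mul])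
  have hle : Subgroup.closure Z ≤ Ex2 O x n := by
    rw [Subgroup.closure_le]
    rintro _ (⟨a, ha, rfl⟩ | ⟨i, -, rfl⟩)
    · have : a ∈ LinearMap.ker (bd2 O x) := hT ▸ Submodule.subset_span ha
      show bd2 O x a = n • (O 1 - 1)
      rw [map_one, sub_self, smul_zero]
      exact this
    · exact (σ i).2
  refine ⟨Z, le_antisymm hle ?_, (T.finite_toSet.image _).union (X.finite_toSet.image _)⟩
  have lift : ∀ q : P, ∃ h ∈ Subgroup.closure Z, h.q = q := fun q => by
    have hq : q ∈ Subgroup.closure (X : Set P) := hX ▸ Subgroup.mem_top q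
    induction hq using Subgroup.closure_induction with
    | mem y hy => exact ⟨_, Subgroup.subset_closure (Or.inr ⟨y, hy, rfl⟩), hσ _⟩
    | one => exact ⟨1, one_mem _, rfl⟩
    | mul a b _ _ ha hb =>
      obtain ⟨r, hr, rfl⟩ := ha
      obtain ⟨s, hs, rfl⟩ := hb
      exact ⟨r * s, mul_mem hr hs, rfl⟩
    | inv a _ ha =>
      obtain ⟨r, hr, rfl⟩ := ha
      exact ⟨r⁻¹, inv_mem hr, rfl⟩
  have hadd : ∀ a b : ι → L, (⟨a, 1⟩ : S2 ι O) ∈ Subgroup.closure Z →
      (⟨b, 1⟩ : S2 ι O) ∈ Subgroup.closure Z → (⟨a + b, 1⟩ : S2 ι O) ∈ Subgroup.closure Z :=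
    fun a b ha hb => by simpa only [base_mul] using mul_mem ha hb
  let M : Submodule L (ι → L) :=
    { carrier := {a | (⟨a, 1⟩ : S2 ι O) ∈ Subgroup.closure Z}
      zero_mem' := one_mem (Subgroup.closure Z)
      add_mem' := fun {a b} => hadd a b
      smul_mem' := fun r a ha => by
        let U : AddSubgroup L :=
          { carrier := {r | (⟨r • a, 1⟩ : S2 ι O) ∈ Subgroup.closure Z}
            zero_mem' := by
              show (⟨(0 : L) • a, 1⟩ : S2 ι O) ∈ Subgroup.closure Z
              rw [zero_smul]; exact one_mem (Subgroup.closure Z)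
            add_mem' := fun {u v} hu hv => by
              show (⟨(u + v) • a, 1⟩ : S2 ι O) ∈ Subgroup.closure Z
              rw [add_smul]; exact hadd _ _ hu hv
            neg_mem' := fun {u} hu => by
              have e : (⟨(-u) • a, 1⟩ : S2 ι O) = (⟨u • a, 1⟩ : S2 ι O)⁻¹ :=
                S2.eq (by simp only [inv_j, inv_one, map_one, one_smul, neg_smul])
                  (by simp only [inv_q, inv_one])
              show (⟨(-u) • a, 1⟩ : S2 ι O) ∈ Subgroup.closure Z
              rw [e]; exact inv_mem hu }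
        refine hind U (fun q => ?_) r
        obtain ⟨h, hh, rfl⟩ := lift q
        have e : (⟨O h.q • a, 1⟩ : S2 ι O) * h = h * ⟨a, 1⟩ :=
          S2.eq (by rw [base_mul, mul_j, add_comm]) (by rw [base_mul, mul_q, mul_one])
        show (⟨O h.q • a, 1⟩ : S2 ι O) ∈ Subgroup.closure Z
        rw [eq_mul_inv_of_mul_eq e]
        exact mul_mem (mul_mem hh ha) (inv_mem hh) }
  have hM : LinearMap.ker (bd2 O x) ≤ M := by
    rw [← hT, Submodule.span_le]
    exact fun a ha => Subgroup.subset_closure (Or.inl ⟨a, ha, rfl⟩)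
  intro g hg
  obtain ⟨h, hh, e⟩ := lift g.q
  have h1 : (⟨g.j - h.j, 1⟩ : S2 ι O) ∈ Subgroup.closure Z := hM (by
    have e1 : bd2 O x g.j = n • (O g.q - 1) := hg
    have e2 : bd2 O x h.j = n • (O h.q - 1) := hle hh
    rw [LinearMap.mem_ker, map_sub, e1, e2, e, sub_self])
  have e2 : g = (⟨g.j - h.j, 1⟩ : S2 ι O) * h :=
    S2.eq (by rw [base_mul, sub_add_cancel]) (by rw [base_mul, e])
  rw [e2]
  exact mul_mem h1 hh

end

/-- The central element attached to `m`. -/
noncomputable def cc {Q : Type} [Group Q] (m : Q) : MonoidAlgebra ℤ Q := o Q m - 1 + o Q m⁻¹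

theorem chi_cc {Q : Type} [Group Q] (s : Q →* ℤ) {m : Q} (h : s m = 1) : chi s (cc m) = 1 := by
  have h' : s m⁻¹ = 1 := by
    have := map_mul s m m⁻¹
    rw [mul_inv_cancel, map_one, h, one_mul] at this
    exact this.symm
  rw [cc, map_add, map_sub, chi_o, chi_o, map_one, h, h']; rfl

theorem cc_central {Q : Type} [Group Q] {m : Q} (h : ∀ g, g * m * g⁻¹ = m ∨ g * m * g⁻¹ = m⁻¹)
    (r : MonoidAlgebra ℤ Q) : cc m * r = r * cc m := by
  refine ind (p := fun r => cc m * r = r * cc m) (fun g => ?_) (by simp)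
    (fun u v hu hv => by rw [mul_add, add_mul, hu, hv]) (fun u hu => by rw [mul_neg, neg_mul, hu]) r
  simp only [cc, add_mul, sub_mul, mul_add, mul_sub, ← map_mul, one_mul, mul_one]
  rcases h g with e | e
  · have e1 : g * m = m * g := by rw [← mul_inv_eq_iff_eq_mul]; exact e
    have e2 : g * m⁻¹ = m⁻¹ * g := (Commute.inv_right e1).eq
    rw [e1, e2]
  · have e1 : g * m = m⁻¹ * g := by rw [← mul_inv_eq_iff_eq_mul]; exact e
    have e2 : g * m⁻¹ = m * g := by
      have e3 := congrArg (·⁻¹) e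
      simp only [mul_inv_rev, inv_inv] at e3
      rw [← mul_inv_eq_iff_eq_mul, mul_assoc]; exact e3
    rw [e1, e2]; abel

theorem push_cc {Q W : Type} [Group Q] [Group W] (p : Q →* W) (m : Q) :
    push p (cc m) = cc (p m) := by
  rw [cc, cc, map_add, map_sub, push_o, push_o, map_one, map_inv]

theorem cc_ne {Q : Type} [Group Q] (m : Q) : cc m ≠ 0 := fun h => by
  have := chi_cc (1 : Q →* ℤ) (m := m) rfl
  rw [h, map_zero] at this
  exact zero_ne_one this

end Abs2
end Pool.Agent.Lib.MP_94a9ea_al.H25
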