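import Pool.Agent.Lib.MP_94a9ea_al.H25.Abs2

set_option autoImplicit false

namespace Pool.Agent.Lib.MP_94a9ea_al.H25
namespace Abs2
open Absx Finset

/-- `L` is obtained from `A` by inverting the central elements `c e`. -/
structure Lc {A L E : Type} [Ring A] [Ring L] [DecidableEq E] (c : E → A) (io : A →+* L)
    (ζ : Multiplicative (E → ℤ) →* L) : Prop where
  ctr : ∀ e r, c e * r = r * c e
  dom : NoZeroDivisors L
  inj : Function.Injective io
  cen : ∀ k z, ζ k * z = z * ζ k
  one : ∀ e, ζ (Multiplicative.ofAdd (Pi.single e 1)) = io (c e)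
  rep : ∀ z : L, ∃ k r, z = ζ k * io r
  den : ∀ k, ∃ d ∈ Submonoid.closure (Set.range c), ∃ d' ∈ Submonoid.closure (Set.range c),
    io d * ζ k = io d'
  uni : ∀ (B : Type) [Ring B] (f : A →+* B), (∀ e, IsUnit (f (c e))) →
    ∃ g : L →+* B, ∀ r, g (io r) = f r

theorem lc_ex (h : LocSt) {A E : Type} [Ring A] [NoZeroDivisors A] [Fintype E] [DecidableEq E]
    (c : E → A) (h0 : ∀ e, c e ≠ 0) (h1 : ∀ e r, c e * r = r * c e) :
    ∃ (L : Type) (_ : Ring L) (io : A →+* L) (ζ : Multiplicative (E → ℤ) →* L), Lc c io ζ := by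
  obtain ⟨L, _, io, ζ, a1, a2, a3, a4, a5, a6, a7⟩ := h A E c h0 h1
  exact ⟨L, inferInstance, io, ζ, h1, a1, a2, a3, a4, a5, a6, a7⟩

section
variable {A L E : Type} [Ring A] [Ring L] [DecidableEq E] {c : E → A} {io : A →+* L}
  {ζ : Multiplicative (E → ℤ) →* L}

theorem Lc.unit1 (h : Lc c io ζ) (e : E) : IsUnit (io (c e)) := by
  rw [← h.one]; exact (Group.isUnit _).map ζ

theorem Lc.unit (h : Lc c io ζ) {d : A} (hd : d ∈ Submonoid.closure (Set.range c)) :
    IsUnit (io d) := by
  induction hd using Submonoid.closure_induction with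
  | mem y hy => obtain ⟨e, rfl⟩ := hy; exact h.unit1 e
  | one => rw [map_one]; exact isUnit_one
  | mul a b _ _ ha hb => rw [map_mul]; exact ha.mul hb

theorem Lc.ctr' (h : Lc c io ζ) {d : A} (hd : d ∈ Submonoid.closure (Set.range c)) (r : A) :
    d * r = r * d := by
  induction hd using Submonoid.closure_induction with
  | mem y hy => obtain ⟨e, rfl⟩ := hy; exact h.ctr e r
  | one => rw [one_mul, mul_one]
  | mul a b _ _ ha hb => rw [mul_assoc, hb, ← mul_assoc, ha, mul_assoc]

theorem Lc.clear (h : Lc c io ζ) {ι : Type} [Fintype ι] (j : ι → L) :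
    ∃ d ∈ Submonoid.closure (Set.range c), ∃ r : ι → A, ∀ i, io d * j i = io (r i) := by
  classical
  have key : ∀ s : Finset ι, ∃ d ∈ Submonoid.closure (Set.range c),
      ∀ i ∈ s, ∃ r, io d * j i = io r := by
    intro s
    induction s using Finset.induction_on with
    | empty => exact ⟨1, one_mem _, by simp⟩
    | insert i s _ ih =>
      obtain ⟨d, hd, hr⟩ := ih
      obtain ⟨k, r, e⟩ := h.rep (j i)
      obtain ⟨d1, hd1, d2, -, e1⟩ := h.den k
      refine ⟨d1 * d, mul_mem hd1 hd, fun i' hi' => ?_⟩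
      rcases Finset.mem_insert.1 hi' with rfl | hi'
      · exact ⟨d * (d2 * r), by
          rw [h.ctr' hd1, map_mul, map_mul, map_mul, e, ← e1]; simp only [mul_assoc]⟩
      · obtain ⟨r', e'⟩ := hr i' hi'
        exact ⟨d1 * r', by rw [map_mul, map_mul, mul_assoc, e']⟩
  obtain ⟨d, hd, hr⟩ := key univ
  choose r hr using hr
  exact ⟨d, hd, fun i => r i (mem_univ i), fun i => hr i _⟩

theorem Lc.aug [Fintype E] (h : Lc c io ζ) (g : L →+* ℤ) (hg : ∀ e, g (io (c e)) = 1)
    (k : Multiplicative (E → ℤ)) : g (ζ k) = 1 :=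
  gen (g.toMonoidHom.comp ζ).ker (fun e => by
    show g (ζ _) = 1
    rw [h.one, hg]) k

end

section
variable {Q L E : Type} [Group Q] [Ring L] [Fintype E] [DecidableEq E] {m : E → Q}
  {io : MonoidAlgebra ℤ Q →+* L} {ζ : Multiplicative (E → ℤ) →* L}

/-- the action of the enlarged top group -/
noncomputable def act (h : Lc (fun e => cc (m e)) io ζ) : Q × Multiplicative (E → ℤ) →* L where
  toFun p := io (o Q p.1) * ζ p.2
  map_one' := by simp
  map_mul' a b := by
    simp only [Prod.fst_mul, Prod.snd_mul, map_mul, mul_assoc]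
    rw [← mul_assoc (ζ a.2), h.cen a.2 (io _), mul_assoc]

theorem act_apply (h : Lc (fun e => cc (m e)) io ζ) (p : Q × Multiplicative (E → ℤ)) :
    act h p = io (o Q p.1) * ζ p.2 := rfl

variable {ι : Type} [Fintype ι]

/-- the generators in the enlarged top group -/
def xt (E : Type) (x : ι → Q) : ι → Q × Multiplicative (E → ℤ) := fun i => (x i, 1)

theorem bd_io (h : Lc (fun e => cc (m e)) io ζ) (x : ι → Q) (r : ι → MonoidAlgebra ℤ Q) :
    bd2 (act h) (xt E x) (fun i => io (r i)) = io (bd x r) := by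
  rw [bd2_apply, bd_apply, map_sum]
  refine sum_congr rfl fun i _ => ?_
  rw [act_apply, map_mul, map_sub, map_one]
  simp only [xt, map_one, mul_one]

theorem bd_clear (h : Lc (fun e => cc (m e)) io ζ) (x : ι → Q) {j : ι → L}
    {d : MonoidAlgebra ℤ Q} {r : ι → MonoidAlgebra ℤ Q} (hr : ∀ i, io d * j i = io (r i)) :
    io (bd x r) = io d * bd2 (act h) (xt E x) j := by
  rw [← bd_io h, ← smul_eq_mul, ← map_smul]
  congr 1
  funext i
  exact (hr i).symm

theorem surj (h : Lc (fun e => cc (m e)) io ζ) {x : ι → Q}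
    (hx : Subgroup.closure (Set.range x) = ⊤) (n : ℕ) :
    Function.Surjective (pr2 (act h) (xt E x) n) := by
  have h1 : ∀ q : Q, (q, 1) ∈ Bd (act h) (xt E x) := fun q => by
    obtain ⟨r, hr⟩ := aug_mem hx q
    exact ⟨fun i => io (r i), by rw [bd_io, hr, act_apply, map_one, mul_one, map_sub, map_one]⟩
  have h2 : ∀ k, ((1 : Q), k) ∈ Bd (act h) (xt E x) := fun k =>
    gen ((Bd (act h) (xt E x)).comap (MonoidHom.inr Q (Multiplicative (E → ℤ)))) (fun e => by
      obtain ⟨r, hr⟩ := aug_mem hx (m e)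
      obtain ⟨s, hs⟩ := aug_mem hx (m e)⁻¹
      refine ⟨fun i => io ((r + s) i), ?_⟩
      rw [bd_io, map_add, hr, hs, act_apply]
      show _ = io (o Q 1) * ζ (Multiplicative.ofAdd (Pi.single e 1)) - 1
      rw [h.one, map_one, map_one, one_mul, cc, ← map_one io, ← map_sub]
      congr 1; abel) k
  intro p
  obtain ⟨r, hr⟩ : p ∈ Bd (act h) (xt E x) := by
    have := mul_mem (h1 p.1) (h2 p.2)
    simpa using this
  exact ⟨⟨⟨n • r, p⟩, by
    show bd2 _ _ (n • r) = _
    rw [map_nsmul, hr]⟩, rfl⟩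

theorem ker_fg (h : Lc (fun e => cc (m e)) io ζ) (x : ι → Q)
    [IsNoetherianRing (MonoidAlgebra ℤ Q)] : (LinearMap.ker (bd2 (act h) (xt E x))).FG := by
  classical
  obtain ⟨T, hT⟩ : (LinearMap.ker (bd x)).FG := IsNoetherian.noetherian _
  refine Submodule.fg_def.2 ⟨(fun r i => io (r i)) '' (T : Set (ι → MonoidAlgebra ℤ Q)),
    T.finite_toSet.image _, le_antisymm ?_ ?_⟩
  · rw [Submodule.span_le]
    rintro _ ⟨r, hr, rfl⟩
    have : r ∈ LinearMap.ker (bd x) := hT ▸ Submodule.subset_span hr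
    show bd2 _ _ _ = 0
    rw [bd_io, LinearMap.mem_ker.1 this, map_zero]
  · intro j hj
    obtain ⟨d, hd, r, hr⟩ := h.clear j
    have h1 : r ∈ LinearMap.ker (bd x) := h.inj (by
      rw [bd_clear h x hr, LinearMap.mem_ker.1 hj, mul_zero, map_zero])
    have h2 : ∀ r ∈ Submodule.span (MonoidAlgebra ℤ Q) (T : Set (ι → MonoidAlgebra ℤ Q)),
        (fun i => io (r i)) ∈ Submodule.span L
          ((fun r i => io (r i)) '' (T : Set (ι → MonoidAlgebra ℤ Q))) := by
      intro r hr
      induction hr using Submodule.span_induction with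
      | mem y hy => exact Submodule.subset_span ⟨y, hy, rfl⟩
      | zero =>
        have : (fun i => io ((0 : ι → MonoidAlgebra ℤ Q) i)) = 0 := by funext i; simp
        rw [this]; exact zero_mem _
      | add a b _ _ ha hb =>
        have : (fun i => io ((a + b) i)) = (fun i => io (a i)) + fun i => io (b i) := by
          funext i; simp
        rw [this]; exact add_mem ha hb
      | smul u a _ ha =>
        have : (fun i => io ((u • a) i)) = io u • fun i => io (a i) := by
          funext i; simp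
        rw [this]; exact Submodule.smul_mem _ _ ha
    obtain ⟨u, hu⟩ := (h.unit hd).exists_left_inv
    have e : j = u • fun i => io (r i) := by
      funext i
      rw [Pi.smul_apply, smul_eq_mul, ← hr, ← mul_assoc, hu, one_mul]
    rw [e]
    exact Submodule.smul_mem _ _ (h2 r (hT ▸ h1))

theorem act_ind (h : Lc (fun e => cc (m e)) io ζ) (U : AddSubgroup L) (hU : ∀ q, act h q ∈ U)
    (z : L) : z ∈ U := by
  obtain ⟨k, r, rfl⟩ := h.rep z
  refine ind (p := fun r => ζ k * io r ∈ U) (fun q => ?_) ?_ (fun u v hu hv => ?_)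
    (fun u hu => ?_) r
  · rw [h.cen]; exact hU (q, k)
  · rw [map_zero, mul_zero]; exact zero_mem _
  · rw [map_add, mul_add]; exact add_mem hu hv
  · rw [map_neg, mul_neg]; exact neg_mem hu

theorem rstar_of2 (h : Lc (fun e => cc (m e)) io ζ) (x : ι → Q) (n : ℕ) {S : Type} [Ring S]
    [NoZeroDivisors S] (γ : L →+* S) (ε : S →+* ℤ) (hε : ∀ r, ε (γ (io r)) = eps Q r)
    (g : Ex2 (act h) (xt E x) n) (h1 : γ (act h g.1.q) = 1) (i : ι) (h2 : γ (g.1.j i) ≠ 0)
    (l : List (Ex2 (act h) (xt E x) n)) (hl : l ≠ []) :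
    (l.map (fun h => h⁻¹ * g * h)).prod ≠ 1 := by
  refine conj_ne (γ.toMonoidHom.comp ((act h).comp (pr2 (act h) (xt E x) n)))
    (fun g => γ (g.1.j i)) (fun a b => ?_) ε (fun a => ?_) g h1 h2 l hl
  · show γ (a.1.j i + act h a.1.q * b.1.j i) = _
    rw [map_add, map_mul]; rfl
  · show ε (γ (io (o Q a.1.q.1) * ζ a.1.q.2)) = 1
    rw [map_mul, map_mul, hε, eps_o, one_mul]
    exact h.aug (ε.comp γ) (fun e => (hε _).trans (chi_cc 1 rfl)) _

theorem rstar2 (hL : LocSt) (h : Lc (fun e => cc (m e)) io ζ) (x : ι → Q) {n : ℕ} (hQ : Top Q n)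
    (hm : ∀ e g, g * m e * g⁻¹ = m e ∨ g * m e * g⁻¹ = (m e)⁻¹) (hsq : ∀ e, ∃ v, m e = v * v)
    (g : Ex2 (act h) (xt E x) n) (hg : g ≠ 1) (l : List (Ex2 (act h) (xt E x) n)) (hl : l ≠ []) :
    (l.map (fun h => h⁻¹ * g * h)).prod ≠ 1 := by
  obtain ⟨-, -, -, hn, -, -, hD, hW⟩ := hQ
  by_cases hk : g.1.q.2 = 1
  swap
  · intro e
    let κ := (MonoidHom.snd _ _).comp (pr2 (act h) (xt E x) n)
    have e1 : ∀ l : List (Ex2 (act h) (xt E x) n),
        κ (l.map (fun h => h⁻¹ * g * h)).prod = κ g ^ l.length := by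
      intro l
      induction l with
      | nil => simp
      | cons a l ih =>
        rw [List.map_cons, List.prod_cons, map_mul, ih, List.length_cons, map_mul, map_mul,
          map_inv, inv_mul_cancel_comm, pow_succ']
    have e2 := e1 l
    rw [e, map_one] at e2
    have e3 : l.length • (κ g).toAdd = 0 := congrArg Multiplicative.toAdd e2.symm
    rcases smul_eq_zero.1 e3 with h0 | h0
    · exact hl (List.length_eq_zero_iff.1 h0)
    · exact hk h0
  by_cases hq : g.1.q.1 = 1
  · have : ∃ i, g.1.j i ≠ 0 := by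
      by_contra hc
      push Not at hc
      exact hg (Subtype.ext (S2.eq (funext hc) (Prod.ext hq hk)))
    obtain ⟨i, hi⟩ := this
    obtain ⟨ε, hε⟩ := h.uni ℤ (eps Q) (fun e => by rw [eps, chi_cc 1 rfl]; exact isUnit_one)
    have := h.dom
    refine rstar_of2 h x n (RingHom.id L) ε hε g ?_ i hi l hl
    rw [act_apply, hq, hk]; simp
  obtain ⟨W0, _, p0, s0, a, hW0, h1, hc, ha⟩ := hW _ hq
  let W := p0.range
  let p : Q →* W := p0.rangeRestrict
  have hp : Function.Surjective p := p0.rangeRestrict_surjective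
  have : NoZeroDivisors (MonoidAlgebra ℤ W) :=
    (Dom.inc_inj W).noZeroDivisors _ (map_zero _) (map_mul _)
  obtain ⟨L', _, io', ζ', h'⟩ := lc_ex hL (fun e => cc (p (m e))) (fun e => cc_ne _) (fun e =>
    cc_central fun w => by
      obtain ⟨g, rfl⟩ := hp w
      rcases hm e g with e1 | e1
      · left; rw [← map_inv, ← map_mul, ← map_mul, e1]
      · right; rw [← map_inv, ← map_mul, ← map_mul, e1, map_inv])
  obtain ⟨γ, hγ⟩ := h.uni L' (io'.comp (push p)) (fun e => by
    rw [RingHom.comp_apply, push_cc]; exact h'.unit1 e)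
  obtain ⟨ε, hε⟩ := h'.uni ℤ (eps W) (fun e => by rw [eps, chi_cc 1 rfl]; exact isUnit_one)
  have := h'.dom
  let s' : W →* ℤ := (Units.coeHom ℤ).comp (s0.comp W.subtype)
  have a1 : a 1 = 0 := by simpa using hc 1 1
  have k : ∀ (y : Q) (r : MonoidAlgebra ℤ Q), ex a (r * (o Q y - 1)) = chi (s'.comp p) r * a y :=
    fun y r => hom_ext (f := (ex a).comp (AddMonoidHom.mulRight (o Q y - 1)))
      (g := (AddMonoidHom.mulRight (a y)).comp (chi (s'.comp p)).toAddMonoidHom) (fun q => by
        show ex a (o Q q * (o Q y - 1)) = chi (s'.comp p) (o Q q) * a y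
        rw [mul_sub, mul_one, ← map_mul, map_sub, ex_o, ex_o, chi_o, hc, add_sub_cancel_left]
        rfl) r
  have : ∃ i, γ (g.1.j i) ≠ 0 := by
    by_contra hz
    push Not at hz
    obtain ⟨d, hd, r, hr⟩ := h.clear g.1.j
    have z1 : ∀ i, push p (r i) = 0 := fun i => h'.inj (by
      rw [map_zero, ← RingHom.comp_apply, ← hγ, ← hr, map_mul, hz, mul_zero])
    have z2 : chi (s'.comp p) d = 1 := by
      clear hr
      induction hd using Submonoid.closure_induction with
      | mem y hy =>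
        obtain ⟨e, rfl⟩ := hy
        obtain ⟨v, hv⟩ := hsq e
        refine chi_cc _ ?_
        rw [hv, map_mul]
        show ((s0 (p0 v) : ℤˣ) : ℤ) * (s0 (p0 v) : ℤˣ) = 1
        rcases Dom.sgn s0 (p0 v) with e1 | e1 <;> rw [e1] <;> rfl
      | one => exact map_one _
      | mul u v _ _ hu hv => rw [map_mul, hu, hv, one_mul]
    have z3 : bd x r = n • (d * (o Q g.1.q.1 - 1)) := h.inj (by
      have e : bd2 (act h) (xt E x) g.1.j = n • (act h g.1.q - 1) := g.2
      rw [bd_clear h x hr, e, act_apply, hk, map_one, mul_one, map_nsmul, map_mul, map_sub,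
        map_one, mul_smul_comm])
    have e := congrArg (ex a) z3
    rw [bd_apply, map_sum, map_nsmul, k, z2, one_mul,
      sum_eq_zero (fun i _ => by rw [k, ← chi_push, z1, map_zero, zero_mul])] at e
    rcases smul_eq_zero.1 e.symm with h0 | h0
    · omega
    · exact ha h0
  obtain ⟨i, hi⟩ := this
  refine rstar_of2 h x n γ ε (fun r => ?_) g ?_ i hi l hl
  · rw [hγ, RingHom.comp_apply, hε, eps, chi_push]; rfl
  · have : p g.1.q.1 = 1 := Subtype.ext h1
    rw [act_apply, hk, map_one, mul_one, hγ, RingHom.comp_apply, push_o, this, map_one, map_one]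

end

end Abs2
end Pool.Agent.Lib.MP_94a9ea_al.H25
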