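import Pool.Agent.Lib.MP_94a9ea_al.H25.Abs2

set_option autoImplicit false

namespace Pool.Agent.Lib.MP_94a9ea_al.H25
namespace TopG

/-- translations by multiples of `2 * r` -/
def mu (r : ℤ) : Multiplicative (X × T → ℤ) →* Q :=
  MonoidHom.mk' (fun y => ⟨0, fun c d => 2 * (r * y.toAdd (c, d)), fun c d => by
    rw [dot_zero, Int.cast_mul]
    have : ((2 : ℤ) : ZMod 2) = 0 := by decide
    rw [this, zero_mul]⟩) fun y z => by
    ext c d
    · rw [mul_t, add_zero]
    · rw [mul_x, dot_zero, sg_zero]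
      simp only [toAdd_mul, Pi.add_apply, Units.val_one]
      ring

lemma mu_t (r : ℤ) (y : Multiplicative (X × T → ℤ)) : (mu r y).t = 0 := rfl

lemma mu_x (r : ℤ) (y : Multiplicative (X × T → ℤ)) (c : X) (d : T) :
    (mu r y).x c d = 2 * (r * y.toAdd (c, d)) := rfl

/-- the basic translations -/
def mm (e : X × T) : Q := mu 2 (Multiplicative.ofAdd (Pi.single e 1))

lemma mm_conj (e : X × T) (g : Q) : g * mm e * g⁻¹ = mm e ∨ g * mm e * g⁻¹ = (mm e)⁻¹ := by
  have ht : (g * mm e * g⁻¹).t = 0 := by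
    rw [mul_t, mul_t, inv_t, mm, mu_t, add_zero, two_t]
  have hx : ∀ c d, (g * mm e * g⁻¹).x c d = (sg (dot c.1 g.t) : ℤˣ) * (mm e).x c d := by
    intro c d
    rw [mul_x, mul_x, inv_x, mul_t, mm, mu_t, add_zero]
    have := sg_sq (dot c.1 g.t)
    linear_combination (- g.x c d) * this
  have h0 : ∀ c d, (c, d) ≠ e → (mm e).x c d = 0 := fun c d h => by
    rw [mm, mu_x, toAdd_ofAdd, Pi.single_eq_of_ne h]; simp
  rcases Int.units_eq_one_or (sg (dot e.1.1 g.t)) with h | h
  · left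
    ext c d
    · rw [ht]; rfl
    · rw [hx]
      by_cases h1 : (c, d) = e
      · subst h1; rw [h]; simp
      · rw [h0 c d h1, mul_zero]
  · right
    ext c d
    · rw [ht]; rfl
    · have : (mm e).t = 0 := rfl
      rw [hx, inv_x, this, dot_zero, sg_zero]
      by_cases h1 : (c, d) = e
      · subst h1; rw [h]; simp
      · rw [h0 c d h1]; simp

lemma mm_sq (e : X × T) : ∃ v : Q, mm e = v * v := by
  refine ⟨mu 1 (Multiplicative.ofAdd (Pi.single e 1)), ?_⟩
  ext c d
  · rw [mul_t, mu_t, mm, mu_t, add_zero]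
  · rw [mul_x, mm, mu_x, mu_x, mu_t, dot_zero, sg_zero]
    simp only [Units.val_one]
    ring

lemma mm_index : (Subgroup.closure (Set.range mm)).FiniteIndex := by
  have h1 : ∀ y, mu 2 y ∈ Subgroup.closure (Set.range mm) := fun y =>
    Abs2.gen ((Subgroup.closure (Set.range mm)).comap (mu 2))
      (fun e => Subgroup.subset_closure ⟨e, rfl⟩) y
  let ψ : Q → T × (X → T → ZMod 4) := fun g => (g.t, fun c d => (g.x c d : ZMod 4))
  have h2 : ∀ g h, ψ g = ψ h → g⁻¹ * h ∈ Subgroup.closure (Set.range mm) := by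
    intro g h e
    have e1 : g.t = h.t := congrArg Prod.fst e
    have e2 : ∀ c d, (4 : ℤ) ∣ h.x c d - g.x c d := fun c d =>
      (ZMod.intCast_eq_intCast_iff_dvd_sub _ _ 4).1 (congrFun (congrFun (congrArg Prod.snd e) c) d)
    choose y hy using e2
    have : g⁻¹ * h =
        mu 2 (Multiplicative.ofAdd fun i => (sg (dot i.1.1 g.t) : ℤˣ) * y i.1 i.2) := by
      ext c d
      · rw [mul_t, inv_t, ← e1, two_t, mu_t]
      · rw [mul_x, inv_x, inv_t, mu_x, toAdd_ofAdd]
        linear_combination ((sg (dot c.1 g.t) : ℤˣ) : ℤ) * hy c d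
    rw [this]; exact h1 _
  have : Nonempty Q := ⟨1⟩
  have : Finite (Q ⧸ Subgroup.closure (Set.range mm)) :=
    Finite.of_surjective (fun y => (QuotientGroup.mk (Function.invFun ψ y) :
      Q ⧸ Subgroup.closure (Set.range mm))) fun z => by
      obtain ⟨g, rfl⟩ := QuotientGroup.mk_surjective z
      exact ⟨ψ g, QuotientGroup.eq.2 (h2 _ _ (Function.invFun_eq ⟨g, rfl⟩))⟩
  exact Subgroup.finiteIndex_of_finite_quotient

end TopG
end Pool.Agent.Lib.MP_94a9ea_al.H25
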