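import Pool.Agent.Lib.MP_94a9ea_al.H25.Abs3
import Pool.Agent.Lib.MP_94a9ea_al.H25.Top2

set_option autoImplicit false

namespace Pool.Agent.Lib.MP_94a9ea_al.H25
namespace Abs2
open Absx Finset

section
variable {Q L E : Type} [Group Q] [Ring L] [Fintype E] [DecidableEq E] {m : E → Q}
  {io : MonoidAlgebra ℤ Q →+* L} {ζ : Multiplicative (E → ℤ) →* L} {ι : Type} [Fintype ι]

theorem base_comm {P : Type} [Group P] {O : P →* L} {x : ι → P} {n : ℕ} (a b : Ex2 O x n)
    (ha : a.1.q = 1) (hb : b.1.q = 1) : a * b = b * a := by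
  refine Subtype.ext (S2.eq ?_ ?_)
  · show a.1.j + O a.1.q • b.1.j = b.1.j + O b.1.q • a.1.j
    rw [ha, hb, map_one, one_smul, one_smul, add_comm]
  · show a.1.q * b.1.q = b.1.q * a.1.q
    rw [ha, hb]

theorem fp2 (hF : FPSt) (h : Lc (fun e => cc (m e)) io ζ) {x : ι → Q}
    (hx : Subgroup.closure (Set.range x) = ⊤) (n : ℕ) [IsNoetherianRing (MonoidAlgebra ℤ Q)]
    (hm : ∀ e g, g * m e * g⁻¹ = m e ∨ g * m e * g⁻¹ = (m e)⁻¹)
    (hi : (Subgroup.closure (Set.range m)).FiniteIndex)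
    (hc : ∀ a ∈ Subgroup.closure (Set.range m), ∀ b ∈ Subgroup.closure (Set.range m),
      a * b = b * a) :
    Group.IsFinitelyPresented (Ex2 (act h) (xt E x) n) := by
  classical
  have hs := surj h hx n
  have hQ : Group.FG Q := Group.fg_iff.2 ⟨_, hx, Set.finite_range x⟩
  have hZ : Group.FG (Multiplicative (E → ℤ)) :=
    Group.fg_iff.2 ⟨Set.range fun e => Multiplicative.ofAdd (Pi.single e 1),
      eq_top_iff.2 fun k _ => gen _ (fun e => Subgroup.subset_closure (Set.mem_range_self e)) k,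
      Set.finite_range _⟩
  have hfg := fg2 hs (ker_fg h x) (act_ind h)
  let π := pr2 (act h) (xt E x) n
  let π1 := (MonoidHom.fst _ _).comp π
  have hs1 : Function.Surjective π1 := Prod.fst_surjective.comp hs
  have hN : (Subgroup.closure (Set.range m)).Normal := by
    constructor
    intro a ha g
    induction ha using Subgroup.closure_induction with
    | mem y hy =>
      obtain ⟨e, rfl⟩ := hy
      rcases hm e g with e1 | e1 <;> rw [e1]
      · exact Subgroup.subset_closure ⟨e, rfl⟩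
      · exact inv_mem (Subgroup.subset_closure ⟨e, rfl⟩)
    | one => simp
    | mul a b _ _ ha hb =>
      have : g * (a * b) * g⁻¹ = g * a * g⁻¹ * (g * b * g⁻¹) := by group
      rw [this]; exact mul_mem ha hb
    | inv a _ ha =>
      have : g * a⁻¹ * g⁻¹ = (g * a * g⁻¹)⁻¹ := by group
      rw [this]; exact inv_mem ha
  have hI : ((Subgroup.closure (Set.range m)).comap π1).FiniteIndex :=
    ⟨by rw [Subgroup.index_comap_of_surjective _ hs1]; exact hi.index_ne_zero⟩
  choose σ hσ using hs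
  let l := (univ : Finset E).toList.map fun e =>
    (σ (m e, 1), σ (1, Multiplicative.ofAdd (Pi.single e 1))⁻¹)
  have hl : ∀ p, p ∈ l ↔ ∃ e, (σ (m e, 1), σ (1, Multiplicative.ofAdd (Pi.single e 1))⁻¹) = p := by
    intro p
    simp [l]
  refine hF _ ((Subgroup.closure (Set.range m)).comap π1) π.ker
    (fun a ha b hb => base_comm a b ha hb) (fun a ha b hb => ?_) l (le_antisymm ?_ ?_) ?_
  · have e : π a * π b = π b * π a := Prod.ext (hc _ ha _ hb) (mul_comm _ _)
    rw [MonoidHom.mem_ker, map_mul, map_mul, map_mul, map_inv, map_inv, e]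
    group
  · refine sup_le ((Subgroup.closure_le _).2 ?_) fun a ha => ?_
    · rintro y ⟨p, hp, hy⟩
      obtain ⟨e, rfl⟩ := (hl p).1 hp
      rcases hy with rfl | rfl
      · show (π (σ _)).1 ∈ Subgroup.closure (Set.range m)
        rw [hσ]; exact Subgroup.subset_closure ⟨e, rfl⟩
      · show (π (σ _)).1 ∈ Subgroup.closure (Set.range m)
        rw [hσ]; exact inv_mem (one_mem _)
    · show (π a).1 ∈ Subgroup.closure (Set.range m)
      rw [MonoidHom.mem_ker.1 ha]; exact one_mem _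
  · intro g hg
    rw [← Subgroup.comap_map_eq π]
    have h1 : Subgroup.closure (Set.range m) ≤
        ((Subgroup.closure (Ys l)).map π).comap (MonoidHom.inl Q (Multiplicative (E → ℤ))) := by
      rw [Subgroup.closure_le]
      rintro _ ⟨e, rfl⟩
      exact ⟨_, Subgroup.subset_closure ⟨_, (hl _).2 ⟨e, rfl⟩, Or.inl rfl⟩, hσ _⟩
    have h2 := gen
      (((Subgroup.closure (Ys l)).map π).comap (MonoidHom.inr Q (Multiplicative (E → ℤ))))
      (fun e => by
        have : ((1 : Q), Multiplicative.ofAdd (Pi.single e (1 : ℤ) : E → ℤ))⁻¹ ∈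
            (Subgroup.closure (Ys l)).map π :=
          ⟨_, Subgroup.subset_closure ⟨_, (hl _).2 ⟨e, rfl⟩, Or.inr rfl⟩, hσ _⟩
        exact Subgroup.mem_comap.2 (inv_mem_iff.1 this)) (π g).2
    have h3 := mul_mem (Subgroup.mem_comap.1 (h1 hg)) (Subgroup.mem_comap.1 h2)
    have e : MonoidHom.inl Q (Multiplicative (E → ℤ)) (π1 g) *
        MonoidHom.inr Q (Multiplicative (E → ℤ)) (π g).2 = π g :=
      Prod.ext (mul_one _) (one_mul _)
    rw [e] at h3
    exact h3
  · intro p hp a ha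
    obtain ⟨e, rfl⟩ := (hl p).1 hp
    have ha' : a.1.q = 1 := ha
    have q1 : (σ (m e, 1)).1.q = (m e, 1) := hσ _
    have q2 : (σ (1, Multiplicative.ofAdd (Pi.single e 1))⁻¹).1.q =
      (1, Multiplicative.ofAdd (Pi.single e 1))⁻¹ := hσ _
    obtain ⟨j1, r1⟩ := cj_base a.1 (σ (m e, 1)).1 ha'
    obtain ⟨j2, r2⟩ := cj_base a.1 (σ (1, Multiplicative.ofAdd (Pi.single e 1))⁻¹).1 ha'
    obtain ⟨j3, r3⟩ := cj_base a.1 (σ (m e, 1)).1⁻¹ ha'
    refine Subtype.ext ?_
    show cj a.1 (σ (1, Multiplicative.ofAdd (Pi.single e 1))⁻¹).1 =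
      cj a.1 (σ (m e, 1)).1 * a.1⁻¹ * cj a.1 (σ (m e, 1)).1⁻¹
    refine S2.eq ?_ ?_
    · rw [mul_j, mul_j, mul_q, inv_j, inv_q, j1, j2, j3, r1, ha', inv_q, q1, q2]
      simp only [inv_one, mul_one, map_one, one_smul, inv_inv, act_apply, Prod.inv_mk, one_mul,
        h.one, cc, map_add, map_sub, add_smul, sub_smul]
      abel
    · rw [mul_q, mul_q, inv_q, r1, r2, r3, ha']; simp

/-- the first example inside the second -/
noncomputable def emb (h : Lc (fun e => cc (m e)) io ζ) (x : ι → Q) (n : ℕ) :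
    Ex x n →* Ex2 (act h) (xt E x) n :=
  MonoidHom.mk' (fun g => ⟨⟨fun i => io (g.1.j i), (g.1.q, 1)⟩, by
    show bd2 _ _ (fun i => io (g.1.j i)) = n • (act h (g.1.q, 1) - 1)
    rw [bd_io, g.2.2, act_apply, map_one, mul_one, map_nsmul, map_sub, map_one]⟩) fun a b =>
    Subtype.ext (S2.eq (by
      funext i
      show io (a.1.j i + o Q a.1.q * b.1.j i) = io (a.1.j i) + act h (a.1.q, 1) * io (b.1.j i)
      rw [act_apply, map_one, mul_one, map_add, map_mul]) (Prod.ext rfl (mul_one _).symm))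

theorem emb_inj (h : Lc (fun e => cc (m e)) io ζ) (x : ι → Q) (n : ℕ) :
    Function.Injective (emb h x n) := fun a b e => by
  have e1 : (fun i => io (a.1.j i)) = fun i => io (b.1.j i) := congrArg (fun g => g.1.j) e
  have e2 : a.1.q = b.1.q := congrArg (fun g => g.1.q.1) e
  exact Subtype.ext (Sd.eq (funext fun i => h.inj (congrFun e1 i)) e2)

end

theorem no_ro {G H : Type} [Group G] [Group H] (f : G →* H) (hf : Function.Injective f)
    (h : ¬ ∃ o : LinearOrder G, ∀ a b c : G, o.le a b → o.le (a * c) (b * c)) :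
    ¬ ∃ o : LinearOrder H, ∀ a b c : H, o.le a b → o.le (a * c) (b * c) := by
  rintro ⟨o, ho⟩
  refine h ⟨LinearOrder.lift' f hf, fun a b c hab => ?_⟩
  show o.le (f (a * c)) (f (b * c))
  rw [map_mul, map_mul]
  exact ho _ _ _ hab

end Abs2

open Absx Abs2 in
theorem neg_fp (hL : LocSt) (hF : FPSt) :
    ∃ (G : Type) (_ : Group G), Group.IsFinitelyPresented G ∧ derivedSeries G 3 = ⊥ ∧
      (∃ f : G →* Multiplicative (Fin 3 → ZMod 2), Function.Surjective f ∧
        derivedSeries f.ker 2 = ⊥) ∧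
      (∀ g : G, g ≠ 1 → ∀ l : List G, l ≠ [] → (l.map (fun h => h⁻¹ * g * h)).prod ≠ 1) ∧
      ¬ ∃ o : LinearOrder G, ∀ a b c : G, o.le a b → o.le (a * c) (b * c) := by
  have hQ := top_Q
  obtain ⟨S, hS⟩ := hQ.1.out
  have hx : Subgroup.closure (Set.range (Subtype.val : S → TopG.Q)) = ⊤ := by
    rw [Subtype.range_coe]; exact hS
  have hs := pr_surj hx hQ.2.2.2.2.1
  have := hQ.2.1
  have := hQ.2.2.1
  have := hQ.2.2.2.2.2.2.1
  have hfg := fg hx hs
  have hnt := hs.nontrivial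
  have hd := solv (Subtype.val : S → TopG.Q) 16 hQ.2.2.2.2.2.1
  have hφ := nohom hQ.2.2.2.1 hQ.2.2.2.2.1 hs
  obtain ⟨L, _, io, ζ, h⟩ := lc_ex hL (fun e => cc (TopG.mm e)) (fun e => cc_ne _)
    (fun e => cc_central (TopG.mm_conj e))
  let f0 : TopG.Q →* Multiplicative TopG.T :=
    MonoidHom.mk' (fun g => Multiplicative.ofAdd g.t) fun _ _ => rfl
  let π := pr2 (act h) (xt _ (Subtype.val : S → TopG.Q)) 16
  let f := f0.comp ((MonoidHom.fst _ _).comp π)
  have hM : Subgroup.closure (Set.range TopG.mm) ≤ f0.ker := by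
    rw [Subgroup.closure_le]
    rintro _ ⟨e, rfl⟩
    rfl
  refine ⟨Ex2 (act h) (xt _ (Subtype.val : S → TopG.Q)) 16, inferInstance,
    fp2 hF h hx 16 TopG.mm_conj TopG.mm_index fun a ha b hb => comm_Q _ _ (hM ha) (hM hb), ?_,
    ⟨f, ?_, ?_⟩, rstar2 hL h _ hQ TopG.mm_conj TopG.mm_sq,
    no_ro _ (emb_inj h _ 16) (not_ro hd hφ)⟩
  · have h2 : ∀ g ∈ derivedSeries (Ex2 (act h) (xt _ (Subtype.val : S → TopG.Q)) 16) 2,
        g.1.q = 1 := fun g hg => by
      have e1 := map_derivedSeries_le_derivedSeries ((MonoidHom.fst _ _).comp π) 2 ⟨g, hg, rfl⟩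
      have e2 := map_derivedSeries_le_derivedSeries ((MonoidHom.snd _ _).comp π) 2 ⟨g, hg, rfl⟩
      rw [hQ.2.2.2.2.2.1] at e1
      have e3 : derivedSeries (Multiplicative (TopG.X × TopG.T → ℤ)) 2 = ⊥ := by
        rw [derivedSeries_succ, eq_bot_iff, Subgroup.commutator_le]
        intro a _ b _
        rw [Subgroup.mem_bot, commutatorElement_eq_one_iff_mul_comm, mul_comm]
      rw [e3] at e2
      exact Prod.ext e1 e2
    rw [derivedSeries_succ, eq_bot_iff, Subgroup.commutator_le]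
    intro a ha b hb
    rw [Subgroup.mem_bot, commutatorElement_eq_one_iff_mul_comm]
    exact base_comm a b (h2 a ha) (h2 b hb)
  · intro t
    obtain ⟨g, hg⟩ := surj h hx 16 (TopG.lift t.toAdd, 1)
    exact ⟨g, by
      change f0 (pr2 _ _ 16 g).1 = t
      rw [hg]; rfl⟩
  · have h2 : ∀ g ∈ derivedSeries f.ker 1, g.1.1.q = 1 := by
      have : derivedSeries f.ker 1 ≤ (π.comp f.ker.subtype).ker := by
        rw [derivedSeries_one, commutator_def, Subgroup.commutator_le]
        intro a _ b _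
        rw [MonoidHom.mem_ker, map_commutatorElement, commutatorElement_eq_one_iff_mul_comm]
        exact Prod.ext (comm_Q _ _ a.2 b.2) (mul_comm _ _)
      exact fun g hg => this hg
    rw [derivedSeries_succ, eq_bot_iff, Subgroup.commutator_le]
    intro a ha b hb
    rw [Subgroup.mem_bot, commutatorElement_eq_one_iff_mul_comm]
    exact Subtype.ext (base_comm a.1 b.1 (h2 a ha) (h2 b hb))

end Pool.Agent.Lib.MP_94a9ea_al.H25
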