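import Pool.Agent.Lib.MP_94a9ea_al.H25.PSt

set_option autoImplicit false

namespace Pool.Agent.Lib.MP_94a9ea_al.H25
namespace BHx
open Filter

variable {G : Type} [Group G]

/-- `Y` contains `x` or its inverse for all `x` in `X`, and no nonempty product in `Y` is one. -/
def Ok (X : Finset G) (Y : Set G) : Prop :=
  (∀ x ∈ X, x ≠ 1 → x ∈ Y ∨ x⁻¹ ∈ Y) ∧ (∀ x ∈ Y, ∀ y ∈ Y, x * y ∈ Y) ∧ (1 : G) ∉ Y ∧
    ∀ y ∈ Y, y ∈ Subgroup.closure (X : Set G)

lemma ex_ok (h : ∀ K : Subgroup G, K.FG → K ≠ ⊥ →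
      ∃ φ : G → ℝ, (∀ x ∈ K, ∀ y ∈ K, φ (x * y) = φ x + φ y) ∧ ∃ g ∈ K, φ g ≠ 0) (X : Finset G) :
    ∃ Y, Ok X Y := by
  classical
  induction X using Finset.strongInduction with
  | H X ih =>
    by_cases hK : Subgroup.closure (X : Set G) = ⊥
    · refine ⟨∅, fun x hx h1 => ?_, by simp, by simp, by simp⟩
      exact absurd (Subgroup.mem_bot.1 (hK ▸ Subgroup.subset_closure hx)) h1
    · set K := Subgroup.closure (X : Set G) with hKdef
      obtain ⟨φ, hφ, g, hg, hg0⟩ := h K ⟨X, rfl⟩ hK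
      have φ1 : φ 1 = 0 := by
        have := hφ 1 K.one_mem 1 K.one_mem
        rw [mul_one] at this
        linarith
      have φi : ∀ x ∈ K, φ x⁻¹ = - φ x := by
        intro x hx
        have := hφ x hx x⁻¹ (K.inv_mem hx)
        rw [mul_inv_cancel, φ1] at this
        linarith
      have ker : ∀ Z : Set G, (∀ z ∈ Z, z ∈ K ∧ φ z = 0) →
          ∀ y ∈ Subgroup.closure Z, y ∈ K ∧ φ y = 0 := by
        intro Z hZ y hy
        induction hy using Subgroup.closure_induction with
        | mem z hz => exact hZ z hz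
        | one => exact ⟨K.one_mem, φ1⟩
        | mul x y _ _ h1 h2 => exact ⟨K.mul_mem h1.1 h2.1, by rw [hφ x h1.1 y h2.1, h1.2, h2.2]; simp⟩
        | inv x _ h1 => exact ⟨K.inv_mem h1.1, by rw [φi x h1.1, h1.2]; simp⟩
      have hlt : X.filter (fun x => φ x = 0) ⊂ X := by
        refine Finset.filter_ssubset.2 ?_
        by_contra hc
        push Not at hc
        exact hg0 (ker X (fun z hz => ⟨Subgroup.subset_closure hz, hc z hz⟩) g hg).2
      obtain ⟨Y, h1, h2, h3, h4⟩ := ih _ hlt
      have h5 : ∀ y ∈ Y, y ∈ K ∧ φ y = 0 := fun y hy => ker _ (fun z hz => by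
        have := Finset.mem_filter.1 (Finset.mem_coe.1 hz)
        exact ⟨Subgroup.subset_closure this.1, this.2⟩) y (h4 y hy)
      refine ⟨{y | y ∈ K ∧ (0 < φ y ∨ y ∈ Y)}, fun x hx hx1 => ?_, ?_, ?_, fun y hy => hy.1⟩
      · have hxK : x ∈ K := Subgroup.subset_closure hx
        rcases lt_trichotomy (φ x) 0 with e | e | e
        · exact Or.inr ⟨K.inv_mem hxK, Or.inl (by rw [φi x hxK]; linarith)⟩
        · rcases h1 x (Finset.mem_filter.2 ⟨hx, e⟩) hx1 with e' | e'
          · exact Or.inl ⟨hxK, Or.inr e'⟩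
          · exact Or.inr ⟨K.inv_mem hxK, Or.inr e'⟩
        · exact Or.inl ⟨hxK, Or.inl e⟩
      · rintro x ⟨hx, e⟩ y ⟨hy, e'⟩
        refine ⟨K.mul_mem hx hy, ?_⟩
        rw [hφ x hx y hy]
        rcases e with e | e <;> rcases e' with e' | e'
        · left; linarith
        · left; rw [(h5 y e').2]; linarith
        · left; rw [(h5 x e).2]; linarith
        · exact Or.inr (h2 x e y e')
      · rintro ⟨-, e | e⟩
        · rw [φ1] at e; exact lt_irrefl _ e
        · exact h3 e

end BHx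

open BHx Filter in
theorem bh_st : BHSt := by
  classical
  intro G _ h
  choose Y hY using ex_ok h
  let U : Ultrafilter (Finset G) := Ultrafilter.of atTop
  have hU : (U : Filter (Finset G)) ≤ atTop := Ultrafilter.of_le _
  let P : G → Prop := fun g => ∀ᶠ X in (U : Filter (Finset G)), g ∈ Y X
  have P1 : ¬ P 1 := fun h1 => by
    obtain ⟨X, hX⟩ := h1.exists
    exact (hY X).2.2.1 hX
  have Pm : ∀ x y, P x → P y → P (x * y) := fun x y h1 h2 =>
    (h1.and h2).mono fun X hX => (hY X).2.1 x hX.1 y hX.2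
  have Pt : ∀ x, x ≠ 1 → P x ∨ P x⁻¹ := by
    intro x hx
    apply Ultrafilter.eventually_or.1
    have : ∀ᶠ X in (U : Filter (Finset G)), {x} ≤ X := hU (eventually_ge_atTop _)
    exact this.mono fun X hX => (hY X).1 x (hX (Finset.mem_singleton_self x)) hx
  let r : G → G → Prop := fun a b => P (b * a⁻¹)
  have : IsStrictTotalOrder G r :=
    { trichotomous := by
        intro a b h1 h2
        by_contra hne
        rcases Pt (b * a⁻¹) (fun e => hne (mul_inv_eq_one.1 e).symm) with e | e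
        · exact h1 e
        · exact h2 (by simpa [r] using e)
      irrefl := fun a e => P1 (by simpa [r] using e)
      trans := fun a b c e e' => by simpa [r, mul_assoc] using Pm _ _ e' e }
  refine ⟨linearOrderOfSTO r, fun a b c hab => ?_⟩
  rcases (show a = b ∨ r a b from hab) with e | e
  · exact Or.inl (by rw [e])
  · exact Or.inr (by simpa [r, mul_assoc] using e)

end Pool.Agent.Lib.MP_94a9ea_al.H25
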