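import Pool.Agent.Lib.MP_94a9ea_al.H25.St

set_option autoImplicit false

namespace Pool.Agent.Lib.MP_94a9ea_al.H25

/-- A finitely generated group without nonzero homomorphisms to the reals has a finite
abelianisation. -/
theorem finiteIndex_commutator {G : Type} [Group G] [Group.FG G]
    (h : ∀ φ : G → ℝ, (∀ x y, φ (x * y) = φ x + φ y) → ∀ g, φ g = 0) :
    (commutator G).FiniteIndex := by
  have hfg : Group.FG (Abelianization G) := QuotientGroup.fg (commutator G)
  let A := Additive (Abelianization G)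
  have hA : Module.Finite ℤ A := Module.Finite.iff_addGroup_fg.2 inferInstance
  have htor : Module.IsTorsion ℤ A := by
    intro x
    change x ∈ Submodule.torsion ℤ A
    by_contra hx
    have hx' : (Submodule.torsion ℤ A).mkQ x ≠ 0 := by
      simpa [Submodule.Quotient.mk_eq_zero] using hx
    obtain ⟨f, hf⟩ := Module.Projective.exists_dual_ne_zero ℤ hx'
    obtain ⟨g, hg⟩ : ∃ g : G, Additive.ofMul (Abelianization.of g) = x :=
      QuotientGroup.mk_surjective (Additive.toMul x)
    have := h (fun g => ((f ((Submodule.torsion ℤ A).mkQ (Additive.ofMul (Abelianization.of g))) : ℤ) : ℝ))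
      (fun x y => by rw [map_mul, ofMul_mul, map_add, map_add]; push_cast; rfl) g
    rw [hg] at this
    exact hf (by exact_mod_cast this)
  have : Finite A := Module.finite_of_fg_torsion A htor
  have : Finite (G ⧸ commutator G) := this
  exact Subgroup.finiteIndex_of_finite_quotient

theorem final2 (hO : OrdSt) (hT : TopSt) (hA : AbsSt) :
    ∃ (G : Type) (_ : Group G), Group.FG G ∧ derivedSeries G 3 = ⊥ ∧ (commutator G).FiniteIndex ∧
      (∀ g : G, g ≠ 1 → ∀ l : List G, l ≠ [] → (l.map (fun h => h⁻¹ * g * h)).prod ≠ 1) ∧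
      ¬ ∃ o : LinearOrder G, ∀ a b c : G, o.le a b → o.le (a * c) (b * c) := by
  obtain ⟨Q, _, n, hQ⟩ := hT
  obtain ⟨G, _, hfg, hd, hnt, hR, hφ⟩ := hA Q n hQ
  refine ⟨G, inferInstance, hfg, hd, finiteIndex_commutator hφ, hR, ?_⟩
  rintro ⟨o, ho⟩
  let _ := o
  have ho' : ∀ a b c : G, a ≤ b → a * c ≤ b * c := ho
  obtain ⟨φ, h1, g, h2⟩ := hO 3 G hd (fun x y => x⁻¹ ≤ y⁻¹) (fun x y => le_total _ _)
    (fun x y z => le_trans) (fun c x y h => by simpa [mul_inv_rev] using ho' _ _ c⁻¹ h) (by
      obtain ⟨g, hg⟩ := exists_ne (1 : G)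
      by_contra hcon
      push Not at hcon
      have h1 : g⁻¹ ≤ 1 := by simpa using hcon g
      have h2 : g ≤ 1 := by simpa using hcon g⁻¹
      have h3 : (1 : G) ≤ g := by simpa using ho' _ _ g h1
      exact hg (le_antisymm h2 h3))
  exact h2 (hφ φ h1 g)

end Pool.Agent.Lib.MP_94a9ea_al.H25
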