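import Pool.Agent.Lib.MP_94a9ea_al.H25.PSt

set_option autoImplicit false

namespace Pool.Agent.Lib.MP_94a9ea_al.H25
namespace Mech

variable {G : Type} [Group G]

/-- Nonempty products of conjugates of `g`. -/
inductive S (g : G) : G → Prop
  | conj (h : G) : S g (h⁻¹ * g * h)
  | mul {x y : G} : S g x → S g y → S g (x * y)

lemma S.list {g x : G} (h : S g x) :
    ∃ l : List G, l ≠ [] ∧ (l.map (fun h => h⁻¹ * g * h)).prod = x := by
  induction h with
  | conj h => exact ⟨[h], by simp, by simp⟩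
  | mul _ _ h1 h2 =>
    obtain ⟨l1, n1, rfl⟩ := h1
    obtain ⟨l2, -, rfl⟩ := h2
    exact ⟨l1 ++ l2, by simp [n1], by simp⟩

lemma S.of_eq {g x y : G} (h : S g x) (e : x = y) : S g y := e ▸ h

lemma S.cj {g x : G} (h : S g x) (k : G) : S g (k * x * k⁻¹) := by
  induction h with
  | conj h => exact (S.conj (h * k⁻¹)).of_eq (by group)
  | mul _ _ h1 h2 => exact (h1.mul h2).of_eq (by group)

lemma S.pert {g x : G} (h : S g x) :
    ∃ h0 : G, ∀ b : G, S g (b * (h0⁻¹ * g * h0) * b⁻¹ * (h0⁻¹ * g * h0)⁻¹ * x) := by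
  induction h with
  | conj h => exact ⟨h, fun b => (S.conj (h * b⁻¹)).of_eq (by group)⟩
  | mul _ hy h1 _ =>
    obtain ⟨h0, h1⟩ := h1
    exact ⟨h0, fun b => ((h1 b).mul hy).of_eq (by group)⟩

/-- The commutator. -/
def d (m a : G) : G := m * a * m⁻¹ * a⁻¹

/-- Products of commutators with the members of a list. -/
def V (A : Subgroup G) : List G → G → Prop
  | [], x => x = 1
  | m :: l, x => ∃ a ∈ A, ∃ z, V A l z ∧ x = d m a * z

section
variable {A : Subgroup G} [hn : A.Normal] (hA : ∀ a ∈ A, ∀ b ∈ A, a * b = b * a)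

lemma d_mem (m : G) {a : G} (ha : a ∈ A) : d m a ∈ A :=
  A.mul_mem (hn.conj_mem a ha m) (A.inv_mem ha)

lemma d_one (m : G) : d m 1 = 1 := by simp [d]

include hA

lemma d_mul (m : G) {a b : G} (ha : a ∈ A) (hb : b ∈ A) : d m (a * b) = d m a * d m b := by
  calc d m (a * b) = m * a * m⁻¹ * (d m b * a⁻¹) := by simp only [d]; group
    _ = m * a * m⁻¹ * (a⁻¹ * d m b) := by rw [hA _ (d_mem m hb) _ (A.inv_mem ha)]
    _ = d m a * d m b := by simp only [d]; group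

lemma d_inv (m : G) {a : G} (ha : a ∈ A) : d m a⁻¹ = (d m a)⁻¹ := by
  rw [eq_inv_iff_mul_eq_one, ← d_mul hA m (A.inv_mem ha) ha, inv_mul_cancel, d_one]

omit hn in
lemma d_congr (m : G) {a b : G} (ha : a ∈ A) (hb : b ∈ A) : d (m * a) b = d m b := by
  calc d (m * a) b = m * (a * b) * a⁻¹ * m⁻¹ * b⁻¹ := by simp only [d]; group
    _ = m * (b * a) * a⁻¹ * m⁻¹ * b⁻¹ := by rw [hA a ha b hb]
    _ = d m b := by simp only [d]; group

omit hA in
lemma V_mem : ∀ (l : List G) {x : G}, V A l x → x ∈ A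
  | [], _, h => by rw [show _ = (1 : G) from h]; exact A.one_mem
  | m :: l, _, ⟨a, ha, z, hz, e⟩ => by rw [e]; exact A.mul_mem (d_mem m ha) (V_mem l hz)

omit hA hn in
lemma V_one : ∀ l : List G, V A l 1
  | [] => rfl
  | m :: l => ⟨1, A.one_mem, 1, V_one l, by rw [d_one, one_mul]⟩

lemma V_mul : ∀ (l : List G) {x y : G}, V A l x → V A l y → V A l (x * y)
  | [], _, _, h, h' => by
    rw [show _ = (1 : G) from h, show _ = (1 : G) from h', one_mul]; rfl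
  | m :: l, _, _, ⟨a, ha, z, hz, e⟩, ⟨b, hb, w, hw, e'⟩ =>
    ⟨a * b, A.mul_mem ha hb, z * w, V_mul l hz hw, by
      rw [e, e', d_mul hA m ha hb, mul_assoc, mul_assoc, ← mul_assoc z,
        hA z (V_mem l hz) _ (d_mem m hb), mul_assoc]⟩

lemma V_inv : ∀ (l : List G) {x : G}, V A l x → V A l x⁻¹
  | [], _, h => by rw [show _ = (1 : G) from h, inv_one]; rfl
  | m :: l, _, ⟨a, ha, z, hz, e⟩ =>
    ⟨a⁻¹, A.inv_mem ha, z⁻¹, V_inv l hz, by
      rw [e, d_inv hA m ha, mul_inv_rev,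
        hA _ (A.inv_mem (V_mem l hz)) _ (A.inv_mem (d_mem m ha))]⟩

omit hA hn in
lemma V_d : ∀ (l : List G) {m a : G}, m ∈ l → a ∈ A → V A l (d m a)
  | [], _, _, h, _ => by simp at h
  | m' :: l, m, a, h, ha => by
    rcases List.mem_cons.1 h with rfl | h
    · exact ⟨a, ha, 1, V_one l, (mul_one _).symm⟩
    · exact ⟨1, A.one_mem, _, V_d l h ha, by rw [d_one, one_mul]⟩

lemma V_d' (L : List G) {m : G} (h : ∃ m' ∈ L, m'⁻¹ * m ∈ A) {a : G} (ha : a ∈ A) :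
    V A L (d m a) := by
  obtain ⟨m', h1, h2⟩ := h
  have : d m a = d m' a := by rw [← d_congr hA m' h2 ha, mul_inv_cancel_left]
  rw [this]
  exact V_d L h1 ha

lemma V_cj (L : List G) (k : G) : ∀ (l : List G) {x : G},
    (∀ m ∈ l, ∃ m' ∈ L, m'⁻¹ * (k * m * k⁻¹) ∈ A) → V A l x → V A L (k * x * k⁻¹)
  | [], _, _, h => by rw [show _ = (1 : G) from h, mul_one, mul_inv_cancel]; exact V_one L
  | m :: l, _, hl, ⟨a, ha, z, hz, e⟩ => by
    have : k * (d m a * z) * k⁻¹ = d (k * m * k⁻¹) (k * a * k⁻¹) * (k * z * k⁻¹) := by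
      simp only [d]; group
    rw [e, this]
    exact V_mul hA L (V_d' hA L (hl m (List.mem_cons_self ..)) (hn.conj_mem a ha k))
      (V_cj L k l (fun m' h => hl m' (List.mem_cons_of_mem _ h)) hz)

lemma one_mem_S (g : G) (L : List G) (hL : ∀ k : G, ∀ x, V A L x → V A L (k * x * k⁻¹))
    (hL2 : ∀ m ∈ L, ∃ h : G, m = h⁻¹ * g * h) {c : G} (hc : V A L c) (hS : S g c) : S g 1 := by
  have key : ∀ l : List G, (∀ m ∈ l, ∃ h : G, m = h⁻¹ * g * h) →
      ∃ c', V A L c' ∧ ∀ x, V A l x → S g (x * c') := by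
    intro l
    induction l with
    | nil =>
      intro _
      refine ⟨c, hc, fun x hx => ?_⟩
      rw [show x = 1 from hx, one_mul]
      exact hS
    | cons m l ih =>
      intro hl
      obtain ⟨c', h1, h2⟩ := ih fun m' h => hl m' (List.mem_cons_of_mem _ h)
      obtain ⟨h, rfl⟩ := hl m (List.mem_cons_self ..)
      obtain ⟨h0, h3⟩ := hS.pert
      have h4 := hL (h⁻¹ * h0) c hc
      refine ⟨h⁻¹ * h0 * c * (h⁻¹ * h0)⁻¹ * c', V_mul hA L h4 h1, ?_⟩
      rintro _ ⟨a, ha, z, hz, rfl⟩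
      have h5 : S g (d (h⁻¹ * g * h) a * (h⁻¹ * h0 * c * (h⁻¹ * h0)⁻¹)) := by
        have e1 : d (h⁻¹ * g * h) a = a⁻¹ * (h⁻¹ * g * h * a * (h⁻¹ * g * h)⁻¹) :=
          hA _ (hn.conj_mem a ha _) _ (A.inv_mem ha)
        rw [e1]
        exact ((h3 ((h⁻¹ * h0)⁻¹ * a⁻¹ * (h⁻¹ * h0))).cj (h⁻¹ * h0)).of_eq (by group)
      refine (h5.mul (h2 z hz)).of_eq ?_
      rw [mul_assoc, mul_assoc (d _ a), ← mul_assoc _ z, ← mul_assoc z,
        hA z (V_mem l hz) _ (V_mem L h4)]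
  obtain ⟨c', h1, h2⟩ := key L hL2
  exact (h2 _ (V_inv hA L h1)).of_eq (inv_mul_cancel _)

/-- Elements whose commutators with `A` lie in `V A L`. -/
def D (L : List G) : Subgroup G where
  carrier := {m | ∀ a ∈ A, V A L (d m a)}
  one_mem' := fun a _ => by
    rw [show d 1 a = 1 by simp [d]]
    exact V_one L
  mul_mem' := fun {m m'} h h' a ha => by
    rw [show d (m * m') a = d m (m' * a * m'⁻¹) * d m' a by simp only [d]; group]
    exact V_mul hA L (h _ (hn.conj_mem a ha m')) (h' a ha)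
  inv_mem' := fun {m} h a ha => by
    rw [show d m⁻¹ a = (d m (m⁻¹ * a * m⁻¹⁻¹))⁻¹ by simp only [d]; group]
    exact V_inv hA L (h _ (hn.conj_mem a ha m⁻¹))

end

/-- Elements commuting with `x` modulo `N`. -/
def C (N : Subgroup G) [hn : N.Normal] (x : G) : Subgroup G where
  carrier := {h | h * x * h⁻¹ * x⁻¹ ∈ N}
  one_mem' := by simp
  mul_mem' := fun {h k} h1 h2 => by
    have : h * k * x * (h * k)⁻¹ * x⁻¹ = h * (k * x * k⁻¹ * x⁻¹) * h⁻¹ * (h * x * h⁻¹ * x⁻¹) := by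
      group
    change _ ∈ N
    rw [this]
    exact N.mul_mem (hn.conj_mem _ h2 h) h1
  inv_mem' := fun {h} h1 => by
    have : h⁻¹ * x * h⁻¹⁻¹ * x⁻¹ = h⁻¹ * (h * x * h⁻¹ * x⁻¹)⁻¹ * h⁻¹⁻¹ := by group
    change _ ∈ N
    rw [this]
    exact hn.conj_mem _ (N.inv_mem h1) _

lemma cen (N H : Subgroup G) [N.Normal] {x y τ : G} (hg : Subgroup.closure {y, τ} ⊔ H = ⊤)
    (h1 : y * x * y⁻¹ * x⁻¹ ∈ N) (h2 : τ * x * τ⁻¹ * x⁻¹ ∈ N)
    (h3 : ∀ h ∈ H, h * x * h⁻¹ * x⁻¹ ∈ N) (h : G) : h * x * h⁻¹ * x⁻¹ ∈ N := by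
  have : (⊤ : Subgroup G) ≤ C N x := by
    rw [← hg]
    refine sup_le ((Subgroup.closure_le _).2 ?_) h3
    rintro _ (rfl | rfl)
    · exact h1
    · exact h2
  exact this (Subgroup.mem_top h)

lemma F_succ (z τ : G) (k : ℕ) :
    (z * τ⁻¹) ^ (k + 1) * τ ^ (k + 1) = z * (τ⁻¹ * ((z * τ⁻¹) ^ k * τ ^ k) * τ) := by
  rw [pow_succ', pow_succ]; group

lemma F_congr (M : Subgroup G) [hn : M.Normal] (hM : ∀ a ∈ M, ∀ b ∈ M, a * b = b * a) {z m : G}
    (τ : G) (hz : z ∈ M) (hm : m ∈ M) (k : ℕ) : (z * τ⁻¹) ^ k * τ ^ k ∈ M ∧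
      (z * (τ * m)⁻¹) ^ k * (τ * m) ^ k = (z * τ⁻¹) ^ k * τ ^ k := by
  induction k with
  | zero => simp
  | succ k ih =>
    have h1 : τ⁻¹ * ((z * τ⁻¹) ^ k * τ ^ k) * τ ∈ M := by
      simpa using hn.conj_mem _ ih.1 τ⁻¹
    rw [F_succ, F_succ, ih.2]
    refine ⟨M.mul_mem hz h1, ?_⟩
    have h2 := hA' M hM hm h1
    rw [← h2]
    group
where
  hA' (M : Subgroup G) (hM : ∀ a ∈ M, ∀ b ∈ M, a * b = b * a) {m x : G} (hm : m ∈ M)
    (hx : x ∈ M) : m⁻¹ * x * m = x := by rw [mul_assoc, ← hM m hm x hx, inv_mul_cancel_left]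

lemma cenF (M : Subgroup G) [M.Normal] (hM : ∀ a ∈ M, ∀ b ∈ M, a * b = b * a) (y τ : G) (e : ℕ)
    (hp : ∀ x : G, x ^ e ∈ M) (hc : τ⁻¹ * y * τ * y⁻¹ ∈ M) :
    Commute τ ((y ^ e * τ⁻¹) ^ e * τ ^ e) ∧ Commute y ((y ^ e * τ⁻¹) ^ e * τ ^ e) := by
  constructor
  · refine Commute.mul_right ?_ ((Commute.refl τ).pow_right e)
    have h1 : Commute (y ^ e) ((y ^ e * τ⁻¹) ^ e) := hM _ (hp _) _ (hp _)
    have h2 : Commute (y ^ e * τ⁻¹) ((y ^ e * τ⁻¹) ^ e) := (Commute.refl _).pow_right e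
    have h3 := h2.inv_left.mul_left h1
    rwa [show (y ^ e * τ⁻¹)⁻¹ * y ^ e = τ by group] at h3
  · have h1 := (F_congr M hM τ (hp y) hc e).2
    have h2 : τ * (τ⁻¹ * y * τ * y⁻¹) = y * τ * y⁻¹ := by group
    have h3 : y ^ e * (y * τ * y⁻¹)⁻¹ = y * (y ^ e * τ⁻¹) * y⁻¹ := by group
    rw [h2, h3, conj_pow, conj_pow] at h1
    change _ = _
    rw [← h1]
    nth_rewrite 1 [h1]
    group

end Mech

open Mech in
theorem mech_st (hT : TorSt) : MechSt := by
  intro G _ _ hφ hR H A hHn hAn _ hAH hA hH hG y τ hgen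
  by_contra hτ
  push Not at hτ
  set e := H.index with he
  have he0 : 0 < e := Nat.pos_of_ne_zero Subgroup.FiniteIndex.index_ne_zero
  have hp : ∀ x : G, x ^ e ∈ H := fun x => Subgroup.pow_index_mem H x
  set g := τ ^ e with hg
  have hgH : g ∈ H := hp τ
  have hτg : τ * g * τ⁻¹ = g := by rw [hg]; group
  set g' := g * (y⁻¹ * g * y)⁻¹ with hg'
  have hg'H : g' ∈ H := H.mul_mem hgH (H.inv_mem (by simpa using hHn.conj_mem g hgH y⁻¹))
  have hyg : y * g * y⁻¹ * g⁻¹ = y * g' * y⁻¹ := by rw [hg']; group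
  have hne : g' ≠ 1 := by
    intro h1
    obtain ⟨m, hm, h2⟩ := hT G hφ H A hH g hgH (cen A H hgen (by rw [hyg, h1]; simp)
      (by rw [hτg]; simp) fun h hh => hH h hh g hgH)
    rw [hg, ← pow_mul] at h2
    exact hτ _ (Nat.mul_pos he0 hm) h2
  -- the semigroup P
  let P : G → Prop := fun w => S g' (g * (w⁻¹ * g * w)⁻¹)
  have Py : P y := (S.conj 1).of_eq (by rw [hg']; group)
  have Pmul : ∀ w w', P w → P w' → P (w * w') := fun w w' h h' =>
    (S.mul h' (S.cj h w'⁻¹)).of_eq (by group)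
  have Pc : ∀ w c, c⁻¹ * g * c = g → P w → P (w * c) := fun w c hc h =>
    (S.cj h c⁻¹).of_eq (by
      calc _ = c⁻¹ * g * c * ((w * c)⁻¹ * g * (w * c))⁻¹ := by group
        _ = _ := by rw [hc])
  have Ppow : ∀ w (k : ℕ), P w → P (w ^ (k + 1)) := by
    intro w k h
    induction k with
    | zero => simpa using h
    | succ k ih => rw [pow_succ]; exact Pmul _ _ ih h
  have Ppow' : ∀ w (k : ℕ), 0 < k → P w → P (w ^ k) := by
    intro w k hk h
    obtain ⟨k, rfl⟩ := Nat.exists_eq_succ_of_ne_zero hk.ne'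
    exact Ppow w k h
  set w0 := (y ^ e * τ⁻¹) ^ e * τ ^ e with hw0
  have Pw0 : P w0 := Pc _ _ (by rw [← hg]; group)
    (Ppow' _ _ he0 (Pc _ _ (by rw [inv_inv]; exact hτg) (Ppow' _ _ he0 Py)))
  have hw0H : w0 ∈ H := H.mul_mem (hp _) (hp _)
  have hcen : Commute (QuotientGroup.mk' A τ) (QuotientGroup.mk' A w0) ∧
      Commute (QuotientGroup.mk' A y) (QuotientGroup.mk' A w0) := by
    have : (H.map (QuotientGroup.mk' A)).Normal := hHn.map _ (QuotientGroup.mk'_surjective A)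
    have := cenF (H.map (QuotientGroup.mk' A)) (by
        rintro _ ⟨a, ha, rfl⟩ _ ⟨b, hb, rfl⟩
        have := (QuotientGroup.eq_one_iff _).2 (hH a ha b hb)
        rw [← QuotientGroup.mk'_apply, map_mul, map_mul, map_mul, map_inv, map_inv] at this
        rwa [mul_inv_eq_one, mul_inv_eq_iff_eq_mul] at this)
      (QuotientGroup.mk' A y) (QuotientGroup.mk' A τ) e (fun x => by
        obtain ⟨x, rfl⟩ := QuotientGroup.mk'_surjective A x
        exact ⟨x ^ e, hp x, map_pow _ _ _⟩)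
      ⟨τ⁻¹ * y * τ * y⁻¹, hG (by
        have := Subgroup.commutator_mem_commutator (Subgroup.mem_top τ⁻¹) (Subgroup.mem_top y)
        rwa [commutatorElement_def, inv_inv] at this), by simp⟩
    simpa [hw0] using this
  have hcomm : ∀ x w : G, Commute (QuotientGroup.mk' A x) (QuotientGroup.mk' A w) →
      x * w * x⁻¹ * w⁻¹ ∈ A := by
    intro x w h
    apply (QuotientGroup.eq_one_iff _).1
    rw [← QuotientGroup.mk'_apply, map_mul, map_mul, map_mul, map_inv, map_inv, h.eq]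
    group
  obtain ⟨m, hm, ha⟩ := hT G hφ H A hH w0 hw0H (cen A H hgen (hcomm _ _ hcen.2) (hcomm _ _ hcen.1)
    fun h hh => hH h hh w0 hw0H)
  have hc0 : S g' (d g (w0 ^ m)⁻¹) := (Ppow' _ _ hm Pw0).of_eq (by simp only [d]; group)
  set a := (w0 ^ m)⁻¹ with hadef
  have haA : a ∈ A := A.inv_mem ha
  have hck : ∀ k : ℕ, S g' (d (g ^ (k + 1)) a) := by
    intro k
    induction k with
    | zero => simpa using hc0
    | succ k ih =>
      refine ((ih.cj g).mul hc0).of_eq ?_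
      simp only [d]
      group
  -- the finite list of conjugates
  have : Fintype (G ⧸ H) := Fintype.ofFinite _
  let L : List G := (Finset.univ : Finset (G ⧸ H)).toList.map fun r => r.out⁻¹ * g' * r.out
  have hL2 : ∀ u ∈ L, ∃ h : G, u = h⁻¹ * g' * h := by
    intro u hu
    obtain ⟨r, -, rfl⟩ := List.mem_map.1 hu
    exact ⟨_, rfl⟩
  have hL1 : ∀ h : G, ∃ u ∈ L, u⁻¹ * (h⁻¹ * g' * h) ∈ A := by
    intro h
    obtain ⟨x, hx⟩ := QuotientGroup.mk_out_eq_mul H h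
    refine ⟨_, List.mem_map.2 ⟨(h : G ⧸ H), by simp, rfl⟩, ?_⟩
    rw [hx]
    have h1 : h⁻¹ * g' * h ∈ H := by simpa using hHn.conj_mem g' hg'H h⁻¹
    have := hH _ (H.inv_mem x.2) _ (H.inv_mem h1)
    convert this using 1
    group
  have hL : ∀ k : G, ∀ x, V A L x → V A L (k * x * k⁻¹) := by
    intro k x hx
    refine V_cj hA L k L (fun u hu => ?_) hx
    obtain ⟨h, rfl⟩ := hL2 u hu
    obtain ⟨u', h1, h2⟩ := hL1 (h * k⁻¹)
    refine ⟨u', h1, ?_⟩
    convert h2 using 2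
    group
  have hDn : (D hA L).Normal := by
    constructor
    intro u hu k b hb
    rw [show d (k * u * k⁻¹) b = k * d u (k⁻¹ * b * k⁻¹⁻¹) * k⁻¹ by simp only [d]; group]
    exact hL k _ (hu _ (hAn.conj_mem b hb k⁻¹))
  have hAD : A ≤ D hA L := by
    intro u hu b hb
    rw [show d u b = 1 by simp only [d]; rw [hA u hu b hb]; group]
    exact V_one L
  have hg'D : g' ∈ D hA L := by
    intro b hb
    refine V_d' hA L ?_ hb
    simpa using hL1 1
  obtain ⟨n, hn, hgn⟩ := hT G hφ H (D hA L) (fun x hx w hw => hAD (hH x hx w hw)) g hgH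
    (cen (D hA L) H hgen (by rw [hyg]; exact hDn.conj_mem _ hg'D y) (by rw [hτg]; simp)
      fun h hh => hAD (hH h hh g hgH))
  obtain ⟨n, rfl⟩ := Nat.exists_eq_succ_of_ne_zero hn.ne'
  obtain ⟨l, h1, h2⟩ := (one_mem_S hA g' L hL hL2 (hgn a haA) (hck n)).list
  exact hR g' hne l h1 h2

end Pool.Agent.Lib.MP_94a9ea_al.H25
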