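import Pool.Agent.Lib.MP_94a9ea_al.H25.Mech
import Pool.Agent.Lib.MP_94a9ea_al.H25.Fin

set_option autoImplicit false

namespace Pool.Agent.Lib.MP_94a9ea_al.H25
open Mech

lemma S_pow {G : Type} [Group G] {g x : G} (h : S g x) (k : ℕ) : S g (x ^ (k + 1)) := by
  induction k with
  | zero => simpa using h
  | succ k ih => rw [pow_succ]; exact ih.mul h

theorem virt_ab (hT : TorSt) {G : Type} [Group G] [Group.FG G]
    (hφ : ∀ φ : G → ℝ, (∀ x y, φ (x * y) = φ x + φ y) → ∀ g, φ g = 0)
    (hR : ∀ g : G, g ≠ 1 → ∀ l : List G, l ≠ [] → (l.map (fun h => h⁻¹ * g * h)).prod ≠ 1)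
    (A : Subgroup G) [hn : A.Normal] [A.FiniteIndex] (hA : ∀ a ∈ A, ∀ b ∈ A, a * b = b * a)
    (g : G) : g = 1 := by
  have hS : ∀ g : G, S g 1 → g = 1 := by
    intro g h
    by_contra hg
    obtain ⟨l, h1, h2⟩ := h.list
    exact hR g hg l h1 h2
  have hA1 : ∀ a : A, (a : G) = 1 := by
    intro a
    let _ : CommGroup A := { (inferInstance : Group A) with
      mul_comm := fun a b => Subtype.ext (hA a a.2 b b.2) }
    have : Fintype (G ⧸ A) := Fintype.ofFinite _
    let c : G ⧸ A → A := fun q => MulAut.conjNormal q.out a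
    have hc : ∀ k : G, (c (k : G ⧸ A) : G) = k * a * k⁻¹ := by
      intro k
      obtain ⟨b, hb⟩ := QuotientGroup.mk_out_eq_mul A k
      change ((MulAut.conjNormal (Quotient.out _) a : A) : G) = _
      rw [MulAut.conjNormal_apply, hb, mul_assoc k, hA b b.2 a a.2]
      group
    have h1 : ∀ h : G, MulAut.conjNormal h (∏ q, c q) = ∏ q, c q := by
      intro h
      rw [map_prod, ← Equiv.prod_comp (Equiv.mulLeft (h : G ⧸ A)) c]
      refine Finset.prod_congr rfl fun q _ => Subtype.ext ?_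
      obtain ⟨k, rfl⟩ := QuotientGroup.mk_surjective q
      rw [MulAut.conjNormal_apply, hc, Equiv.coe_mulLeft]
      simp only [← QuotientGroup.mk_mul, hc]
      group
    have h2 : S (a : G) ((∏ q, c q : A) : G) := by
      refine Finset.prod_induction_nonempty c (fun b : A => S (a : G) (b : G))
        (fun b b' h h' => h.mul h') Finset.univ_nonempty fun q _ => ?_
      obtain ⟨k, rfl⟩ := QuotientGroup.mk_surjective q
      rw [hc]
      exact (S.conj k⁻¹).of_eq (by group)
    obtain ⟨m, hm, h3⟩ := hT G hφ A ⊥ (fun x hx y hy => by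
      rw [hA x hx y hy, Subgroup.mem_bot]; group) _ (∏ q, c q).2 (fun h => by
        have := congrArg Subtype.val (h1 h)
        rw [MulAut.conjNormal_apply] at this
        rw [this, Subgroup.mem_bot, mul_inv_cancel])
    obtain ⟨m, rfl⟩ := Nat.exists_eq_succ_of_ne_zero hm.ne'
    exact hS _ ((S_pow h2 m).of_eq (Subgroup.mem_bot.1 h3))
  obtain ⟨m, hm⟩ := Nat.exists_eq_succ_of_ne_zero (Subgroup.FiniteIndex.index_ne_zero (H := A))
  have h4 := hA1 ⟨_, Subgroup.pow_index_mem A g⟩
  rw [Subtype.coe_mk, hm] at h4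
  exact hS g ((S_pow ((S.conj 1).of_eq (by group)) m).of_eq h4)

theorem sub_loc (hS : SubSt) {G : Type} [Group G] (H : Subgroup G) (hc : commutator G ≤ H)
    (s t : G) (K : Subgroup G) (hK : K ≤ Subgroup.closure {s, t} ⊔ H) :
    ∃ s' t' : K, Subgroup.closure {s', t'} ⊔ H.subgroupOf K = ⊤ := by
  set G1 := Subgroup.closure {s, t} ⊔ H with hG1
  have hs : s ∈ G1 := Subgroup.mem_sup_left (Subgroup.subset_closure (by simp))
  have ht : t ∈ G1 := Subgroup.mem_sup_left (Subgroup.subset_closure (by simp))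
  obtain ⟨s', t', h⟩ := hS G1 (H.subgroupOf G1) (by
      rw [commutator_def, Subgroup.commutator_le]
      intro x _ y _
      exact hc (Subgroup.commutator_mem_commutator (Subgroup.mem_top (x : G))
        (Subgroup.mem_top (y : G)))) ⟨s, hs⟩ ⟨t, ht⟩ (by
      apply Subgroup.map_injective G1.subtype_injective
      rw [Subgroup.map_sup, MonoidHom.map_closure, Subgroup.subgroupOf_map_subtype,
        ← MonoidHom.range_eq_map, Subgroup.range_subtype, inf_eq_left.2 le_sup_right,
        Set.image_pair]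
      rfl) (K.subgroupOf G1)
  let e := Subgroup.subgroupOfEquivOfLe hK
  refine ⟨e s', e t', ?_⟩
  have h2 := congrArg (Subgroup.map e.toMonoidHom) h
  rw [Subgroup.map_sup, MonoidHom.map_closure, Set.image_pair,
    Subgroup.map_top_of_surjective _ e.surjective] at h2
  rw [eq_top_iff, ← h2]
  refine sup_le_sup le_rfl ?_
  rintro _ ⟨x, hx, rfl⟩
  exact hx

theorem pos (hB : BHSt) (hS : SubSt) (hT : TorSt) (hE : EigSt) (G : Type) [Group G]
    (H : Subgroup G) [hH : H.Normal] (hd : derivedSeries H 2 = ⊥) (hc : commutator G ≤ H)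
    (hst : ∀ X : Finset G, ∃ s t : G, ∀ x ∈ X, x ∈ Subgroup.closure {s, t} ⊔ H)
    (hR : ∀ g : G, g ≠ 1 → ∀ l : List G, l ≠ [] → (l.map (fun h => h⁻¹ * g * h)).prod ≠ 1) :
    ∃ o : LinearOrder G, ∀ a b c : G, o.le a b → o.le (a * c) (b * c) := by
  classical
  refine hB G fun K hK hne => ?_
  by_contra hcon
  have : Group.FG K := (Group.fg_iff_subgroup_fg K).2 hK
  have hφ : ∀ φ : K → ℝ, (∀ x y, φ (x * y) = φ x + φ y) → ∀ g, φ g = 0 := by
    intro φ h g
    by_contra hg
    refine hcon ⟨fun x => if hx : x ∈ K then φ ⟨x, hx⟩ else 0, fun x hx y hy => ?_, g, g.2, ?_⟩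
    · simp only [hx, hy, K.mul_mem hx hy, dif_pos]
      exact h ⟨x, hx⟩ ⟨y, hy⟩
    · simpa using hg
  have hRK : ∀ g : K, g ≠ 1 → ∀ l : List K, l ≠ [] →
      (l.map (fun h => h⁻¹ * g * h)).prod ≠ 1 := by
    intro g hg l hl h
    refine hR g (fun e => hg (Subtype.ext e)) (l.map K.subtype) (fun e => hl (List.map_eq_nil_iff.1 e)) ?_
    have := congrArg K.subtype h
    rw [map_list_prod, List.map_map, map_one] at this
    rw [List.map_map]
    exact this
  let A0 : Subgroup G := ⁅H, H⁆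
  have hA0 : ∀ a ∈ A0, ∀ b ∈ A0, a * b = b * a := by
    have e : A0 = (derivedSeries H 1).map H.subtype := by
      rw [derivedSeries_one, commutator_def, Subgroup.map_commutator, ← MonoidHom.range_eq_map,
        Subgroup.range_subtype]
    rw [e]
    rintro _ ⟨a, ha, rfl⟩ _ ⟨b, hb, rfl⟩
    have h1 := Subgroup.commutator_mem_commutator ha hb
    rw [← derivedSeries_succ, hd, Subgroup.mem_bot, commutatorElement_eq_one_iff_mul_comm] at h1
    rw [← map_mul, h1, map_mul]
  have hA0H : A0 ≤ H := Subgroup.commutator_le_left H H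
  have hA : ∀ a ∈ A0.subgroupOf K, ∀ b ∈ A0.subgroupOf K, a * b = b * a := fun a ha b hb =>
    Subtype.ext (hA0 a ha b hb)
  have hAH : A0.subgroupOf K ≤ H.subgroupOf K := fun a ha => hA0H ha
  have hHc : ∀ x ∈ H.subgroupOf K, ∀ y ∈ H.subgroupOf K, x * y * x⁻¹ * y⁻¹ ∈ A0.subgroupOf K :=
    fun x hx y hy => Subgroup.commutator_mem_commutator (H₁ := H) (H₂ := H) hx hy
  have hcK : commutator K ≤ H.subgroupOf K := by
    rw [commutator_def, Subgroup.commutator_le]
    intro x _ y _
    exact hc (Subgroup.commutator_mem_commutator (Subgroup.mem_top (x : G)) (Subgroup.mem_top (y : G)))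
  have := finiteIndex_commutator hφ
  have : (H.subgroupOf K).FiniteIndex := Subgroup.finiteIndex_of_le hcK
  by_cases hf : (A0.subgroupOf K).FiniteIndex
  · apply hne
    rw [eq_bot_iff]
    intro g hg
    exact congrArg Subtype.val (virt_ab hT hφ hRK (A0.subgroupOf K) hA ⟨g, hg⟩)
  · obtain ⟨X, hX⟩ := hK
    obtain ⟨s, t, h0⟩ := hst X
    obtain ⟨s', t', h1⟩ := sub_loc hS H hc s t K (by
      rw [← hX]; exact (Subgroup.closure_le _).2 h0)
    obtain ⟨y, τ, h2, h3⟩ := hE K (H.subgroupOf K) (A0.subgroupOf K) hAH hf hHc hcK s' t' h1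
    obtain ⟨m, hm, h4⟩ := mech_st hT K hφ hRK (H.subgroupOf K) (A0.subgroupOf K) hAH hA hHc hcK
      y τ h2
    exact h3 m hm h4

end Pool.Agent.Lib.MP_94a9ea_al.H25
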