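import Mathlib

/-! Statements of the steps for the positive theorem on R* groups. -/

set_option autoImplicit false

namespace Pool.Agent.Lib.MP_94a9ea_al.H25

/-- Locally indicable groups are right orderable. -/
def BHSt : Prop :=
  ∀ (G : Type) [Group G],
    (∀ K : Subgroup G, K.FG → K ≠ ⊥ →
      ∃ φ : G → ℝ, (∀ x ∈ K, ∀ y ∈ K, φ (x * y) = φ x + φ y) ∧ ∃ g ∈ K, φ g ≠ 0) →
    ∃ o : LinearOrder G, ∀ a b c : G, o.le a b → o.le (a * c) (b * c)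

/-- Two generators modulo `H` pass to subgroups when the quotient is abelian. -/
def SubSt : Prop :=
  ∀ (G : Type) [Group G] (H : Subgroup G), commutator G ≤ H → ∀ s t : G,
    Subgroup.closure {s, t} ⊔ H = ⊤ → ∀ K : Subgroup G,
    ∃ s' t' : K, Subgroup.closure {s', t'} ⊔ H.subgroupOf K = ⊤

/-- Elements that are central modulo `A` have finite order modulo `A`. -/
def TorSt : Prop :=
  ∀ (G : Type) [Group G] [Group.FG G],
    (∀ φ : G → ℝ, (∀ x y, φ (x * y) = φ x + φ y) → ∀ g, φ g = 0) →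
    ∀ (H A : Subgroup G) [A.Normal] [H.FiniteIndex], (∀ x ∈ H, ∀ y ∈ H, x * y * x⁻¹ * y⁻¹ ∈ A) →
    ∀ x ∈ H, (∀ h : G, h * x * h⁻¹ * x⁻¹ ∈ A) → ∃ m : ℕ, 0 < m ∧ x ^ m ∈ A

/-- A pair of generators modulo `H` one of which has infinite order modulo `A`. -/
def EigSt : Prop :=
  ∀ (G : Type) [Group G] [Group.FG G] (H A : Subgroup G) [H.Normal] [A.Normal] [H.FiniteIndex],
    A ≤ H → ¬ A.FiniteIndex → (∀ x ∈ H, ∀ y ∈ H, x * y * x⁻¹ * y⁻¹ ∈ A) → commutator G ≤ H →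
    ∀ s t : G, Subgroup.closure {s, t} ⊔ H = ⊤ →
    ∃ y τ : G, Subgroup.closure {y, τ} ⊔ H = ⊤ ∧ ∀ m : ℕ, 0 < m → τ ^ m ∉ A

/-- The main mechanism. -/
def MechSt : Prop :=
  ∀ (G : Type) [Group G] [Group.FG G],
    (∀ φ : G → ℝ, (∀ x y, φ (x * y) = φ x + φ y) → ∀ g, φ g = 0) →
    (∀ g : G, g ≠ 1 → ∀ l : List G, l ≠ [] → (l.map (fun h => h⁻¹ * g * h)).prod ≠ 1) →
    ∀ (H A : Subgroup G) [H.Normal] [A.Normal] [H.FiniteIndex], A ≤ H →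
    (∀ a ∈ A, ∀ b ∈ A, a * b = b * a) → (∀ x ∈ H, ∀ y ∈ H, x * y * x⁻¹ * y⁻¹ ∈ A) →
    commutator G ≤ H → ∀ y τ : G, Subgroup.closure {y, τ} ⊔ H = ⊤ →
    ∃ m : ℕ, 0 < m ∧ τ ^ m ∈ A

end Pool.Agent.Lib.MP_94a9ea_al.H25
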