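import Mathlib
import Pool.Agent.Lib.MP_94a9ea_al.H25.PSt

/-! Elements central modulo `A` have finite order modulo `A`. -/

set_option autoImplicit false

namespace Pool.Agent.Lib.MP_94a9ea_al.H25

/-- An element of infinite order of an abelian group is seen by a real character. -/
theorem tor_char {M : Type} [AddCommGroup M] (y : M) (hy : ∀ m : ℕ, 0 < m → m • y ≠ 0) :
    ∃ ψ : M →+ ℝ, ψ y ≠ 0 := by
  have hinj : Function.Injective (zmultiplesHom M y) := by
    rw [injective_iff_map_eq_zero]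
    intro k hk
    by_contra h0
    have h1 : k • y = 0 := by simpa using hk
    apply hy k.natAbs (Int.natAbs_pos.2 h0)
    rcases Int.natAbs_eq k with h | h
    · rw [← natCast_zsmul, ← h, h1]
    · have h2 : (k.natAbs : ℤ) = -k := by omega
      rw [← natCast_zsmul, h2, neg_zsmul, h1, neg_zero]
  obtain ⟨ψ, hψ⟩ := (Module.Baer.of_divisible ℝ).extension_property_addMonoidHom
    (zmultiplesHom M y) hinj (Int.castAddHom ℝ)
  refine ⟨ψ, ?_⟩
  have h1 := DFunLike.congr_fun hψ 1
  simp at h1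
  rw [h1]
  exact one_ne_zero

theorem tor_quot {Q : Type} [Group Q]
    (hφ : ∀ φ : Q → ℝ, (∀ x y, φ (x * y) = φ x + φ y) → ∀ g, φ g = 0)
    (M : Subgroup Q) [M.FiniteIndex] (hM : ∀ x ∈ M, ∀ y ∈ M, x * y = y * x)
    (x : Q) (hc : ∀ h : Q, h * x = x * h) : ∃ m : ℕ, 0 < m ∧ x ^ m = 1 := by
  letI : CommGroup M := { (inferInstance : Group M) with
    mul_comm := fun a b => Subtype.ext (hM a a.2 b b.2) }
  have key : ∀ (k : ℕ) (g₀ : Q), g₀⁻¹ * x ^ k * g₀ ∈ M → g₀⁻¹ * x ^ k * g₀ = x ^ k := by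
    intro k g₀ _
    have h1 : Commute g₀ x := hc g₀
    rw [mul_assoc, ← (h1.pow_right k).eq, inv_mul_cancel_left]
  have ht := MonoidHom.transfer_eq_pow (MonoidHom.id M) x key
  by_contra hne
  push_neg at hne
  have hidx : 0 < M.index := Nat.pos_of_ne_zero Subgroup.FiniteIndex.index_ne_zero
  obtain ⟨ψ, hψ⟩ := tor_char (Additive.ofMul (MonoidHom.transfer (MonoidHom.id M) x)) (by
    intro m hm h0
    rw [← ofMul_pow] at h0
    have h1 : (MonoidHom.transfer (MonoidHom.id M) x) ^ m = 1 := h0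
    rw [ht] at h1
    have h2 := congrArg Subtype.val h1
    simp only [MonoidHom.id_apply, SubmonoidClass.mk_pow, OneMemClass.coe_one] at h2
    apply hne (M.index * m) (Nat.mul_pos hidx hm)
    rw [pow_mul]
    exact h2)
  apply hψ
  exact hφ (fun g => ψ (Additive.ofMul (MonoidHom.transfer (MonoidHom.id M) g)))
    (fun a b => by simp only [map_mul, ofMul_mul, map_add]) x

theorem tor_st : TorSt := by
  intro G _ _ hφ H A _ _ hH x _ hx
  have hsurj : Function.Surjective (QuotientGroup.mk' A) := QuotientGroup.mk'_surjective A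
  haveI : (H.map (QuotientGroup.mk' A)).FiniteIndex :=
    ⟨fun h0 => Subgroup.FiniteIndex.index_ne_zero (H := H)
      (Nat.eq_zero_of_zero_dvd (h0 ▸ Subgroup.index_map_dvd H hsurj))⟩
  obtain ⟨m, hm, h1⟩ := tor_quot (Q := G ⧸ A) (by
      intro φ h g
      obtain ⟨g, rfl⟩ := hsurj g
      exact hφ (fun a => φ (QuotientGroup.mk' A a)) (fun a b => by
        simp only [map_mul]; exact h _ _) g)
    (H.map (QuotientGroup.mk' A)) (by
      rintro _ ⟨a, ha, rfl⟩ _ ⟨b, hb, rfl⟩
      have h1 : QuotientGroup.mk' A (a * b * a⁻¹ * b⁻¹) = 1 :=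
        (QuotientGroup.eq_one_iff _).2 (hH a ha b hb)
      simp only [map_mul, map_inv] at h1
      rw [mul_inv_eq_one, mul_inv_eq_iff_eq_mul] at h1
      exact h1)
    (QuotientGroup.mk' A x) (by
      intro h
      obtain ⟨h, rfl⟩ := hsurj h
      have h1 : QuotientGroup.mk' A (h * x * h⁻¹ * x⁻¹) = 1 :=
        (QuotientGroup.eq_one_iff _).2 (hx h)
      simp only [map_mul, map_inv] at h1
      rw [mul_inv_eq_one, mul_inv_eq_iff_eq_mul] at h1
      exact h1)
  refine ⟨m, hm, ?_⟩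
  rw [← map_pow] at h1
  exact (QuotientGroup.eq_one_iff _).1 h1

end Pool.Agent.Lib.MP_94a9ea_al.H25
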