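import Pool.Agent.Lib.MP_1d2f05_al.Mean
import Pool.Agent.Lib.MP_94a9ea_al.H25.Mech
import Pool.Agent.Lib.MP_94a9ea_al.H25.Fin
import Pool.Agent.Lib.MP_94a9ea_al.H25.BH
import Pool.Agent.Lib.MP_94a9ea_al.H25.PFin
import Pool.Agent.Lib.MP_94a9ea_al.H25.Tor

set_option autoImplicit false

namespace Pool.Agent.Lib.MP_94a9ea_al.H25
namespace Amen
open Pool.Agent.Lib.MP_1d2f05_al Mech

theorem lay_const {X : Type} {μ : Set X → ℝ} (h : FA μ) (K c : ℕ) (hc : c ≤ K) :
    lay μ K (fun _ => c) = c := by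
  have := h.lay_eq (fun _ => ()) {()} (fun _ => by simp) K (fun _ => c) (fun _ _ => hc)
  rw [this, Finset.sum_singleton]
  have e : (fun _ : X => ()) ⁻¹' {()} = Set.univ := by ext; simp
  rw [e, h.univ, mul_one]

theorem lay_big {X : Type} {μ : Set X → ℝ} (h : FA μ) (K L : ℕ) (a : X → ℕ) (ha : ∀ x, a x ≤ K)
    (hKL : K ≤ L) : lay μ L a = lay μ K a := by
  induction L, hKL using Nat.le_induction with
  | base => rfl
  | succ L hL ih =>
    rw [← ih, lay, Finset.sum_range_succ]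
    have : {x | L < a x} = ∅ := by
      ext x
      have := ha x
      simp only [Set.mem_ofPred_eq, Set.mem_empty_iff_false, iff_false]
      omega
    rw [this, h.empty, add_zero]; rfl

/-- Averaging a function with bounded left increments. -/
theorem avg {G : Type} [Group G] (hG : HasMean G) (F : G → ℤ)
    (hF : ∀ g, ∃ K : ℕ, ∀ h, |F (g * h) - F h| ≤ K) :
    ∃ ψ : G → ℝ, (∀ x y, ψ (x * y) = ψ x + ψ y) ∧
      ∀ g (c : ℤ), (∀ h, F (g * h) - F h ≤ c) → ψ g ≤ c := by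
  obtain ⟨μ, hμ, hi⟩ := (hasMean_iff _).1 hG
  choose K hK using hF
  let u : G → G → ℕ := fun g h => (F (g * h) - F h + K g).toNat
  have hu : ∀ g h, (u g h : ℤ) = F (g * h) - F h + K g := fun g h =>
    Int.toNat_of_nonneg (by have := abs_le.1 (hK g h); omega)
  have hb : ∀ g h, u g h ≤ 2 * K g := fun g h => by
    have := abs_le.1 (hK g h)
    have := hu g h
    omega
  refine ⟨fun g => lay μ (2 * K g) (u g) - K g, fun x y => ?_, fun g c hg => ?_⟩
  · let M := 2 * K x + 2 * K y + 2 * K (x * y)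
    have e : (fun h => u (x * y) h + (K x + K y)) =
        fun h => (u x (y * h) + u y h) + K (x * y) := by
      funext h
      have h1 := hu (x * y) h
      have h2 := hu x (y * h)
      have h3 := hu y h
      rw [← mul_assoc] at h2
      omega
    have h1 := hμ.lay_add M (u (x * y)) (fun _ => K x + K y) fun h => by
      have := hb (x * y) h
      omega
    have h2 := hμ.lay_add M (fun h => u x (y * h) + u y h) (fun _ => K (x * y)) fun h => by
      have := hb x (y * h)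
      have := hb y h
      omega
    have h3 := hμ.lay_add M (fun h => u x (y * h)) (u y) fun h => by
      have := hb x (y * h)
      have := hb y h
      omega
    have h4 : lay μ M (fun h => u x (y * h)) = lay μ M (u x) :=
      Finset.sum_congr rfl fun j _ => hi y {h | j < u x h}
    rw [e, h2, h3, h4, lay_const hμ M _ (by omega), lay_const hμ M _ (by omega),
      lay_big hμ _ M _ (hb x) (by omega), lay_big hμ _ M _ (hb y) (by omega),
      lay_big hμ _ M _ (hb (x * y)) (by omega)] at h1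
    push_cast at h1
    show _ - _ = _ - _ + (_ - _)
    linarith
  · have h1 : ((K g + c).toNat : ℤ) = K g + c := Int.toNat_of_nonneg (by
      have := abs_le.1 (hK g 1)
      have := hg 1
      omega)
    have h2 := hμ.lay_le (2 * K g) (K g + c).toNat (u g) fun h => by
      have := hu g h
      have := hg h
      omega
    have h3 : ((K g + c).toNat : ℝ) = K g + c := by exact_mod_cast h1
    show _ - _ ≤ _
    linarith

variable {G : Type} [Group G]

/-- Products of conjugates, possibly empty. -/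
def P (x g : G) : Prop := g = 1 ∨ S x g

lemma P.mul {x g h : G} (hg : P x g) (hh : P x h) : P x (g * h) := by
  rcases hg with rfl | hg
  · rwa [one_mul]
  · rcases hh with rfl | hh
    · rw [mul_one]; exact Or.inr hg
    · exact Or.inr (hg.mul hh)

lemma P.cj {x g : G} (hg : P x g) (k : G) : P x (k * g * k⁻¹) := by
  rcases hg with rfl | hg
  · left; group
  · exact Or.inr (hg.cj k)

lemma P.list {x : G} (l : List G) (hl : ∀ y ∈ l, P x y) : P x l.prod := by
  induction l with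
  | nil => exact Or.inl rfl
  | cons a l ih =>
    rw [List.prod_cons]
    exact (hl a (List.mem_cons_self ..)).mul (ih fun y hy => hl y (List.mem_cons_of_mem _ hy))

lemma P.dom {x : G} (l : List G) (hl : ∀ y ∈ l, P x y) {y : G} (hy : y ∈ l) :
    P x (l.prod * y⁻¹) := by
  obtain ⟨s, t, rfl⟩ := List.append_of_mem hy
  have h1 := P.list s fun z hz => hl z (by simp [hz])
  have h2 := P.list t fun z hz => hl z (by simp [hz])
  have e : (s ++ y :: t).prod * y⁻¹ = s.prod * (y * t.prod * y⁻¹) := by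
    rw [List.prod_append, List.prod_cons]; group
  rw [e]
  exact h1.mul (h2.cj y)

lemma P.pow {x z : G} (hz : P x z) (k : ℕ) : P x (z ^ k) := by
  induction k with
  | zero => exact Or.inl (pow_zero z)
  | succ k ih => rw [pow_succ]; exact ih.mul hz

lemma P.mem {x g : G} (hg : P x g) : g ∈ Subgroup.normalClosure {x} := by
  rcases hg with rfl | hg
  · exact one_mem _
  · induction hg with
    | conj h =>
      simpa using (Subgroup.normalClosure_normal (s := {x})).conj_mem x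
        (Subgroup.subset_normalClosure rfl) h⁻¹
    | mul _ _ h1 h2 => exact mul_mem h1 h2

lemma sub_add {x z g h : G} {k l : ℤ} (hg : P x (z ^ k * g)) (hh : P x (z ^ l * h)) :
    P x (z ^ (k + l) * (g * h)) := by
  have e : z ^ (k + l) * (g * h) = z ^ l * (z ^ k * g) * (z ^ l)⁻¹ * (z ^ l * h) := by group
  rw [e]
  exact (hg.cj _).mul hh

section
variable {A : Subgroup G} [hn : A.Normal] (hA : ∀ a ∈ A, ∀ b ∈ A, a * b = b * a)
include hA

lemma one_dom (x : G) : ∀ n ∈ Subgroup.normalClosure {x}, ∃ z, P x z ∧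
    (∀ a ∈ A, P x (z * (a * n * a⁻¹))) ∧ ∀ a ∈ A, P x (z * (a * n⁻¹ * a⁻¹)) := by
  intro n hn'
  induction hn' using Subgroup.closure_induction with
  | mem y hy =>
    obtain ⟨b, hb, hc⟩ := Group.mem_conjugatesOfSet_iff.1 hy
    obtain ⟨c, hc⟩ := isConj_iff.1 hc
    rw [show b = x from hb] at hc
    have h1 : P x y := Or.inr ((S.conj c⁻¹).of_eq (by rw [← hc]; group))
    refine ⟨y * y, h1.mul h1, fun a _ => (h1.mul h1).mul (h1.cj a), fun a ha => ?_⟩
    have e1 := hA _ (hn.conj_mem a ha y) _ (A.inv_mem ha)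
    have e : y * y * (a * y⁻¹ * a⁻¹) = y * a⁻¹ * y * (y * a⁻¹)⁻¹ := by
      calc _ = y * (y * a * y⁻¹ * a⁻¹) := by group
        _ = y * (a⁻¹ * (y * a * y⁻¹)) := by rw [e1]
        _ = _ := by group
    rw [e]
    exact h1.cj _
  | one => exact ⟨1, Or.inl rfl, fun a _ => Or.inl (by simp), fun a _ => Or.inl (by simp)⟩
  | mul a b _ _ ha hb =>
    obtain ⟨z, h1, h2, h3⟩ := ha
    obtain ⟨w, h4, h5, h6⟩ := hb
    refine ⟨w * z * w, (h4.mul h1).mul h4, fun c hc => ?_, fun c hc => ?_⟩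
    · have e : w * z * w * (c * (a * b) * c⁻¹) = w * z * w * (w * z)⁻¹ *
          (w * (z * (c * a * c⁻¹)) * w⁻¹ * (w * (c * b * c⁻¹))) := by group
      rw [e]
      exact (h4.cj _).mul (((h2 c hc).cj _).mul (h5 c hc))
    · have e : w * z * w * (c * (a * b)⁻¹ * c⁻¹) =
          w * (z * (w * (c * b⁻¹ * c⁻¹)) * z⁻¹ * (z * (c * a⁻¹ * c⁻¹))) := by group
      rw [e]
      exact h4.mul (((h6 c hc).cj _).mul (h3 c hc))
  | inv a _ ha =>
    obtain ⟨z, h1, h2, h3⟩ := ha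
    exact ⟨z, h1, h3, by rwa [inv_inv]⟩

lemma fin_dom (x : G) {ι : Type} [Fintype ι] (t : ι → G)
    (ht : ∀ i, t i ∈ Subgroup.normalClosure {x}) : ∃ z, S x z ∧ ∀ i,
    (∀ a ∈ A, P x (z ^ (1 : ℤ) * (a * t i * a⁻¹))) ∧
      ∀ a ∈ A, P x (z ^ (1 : ℤ) * (a * (t i)⁻¹ * a⁻¹)) := by
  choose ζ h1 h2 h3 using fun i => one_dom hA x (t i) (ht i)
  have hx : S x x := (S.conj 1).of_eq (by group)
  let l : List G := (Finset.univ : Finset ι).toList.map ζ
  have hl : ∀ y ∈ l, P x y := fun y hy => by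
    obtain ⟨t, -, rfl⟩ := List.mem_map.1 hy
    exact h1 t
  have hd : ∀ (i : ι) (u : G), P x (ζ i * u) → P x ((x * l.prod) ^ (1 : ℤ) * u) := fun i u hu => by
    have e : (x * l.prod) ^ (1 : ℤ) * u = x * (l.prod * (ζ i)⁻¹ * (ζ i * u)) := by group
    rw [e]
    exact P.mul (Or.inr hx) ((P.dom l hl (List.mem_map.2 ⟨i, by simp, rfl⟩)).mul hu)
  refine ⟨x * l.prod, ?_, fun i => ⟨fun a ha => hd i _ (h2 i a ha), fun a ha => hd i _ (h3 i a ha)⟩⟩
  rcases P.list l hl with h | h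
  · rwa [h, mul_one]
  · exact hx.mul h

/-- A dominant element exists. -/
lemma dominant [Group.FG G] (x : G) [(Subgroup.normalClosure {x} ⊔ A).FiniteIndex] :
    ∃ z, S x z ∧ ∀ n ∈ Subgroup.normalClosure {x}, ∃ k : ℤ, P x (z ^ k * n) := by
  classical
  set N := Subgroup.normalClosure {x} with hN
  obtain ⟨T, hT⟩ := (Group.fg_iff_subgroup_fg _).1 (Subgroup.fg_of_index_ne_zero (N ⊔ A))
  have hdec : ∀ t : T, ∃ n ∈ N, ∃ a ∈ A, n * a = t := fun t =>
    Subgroup.mem_sup_of_normal_right.1 (hT ▸ Subgroup.subset_closure t.2)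
  choose ν hν α hα hνα using hdec
  have : Fintype (G ⧸ (N ⊔ A)) := Fintype.ofFinite _
  have hx : x ∈ N := Subgroup.subset_normalClosure rfl
  obtain ⟨z, hz, hd⟩ := fin_dom hA x
    (Sum.elim ν fun q : G ⧸ (N ⊔ A) => q.out * x * q.out⁻¹) (by
      rintro (t | q)
      · exact hν t
      · exact (inferInstance : N.Normal).conj_mem x hx _)
  let D : Subgroup G :=
    { carrier := {n | (∃ k : ℤ, ∀ a ∈ A, P x (z ^ k * (a * n * a⁻¹))) ∧
        ∃ k : ℤ, ∀ a ∈ A, P x (z ^ k * (a * n⁻¹ * a⁻¹))}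
      one_mem' := ⟨⟨0, fun a _ => Or.inl (by simp)⟩, 0, fun a _ => Or.inl (by simp)⟩
      mul_mem' := by
        rintro u v ⟨⟨k, hu⟩, k', hu'⟩ ⟨⟨j, hv⟩, j', hv'⟩
        refine ⟨⟨k + j, fun a ha => ?_⟩, j' + k', fun a ha => ?_⟩
        · convert sub_add (hu a ha) (hv a ha) using 2
          group
        · convert sub_add (hv' a ha) (hu' a ha) using 2
          group
      inv_mem' := fun {u} hu => ⟨hu.2, by rw [inv_inv]; exact hu.1⟩ }
  have hDA : ∀ b ∈ A, ∀ u ∈ D, b * u * b⁻¹ ∈ D := by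
    rintro b hb u ⟨⟨k, hu⟩, k', hu'⟩
    refine ⟨⟨k, fun a ha => ?_⟩, k', fun a ha => ?_⟩
    · convert hu (a * b) (mul_mem ha hb) using 2
      group
    · convert hu' (a * b) (mul_mem ha hb) using 2
      group
  have hB : N ⊔ A ≤ Subgroup.normalizer (D : Set G) := by
    rw [← hT, Subgroup.closure_le]
    intro t ht
    have e : t = ν ⟨t, ht⟩ * α ⟨t, ht⟩ := (hνα ⟨t, ht⟩).symm
    rw [e]
    refine mul_mem (Subgroup.le_normalizer
      (⟨⟨1, (hd (Sum.inl ⟨t, ht⟩)).1⟩, 1, (hd (Sum.inl ⟨t, ht⟩)).2⟩ : ν ⟨t, ht⟩ ∈ D)) ?_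
    refine Subgroup.mem_normalizer_iff.2 fun u => ⟨hDA _ (hα _) u, fun h => ?_⟩
    have := hDA _ (A.inv_mem (hα ⟨t, ht⟩)) _ h
    convert this using 1
    group
  have hND : N ≤ D := by
    refine (Subgroup.closure_le _).2 fun y hy => ?_
    obtain ⟨b, hb, hc⟩ := Group.mem_conjugatesOfSet_iff.1 hy
    obtain ⟨c, rfl⟩ := isConj_iff.1 hc
    rw [show b = x from hb]
    set r := (c : G ⧸ (N ⊔ A)).out with hr
    have h1 : r⁻¹ * c ∈ N ⊔ A := QuotientGroup.eq.1 (QuotientGroup.out_eq' _)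
    have h2 := (inferInstance : (N ⊔ A).Normal).conj_mem _ h1 r
    have h3 : r * x * r⁻¹ ∈ D := ⟨⟨1, (hd (Sum.inr c)).1⟩, 1, (hd (Sum.inr c)).2⟩
    have := (Subgroup.mem_normalizer_iff.1 (hB h2) _).1 h3
    rw [show c * x * c⁻¹ = r * (r⁻¹ * c) * r⁻¹ * (r * x * r⁻¹) * (r * (r⁻¹ * c) * r⁻¹)⁻¹ by group]
    exact this
  refine ⟨z, hz, fun n hn' => ?_⟩
  obtain ⟨k, hk⟩ := (hND hn').1
  exact ⟨k, by simpa using hk 1 (one_mem _)⟩

omit hn in
/-- A character of a subgroup of an abelian normal subgroup extends. -/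
lemma ext_char (N : Subgroup G) (ρ : G → ℝ) (hρ : ∀ u ∈ N, ∀ v ∈ N, ρ (u * v) = ρ u + ρ v) :
    ∃ l : G → ℝ, (∀ u ∈ A, ∀ v ∈ A, l (u * v) = l u + l v) ∧ ∀ u ∈ A, u ∈ N → l u = ρ u := by
  classical
  let _ : CommGroup A := { (inferInstance : Group A) with
    mul_comm := fun a b => Subtype.ext (hA a a.2 b b.2) }
  let f : Additive (N.subgroupOf A) →+ ℝ := AddMonoidHom.mk' (fun u => ρ (u.toMul.1 : G))
    fun u v => hρ _ u.toMul.2 _ v.toMul.2
  obtain ⟨g, hg⟩ := (Module.Baer.of_divisible ℝ).extension_property_addMonoidHom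
    (MonoidHom.toAdditive (N.subgroupOf A).subtype) Subtype.val_injective f
  refine ⟨fun u => if h : u ∈ A then g (Additive.ofMul ⟨u, h⟩) else 0, fun u hu v hv => ?_,
    fun u hu hu' => ?_⟩
  · simp only [hu, hv, A.mul_mem hu hv, dif_pos]
    exact map_add g (Additive.ofMul ⟨u, hu⟩) (Additive.ofMul ⟨v, hv⟩)
  · simp only [hu, dif_pos]
    exact DFunLike.congr_fun hg (Additive.ofMul ⟨⟨u, hu⟩, hu'⟩)

/-- The generalized torsion criterion. -/
theorem gen_tor [Group.FG G] (hG : HasMean G)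
    (hφ : ∀ φ : G → ℝ, (∀ x y, φ (x * y) = φ x + φ y) → ∀ g, φ g = 0) (x : G)
    [(Subgroup.normalClosure {x} ⊔ A).FiniteIndex] : S x 1 := by
  classical
  by_contra hS
  obtain ⟨z, hz, hdom⟩ := dominant hA x
  set N := Subgroup.normalClosure {x} with hN
  have hNn : N.Normal := inferInstance
  have hpos : ∀ k : ℤ, P x (z ^ k) → 0 ≤ k := by
    intro k hk
    by_contra h
    obtain ⟨m, hm⟩ : ∃ m : ℕ, k = -((m : ℤ) + 1) := ⟨(-k - 1).toNat, by omega⟩
    have h1 := hk.mul (P.pow (Or.inr hz) m)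
    have e : z ^ k * z ^ m = z⁻¹ := by rw [hm]; group
    rw [e] at h1
    rcases h1 with h1 | h1
    · exact hS (hz.of_eq (inv_eq_one.1 h1))
    · exact hS ((hz.mul h1).of_eq (mul_inv_cancel z))
  have hex : ∀ n : G, ∃ k : ℤ, n ∈ N → P x (z ^ k * n) ∧ ∀ j : ℤ, P x (z ^ j * n) → k ≤ j := by
    intro n
    by_cases hn : n ∈ N
    · obtain ⟨l, hl⟩ := hdom _ (inv_mem hn)
      obtain ⟨k, hk⟩ := Int.exists_least_of_bdd (P := fun k => P x (z ^ k * n))
        ⟨-l, fun j hj => by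
          have := sub_add hj hl
          rw [mul_inv_cancel, mul_one] at this
          have := hpos _ this
          omega⟩ (hdom n hn)
      exact ⟨k, fun _ => hk⟩
    · exact ⟨0, fun h => absurd h hn⟩
  choose f hf using hex
  have fsub : ∀ a ∈ N, ∀ b ∈ N, f (a * b) ≤ f a + f b := fun a ha b hb =>
    (hf _ (mul_mem ha hb)).2 _ (sub_add (hf a ha).1 (hf b hb).1)
  obtain ⟨ψ, h1, h2⟩ := avg (hasMean_sub N G N.subtype N.subtype_injective hG)
    (fun h => f h) fun g => ⟨(f g).natAbs + (f (g : G)⁻¹).natAbs, fun h => by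
      have k2 := fsub _ g.2 _ h.2
      have k3 := fsub _ (inv_mem g.2) _ (mul_mem g.2 h.2)
      rw [inv_mul_cancel_left] at k3
      rw [Subgroup.coe_mul, abs_le]
      omega⟩
  let ρ : G → ℝ := fun u => if h : u ∈ N then ψ ⟨u, h⟩ else 0
  have hρ : ∀ u ∈ N, ∀ v ∈ N, ρ (u * v) = ρ u + ρ v := fun u hu v hv => by
    simp only [ρ, hu, hv, N.mul_mem hu hv, dif_pos]
    exact h1 ⟨u, hu⟩ ⟨v, hv⟩
  have hρf : ∀ u ∈ N, ∀ k : ℤ, P x (z ^ k * u) → ρ u ≤ k := fun u hu k hk => by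
    simp only [ρ, hu, dif_pos]
    refine h2 ⟨u, hu⟩ k fun h => ?_
    have k1 := fsub _ hu _ h.2
    have k2 := (hf u hu).2 k hk
    show f (u * h) - f h ≤ k
    omega
  have hρP : ∀ u, P x u → ρ u ≤ 0 := fun u hu => by
    simpa using hρf u hu.mem 0 (by simpa using hu)
  have hzN : z ∈ N := P.mem (Or.inr hz)
  have hρz : ρ z ≤ -1 := by simpa using hρf z hzN (-1) (Or.inl (by simp))
  have ρ1 : ρ 1 = 0 := by simpa using hρ 1 (one_mem _) 1 (one_mem _)
  have ρinv : ∀ u ∈ N, ρ u⁻¹ = -ρ u := fun u hu => by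
    have := hρ u hu _ (inv_mem hu)
    rw [mul_inv_cancel, ρ1] at this
    linarith
  -- invariance under `A`
  have hinv : ∀ n ∈ N, ∀ a ∈ A, ρ (a * n * a⁻¹) = ρ n := by
    intro n hn'
    induction hn' using Subgroup.closure_induction with
    | mem y hy =>
      obtain ⟨b, hb, hc⟩ := Group.mem_conjugatesOfSet_iff.1 hy
      obtain ⟨c, hc⟩ := isConj_iff.1 hc
      rw [show b = x from hb] at hc
      have k1 : P x y := Or.inr ((S.conj c⁻¹).of_eq (by rw [← hc]; group))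
      have hy' : y ∈ N := k1.mem
      have dm : ∀ a : G, (d y a)⁻¹ ∈ N := fun a => by
        have := mul_mem (hNn.conj_mem y hy' a) (inv_mem hy')
        convert this using 1
        simp only [d]; group
      have k2 : ∀ a : G, ρ (a * y * a⁻¹) = ρ (d y a)⁻¹ + ρ y := fun a => by
        rw [← hρ _ (dm a) _ hy']
        congr 1
        simp only [d]; group
      have k3 : ∀ a ∈ A, ∀ m : ℕ, ρ (d y (a ^ m))⁻¹ = m * ρ (d y a)⁻¹ := by
        intro a ha m
        induction m with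
        | zero => simp [d_one, ρ1]
        | succ m ih =>
          rw [pow_succ, d_mul hA y (A.pow_mem ha m) ha, mul_inv_rev, hρ _ (dm _) _ (dm _), ih]
          push_cast; ring
      have k4 : ∀ a ∈ A, ρ (d y a)⁻¹ ≤ 0 := by
        intro a ha
        by_contra hc
        push Not at hc
        obtain ⟨m, hm⟩ := exists_nat_gt (-ρ y / ρ (d y a)⁻¹)
        have := hρP _ (k1.cj (a ^ m))
        rw [k2, k3 a ha] at this
        rw [div_lt_iff₀ hc] at hm
        linarith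
      intro a ha
      have k5 := k4 _ (A.inv_mem ha)
      rw [d_inv hA y ha, ρinv _ (dm a)] at k5
      rw [k2]
      linarith [k4 a ha]
    | one => intro a _; simp
    | mul u v hu hv ihu ihv =>
      intro a ha
      rw [show a * (u * v) * a⁻¹ = a * u * a⁻¹ * (a * v * a⁻¹) by group,
        hρ _ (hNn.conj_mem u hu a) _ (hNn.conj_mem v hv a), ihu a ha, ihv a ha, hρ u hu v hv]
    | inv u hu ih =>
      intro a ha
      rw [show a * u⁻¹ * a⁻¹ = (a * u * a⁻¹)⁻¹ by group, ρinv _ (hNn.conj_mem u hu a), ih a ha,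
        ρinv u hu]
  -- extension to `N ⊔ A`
  obtain ⟨l, hl, hlρ⟩ := ext_char hA N ρ hρ
  have hdec : ∀ b : G, ∃ n a : G, b ∈ N ⊔ A → n ∈ N ∧ a ∈ A ∧ n * a = b := fun b => by
    by_cases hb : b ∈ N ⊔ A
    · obtain ⟨n, h1, a, h2, h3⟩ := Subgroup.mem_sup_of_normal_right.1 hb
      exact ⟨n, a, fun _ => ⟨h1, h2, h3⟩⟩
    · exact ⟨1, 1, fun h => absurd h hb⟩
  choose ν α hνα using hdec
  let σ : G → ℝ := fun b => ρ (ν b) + l (α b)
  have hσ : ∀ n ∈ N, ∀ a ∈ A, σ (n * a) = ρ n + l a := by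
    intro n hn' a ha
    obtain ⟨k1, k2, k3⟩ := hνα (n * a) (Subgroup.mul_mem_sup hn' ha)
    have k4 : n⁻¹ * ν (n * a) = a * (α (n * a))⁻¹ := by
      rw [inv_mul_eq_iff_eq_mul, ← mul_assoc, eq_mul_inv_iff_mul_eq, k3]
    have k5 := hlρ _ (mul_mem ha (inv_mem k2)) (k4 ▸ mul_mem (inv_mem hn') k1)
    have k6 := hl _ (mul_mem ha (inv_mem k2)) _ k2
    have k7 := hρ _ hn' _ (mul_mem (inv_mem hn') k1)
    rw [inv_mul_cancel_right] at k6
    rw [mul_inv_cancel_left, k4] at k7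
    simp only [σ]
    linarith
  have hσa : ∀ u ∈ N ⊔ A, ∀ v ∈ N ⊔ A, σ (u * v) = σ u + σ v := by
    intro u hu v hv
    obtain ⟨n, k1, a, k2, rfl⟩ := Subgroup.mem_sup_of_normal_right.1 hu
    obtain ⟨n', k3, a', k4, rfl⟩ := Subgroup.mem_sup_of_normal_right.1 hv
    rw [show n * a * (n' * a') = n * (a * n' * a⁻¹) * (a * a') by group,
      hσ _ (mul_mem k1 (hNn.conj_mem _ k3 a)) _ (mul_mem k2 k4), hσ _ k1 _ k2, hσ _ k3 _ k4,
      hρ _ k1 _ (hNn.conj_mem _ k3 a), hinv _ k3 _ k2, hl _ k2 _ k4]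
    ring
  have l1 : l 1 = 0 := by simpa using hl 1 (one_mem _) 1 (one_mem _)
  have hσρ : ∀ n ∈ N, σ n = ρ n := fun n hn' => by
    simpa [l1] using hσ n hn' 1 (one_mem _)
  -- transfer
  have : Fintype (G ⧸ (N ⊔ A)) := Fintype.ofFinite _
  let c : G → G ⧸ (N ⊔ A) → G := fun g q => ((g : G ⧸ (N ⊔ A)) * q).out⁻¹ * (g * q.out)
  have hc : ∀ g q, c g q ∈ N ⊔ A := fun g q => QuotientGroup.eq.1 (by
    rw [QuotientGroup.out_eq', QuotientGroup.mk_mul, QuotientGroup.out_eq'])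
  have h3 := hφ (fun g => ∑ q, σ (c g q)) (fun g g' => by
    rw [← Equiv.sum_comp (Equiv.mulLeft (g' : G ⧸ (N ⊔ A))) (fun q => σ (c g q)),
      ← Finset.sum_add_distrib]
    refine Finset.sum_congr rfl fun q _ => ?_
    rw [← hσa _ (hc _ _) _ (hc _ _)]
    congr 1
    simp only [c, Equiv.coe_mulLeft, QuotientGroup.mk_mul, mul_assoc, mul_inv_cancel_left]) z
  have hz1 : (z : G ⧸ (N ⊔ A)) = 1 := (QuotientGroup.eq_one_iff _).2 (Subgroup.mem_sup_left hzN)
  have h4 : ∀ q, σ (c z q) ≤ 0 := fun q => by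
    have k1 : P x (c z q) := by
      have := P.cj (Or.inr hz) q.out⁻¹
      convert this using 1
      simp only [c, hz1, one_mul]; group
    rw [hσρ _ k1.mem]
    exact hρP _ k1
  have h5 : σ (c z 1) ≤ -1 := by
    have k1 : (1 : G ⧸ (N ⊔ A)).out ∈ N ⊔ A :=
      (QuotientGroup.eq_one_iff _).1 (QuotientGroup.out_eq' _)
    have k2 := hσa _ k1 _ (hc z 1)
    have k3 := hσa _ (Subgroup.mem_sup_left hzN) _ k1
    simp only [c, hz1, one_mul, mul_inv_cancel_left] at k2 ⊢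
    rw [hσρ _ hzN] at k3
    linarith
  have h6 := (Finset.sum_eq_zero_iff_of_nonpos fun q _ => h4 q).1 h3 1 (Finset.mem_univ _)
  linarith

end

end Amen

open Amen Pool.Agent.Lib.MP_1d2f05_al in
theorem pos_amen (G : Type) [Group G] (hG : HasMean G)
    (hK : ∀ K : Subgroup G, K.FG → (commutator K).FiniteIndex →
      ∃ (A : Subgroup K) (x : K), A.Normal ∧ (∀ a ∈ A, ∀ b ∈ A, a * b = b * a) ∧
        (Subgroup.normalClosure {x} ⊔ A).FiniteIndex)
    (hR : ∀ g : G, g ≠ 1 → ∀ l : List G, l ≠ [] → (l.map (fun h => h⁻¹ * g * h)).prod ≠ 1) :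
    ∃ o : LinearOrder G, ∀ a b c : G, o.le a b → o.le (a * c) (b * c) := by
  classical
  refine bh_st G fun K hfg hne => ?_
  by_contra hcon
  have : Group.FG K := (Group.fg_iff_subgroup_fg K).2 hfg
  have hφ : ∀ φ : K → ℝ, (∀ x y, φ (x * y) = φ x + φ y) → ∀ g, φ g = 0 := by
    intro φ h g
    by_contra hg
    refine hcon ⟨fun x => if hx : x ∈ K then φ ⟨x, hx⟩ else 0, fun x hx y hy => ?_, g, g.2, ?_⟩
    · simp only [hx, hy, K.mul_mem hx hy, dif_pos]
      exact h ⟨x, hx⟩ ⟨y, hy⟩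
    · simpa using hg
  have hRK : ∀ g : K, g ≠ 1 → ∀ l : List K, l ≠ [] →
      (l.map (fun h => h⁻¹ * g * h)).prod ≠ 1 := by
    intro g hg l hl h
    refine hR g (fun e => hg (Subtype.ext e)) (l.map K.subtype)
      (fun e => hl (List.map_eq_nil_iff.1 e)) ?_
    have := congrArg K.subtype h
    rw [map_list_prod, List.map_map, map_one] at this
    rw [List.map_map]
    exact this
  obtain ⟨A, x, hAn, hA, hx⟩ := hK K hfg (finiteIndex_commutator hφ)
  obtain ⟨l, h1, h2⟩ := (gen_tor hA (hasMean_sub K G K.subtype K.subtype_injective hG) hφ x).list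
  have hx1 : x = 1 := by
    by_contra h
    exact hRK x h l h1 h2
  have hb : Subgroup.normalClosure {x} ⊔ A ≤ A :=
    sup_le (Subgroup.normalClosure_le_normal (by rw [hx1]; simp)) le_rfl
  have := Subgroup.finiteIndex_of_le hb
  apply hne
  rw [eq_bot_iff]
  intro g hg
  exact congrArg Subtype.val (virt_ab tor_st hφ hRK A hA ⟨g, hg⟩)

end Pool.Agent.Lib.MP_94a9ea_al.H25
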