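import Pool.Agent.Lib.MP_94a9ea_al.H25.FSt

set_option autoImplicit false

namespace Pool.Agent.Lib.MP_94a9ea_al.H25

namespace BSx

variable {G : Type} [Group G]

theorem cj_cj (a u v : G) : cj (cj a u) v = cj a (u * v) := by unfold cj; group
theorem cj_mul (a b w : G) : cj (a * b) w = cj a w * cj b w := by unfold cj; group
theorem cj_inv (a w : G) : cj a⁻¹ w = (cj a w)⁻¹ := by unfold cj; group
theorem cj_one (a : G) : cj a 1 = a := by unfold cj; group
theorem one_cj (w : G) : cj 1 w = 1 := by unfold cj; group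
theorem cj_cj' (a u w : G) : cj (cj a u) w = cj (cj a w) (cj u w) := by unfold cj; group

theorem cj_comm {a z : G} (h : Commute a z) : cj a z = a := by
  unfold cj
  rw [mul_assoc, h.eq, inv_mul_cancel_left]

theorem comm_cj {a b : G} (h : Commute a b) (w : G) : Commute (cj a w) (cj b w) := by
  change cj a w * cj b w = cj b w * cj a w
  rw [← cj_mul, ← cj_mul, h.eq]

theorem comm_of_cj {a b w : G} (h : Commute (cj a w) (cj b w)) : Commute a b := by
  have := comm_cj h w⁻¹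
  rwa [cj_cj, cj_cj, mul_inv_cancel, cj_one, cj_one] at this

theorem cj_zpow (x s : G) (i : ℤ) : cj (x ^ i) s = cj x s ^ i := by
  have := conj_zpow (i := i) (a := s⁻¹) (b := x)
  rw [inv_inv] at this
  exact this.symm

theorem clo_cj {S : Set G} {W : Subgroup G} {w : G} (h : ∀ g ∈ S, cj g w ∈ W) :
    ∀ g ∈ Subgroup.closure S, cj g w ∈ W := by
  intro g hg
  induction hg using Subgroup.closure_induction with
  | mem g hg => exact h g hg
  | one => rw [one_cj]; exact W.one_mem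
  | mul a b _ _ ha hb => rw [cj_mul]; exact W.mul_mem ha hb
  | inv a _ ha => rw [cj_inv]; exact W.inv_mem ha

theorem clo_comm {S : Set G} (h : ∀ a ∈ S, ∀ b ∈ S, Commute a b) :
    ∀ a ∈ Subgroup.closure S, ∀ b ∈ Subgroup.closure S, Commute a b := by
  have h1 : ∀ a : G, (∀ b ∈ S, Commute a b) → ∀ b ∈ Subgroup.closure S, Commute a b := by
    intro a ha b hb
    induction hb using Subgroup.closure_induction with
    | mem g hg => exact ha g hg
    | one => exact Commute.one_right a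
    | mul b c _ _ hb hc => exact hb.mul_right hc
    | inv b _ hb => exact hb.inv_right
  intro a ha b hb
  exact h1 a (fun c hc => (h1 c (fun d hd => h c hc d hd) a ha).symm) b hb

/-- elements that normalise `W` -/
def nm (W : Subgroup G) : Subgroup G where
  carrier := {y | (∀ g ∈ W, cj g y ∈ W) ∧ ∀ g ∈ W, cj g y⁻¹ ∈ W}
  one_mem' := ⟨fun g hg => by rwa [cj_one], fun g hg => by rwa [inv_one, cj_one]⟩
  mul_mem' := by
    rintro a b ⟨h1, h2⟩ ⟨h3, h4⟩
    refine ⟨fun g hg => ?_, fun g hg => ?_⟩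
    · rw [← cj_cj]; exact h3 _ (h1 g hg)
    · rw [mul_inv_rev, ← cj_cj]; exact h2 _ (h4 g hg)
  inv_mem' := by
    rintro a ⟨h1, h2⟩
    exact ⟨h2, by rwa [inv_inv]⟩

theorem le_nm (W : Subgroup G) : W ≤ nm W := fun _ hy =>
  ⟨fun _ hg => W.mul_mem (W.mul_mem (W.inv_mem hy) hg) hy,
    fun _ hg => W.mul_mem (W.mul_mem (W.inv_mem (W.inv_mem hy)) hg) (W.inv_mem hy)⟩

theorem rearr {p q r p' q' r' : G} (h1 : Commute q p') (h2 : Commute r p') (h3 : Commute q q')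
    (h4 : Commute r q') :
    p * q⁻¹ * r * (p' * q'⁻¹ * r') = p * p' * (q * q')⁻¹ * (r * r') := by
  have e1 : q⁻¹ * r * (p' * q'⁻¹) = p' * q'⁻¹ * (q⁻¹ * r) :=
    ((h1.inv_left.mul_left h2).mul_right (h3.inv_left.mul_left h4).inv_right).eq
  calc p * q⁻¹ * r * (p' * q'⁻¹ * r') = p * (q⁻¹ * r * (p' * q'⁻¹)) * r' := by group
    _ = p * (p' * q'⁻¹ * (q⁻¹ * r)) * r' := by rw [e1]
    _ = _ := by group

theorem rearr' {p q r : G} (h1 : Commute p q) (h2 : Commute p r) (h3 : Commute q r) :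
    (p * q⁻¹ * r)⁻¹ = p⁻¹ * q⁻¹⁻¹ * r⁻¹ := by
  have e1 : r⁻¹ * (q * p⁻¹) = q * p⁻¹ * r⁻¹ :=
    ((h3.mul_left h2.inv_left).inv_right).eq.symm
  have e2 : q * p⁻¹ = p⁻¹ * q := h1.inv_left.eq.symm
  rw [mul_inv_rev, mul_inv_rev, inv_inv, e1, e2]

theorem pw (x c : G) (n : ℕ) : ∃ z : G, (x * c) ^ n = x ^ n * z ∧
    ∀ k : G, (∀ j : ℕ, j < n → Commute k (cj c (x ^ (j : ℤ)))) → Commute k z := by
  induction n with
  | zero => exact ⟨1, by simp, fun k _ => Commute.one_right k⟩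
  | succ n ih =>
    obtain ⟨z, h1, h2⟩ := ih
    refine ⟨cj c (x ^ (n : ℤ)) * z, ?_, fun k hk =>
      (hk n n.lt_succ_self).mul_right (h2 k fun j hj => hk j (hj.trans n.lt_succ_self))⟩
    rw [pow_succ', h1, zpow_natCast, pow_succ' x]
    unfold cj
    group

theorem pair {U : Subgroup G} {x : G} {m : ℕ}
    (h : ∀ d : ℕ, d ≤ m → ∀ g ∈ U, ∀ k ∈ U, Commute g (cj k (x ^ (d : ℤ)))) (i j : ℤ)
    (h1 : i - j ≤ m) (h2 : j - i ≤ m) {g k : G} (hg : g ∈ U) (hk : k ∈ U) :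
    Commute (cj g (x ^ i)) (cj k (x ^ j)) := by
  have aux : ∀ i j : ℤ, i ≤ j → j - i ≤ m → ∀ g ∈ U, ∀ k ∈ U,
      Commute (cj g (x ^ i)) (cj k (x ^ j)) := by
    intro i j hij hm g hg k hk
    obtain ⟨d, hd⟩ := Int.eq_ofNat_of_zero_le (sub_nonneg.2 hij)
    have := comm_cj (h d (by omega) g hg k hk) (x ^ i)
    rwa [cj_cj, ← zpow_add, ← hd, sub_add_cancel] at this
  rcases le_total i j with hij | hij
  · exact aux i j hij h2 g hg k hk
  · exact (aux j i hij h1 k hk g hg).symm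

theorem allc {U : Subgroup G} {x s c : G} (hc : c ∈ U) (hx : cj x s = x * c)
    (hC : ∀ g ∈ U, cj g s = cj g x * g⁻¹ * cj g x⁻¹)
    (h2 : ∀ d : ℕ, d ≤ 2 → ∀ g ∈ U, ∀ k ∈ U, Commute g (cj k (x ^ (d : ℤ)))) :
    ∀ m d : ℕ, d ≤ m + 2 → ∀ g ∈ U, ∀ k ∈ U, Commute g (cj k (x ^ (d : ℤ))) := by
  intro m
  induction m with
  | zero => exact h2
  | succ m ih =>
    intro d hd g hg k hk
    rcases Nat.lt_or_ge d (m + 3) with hlt | hge
    · exact ih d (by omega) g hg k hk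
    obtain rfl : d = m + 3 := by omega
    have P := fun (i j : ℤ) h1 h2 {g k : G} (hg : g ∈ U) (hk : k ∈ U) => pair ih i j h1 h2 hg hk
    have e0 := comm_cj (ih (m + 1) (by omega) g hg k hk) s
    obtain ⟨z, hz1, hz2⟩ := pw x c (m + 1)
    have eK : cj (cj k s) (x ^ ((m + 1 : ℕ) : ℤ)) =
        cj k (x ^ ((m : ℤ) + 2)) * ((cj k (x ^ ((m : ℤ) + 1)))⁻¹ * cj k (x ^ (m : ℤ))) := by
      rw [hC k hk]
      unfold cj
      push_cast
      group
    have eg : cj g s = cj g (x ^ (1 : ℤ)) * (cj g (x ^ (0 : ℤ)))⁻¹ * cj g (x ^ (-1 : ℤ)) := by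
      rw [hC g hg, zpow_one, zpow_zero, cj_one, zpow_neg_one]
    have hK : ∀ (i : ℤ), 0 ≤ i → i ≤ m + 1 → ∀ a ∈ U, Commute (cj a (x ^ i))
        (cj k (x ^ ((m : ℤ) + 2)) * ((cj k (x ^ ((m : ℤ) + 1)))⁻¹ * cj k (x ^ (m : ℤ)))) := by
      intro i h0 h1 a ha
      exact (P _ _ (by push_cast; omega) (by push_cast; omega) ha hk).mul_right
        ((P _ _ (by push_cast; omega) (by push_cast; omega) ha hk).inv_right.mul_right
          (P _ _ (by push_cast; omega) (by push_cast; omega) ha hk))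
    rw [cj_cj' k, cj_zpow, hx, zpow_natCast, hz1, ← cj_cj, ← zpow_natCast, eK,
      cj_comm (hz2 _ fun j hj => (hK j (by omega) (by omega) c hc).symm), eg] at e0
    have e1 := ((hK 1 (by omega) (by omega) g hg).mul_left
      (hK 0 le_rfl (by omega) g hg).inv_left).inv_left.mul_left e0
    rw [inv_mul_cancel_left] at e1
    have e2 : Commute (cj g (x ^ (-1 : ℤ)))
        ((cj k (x ^ ((m : ℤ) + 1)))⁻¹ * cj k (x ^ (m : ℤ))) :=
      (P _ _ (by push_cast; omega) (by push_cast; omega) hg hk).inv_right.mul_right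
        (P _ _ (by push_cast; omega) (by push_cast; omega) hg hk)
    have e3 := e1.mul_right e2.inv_right
    rw [mul_inv_cancel_right] at e3
    have e4 := comm_cj e3 (x ^ (1 : ℤ))
    rw [cj_cj, cj_cj, ← zpow_add, ← zpow_add, neg_add_cancel, zpow_zero, cj_one] at e4
    have e5 : ((m + 3 : ℕ) : ℤ) = (m : ℤ) + 2 + 1 := by push_cast; ring
    rwa [e5]

end BSx

open BSx in
theorem bs_st : BSSt := by
  intro G _ Y A x s H1 H2 H3 H4
  let L := Subgroup.closure Y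
  let U := Subgroup.closure {g | ∃ a ∈ A, ∃ u ∈ L, g = cj a u}
  let UU := Subgroup.closure
    {g | ∃ a ∈ A, ∃ w ∈ ({1, x, x⁻¹, s} : Set G), ∃ u ∈ L, g = cj (cj a w) u}
  have hUU : ∀ a ∈ UU, ∀ b ∈ UU, Commute a b := clo_comm (by
    rintro _ ⟨a, ha, w, hw, u, hu, rfl⟩ _ ⟨b, hb, w', hw', v, hv, rfl⟩
    exact H1 a ha b hb w hw w' hw' u hu v hv)
  have hAU : ∀ a ∈ A, a ∈ U := fun a ha =>
    Subgroup.subset_closure ⟨a, ha, 1, L.one_mem, (cj_one a).symm⟩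
  have hUL : ∀ u ∈ L, ∀ g ∈ U, cj g u ∈ U := fun u hu => clo_cj (by
    rintro _ ⟨a, ha, v, hv, rfl⟩
    exact Subgroup.subset_closure ⟨a, ha, v * u, L.mul_mem hv hu, cj_cj _ _ _⟩)
  have hle : ∀ g ∈ U, g ∈ UU := fun g hg => Subgroup.closure_mono (by
    rintro _ ⟨a, ha, u, hu, rfl⟩
    exact ⟨a, ha, 1, by simp, u, hu, by rw [cj_one]⟩) hg
  have hA : ∀ w ∈ ({x, x⁻¹, s} : Set G), ∀ u ∈ L, u⁻¹ * cj u w ∈ U := by
    intro w hw u hu
    induction hu using Subgroup.closure_induction with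
    | mem y hy => exact hAU _ (H2 y hy w hw)
    | one => simp [one_cj]
    | mul u v _ hv h1 h2 =>
      have e : (u * v)⁻¹ * cj (u * v) w = cj (u⁻¹ * cj u w) v * (v⁻¹ * cj v w) := by
        unfold cj; group
      rw [e]
      exact U.mul_mem (hUL v hv _ h1) h2
    | inv u hu h1 =>
      have e : u⁻¹⁻¹ * cj u⁻¹ w = cj (u⁻¹ * cj u w)⁻¹ u⁻¹ := by unfold cj; group
      rw [e]
      exact hUL _ (L.inv_mem hu) _ (U.inv_mem h1)
  have hgen : ∀ a ∈ A, ∀ w ∈ ({x, x⁻¹, s} : Set G), ∀ u ∈ L, cj (cj a w) u ∈ UU :=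
    fun a ha w hw u hu => Subgroup.subset_closure ⟨a, ha, w, Set.mem_insert_of_mem _ hw, u, hu, rfl⟩
  have hB : ∀ a ∈ A, ∀ w ∈ ({x, x⁻¹, s} : Set G), ∀ u ∈ L, cj (cj a u) w = cj (cj a w) u := by
    intro a ha w hw u hu
    have e : cj (cj a u) w = cj (cj (cj a w) u) (u⁻¹ * cj u w) := by unfold cj; group
    rw [e, cj_comm (hUU _ (hgen a ha w hw u hu) _ (hle _ (hA w hw u hu)))]
  have hUw : ∀ w ∈ ({x, x⁻¹, s} : Set G), ∀ g ∈ U, cj g w ∈ UU := fun w hw => clo_cj (by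
    rintro _ ⟨a, ha, u, hu, rfl⟩
    rw [hB a ha w hw u hu]
    exact hgen a ha w hw u hu)
  have m1 : x ∈ ({x, x⁻¹, s} : Set G) := by simp
  have m2 : x⁻¹ ∈ ({x, x⁻¹, s} : Set G) := by simp
  have m3 : s ∈ ({x, x⁻¹, s} : Set G) := by simp
  have hC : ∀ g ∈ U, cj g s = cj g x * g⁻¹ * cj g x⁻¹ := by
    intro g hg
    induction hg using Subgroup.closure_induction with
    | mem g hg =>
      obtain ⟨a, ha, u, hu, rfl⟩ := hg
      rw [hB a ha s m3 u hu, hB a ha x m1 u hu, hB a ha x⁻¹ m2 u hu, H4 a ha, cj_mul, cj_mul, cj_inv]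
    | one => simp [one_cj]
    | mul g k hg hk h1 h2 =>
      rw [cj_mul, cj_mul, cj_mul, h1, h2]
      exact rearr (hUU _ (hle g hg) _ (hUw x m1 k hk)) (hUU _ (hUw _ m2 g hg) _ (hUw x m1 k hk))
        (hUU _ (hle g hg) _ (hle k hk)) (hUU _ (hUw _ m2 g hg) _ (hle k hk))
    | inv g hg h1 =>
      rw [cj_inv, cj_inv, cj_inv, h1]
      exact rearr' (hUU _ (hUw x m1 g hg) _ (hle g hg)) (hUU _ (hUw x m1 g hg) _ (hUw _ m2 g hg))
        (hUU _ (hle g hg) _ (hUw _ m2 g hg))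
  have hxs : cj x s = x * (x⁻¹ * cj x s) := (mul_inv_cancel_left _ _).symm
  have hall := allc (hAU _ H3) hxs hC (by
    intro d hd g hg k hk
    interval_cases d
    · simpa [cj_one] using hUU _ (hle g hg) _ (hle k hk)
    · simpa using hUU _ (hle g hg) _ (hUw x m1 k hk)
    · have := comm_cj (hUU _ (hUw _ m2 g hg) _ (hUw x m1 k hk)) x
      rw [cj_cj, cj_cj, inv_mul_cancel, cj_one] at this
      rw [← sq] at this
      rw [zpow_natCast]
      exact this)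
  let V := Subgroup.closure {g | ∃ k ∈ U, ∃ i : ℤ, g = cj k (x ^ i)}
  have hV : ∀ a ∈ V, ∀ b ∈ V, Commute a b := clo_comm (by
    rintro _ ⟨a, ha, i, rfl⟩ _ ⟨b, hb, j, rfl⟩
    exact pair (hall (i - j).natAbs) i j (by push_cast; have := le_abs_self (i - j); omega)
      (by push_cast; have := neg_abs_le (i - j); omega) ha hb)
  have hUV : ∀ g ∈ U, g ∈ V := fun g hg =>
    Subgroup.subset_closure ⟨g, hg, 0, by rw [zpow_zero, cj_one]⟩
  have hVx : ∀ j : ℤ, ∀ g ∈ V, cj g (x ^ j) ∈ V := fun j => clo_cj (by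
    rintro _ ⟨k, hk, i, rfl⟩
    exact Subgroup.subset_closure ⟨k, hk, i + j, by rw [cj_cj, zpow_add]⟩)
  have hxn : x ∈ nm V := ⟨by simpa using hVx 1, by simpa using hVx (-1)⟩
  have hA' : ∀ u ∈ L, ∀ i : ℤ, u⁻¹ * cj u (x ^ i) ∈ V := by
    intro u hu i
    have st : ∀ (p w : G), w ∈ ({x, x⁻¹, s} : Set G) → (∀ g ∈ V, cj g w ∈ V) →
        u⁻¹ * cj u p ∈ V → u⁻¹ * cj u (p * w) ∈ V := by
      intro p w hw hVw h
      have e : u⁻¹ * cj u (p * w) = (u⁻¹ * cj u w) * cj (u⁻¹ * cj u p) w := by unfold cj; group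
      rw [e]
      exact V.mul_mem (hUV _ (hA w hw u hu)) (hVw _ h)
    induction i using Int.induction_on with
    | zero => simp [cj_one]
    | succ i ih => rw [zpow_add_one]; exact st _ x m1 hxn.1 ih
    | pred i ih => rw [zpow_sub_one]; exact st _ x⁻¹ m2 hxn.2 ih
  have hVL : ∀ u ∈ L, ∀ g ∈ V, cj g u ∈ V := fun u hu => clo_cj (by
    rintro _ ⟨k, hk, i, rfl⟩
    have e : cj (cj k (x ^ i)) u = cj (cj (cj k u) (u⁻¹ * cj u (x ^ (-i)))) (x ^ i) := by
      unfold cj; group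
    rw [e, cj_comm (hV _ (hUV _ (hUL u hu k hk)) _ (hA' u hu _))]
    exact hVx i _ (hUV _ (hUL u hu k hk)))
  have hLn : ∀ u ∈ L, u ∈ nm V := fun u hu => ⟨hVL u hu, hVL _ (L.inv_mem hu)⟩
  have hVs : ∀ g ∈ V, cj g s ∈ V := clo_cj (by
    rintro _ ⟨k, hk, i, rfl⟩
    rw [cj_cj', cj_zpow]
    have h1 : cj x s ∈ nm V := by
      rw [hxs]; exact (nm V).mul_mem hxn (le_nm V (hUV _ (hAU _ H3)))
    refine ((nm V).zpow_mem h1 i).1 _ ?_
    rw [hC k hk]
    exact V.mul_mem (V.mul_mem (hxn.1 _ (hUV k hk)) (V.inv_mem (hUV k hk))) (hxn.2 _ (hUV k hk)))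
  have hVsn : ∀ n : ℕ, ∀ g ∈ V, cj g (s ^ n) ∈ V := by
    intro n
    induction n with
    | zero => intro g hg; rwa [pow_zero, cj_one]
    | succ n ih => intro g hg; rw [pow_succ, ← cj_cj]; exact hVs _ (ih g hg)
  have hup : ∀ (g : G) (n m : ℕ), cj g (s ^ n) ∈ V → cj g (s ^ (n + m)) ∈ V := fun g n m h => by
    rw [pow_add, ← cj_cj]; exact hVsn m _ h
  let W : Subgroup G :=
    { carrier := {g | ∃ n : ℕ, cj g (s ^ n) ∈ V}
      one_mem' := ⟨0, by rw [one_cj]; exact V.one_mem⟩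
      mul_mem' := by
        rintro a b ⟨n, hn⟩ ⟨m, hm⟩
        refine ⟨n + m, ?_⟩
        rw [cj_mul]
        exact V.mul_mem (hup a n m hn) (add_comm m n ▸ hup b m n hm)
      inv_mem' := by
        rintro a ⟨n, hn⟩
        exact ⟨n, by rw [cj_inv]; exact V.inv_mem hn⟩ }
  have hW : ∀ a ∈ W, ∀ b ∈ W, Commute a b := by
    rintro a ⟨n, hn⟩ b ⟨m, hm⟩
    exact comm_of_cj (hV _ (hup a n m hn) _ (add_comm m n ▸ hup b m n hm))
  have hy : ∀ y : G, y ∈ nm V → y⁻¹ * cj y s ∈ V → y ∈ nm W := by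
    intro y h1 h2
    have h3 : ∀ n : ℕ, y⁻¹ * cj y (s ^ n) ∈ V := by
      intro n
      induction n with
      | zero => simp [cj_one]
      | succ n ih =>
        have e : y⁻¹ * cj y (s ^ (n + 1)) = (y⁻¹ * cj y s) * cj (y⁻¹ * cj y (s ^ n)) s := by
          rw [pow_succ]; unfold cj; group
        rw [e]
        exact V.mul_mem h2 (hVs _ ih)
    have h4 : ∀ n : ℕ, cj y (s ^ n) ∈ nm V := fun n => by
      have := (nm V).mul_mem h1 (le_nm V (h3 n))
      rwa [mul_inv_cancel_left] at this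
    constructor
    · rintro g ⟨n, hn⟩
      exact ⟨n, by rw [cj_cj']; exact (h4 n).1 _ hn⟩
    · rintro g ⟨n, hn⟩
      exact ⟨n, by rw [cj_cj', cj_inv]; exact (h4 n).2 _ hn⟩
  have hfin : Subgroup.closure (Y ∪ {x, s}) ≤ nm W := by
    rw [Subgroup.closure_le]
    rintro y (hyY | rfl | rfl)
    · have hyL : y ∈ L := Subgroup.subset_closure hyY
      exact hy y (hLn y hyL) (hUV _ (hA s m3 y hyL))
    · exact hy y hxn (hUV _ (hAU _ H3))
    · constructor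
      · rintro g ⟨n, hn⟩
        exact ⟨n, by rw [cj_cj, ← pow_succ']; exact hup g n 1 hn⟩
      · rintro g ⟨n, hn⟩
        exact ⟨n + 1, by rwa [cj_cj, pow_succ', inv_mul_cancel_left]⟩
  intro a ha b hb u hu v hv
  have hAW : ∀ a ∈ A, a ∈ W := fun a ha => ⟨0, by rw [pow_zero, cj_one]; exact hUV _ (hAU a ha)⟩
  exact hW _ ((hfin hu).1 a (hAW a ha)) _ ((hfin hv).1 b (hAW b hb))

end Pool.Agent.Lib.MP_94a9ea_al.H25
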