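import Pool.Agent.Lib.MP_94a9ea_al.H25.St

set_option autoImplicit false

namespace Pool.Agent.Lib.MP_94a9ea_al.H25
namespace Dom
open MonoidAlgebra

variable {W : Type} [Group W]

/-- `x` is supported on `p`. -/
def Sup (p : W → Prop) (x : MonoidAlgebra ℤ W) : Prop := ∀ g, x.coeff g ≠ 0 → p g

lemma Sup.mono {p q : W → Prop} {x : MonoidAlgebra ℤ W} (hx : Sup p x) (h : ∀ g, p g → q g) :
    Sup q x := fun g hg => h g (hx g hg)

lemma Sup.mul {p q t : W → Prop} {x y : MonoidAlgebra ℤ W} (hx : Sup p x) (hy : Sup q y)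
    (h : ∀ g w, p g → q w → t (g * w)) : Sup t (x * y) := by
  classical
  intro g hg
  have := support_coeff_mul_subset x y (Finsupp.mem_support_iff.2 hg)
  obtain ⟨u, hu, v, hv, rfl⟩ := Finset.mem_mul.1 this
  exact h u v (hx u (Finsupp.mem_support_iff.1 hu)) (hy v (Finsupp.mem_support_iff.1 hv))

lemma Sup.add {p : W → Prop} {x y : MonoidAlgebra ℤ W} (hx : Sup p x) (hy : Sup p y) :
    Sup p (x + y) := by
  intro g hg
  by_cases h : x.coeff g = 0
  · apply hy g
    simpa [h] using hg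
  · exact hx g h

lemma sup_single (w : W) (r : ℤ) : Sup (fun g => g = w) (single w r) := by
  intro g hg
  by_contra h
  apply hg
  simp [Finsupp.single_apply_eq_zero, h]

lemma sup_self (x : MonoidAlgebra ℤ W) : Sup (fun g => x.coeff g ≠ 0) x := fun _ h => h

lemma disj {p : W → Prop} {u v : MonoidAlgebra ℤ W} (hu : Sup p u) (hv : Sup (fun g => ¬ p g) v)
    (h : u + v = 0) : u = 0 := by
  ext g
  by_contra hg
  have hg' : u.coeff g ≠ 0 := by simpa using hg
  have h1 : v.coeff g = 0 := by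
    by_contra h2
    exact hv g h2 (hu g hg')
  have h3 : (u + v).coeff g = 0 := by rw [h]; simp
  simp [h1] at h3
  exact hg' h3

lemma split (p : W → Prop) (x : MonoidAlgebra ℤ W) :
    ∃ x1 x2 : MonoidAlgebra ℤ W, x = x1 + x2 ∧ Sup (fun g => p g ∧ x.coeff g ≠ 0) x1 ∧
      Sup (fun g => ¬ p g ∧ x.coeff g ≠ 0) x2 ∧ ∀ g, p g → x.coeff g ≠ 0 → x1 ≠ 0 := by
  classical
  refine ⟨ofCoeff (x.coeff.filter p), ofCoeff (x.coeff.filter fun g => ¬ p g), ?_, ?_, ?_, ?_⟩
  · ext g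
    by_cases h : p g <;> simp [Finsupp.filter_apply, h]
  · intro g hg
    by_cases h : p g
    · exact ⟨h, by simpa [Finsupp.filter_apply, h] using hg⟩
    · simp [Finsupp.filter_apply, h] at hg
  · intro g hg
    by_cases h : p g
    · simp [Finsupp.filter_apply, h] at hg
    · exact ⟨h, by simpa [Finsupp.filter_apply, h] using hg⟩
  · intro g hp hg h0
    apply hg
    have : (ofCoeff (x.coeff.filter p) : MonoidAlgebra ℤ W).coeff g = 0 := by rw [h0]; simp
    simpa [Finsupp.filter_apply, hp] using this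

lemma exists_coeff {x : MonoidAlgebra ℤ W} (hx : x ≠ 0) : ∃ g, x.coeff g ≠ 0 := by
  by_contra h
  push Not at h
  apply hx
  ext g
  simpa using h g

lemma inc_inj (B : Subgroup W) : Function.Injective (mapDomainRingHom ℤ B.subtype) :=
  mapDomain_injective Subtype.val_injective

lemma inc_surj (B : Subgroup W) {u : MonoidAlgebra ℤ W} (hu : Sup (fun g => g ∈ B) u) :
    ∃ u' : MonoidAlgebra ℤ B, mapDomainRingHom ℤ B.subtype u' = u := by
  refine ⟨comapDomain B.subtype Subtype.val_injective u, ?_⟩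
  apply mapDomain_comapDomain
  intro g hg
  exact ⟨⟨g, hu g (Finsupp.mem_support_iff.1 hg)⟩, rfl⟩

lemma inc_sup (B : Subgroup W) (p : W → Prop) (u : MonoidAlgebra ℤ B)
    (hu : ∀ g : B, u.coeff g ≠ 0 → p g) : Sup p (mapDomainRingHom ℤ B.subtype u) := by
  classical
  intro g hg
  have h1 : g ∈ (Finsupp.mapDomain B.subtype u.coeff).support := Finsupp.mem_support_iff.2 hg
  obtain ⟨b, hb, rfl⟩ := Finset.mem_image.1 (Finsupp.mapDomain_support h1)
  exact hu b (Finsupp.mem_support_iff.1 hb)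

lemma sub_dom (B : Subgroup W) [NoZeroDivisors (MonoidAlgebra ℤ B)] {u v : MonoidAlgebra ℤ W}
    (hu : Sup (fun g => g ∈ B) u) (hv : Sup (fun g => g ∈ B) v) (h : u * v = 0) :
    u = 0 ∨ v = 0 := by
  obtain ⟨u', rfl⟩ := inc_surj B hu
  obtain ⟨v', rfl⟩ := inc_surj B hv
  rw [← map_mul] at h
  have : u' * v' = 0 := inc_inj B (by rw [h, map_zero])
  rcases mul_eq_zero.1 this with h | h
  · left; rw [h, map_zero]
  · right; rw [h, map_zero]

lemma sgn (s : W →* ℤˣ) (g : W) : (s g : ℤ) = 1 ∨ (s g : ℤ) = -1 := by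
  rcases Int.units_eq_one_or (s g) with h | h <;> simp [h]

lemma sgn_inv (s : W →* ℤˣ) (g : W) : (s g⁻¹ : ℤ) = s g := by
  rcases Int.units_eq_one_or (s g) with h | h <;> simp [h]

lemma sgn_mul (s : W →* ℤˣ) (g h : W) : (s (g * h) : ℤ) = s g * s h := by simp

lemma a_one {s : W →* ℤˣ} {a : W → ℤ} (h : Coc s a) : a 1 = 0 := by
  have := h 1 1
  simp at this
  exact this

lemma a_inv {s : W →* ℤˣ} {a : W → ℤ} (h : Coc s a) (g : W) : a g⁻¹ = - ((s g : ℤ) * a g) := by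
  have := h g⁻¹ g
  rw [inv_mul_cancel, a_one h, sgn_inv] at this
  linarith

lemma ext1 (s : W →* ℤˣ) (P : W → ℤ)
    (hP : ∀ g w, P (g * w) - P 1 = (s g : ℤ) * (P w - P g⁻¹))
    (hs : ∀ g w, P g = P w → (s g : ℤ) = s w)
    (hF : ∀ (u v : MonoidAlgebra ℤ W) (c d : ℤ), Sup (fun g => P g⁻¹ = c) u →
      Sup (fun w => P w = d) v → u * v = 0 → u = 0 ∨ v = 0)
    {x y : MonoidAlgebra ℤ W} (h : y * x = 0) {x0 x1 y0 y1 : ℤ}
    (hy : Sup (fun g => y0 ≤ P g⁻¹ ∧ P g⁻¹ ≤ y1) y) (hx : Sup (fun w => x0 ≤ P w ∧ P w ≤ x1) x)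
    {g0 w1 : W} (hg0 : y.coeff g0 ≠ 0) (hg0' : P g0⁻¹ = y0) (hw1 : x.coeff w1 ≠ 0)
    (hw1' : P w1 = x1) (hle : y1 - x0 ≤ x1 - y0) :
    y1 - x0 = x1 - y0 ∧ ∃ g, y.coeff g ≠ 0 ∧ P g⁻¹ = y1 ∧ (s g : ℤ) = - s g0 := by
  by_contra hcon
  have key : ∀ g w, y.coeff g ≠ 0 → x.coeff w ≠ 0 →
      P (g * w) - P 1 = (s g0 : ℤ) * (x1 - y0) → P g⁻¹ = y0 ∧ P w = x1 := by
    intro g w hg hw he
    rw [hP] at he
    obtain ⟨b1, b2⟩ := hy g hg
    obtain ⟨b3, b4⟩ := hx w hw
    rcases sgn s g with e1 | e1 <;> rcases sgn s g0 with e2 | e2 <;> rw [e1, e2] at he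
    · constructor <;> omega
    · exfalso
      exact hcon ⟨by omega, g, hg, by omega, by rw [e1, e2]; simp⟩
    · exfalso
      exact hcon ⟨by omega, g, hg, by omega, by rw [e1, e2]⟩
    · constructor <;> omega
  obtain ⟨ya, yb, ey, sya, syb, nya⟩ := split (fun g => P g⁻¹ = y0) y
  obtain ⟨xa, xb, ex, sxa, sxb, nxa⟩ := split (fun w => P w = x1) x
  have h1 : Sup (fun k => P k - P 1 = (s g0 : ℤ) * (x1 - y0)) (ya * xa) := by
    refine sya.mul sxa ?_
    rintro g w ⟨e1, -⟩ ⟨e2, -⟩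
    have : (s g : ℤ) = s g0 := by
      rw [← sgn_inv s g, ← sgn_inv s g0]
      exact hs _ _ (by rw [e1, hg0'])
    rw [hP, e1, e2, this]
  have h2 : Sup (fun k => ¬ P k - P 1 = (s g0 : ℤ) * (x1 - y0)) (ya * xb + yb * x) := by
    refine Sup.add (sya.mul sxb ?_) (syb.mul (sup_self x) ?_)
    · rintro g w ⟨-, e1⟩ ⟨e2, e3⟩ he
      exact e2 (key g w e1 e3 he).2
    · rintro g w ⟨e1, e2⟩ e3 he
      exact e1 (key g w e2 e3 he).1
  have h3 : ya * xa + (ya * xb + yb * x) = 0 := by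
    rw [← add_assoc, ← mul_add, ← ex, ← add_mul, ← ey, h]
  rcases hF ya xa y0 x1 (sya.mono fun g h => h.1) (sxa.mono fun g h => h.1) (disj h1 h2 h3) with
    h4 | h4
  · exact nya g0 hg0' hg0 h4
  · exact nxa w1 hw1' hw1 h4

lemma minmax (f : W → ℤ) {x : MonoidAlgebra ℤ W} (hx : x ≠ 0) :
    ∃ w0 w1, x.coeff w0 ≠ 0 ∧ x.coeff w1 ≠ 0 ∧ Sup (fun w => f w0 ≤ f w ∧ f w ≤ f w1) x := by
  obtain ⟨g, hg⟩ := exists_coeff hx
  have hne : x.coeff.support.Nonempty := ⟨g, Finsupp.mem_support_iff.2 hg⟩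
  obtain ⟨w0, h0, h0'⟩ := Finset.exists_min_image _ f hne
  obtain ⟨w1, h1, h1'⟩ := Finset.exists_max_image _ f hne
  exact ⟨w0, w1, Finsupp.mem_support_iff.1 h0, Finsupp.mem_support_iff.1 h1, fun w hw =>
    ⟨h0' w (Finsupp.mem_support_iff.2 hw), h1' w (Finsupp.mem_support_iff.2 hw)⟩⟩

lemma ext2 (s : W →* ℤˣ) (P : W → ℤ)
    (hP : ∀ g w, P (g * w) - P 1 = (s g : ℤ) * (P w - P g⁻¹))
    (hs : ∀ g w, P g = P w → (s g : ℤ) = s w)
    (hF : ∀ (u v : MonoidAlgebra ℤ W) (c d : ℤ), Sup (fun g => P g⁻¹ = c) u →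
      Sup (fun w => P w = d) v → u * v = 0 → u = 0 ∨ v = 0)
    {x y : MonoidAlgebra ℤ W} (h : y * x = 0) (hy : y ≠ 0) {w0 w1 : W} (hw0 : x.coeff w0 ≠ 0)
    (hw1 : x.coeff w1 ≠ 0) (hx : Sup (fun w => P w0 ≤ P w ∧ P w ≤ P w1) x) :
    ∃ g g', y.coeff g ≠ 0 ∧ y.coeff g' ≠ 0 ∧ (s g : ℤ) = - s g' ∧
      P g⁻¹ + P g'⁻¹ = P w0 + P w1 := by
  obtain ⟨g0, g1, hg0, hg1, hy'⟩ := minmax (fun g => P g⁻¹) hy
  rcases le_total (P g1⁻¹ - P w0) (P w1 - P g0⁻¹) with hle | hle
  · obtain ⟨e, g, h1, h2, h3⟩ := ext1 s P hP hs hF h hy' hx hg0 rfl hw1 rfl hle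
    exact ⟨g, g0, h1, hg0, h3, by omega⟩
  · obtain ⟨e, g, h1, h2, h3⟩ := ext1 s (fun g => - P g) (fun g w => by
        have := hP g w
        linear_combination (-1 : ℤ) * this) (fun g w e => hs g w (by omega))
      (fun u v c d hu hv => hF u v (-c) (-d) (hu.mono fun g e => by omega)
        (hv.mono fun g e => by omega)) h (x0 := - P w1) (x1 := - P w0) (y0 := - P g1⁻¹)
      (y1 := - P g0⁻¹) (hy'.mono fun g e => by omega) (hx.mono fun g e => by omega) hg1 rfl hw0 rfl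
      (by omega)
    exact ⟨g, g1, h1, hg1, h3, by omega⟩

/-- The preimage of a subgroup of order two of the infinite dihedral group. -/
def B (s : W →* ℤˣ) (a : W → ℤ) (h : Coc s a) (α : ℤ) : Subgroup W where
  carrier := {g | ((s g : ℤ) = 1 ∧ a g = 0) ∨ ((s g : ℤ) = -1 ∧ a g = α)}
  one_mem' := Or.inl ⟨by simp, a_one h⟩
  mul_mem' := by
    intro g w hg hw
    have e1 := sgn_mul s g w
    have e2 := h g w
    rcases hg with ⟨h1, h2⟩ | ⟨h1, h2⟩ <;> rcases hw with ⟨h3, h4⟩ | ⟨h3, h4⟩ <;>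
      rw [h1, h3] at e1 <;> rw [h1, h2, h4] at e2
    · exact Or.inl ⟨by omega, by omega⟩
    · exact Or.inr ⟨by omega, by omega⟩
    · exact Or.inr ⟨by omega, by omega⟩
    · exact Or.inl ⟨by omega, by omega⟩
  inv_mem' := by
    intro g hg
    have e1 := sgn_inv s g
    have e2 := a_inv h g
    rcases hg with ⟨h1, h2⟩ | ⟨h1, h2⟩ <;> rw [h1] at e1 <;> rw [h1, h2] at e2
    · exact Or.inl ⟨by omega, by omega⟩
    · exact Or.inr ⟨by omega, by omega⟩

lemma mem_B {s : W →* ℤˣ} {a : W → ℤ} {h : Coc s a} {α : ℤ} {g : W} :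
    g ∈ B s a h α ↔ ((s g : ℤ) = 1 ∧ a g = 0) ∨ ((s g : ℤ) = -1 ∧ a g = α) := Iff.rfl

lemma unit_cancel {u : MonoidAlgebra ℤ W} (w : W) (h : u * single w 1 = 0) : u = 0 := by
  have : u * single w 1 * single w⁻¹ 1 = 0 := by rw [h, zero_mul]
  rwa [mul_assoc, single_mul_single, mul_inv_cancel, mul_one, ← one_def, mul_one] at this

lemma unit_cancel' {u : MonoidAlgebra ℤ W} (w : W) (h : single w 1 * u = 0) : u = 0 := by
  have : single w⁻¹ 1 * (single w 1 * u) = 0 := by rw [h, mul_zero]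
  rwa [← mul_assoc, single_mul_single, inv_mul_cancel, mul_one, ← one_def, one_mul] at this

theorem step (hO : OreSt) {ι : Type} [Fintype ι] (ss : ι → W →* ℤˣ) (aa : ι → W → ℤ)
    (hc : ∀ i, Coc (ss i) (aa i)) (hi : ∀ g, (∀ i, ss i g = 1 ∧ aa i g = 0) → g = 1) (i0 : ι)
    (hB : ∀ α, NoZeroDivisors (MonoidAlgebra ℤ (B (ss i0) (aa i0) (hc i0) α))) :
    NoZeroDivisors (MonoidAlgebra ℤ W) := by
  set s := ss i0 with hs0
  set a := aa i0 with ha0
  have h : Coc s a := hc i0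
  set P : W → ℤ := fun g => 4 * a g + s g with hPdef
  have Pd : ∀ g, P g = 4 * a g + s g := fun g => rfl
  have Pm : ∀ g w, P (g * w) = 4 * a g + s g * P w := by
    intro g w
    rw [Pd, Pd, h, sgn_mul]; ring
  have hP : ∀ g w, P (g * w) - P 1 = (s g : ℤ) * (P w - P g⁻¹) := by
    intro g w
    have e := Pm g g⁻¹
    rw [mul_inv_cancel] at e
    rw [Pm, e]; ring
  have hs : ∀ g w, P g = P w → (s g : ℤ) = s w := by
    intro g w e
    rw [Pd, Pd] at e
    rcases sgn s g with e1 | e1 <;> rcases sgn s w with e2 | e2 <;> omega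
  have P1 : P 1 = 1 := by rw [Pd, a_one h]; simp
  have hK : ∀ g, P g = 1 → (s g : ℤ) = 1 ∧ a g = 0 := by
    intro g e
    rw [Pd] at e
    rcases sgn s g with e1 | e1 <;> omega
  have hfib : ∀ g w, P g = P w → P (w⁻¹ * g) = 1 := by
    intro g w e
    have := hP w⁻¹ g
    rw [inv_inv, e, sub_self, mul_zero, P1] at this
    omega
  have hfib' : ∀ g w, P g = P w → (s (g * w⁻¹) : ℤ) = 1 ∧ a (g * w⁻¹) = 0 := by
    intro g w e
    have e1 := hs g w e
    rw [Pd, Pd] at e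
    rw [h, a_inv h, sgn_mul, sgn_inv]
    rcases sgn s w with e2 | e2 <;> rw [e2] at e1 <;> rw [e1, e2] at e ⊢ <;> omega
  have hF : ∀ (u v : MonoidAlgebra ℤ W) (c d : ℤ), Sup (fun g => P g⁻¹ = c) u →
      Sup (fun w => P w = d) v → u * v = 0 → u = 0 ∨ v = 0 := by
    intro u v c d hu hv huv
    by_contra hcon
    push Not at hcon
    obtain ⟨g0, hg0⟩ := exists_coeff hcon.1
    obtain ⟨w0, hw0⟩ := exists_coeff hcon.2
    have := hB 0
    have h1 : Sup (fun g => g ∈ B s a h 0) (single g0⁻¹ 1 * u) := by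
      refine (sup_single _ _).mul hu ?_
      rintro _ g rfl e
      have e2 := hfib g⁻¹ g0⁻¹ (by rw [e, hu g0 hg0])
      have e3 := hK _ e2
      have e4 : g0⁻¹ * g = g0⁻¹ * (g0⁻¹⁻¹ * g⁻¹)⁻¹ * g0 := by group
      refine mem_B.2 (Or.inl ?_)
      rw [e4, h, h, sgn_mul, sgn_mul, a_inv h (g0⁻¹⁻¹ * g⁻¹), sgn_inv s (g0⁻¹⁻¹ * g⁻¹), e3.1, e3.2,
        a_inv h g0, sgn_inv]
      rcases sgn s g0 with e5 | e5 <;> rw [e5] <;> omega
    have h2 : Sup (fun g => g ∈ B s a h 0) (v * single w0⁻¹ 1) := by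
      refine hv.mul (sup_single _ _) ?_
      rintro w _ e rfl
      exact mem_B.2 (Or.inl (hfib' w w0 (by rw [e, hv w0 hw0])))
    have h3 : single g0⁻¹ 1 * u * (v * single w0⁻¹ 1) = 0 := by
      rw [mul_assoc, ← mul_assoc u, huv, zero_mul, mul_zero]
    rcases sub_dom _ h1 h2 h3 with h4 | h4
    · exact hcon.1 (unit_cancel' _ h4)
    · exact hcon.2 (unit_cancel _ h4)
  have win : ∀ n : ℕ, ∀ x : MonoidAlgebra ℤ W, x ≠ 0 → ∀ lo : ℤ,
      Sup (fun w => lo ≤ P w ∧ P w < lo + n) x → ∀ y : MonoidAlgebra ℤ W, y * x = 0 → y = 0 := by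
    intro n
    induction n with
    | zero =>
      intro x hx lo hlo
      obtain ⟨g, hg⟩ := exists_coeff hx
      have := hlo g hg
      omega
    | succ n ih =>
      intro x hx lo hlo y hyx
      by_contra hy
      obtain ⟨w0, w1, hw0, hw1, hxs⟩ := minmax P hx
      obtain ⟨g, g', -, -, e1, e2⟩ := ext2 s P hP hs hF hyx hy hw0 hw1 hxs
      have e3 : (s w1 : ℤ) = - s w0 := by
        rw [Pd, Pd, Pd, Pd, sgn_inv, sgn_inv] at e2
        rcases sgn s w0 with e4 | e4 <;> rcases sgn s w1 with e5 | e5 <;> omega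
      have e4 : P w0 < P w1 := by
        have := (hxs w1 hw1).1
        have e5 : P w0 ≠ P w1 := by
          intro e6
          have := hs _ _ e6
          rcases sgn s w0 with e4 | e4 <;> omega
        omega
      have sρ : (s (w1 * w0⁻¹) : ℤ) = -1 := by
        rw [sgn_mul, sgn_inv, e3]
        rcases sgn s w0 with e4 | e4 <;> rw [e4] <;> omega
      set α := a (w1 * w0⁻¹) with hα
      have eα : 4 * α = P w0 + P w1 := by
        have := Pm (w1 * w0⁻¹) w0
        rw [inv_mul_cancel_right, sρ] at this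
        omega
      have := hB α
      obtain ⟨xa, xb, ex, sxa, sxb, nxa⟩ := split (fun w => P w = P w0 ∨ P w = P w1) x
      have hxa : xa ≠ 0 := nxa w0 (Or.inl rfl) hw0
      have hc1 : Sup (fun g => g ∈ B s a h α) (xa * single w0⁻¹ 1) := by
        refine sxa.mul (sup_single _ _) ?_
        rintro w _ ⟨e | e, -⟩ rfl
        · exact mem_B.2 (Or.inl (hfib' w w0 e))
        · have e5 := hfib' w w1 e
          have e6 : w * w0⁻¹ = w * w1⁻¹ * (w1 * w0⁻¹) := by group
          refine mem_B.2 (Or.inr ?_)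
          rw [e6, h, sgn_mul s (w * w1⁻¹), e5.1, e5.2, sρ]
          omega
      obtain ⟨c', hc'⟩ := inc_surj _ hc1
      have hc0 : c' ≠ 0 := by
        rintro rfl
        rw [map_zero] at hc'
        exact hxa (unit_cancel _ hc'.symm)
      obtain ⟨z', y', hz0, hzs, hz⟩ := (hO (B s a h α) ι
        (fun i => (ss i).comp (B s a h α).subtype) (fun i g => aa i g) (fun i g w => hc i g w)
        (fun g hg => Subtype.ext (hi g hg))).2.2 c'
        (fun y hy => (mul_eq_zero.1 hy).resolve_right hc0) 1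
      rw [mul_one] at hz
      set cs := mapDomainRingHom ℤ (B s a h α).subtype y' with hcs
      set z := mapDomainRingHom ℤ (B s a h α).subtype z' with hzdef
      have hz1 : cs * (xa * single w0⁻¹ 1) = z := by rw [← hc', hcs, ← map_mul, hz]
      have hz2 : z ≠ 0 := fun e => hz0 (inc_inj _ (by rw [map_zero]; exact e))
      have hz3 : Sup (fun g => (s g : ℤ) = 1 ∧ a g = 0) z := by
        apply inc_sup
        intro g hg
        have e5 : s g = 1 := hzs g (Finsupp.mem_support_iff.2 hg) i0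
        rcases mem_B.1 g.2 with e6 | e6
        · exact e6
        · rw [e5] at e6
          simp at e6
      have hcs1 : Sup (fun g => g ∈ B s a h α) cs := inc_sup _ _ _ fun g _ => g.2
      have hx' : cs * x = z * single w0 1 + cs * xb := by
        rw [← hz1, mul_assoc, mul_assoc, single_mul_single, inv_mul_cancel, mul_one, ← one_def,
          mul_one, ← mul_add, ← ex]
      have s1 : Sup (fun w => P w = P w0) (z * single w0 1) := by
        refine hz3.mul (sup_single _ _) ?_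
        rintro g _ ⟨e5, e6⟩ rfl
        rw [Pm, e5, e6]; ring
      have s2 : Sup (fun w => P w0 < P w ∧ P w < P w1) (cs * xb) := by
        refine hcs1.mul sxb ?_
        rintro g w e5 ⟨e6, e7⟩
        have e8 := hxs w e7
        rw [Pm]
        rcases mem_B.1 e5 with ⟨e9, e10⟩ | ⟨e9, e10⟩ <;> rw [e9, e10] <;> omega
      have n1 : cs * x ≠ 0 := by
        intro e
        rw [hx'] at e
        exact hz2 (unit_cancel _ (disj s1 (s2.mono fun w e5 => by omega) e))
      have b0 := hlo w0 hw0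
      have b1 := hlo w1 hw1
      have s3 : Sup (fun w => P w0 ≤ P w ∧ P w < P w0 + n) (cs * x) := by
        rw [hx']
        refine Sup.add (s1.mono fun w e5 => ?_) (s2.mono fun w e5 => ?_) <;> push_cast at b0 b1 <;>
          omega
      have inj := ih _ n1 _ s3
      obtain ⟨z2, y2, hz20, hz2s, hz2e⟩ := (hO W ι ss aa hc hi).2.2 cs
        (fun y2 e => inj y2 (by rw [← mul_assoc, e, zero_mul])) y
      have e5 : y2 = 0 := inj y2 (by rw [← mul_assoc, hz2e, mul_assoc, hyx, mul_zero])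
      rw [e5, zero_mul] at hz2e
      obtain ⟨v0, v1, hv0, hv1, hys⟩ := minmax P hy
      obtain ⟨k, k', hk, hk', e6, -⟩ := ext2 s P hP hs hF hz2e.symm hz20 hv0 hv1 hys
      have e7 : s k = 1 := hz2s k (Finsupp.mem_support_iff.2 hk) i0
      have e8 : s k' = 1 := hz2s k' (Finsupp.mem_support_iff.2 hk') i0
      rw [e7, e8] at e6
      simp at e6
  constructor
  intro y x hyx
  by_cases hx : x = 0
  · exact Or.inr hx
  · obtain ⟨w0, w1, -, hw1, hxs⟩ := minmax P hx
    refine Or.inl (win (P w1 - P w0 + 1).toNat x hx (P w0) (hxs.mono fun w e => ?_) y hyx)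
    omega

theorem dom_card (hO : OreSt) (r : ℕ) : ∀ (W : Type) [Group W] (ι : Type) [Fintype ι],
    Fintype.card ι = r → ∀ (s : ι → W →* ℤˣ) (a : ι → W → ℤ),
    (∀ i, Coc (s i) (a i)) → (∀ g, (∀ i, s i g = 1 ∧ a i g = 0) → g = 1) →
    (∀ g : W, g * g = 1 → g = 1) → NoZeroDivisors (MonoidAlgebra ℤ W) := by
  classical
  induction r with
  | zero =>
    intro W _ ι _ hr s a hc hi h2
    have : IsEmpty ι := Fintype.card_eq_zero_iff.1 hr
    have : Subsingleton W := ⟨fun g w => by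
      rw [hi g fun i => isEmptyElim i, hi w fun i => isEmptyElim i]⟩
    exact (uniqueRingEquiv (R := ℤ) W).injective.noZeroDivisors _ (map_zero _) (map_mul _)
  | succ r ih =>
    intro W _ ι _ hr s a hc hi h2
    obtain ⟨i0⟩ : Nonempty ι := Fintype.card_pos_iff.1 (by omega)
    refine step hO s a hc hi i0 fun α => ?_
    refine ih _ {i // ¬ i = i0} (by rw [Fintype.card_subtype_compl, Fintype.card_subtype_eq]; omega)
      (fun i => (s i).comp (B (s i0) (a i0) (hc i0) α).subtype) (fun i g => a i g)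
      (fun i g w => hc i g w) (fun g hg => ?_) (fun g hg => Subtype.ext (h2 g (congrArg Subtype.val hg)))
    apply Subtype.ext
    apply h2
    apply hi
    intro i
    refine ⟨by rw [map_mul]; exact Int.units_mul_self _, ?_⟩
    rw [hc]
    by_cases hi0 : i = i0
    · subst hi0
      rcases mem_B.1 g.2 with ⟨e1, e2⟩ | ⟨e1, e2⟩ <;> rw [e1, e2] <;> omega
    · have e : a i g = 0 := (hg ⟨i, hi0⟩).2
      rw [e]; simp

end Dom

theorem dom_st (hO : OreSt) : DomSt := fun W _ ι _ s a hc hi h2 =>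
  Dom.dom_card hO _ W ι rfl s a hc hi h2

end Pool.Agent.Lib.MP_94a9ea_al.H25
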