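import Pool.Agent.Lib.MP_94a9ea_al.H25.PSt

set_option autoImplicit false

namespace Pool.Agent.Lib.MP_94a9ea_al.H25

open Polynomial

theorem eig_poly {V : Type} [AddCommGroup V] [Module ℂ V] (f : Module.End ℂ V)
    (U : Submodule ℂ V) (hU : ∀ u ∈ U, f u ∈ U) (u0 : V) (hu0 : u0 ∈ U) (hne : u0 ≠ 0) :
    ∀ (n : ℕ) (p : ℂ[X]), p.natDegree = n → p ≠ 0 → (∀ u ∈ U, aeval f p u = 0) →
      ∃ z : ℂ, p.IsRoot z ∧ ∃ u ∈ U, u ≠ 0 ∧ f u = z • u := by
  have hinv : ∀ (q : ℂ[X]), ∀ u ∈ U, aeval f q u ∈ U := by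
    intro q
    induction q using Polynomial.induction_on with
    | C c => intro u hu; simpa using U.smul_mem c hu
    | add p q hp hq => intro u hu; simpa using U.add_mem (hp u hu) (hq u hu)
    | monomial n c h =>
      intro u hu
      have e : C c * X ^ (n + 1) = (C c * X ^ n) * X := by ring
      rw [e, map_mul, aeval_X, Module.End.mul_apply]
      exact h _ (hU u hu)
  intro n
  induction n with
  | zero =>
    intro p hp hp0 h
    exfalso
    rw [Polynomial.natDegree_eq_zero] at hp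
    obtain ⟨c, rfl⟩ := hp
    have hc : c ≠ 0 := by simpa using hp0
    have := h u0 hu0
    simp [hc, hne] at this
  | succ n ih =>
    intro p hp hp0 h
    have hdeg : p.degree ≠ 0 := by
      intro h0
      have := Polynomial.natDegree_eq_zero_iff_degree_le_zero.2 h0.le
      omega
    obtain ⟨z, hz⟩ := IsAlgClosed.exists_root p hdeg
    obtain ⟨q, hq⟩ := Polynomial.dvd_iff_isRoot.2 hz
    have hq0 : q ≠ 0 := by
      rintro rfl
      exact hp0 (by simpa using hq)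
    have hqd : q.natDegree = n := by
      have := Polynomial.natDegree_mul (X_sub_C_ne_zero z) hq0
      rw [← hq, natDegree_X_sub_C] at this
      omega
    by_cases hall : ∀ u ∈ U, aeval f q u = 0
    · obtain ⟨w, hw, hr⟩ := ih q hqd hq0 hall
      refine ⟨w, ?_, hr⟩
      rw [hq]
      exact Polynomial.root_mul_left_of_isRoot _ hw
    · push Not at hall
      obtain ⟨u, hu, hun⟩ := hall
      refine ⟨z, hz, aeval f q u, hinv q u hu, hun, ?_⟩
      have := h u hu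
      rw [hq, map_mul, Module.End.mul_apply] at this
      simp only [map_sub, aeval_X, aeval_C, LinearMap.sub_apply, Module.algebraMap_end_apply] at this
      exact sub_eq_zero.1 this

theorem eig_root {V : Type} [AddCommGroup V] [Module ℂ V] (f : Module.End ℂ V)
    (U : Submodule ℂ V) (hU : ∀ u ∈ U, f u ∈ U) (u0 : V) (hu0 : u0 ∈ U) (hne : u0 ≠ 0)
    (e : ℕ) (he : 0 < e) (hf : ∀ u ∈ U, (f ^ e) u = u) :
    ∃ z : ℂ, z ^ e = 1 ∧ ∃ u ∈ U, u ≠ 0 ∧ f u = z • u := by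
  obtain ⟨z, hz, hr⟩ := eig_poly f U hU u0 hu0 hne _ (X ^ e - C 1) rfl
    (X_pow_sub_C_ne_zero he 1) (by
      intro u hu
      simp [hf u hu])
  refine ⟨z, ?_, hr⟩
  simpa [IsRoot, sub_eq_zero] using hz

theorem eig_hom {Q : Type} [Group Q] [Group.FG Q] (hc : ∀ x y : Q, x * y = y * x)
    (hinf : ¬ Finite Q) :
    ∃ φ : Q → ℂ, (∀ x y, φ (x * y) = φ x + φ y) ∧ ∃ g, φ g ≠ 0 := by
  let : CommGroup Q := { (inferInstance : Group Q) with mul_comm := hc }
  by_contra hcon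
  push Not at hcon
  have hA : Module.Finite ℤ (Additive Q) := Module.Finite.iff_addGroup_fg.2 inferInstance
  have htor : Module.IsTorsion ℤ (Additive Q) := by
    intro x
    change x ∈ Submodule.torsion ℤ (Additive Q)
    by_contra hx
    have hx' : (Submodule.torsion ℤ (Additive Q)).mkQ x ≠ 0 := by
      simpa [Submodule.Quotient.mk_eq_zero] using hx
    obtain ⟨f, hf⟩ := Module.Projective.exists_dual_ne_zero ℤ hx'
    have := hcon (fun g => ((f ((Submodule.torsion ℤ (Additive Q)).mkQ (Additive.ofMul g)) : ℤ) : ℂ))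
      (fun x y => by rw [ofMul_mul, map_add, map_add]; push_cast; rfl) (Additive.toMul x)
    exact hf (by exact_mod_cast this)
  have : Finite (Additive Q) := Module.finite_of_fg_torsion (Additive Q) htor
  exact hinf this

theorem eig_bez {Q : Type} [CommGroup Q] (a b : Q) (p q : ℕ) (u v : ℤ)
    (h : u * (p : ℤ) + v * (q : ℤ) = 1) :
    (a ^ p * (b ^ q)⁻¹) ^ u * (a ^ v * b ^ u) ^ (q : ℤ) = a ∧
    (a ^ p * (b ^ q)⁻¹) ^ (-v) * (a ^ v * b ^ u) ^ (p : ℤ) = b := by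
  have e1 : ∀ i j : ℤ, (a ^ p * (b ^ q)⁻¹) ^ i * (a ^ v * b ^ u) ^ j =
      a ^ ((p : ℤ) * i + v * j) * b ^ (-(q : ℤ) * i + u * j) := by
    intro i j
    rw [← zpow_natCast a p, ← zpow_natCast b q, ← zpow_neg, mul_zpow, mul_zpow, ← zpow_mul,
      ← zpow_mul, ← zpow_mul, ← zpow_mul, zpow_add, zpow_add, mul_mul_mul_comm]
  constructor
  · rw [e1]
    have h1 : (p : ℤ) * u + v * q = 1 := by linarith
    have h2 : -(q : ℤ) * u + u * q = 0 := by ring
    rw [h1, h2]; simp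
  · rw [e1]
    have h1 : (p : ℤ) * (-v) + v * p = 0 := by ring
    have h2 : -(q : ℤ) * (-v) + u * p = 1 := by linarith
    rw [h1, h2]; simp

theorem eig_num (α β : ℂ) (e : ℕ) (he : 0 < e) (ha : α ^ e = 1) (hb : β ^ e = 1) :
    ∃ (p q : ℕ) (u v : ℤ), u * (p : ℤ) + v * (q : ℤ) = 1 ∧ α ^ p = β ^ q := by
  have : NeZero e := ⟨he.ne'⟩
  have hζ := Complex.isPrimitiveRoot_exp e he.ne'
  obtain ⟨i, -, rfl⟩ := hζ.eq_pow_of_pow_eq_one ha
  obtain ⟨j, -, rfl⟩ := hζ.eq_pow_of_pow_eq_one hb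
  rcases Nat.eq_zero_or_pos (Nat.gcd j i) with h0 | hpos
  · obtain ⟨rfl, rfl⟩ := Nat.gcd_eq_zero_iff.1 h0
    exact ⟨1, 0, 1, 0, by simp, by simp⟩
  · obtain ⟨p, q, hpq, hj, hi⟩ := Nat.exists_coprime j i
    have hco : IsCoprime (p : ℤ) (q : ℤ) := Nat.isCoprime_iff_coprime.2 hpq
    obtain ⟨u, v, huv⟩ := hco
    refine ⟨p, q, u, v, huv, ?_⟩
    rw [← pow_mul, ← pow_mul]
    congr 1
    generalize Nat.gcd j i = d at hj hi
    rw [hj, hi]; ring

theorem eig_st : EigSt := by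
  intro G _ _ H A _ _ _ hAH hAi hcomm hcH s t hst
  classical
  have he : 0 < H.index := Nat.pos_of_ne_zero Subgroup.FiniteIndex.index_ne_zero
  let c : G → H → H := fun g h => MulAut.conjNormal g h
  have hcv : ∀ g (h : H), ((c g h : H) : G) = g * h * g⁻¹ := fun g h => by simp [c]
  have hcm : ∀ g g' h, c (g * g') h = c g (c g' h) := fun g g' h => by simp [c]
  have hc1 : ∀ h, c 1 h = h := fun h => by simp [c]
  have hcx : ∀ g x y, c g (x * y) = c g x * c g y := fun g x y => by simp [c]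
  let W : Submodule ℂ (H → ℂ) :=
    { carrier := {φ | (∀ x y, φ (x * y) = φ x + φ y) ∧ ∀ x : H, (x : G) ∈ A → φ x = 0}
      add_mem' := by
        rintro φ ψ ⟨h1, h2⟩ ⟨h3, h4⟩
        refine ⟨fun x y => ?_, fun x hx => ?_⟩
        · simp only [Pi.add_apply, h1, h3]; ring
        · simp [h2 x hx, h4 x hx]
      zero_mem' := ⟨fun x y => by simp, fun x _ => rfl⟩
      smul_mem' := by
        rintro a φ ⟨h1, h2⟩
        refine ⟨fun x y => ?_, fun x hx => ?_⟩
        · simp only [Pi.smul_apply, h1, smul_add]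
        · simp [h2 x hx] }
  have hW : ∀ φ, φ ∈ W ↔ (∀ x y, φ (x * y) = φ x + φ y) ∧ ∀ x : H, (x : G) ∈ A → φ x = 0 :=
    fun φ => Iff.rfl
  let f : G → Module.End ℂ (H → ℂ) := fun g => LinearMap.funLeft ℂ ℂ (c g)
  have hf : ∀ g φ h, f g φ h = φ (c g h) := fun g φ h => rfl
  have hfW : ∀ g, ∀ φ ∈ W, f g φ ∈ W := by
    intro g φ hφ
    obtain ⟨h1, h2⟩ := (hW φ).1 hφ
    refine (hW _).2 ⟨fun x y => ?_, fun x hx => ?_⟩
    · rw [hf, hf, hf, hcx, h1]
    · rw [hf]
      apply h2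
      rw [hcv]
      exact Subgroup.Normal.conj_mem inferInstance _ hx g
  have htriv : ∀ φ ∈ W, ∀ g ∈ H, ∀ h, φ (c g h) = φ h := by
    intro φ hφ g hg h
    obtain ⟨h1, h2⟩ := (hW φ).1 hφ
    have e1 : c g h = (c g h * h⁻¹) * h := by simp
    rw [e1, h1, h2, zero_add]
    rw [Subgroup.coe_mul, hcv, Subgroup.coe_inv]
    exact hcomm g hg h h.2
  have hfp : ∀ g (n : ℕ) φ h, (f g ^ n) φ h = φ (c (g ^ n) h) := by
    intro g n
    induction n with
    | zero => intro φ h; simp [hc1]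
    | succ n ih =>
      intro φ h
      rw [pow_succ, Module.End.mul_apply, ih, hf, ← hcm, ← pow_succ']
  have hfe : ∀ g, ∀ φ ∈ W, (f g ^ H.index) φ = φ := by
    intro g φ hφ
    funext h
    rw [hfp]
    exact htriv φ hφ _ (Subgroup.pow_index_mem H g) h
  -- a nonzero element of W
  obtain ⟨φ0, hφ0, hφ0n⟩ : ∃ φ ∈ W, φ ≠ 0 := by
    have : Group.FG H := Subgroup.fg_of_index_ne_zero H
    have : Group.FG (H ⧸ A.subgroupOf H) := QuotientGroup.fg _
    obtain ⟨ψ, hψ, g, hg⟩ := eig_hom (Q := H ⧸ A.subgroupOf H) (by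
      intro x y
      obtain ⟨x, rfl⟩ := QuotientGroup.mk_surjective x
      obtain ⟨y, rfl⟩ := QuotientGroup.mk_surjective y
      rw [← QuotientGroup.mk_mul, ← QuotientGroup.mk_mul, QuotientGroup.eq, Subgroup.mem_subgroupOf]
      have := hcomm _ (H.inv_mem y.2) _ (H.inv_mem x.2)
      simpa [mul_assoc] using this) (by
      intro hfin
      apply hAi
      have h1 : (A.subgroupOf H).FiniteIndex := Subgroup.finiteIndex_of_finite_quotient
      refine ⟨?_⟩
      rw [← Subgroup.relIndex_mul_index hAH]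
      exact mul_ne_zero h1.index_ne_zero he.ne')
    have hψ1 : ψ 1 = 0 := by
      have := hψ 1 1
      simpa using this
    refine ⟨fun h => ψ (QuotientGroup.mk h), (hW _).2 ⟨fun x y => ?_, fun x hx => ?_⟩, ?_⟩
    · rw [QuotientGroup.mk_mul, hψ]
    · have : (QuotientGroup.mk x : H ⧸ A.subgroupOf H) = 1 :=
        (QuotientGroup.eq_one_iff x).2 (Subgroup.mem_subgroupOf.2 hx)
      rw [this, hψ1]
    · obtain ⟨g, rfl⟩ := QuotientGroup.mk_surjective g
      intro h0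
      exact hg (congrFun h0 g)
  obtain ⟨α, hα, φ1, hφ1, hφ1n, hφ1e⟩ := eig_root (f s) W (hfW s) φ0 hφ0 hφ0n _ he (hfe s)
  have hcom : ∀ g g' : G, g * g' * g⁻¹ * g'⁻¹ ∈ H := fun g g' =>
    hcH (Subgroup.commutator_mem_commutator (Subgroup.mem_top g) (Subgroup.mem_top g'))
  let U : Submodule ℂ (H → ℂ) := W ⊓ LinearMap.ker (f s - α • LinearMap.id)
  have hU : ∀ φ, φ ∈ U ↔ φ ∈ W ∧ f s φ = α • φ := fun φ => by
    simp [U, sub_eq_zero]
  obtain ⟨β, hβ, φ, hφU, hφn, hφt⟩ := eig_root (f t) U (by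
    intro φ hφ
    obtain ⟨h1, h2⟩ := (hU φ).1 hφ
    refine (hU _).2 ⟨hfW t φ h1, ?_⟩
    funext h
    have e1 : t * s = (t * s * t⁻¹ * s⁻¹) * (s * t) := by group
    rw [hf, hf, ← hcm, e1, hcm, htriv φ h1 _ (hcom t s), hcm, ← hf s φ, h2]
    rfl) φ1 ((hU φ1).2 ⟨hφ1, hφ1e⟩) hφ1n _ he (fun φ hφ => hfe t φ ((hU φ).1 hφ).1)
  obtain ⟨hφW, hφs⟩ := (hU φ).1 hφU
  obtain ⟨hadd, hzero⟩ := (hW φ).1 hφW
  have hpow : ∀ (g : G) (z : ℂ), f g φ = z • φ → ∀ (n : ℕ) h, φ (c (g ^ n) h) = z ^ n * φ h := by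
    intro g z hz n
    induction n with
    | zero => intro h; simp [hc1]
    | succ n ih =>
      intro h
      rw [pow_succ', hcm, ← hf g φ, hz, Pi.smul_apply, ih, smul_eq_mul, pow_succ']
      ring
  obtain ⟨p, q, u, v, huv, hpq⟩ := eig_num α β _ he hα hβ
  have hfix : ∀ h, φ (c (s ^ p * (t ^ q)⁻¹) h) = φ h := by
    intro h
    rw [hcm, hpow s α hφs, hpq, ← hpow t β hφt, ← hcm, mul_inv_cancel, hc1]
  generalize hτ0 : s ^ p * (t ^ q)⁻¹ = τ0 at hfix
  have hφ1' : φ 1 = 0 := hzero 1 A.one_mem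
  have hφpow : ∀ (x : H) (n : ℕ), φ (x ^ n) = n * φ x := by
    intro x n
    induction n with
    | zero => simp [hφ1']
    | succ n ih => rw [pow_succ, hadd, ih]; push_cast; ring
  have hexp : ∀ (m : H) (n : ℕ), ∃ x : H, ((m : G) * τ0) ^ n = x * τ0 ^ n ∧ φ x = n * φ m := by
    intro m n
    induction n with
    | zero => exact ⟨1, by simp, by simp [hφ1']⟩
    | succ n ih =>
      obtain ⟨x, hx1, hx2⟩ := ih
      refine ⟨m * c τ0 x, ?_, ?_⟩
      · rw [pow_succ', hx1, Subgroup.coe_mul, hcv, pow_succ']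
        group
      · rw [hadd, hfix, hx2]; push_cast; ring
  obtain ⟨m, hm⟩ : ∃ m : H, (H.index : ℂ) * φ m + φ ⟨τ0 ^ H.index, Subgroup.pow_index_mem H τ0⟩ ≠ 0 := by
    by_cases h0 : φ ⟨τ0 ^ H.index, Subgroup.pow_index_mem H τ0⟩ = 0
    · obtain ⟨m, hm⟩ := Function.ne_iff.1 hφn
      refine ⟨m, ?_⟩
      rw [h0, add_zero]
      exact mul_ne_zero (by exact_mod_cast he.ne') hm
    · exact ⟨1, by simpa [hφ1'] using h0⟩
  refine ⟨s ^ v * t ^ u, m * τ0, ?_, ?_⟩
  · let : CommGroup (G ⧸ H) := { (inferInstance : Group (G ⧸ H)) with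
      mul_comm := by
        intro x y
        obtain ⟨x, rfl⟩ := QuotientGroup.mk_surjective x
        obtain ⟨y, rfl⟩ := QuotientGroup.mk_surjective y
        rw [← QuotientGroup.mk_mul, ← QuotientGroup.mk_mul, QuotientGroup.eq]
        have := hcom y⁻¹ x⁻¹
        simpa [mul_assoc] using this }
    have hb := eig_bez (QuotientGroup.mk' H s) (QuotientGroup.mk' H t) p q u v huv
    have hτ : QuotientGroup.mk' H (m * τ0) =
        QuotientGroup.mk' H s ^ p * (QuotientGroup.mk' H t ^ q)⁻¹ := by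
      have hm1 : QuotientGroup.mk' H (m : G) = 1 := (QuotientGroup.eq_one_iff _).2 m.2
      rw [map_mul, hm1, one_mul, ← hτ0, map_mul, map_inv, map_pow, map_pow]
    have hy : QuotientGroup.mk' H (s ^ v * t ^ u) =
        QuotientGroup.mk' H s ^ v * QuotientGroup.mk' H t ^ u := by
      rw [map_mul, map_zpow, map_zpow]
    rw [← hτ, ← hy] at hb
    have hmem : ∀ (i j : ℤ) (g : G), QuotientGroup.mk' H (m * τ0) ^ i *
        QuotientGroup.mk' H (s ^ v * t ^ u) ^ j = QuotientGroup.mk' H g →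
        g ∈ Subgroup.closure {s ^ v * t ^ u, (m : G) * τ0} ⊔ H := by
      intro i j g hg
      rw [← map_zpow, ← map_zpow, ← map_mul] at hg
      have h1 : (((m : G) * τ0) ^ i * (s ^ v * t ^ u) ^ j)⁻¹ * g ∈ H := QuotientGroup.eq.1 hg
      have h2 : ((m : G) * τ0) ^ i * (s ^ v * t ^ u) ^ j ∈
          Subgroup.closure {s ^ v * t ^ u, (m : G) * τ0} :=
        Subgroup.mul_mem _ (Subgroup.zpow_mem _ (Subgroup.subset_closure (by simp)) _)
          (Subgroup.zpow_mem _ (Subgroup.subset_closure (by simp)) _)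
      have := Subgroup.mul_mem _ (Subgroup.mem_sup_left (T := H) h2) (Subgroup.mem_sup_right h1)
      rwa [mul_inv_cancel_left] at this
    rw [eq_top_iff, ← hst]
    refine sup_le ?_ le_sup_right
    rw [Subgroup.closure_le]
    rintro g (rfl | rfl)
    · exact hmem _ _ _ hb.1
    · exact hmem _ _ _ hb.2
  · intro k hk hkA
    obtain ⟨x, hx1, hx2⟩ := hexp m H.index
    have h1 : φ ((x * ⟨τ0 ^ H.index, Subgroup.pow_index_mem H τ0⟩) ^ k) = 0 := by
      apply hzero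
      rw [Subgroup.coe_pow, Subgroup.coe_mul, ← hx1, ← pow_mul, mul_comm, pow_mul]
      exact A.pow_mem hkA _
    rw [hφpow, hadd, hx2] at h1
    exact mul_ne_zero (by exact_mod_cast hk.ne') hm h1

end Pool.Agent.Lib.MP_94a9ea_al.H25
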