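import Pool.Agent.Lib.MP_94a9ea_al.H25.FSt

set_option autoImplicit false

namespace Pool.Agent.Lib.MP_94a9ea_al.H25

namespace FPx

variable {F : Type} [Group F]

/-- Conjugation as a homomorphism. -/
def cjh (g : F) : F →* F := MonoidHom.mk' (fun w => cj w g) (fun a b => by simp [cj, mul_assoc])

theorem cj_cj (a u v : F) : cj (cj a u) v = cj a (u * v) := by simp [cj, mul_assoc]

theorem cj_one (a : F) : cj a 1 = a := by simp [cj]

theorem cj_dist (a u z : F) : cj (cj a u) z = cj (cj a z) (cj u z) := by simp [cj, mul_assoc]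

theorem map_cj {Q : Type} [Group Q] (f : F →* Q) (a u : F) : f (cj a u) = cj (f a) (f u) := by
  simp [cj]

theorem cj_mem (K : Subgroup F) [hK : K.Normal] {a : F} (h : a ∈ K) (g : F) : cj a g ∈ K := by
  simpa [cj] using hK.conj_mem a h g⁻¹

/-- Elements conjugating `W` into itself in both directions. -/
def Nm (W : Subgroup F) : Subgroup F where
  carrier := {g | (∀ w ∈ W, cj w g ∈ W) ∧ ∀ w ∈ W, cj w g⁻¹ ∈ W}
  one_mem' := by simp [cj]
  mul_mem' := by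
    rintro a b ⟨h1, h2⟩ ⟨h3, h4⟩
    refine ⟨fun w hw => ?_, fun w hw => ?_⟩
    · rw [← cj_cj]; exact h3 _ (h1 w hw)
    · rw [mul_inv_rev, ← cj_cj]; exact h2 _ (h4 w hw)
  inv_mem' := by
    rintro a ⟨h1, h2⟩
    exact ⟨h2, by simpa using h1⟩

theorem le_Nm (W : Subgroup F) : W ≤ Nm W := fun _ hg =>
  ⟨fun _ hw => W.mul_mem (W.mul_mem (W.inv_mem hg) hw) hg,
    fun _ hw => W.mul_mem (W.mul_mem (W.inv_mem (W.inv_mem hg)) hw) (W.inv_mem hg)⟩

theorem cj_closure {s : Set F} {W : Subgroup F} {g : F} (h : ∀ a ∈ s, cj a g ∈ W) :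
    ∀ w ∈ Subgroup.closure s, cj w g ∈ W := by
  have : Subgroup.closure s ≤ W.comap (cjh g) := (Subgroup.closure_le _).2 h
  exact fun w hw => this hw

theorem cj_sup {s : Set F} {K W : Subgroup F} [K.Normal] (hK : K ≤ W) {g : F}
    (h : ∀ a ∈ s, cj a g ∈ W) : ∀ w ∈ Subgroup.closure s ⊔ K, cj w g ∈ W := by
  have : Subgroup.closure s ⊔ K ≤ W.comap (cjh g) :=
    sup_le ((Subgroup.closure_le _).2 h) (fun k hk => hK (cj_mem K hk g))
  exact fun w hw => this hw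

theorem comm_closure {s : Set F} (h : ∀ a ∈ s, ∀ b ∈ s, Commute a b) :
    ∀ a ∈ Subgroup.closure s, ∀ b ∈ Subgroup.closure s, a * b = b * a := by
  have h1 : ∀ a ∈ s, ∀ b ∈ Subgroup.closure s, Commute a b := by
    intro a ha b hb
    induction hb using Subgroup.closure_induction with
    | mem x hx => exact h a ha x hx
    | one => exact Commute.one_right _
    | mul x y _ _ h1 h2 => exact h1.mul_right h2
    | inv x _ h1 => exact h1.inv_right
  intro a ha b hb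
  change Commute a b
  induction ha using Subgroup.closure_induction with
  | mem x hx => exact h1 x hx b hb
  | one => exact Commute.one_left _
  | mul x y _ _ h1 h2 => exact h1.mul_left h2
  | inv x _ h1 => exact h1.inv_left

theorem pick (V N : Subgroup F) [N.Normal] (E : Set F) (hE : E.Finite) (h : ∀ e ∈ E, e ∈ V ⊔ N) :
    ∃ R : Set F, R.Finite ∧ R ⊆ N ∧ ∀ K : Subgroup F, R ⊆ K → ∀ e ∈ E, e ∈ V ⊔ K := by
  have h' : ∀ e ∈ E, ∃ v ∈ V, ∃ z ∈ N, v * z = e := fun e he =>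
    Subgroup.mem_sup_of_normal_right.1 (h e he)
  choose! v hv z hz hvz using h'
  refine ⟨z '' E, hE.image _, ?_, fun K hK e he => ?_⟩
  · rintro _ ⟨e, he, rfl⟩
    exact hz e he
  · rw [← hvz e he]
    exact Subgroup.mul_mem_sup (hv e he) (hK ⟨e, he, rfl⟩)

theorem back {N K : Subgroup F} [K.Normal] (hKN : K ≤ N) (hK : K.IsFinitelyNormallyGenerated)
    (h : (N.map (QuotientGroup.mk' K)).IsFinitelyNormallyGenerated) :
    N.IsFinitelyNormallyGenerated := by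
  have := h.comap (QuotientGroup.mk'_surjective K) (by rwa [QuotientGroup.ker_mk'])
  rwa [Subgroup.comap_map_eq, QuotientGroup.ker_mk', sup_eq_left.2 hKN] at this

theorem fng_of_comm (h2 : NoeSt) [hF : Group.FG F] (B : Subgroup F) [hB : B.Normal]
    (h : ∀ x y : F, x * y * x⁻¹ * y⁻¹ ∈ B) : B.IsFinitelyNormallyGenerated := by
  obtain ⟨S, hS, hfin⟩ := Group.fg_iff.1 hF
  set R : Set F := Set.image2 (fun a b => a * b * a⁻¹ * b⁻¹) S S with hR
  have hRf : R.Finite := hfin.image2 _ hfin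
  have hKB : Subgroup.normalClosure R ≤ B := Subgroup.normalClosure_le_normal (by
    rintro _ ⟨a, -, b, -, rfl⟩
    exact h a b)
  refine back hKB ⟨R, hRf, rfl⟩ ?_
  set π := QuotientGroup.mk' (Subgroup.normalClosure R) with hπ
  have htop : Subgroup.closure (π '' S) = ⊤ := by
    rw [← MonoidHom.map_closure, hS, ← MonoidHom.range_eq_map, MonoidHom.range_eq_top]
    exact QuotientGroup.mk'_surjective _
  refine h2 _ ∅ (π '' S) Set.finite_empty (hfin.image _) ⊤ ?_ ?_ (by simp) _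
    (hB.map π (QuotientGroup.mk'_surjective _)) le_top
  · rw [← htop]
    congr 1
    ext g
    simp [cj]
  · rw [← htop]
    refine comm_closure ?_
    rintro _ ⟨a, ha, rfl⟩ _ ⟨b, hb, rfl⟩
    have : π (a * b * a⁻¹ * b⁻¹) = 1 :=
      (QuotientGroup.eq_one_iff _).2 (Subgroup.subset_normalClosure ⟨a, ha, b, hb, rfl⟩)
    rw [map_mul, map_mul, map_mul, map_inv, map_inv] at this
    exact commutatorElement_eq_one_iff_commute.1 this

omit [Group F] in
theorem ys_finite (l : List (F × F)) : (Ys l).Finite := by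
  refine ((l.finite_toSet.image Prod.fst).union (l.finite_toSet.image Prod.snd)).subset ?_
  rintro y ⟨p, hp, h | h⟩
  · exact Or.inl ⟨p, hp, h.symm⟩
  · exact Or.inr ⟨p, hp, h.symm⟩

theorem main (h1 : PKSt) (h2 : NoeSt) [hF : Group.FG F] (N B F0 : Subgroup F) [hN : N.Normal]
    [hB : B.Normal] [F0.Normal] [F0.FiniteIndex] (hNB : N ≤ B)
    (ha : ∀ a ∈ B, ∀ b ∈ B, a * b * a⁻¹ * b⁻¹ ∈ N)
    (hb : ∀ x ∈ F0, ∀ y ∈ F0, x * y * x⁻¹ * y⁻¹ ∈ B) (l : List (F × F))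
    (hc : Subgroup.closure (Ys l) ⊔ B = F0)
    (hd : ∀ p ∈ l, ∀ a ∈ B, (cj a p.2)⁻¹ * (cj a p.1 * a⁻¹ * cj a p.1⁻¹) ∈ N) :
    N.IsFinitelyNormallyGenerated := by
  set L0 := Subgroup.closure (Ys l) with hL0
  have hLF : L0 ≤ F0 := hc ▸ le_sup_left
  have hBF : B ≤ F0 := hc ▸ le_sup_right
  have hyy : ∀ y ∈ L0, ∀ y' ∈ L0, y⁻¹ * cj y y' ∈ B := by
    intro y hy y' hy'
    simpa [cj, mul_assoc] using hb _ (F0.inv_mem (hLF hy)) _ (F0.inv_mem (hLF hy'))
  obtain ⟨S0, hS0f, hS0⟩ := fng_of_comm h2 (F := F0) (B.subgroupOf F0)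
    (fun x y => Subgroup.mem_subgroupOf.2 (by simpa using hb x x.2 y y.2))
  set A1 : Set F := Subtype.val '' S0 ∪ Set.image2 (fun y y' => y⁻¹ * cj y y') (Ys l) (Ys l)
    with hA1
  have hA1f : A1.Finite := (hS0f.image _).union ((ys_finite l).image2 _ (ys_finite l))
  have hA1B : A1 ⊆ B := by
    rintro _ (⟨a, ha, rfl⟩ | ⟨y, hy, y', hy', rfl⟩)
    · have : a ∈ B.subgroupOf F0 := hS0 ▸ Subgroup.subset_normalClosure ha
      exact Subgroup.mem_subgroupOf.1 this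
    · exact hyy y (Subgroup.subset_closure hy) y' (Subgroup.subset_closure hy')
  -- any subgroup containing the `F0` conjugates of `A1` contains `B`
  have hBle : ∀ W : Subgroup F, (∀ a ∈ A1, ∀ w ∈ F0, cj a w ∈ W) → B ≤ W := by
    intro W hW b hbB
    have hm : (⟨b, hBF hbB⟩ : F0) ∈ Subgroup.normalClosure S0 :=
      hS0 ▸ Subgroup.mem_subgroupOf.2 hbB
    have hle : Subgroup.normalClosure S0 ≤ W.subgroupOf F0 := by
      refine (Subgroup.closure_le _).2 fun x hx => ?_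
      obtain ⟨a, ha, hax⟩ := Group.mem_conjugatesOfSet_iff.1 hx
      obtain ⟨c, rfl⟩ := isConj_iff.1 hax
      have := hW a (Or.inl ⟨a, ha, rfl⟩) (c⁻¹ : F0) (c⁻¹).2
      exact Subgroup.mem_subgroupOf.2 (by simpa [cj] using this)
    exact Subgroup.mem_subgroupOf.1 (hle hm)
  set s : Set F := {g | ∃ a ∈ A1, ∃ u ∈ L0, g = cj a u} with hs
  set U := Subgroup.closure s with hU
  have hBU : B ≤ U ⊔ N := by
    refine hBle _ fun a haA w hw => ?_
    rw [← hc] at hw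
    obtain ⟨u, hu, b, hbB, rfl⟩ := Subgroup.mem_sup_of_normal_right.1 hw
    have e : cj a (u * b) = cj a u * ((cj a u)⁻¹ * b⁻¹ * (cj a u)⁻¹⁻¹ * b⁻¹⁻¹) := by
      simp [cj, mul_assoc]
    rw [e]
    exact Subgroup.mul_mem_sup (Subgroup.subset_closure ⟨a, haA, u, hu, rfl⟩)
      (ha _ (B.inv_mem (cj_mem B (hA1B haA) u)) _ (B.inv_mem hbB))
  obtain ⟨S, hS, hSf⟩ := Group.fg_iff.1 hF
  have hTf : (S ∪ S⁻¹).Finite := hSf.union hSf.inv
  obtain ⟨R0, hR0f, hR0N, hR0⟩ := h1 F N B ha l hyy hd A1 hA1f hA1B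
  obtain ⟨R1, hR1f, hR1N, hR1⟩ := pick U N (Set.image2 cj A1 (S ∪ S⁻¹)) (hA1f.image2 _ hTf) (by
    rintro _ ⟨a, haA, z, -, rfl⟩
    exact hBU (cj_mem B (hA1B haA) z))
  obtain ⟨R2, hR2f, hR2N, hR2⟩ := pick (L0 ⊔ U) N (Set.image2 cj (Ys l) (S ∪ S⁻¹))
    ((ys_finite l).image2 _ hTf) (by
    rintro _ ⟨y, hy, z, -, rfl⟩
    have h3 : cj y z ∈ F0 := cj_mem F0 (hLF (Subgroup.subset_closure hy)) z
    rw [← hc] at h3
    rw [sup_assoc]
    exact sup_le_sup_left hBU _ h3)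
  set K := Subgroup.normalClosure (R0 ∪ R1 ∪ R2) with hK
  have hKN : K ≤ N :=
    Subgroup.normalClosure_le_normal (Set.union_subset (Set.union_subset hR0N hR1N) hR2N)
  have hsub : R0 ∪ R1 ∪ R2 ⊆ K := Subgroup.subset_normalClosure
  have hL : ∀ g ∈ L0, ∀ w ∈ U ⊔ K, cj w g ∈ U ⊔ K := by
    intro g hg
    refine cj_sup le_sup_right ?_
    rintro _ ⟨a, haA, u, hu, rfl⟩
    rw [cj_cj]
    exact Subgroup.mem_sup_left (Subgroup.subset_closure ⟨a, haA, _, L0.mul_mem hu hg, rfl⟩)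
  have hM : L0 ⊔ U ⊔ K ≤ Nm (U ⊔ K) := by
    rw [sup_assoc]
    exact sup_le (fun g hg => ⟨hL g hg, hL _ (L0.inv_mem hg)⟩) (le_Nm _)
  have hz : ∀ z ∈ S ∪ S⁻¹, ∀ w ∈ U ⊔ K, cj w z ∈ U ⊔ K := by
    intro z hz
    refine cj_sup le_sup_right ?_
    rintro _ ⟨a, haA, u, hu, rfl⟩
    rw [cj_dist]
    have e1 : cj a z ∈ U ⊔ K :=
      hR1 K (fun x hx => hsub (Or.inl (Or.inr hx))) _ ⟨a, haA, z, hz, rfl⟩
    have e2 : cj u z ∈ L0 ⊔ U ⊔ K :=
      cj_closure (fun y hy => hR2 K (fun x hx => hsub (Or.inr hx)) _ ⟨y, hy, z, hz, rfl⟩) u hu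
    exact (hM e2).1 _ e1
  have hall : ∀ g : F, g ∈ Nm (U ⊔ K) := by
    have : Subgroup.closure S ≤ Nm (U ⊔ K) := (Subgroup.closure_le _).2 fun z h =>
      ⟨hz z (Or.inl h), hz z⁻¹ (Or.inr (by simpa using h))⟩
    exact fun g => this (hS ▸ Subgroup.mem_top g)
  have hBW : B ≤ U ⊔ K := hBle _ fun a haA w _ => (hall w).1 a
    (Subgroup.mem_sup_left (Subgroup.subset_closure ⟨a, haA, 1, L0.one_mem, (cj_one a).symm⟩))
  refine back hKN ⟨_, (hR0f.union hR1f).union hR2f, rfl⟩ ?_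
  set π := QuotientGroup.mk' K with hπ
  have hUπ : U.map π = Subgroup.closure
      {g | ∃ a ∈ π '' A1, ∃ u ∈ Subgroup.closure (π '' Ys l), g = cj a u} := by
    rw [hU, MonoidHom.map_closure, ← MonoidHom.map_closure π (Ys l)]
    congr 1
    ext g
    constructor
    · rintro ⟨_, ⟨a, haA, u, hu, rfl⟩, rfl⟩
      exact ⟨_, ⟨a, haA, rfl⟩, _, ⟨u, hu, rfl⟩, map_cj π a u⟩
    · rintro ⟨_, ⟨a, haA, rfl⟩, _, ⟨u, hu, rfl⟩, rfl⟩
      exact ⟨_, ⟨a, haA, u, hu, rfl⟩, map_cj π a u⟩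
  refine h2 _ (π '' Ys l) (π '' A1) ((ys_finite l).image _) (hA1f.image _) (U.map π) hUπ ?_ ?_ _
    (hN.map π (QuotientGroup.mk'_surjective _)) ?_
  · rw [hU, MonoidHom.map_closure]
    refine comm_closure ?_
    rintro _ ⟨_, ⟨a, haA, u, hu, rfl⟩, rfl⟩ _ ⟨_, ⟨b, hbA, v, hv, rfl⟩, rfl⟩
    have h3 : cj a u * cj b v * (cj a u)⁻¹ * (cj b v)⁻¹ ∈ K :=
      Subgroup.normalClosure_mono (fun x hx => Or.inl (Or.inl hx)) (hR0 a haA b hbA u hu v hv)
    have : π (cj a u * cj b v * (cj a u)⁻¹ * (cj b v)⁻¹) = 1 := (QuotientGroup.eq_one_iff _).2 h3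
    rw [map_mul, map_mul, map_mul, map_inv, map_inv] at this
    exact commutatorElement_eq_one_iff_commute.1 this
  · rintro _ ⟨y, hy, rfl⟩ _ ⟨y', hy', rfl⟩
    refine ⟨y⁻¹ * cj y y', Subgroup.subset_closure
      ⟨_, Or.inr ⟨y, hy, y', hy', rfl⟩, 1, L0.one_mem, (cj_one _).symm⟩, ?_⟩
    rw [map_mul, map_inv, map_cj]
  · refine (Subgroup.map_mono (hNB.trans hBW)).trans ?_
    rw [Subgroup.map_sup]
    refine sup_le le_rfl ?_
    rintro _ ⟨k, hk, rfl⟩
    rw [show π k = 1 from (QuotientGroup.eq_one_iff _).2 hk]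
    exact Subgroup.one_mem _

end FPx

theorem fp_st (h1 : PKSt) (h2 : NoeSt) : FPSt := by
  intro G _ hG H A _ _ hH ha hb l hc hd
  obtain ⟨α, _, φ, hφ⟩ := Group.fg_iff_exists_freeGroup_hom_surjective_finite.1 hG
  refine Group.IsFinitelyPresented.of_surjective φ hφ ?_
  have : (H.comap φ).FiniteIndex :=
    ⟨by rw [Subgroup.index_comap_of_surjective _ hφ]; exact hH.index_ne_zero⟩
  have hσ := Function.surjInv_eq hφ
  set σ := Function.surjInv hφ
  have hker : φ.ker ≤ A.comap φ := Subgroup.ker_le_comap _ _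
  refine FPx.main h1 h2 φ.ker (A.comap φ) (H.comap φ) hker ?_ ?_
    (l.map fun p => (σ p.1, σ p.2)) ?_ ?_
  · intro a haA b hbA
    rw [MonoidHom.mem_ker, map_mul, map_mul, map_mul, map_inv, map_inv, ha _ haA _ hbA]
    simp
  · intro x hx y hy
    simpa using hb _ hx _ hy
  · have e : φ '' Ys (l.map fun p => (σ p.1, σ p.2)) = Ys l := by
      ext y
      constructor
      · rintro ⟨x, ⟨q, hq, h⟩, rfl⟩
        obtain ⟨p, hp, rfl⟩ := List.mem_map.1 hq
        refine ⟨p, hp, ?_⟩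
        rcases h with h | h
        · exact Or.inl (by rw [h, hσ])
        · exact Or.inr (by rw [h, hσ])
      · rintro ⟨p, hp, h | h⟩
        · exact ⟨σ p.1, ⟨_, List.mem_map.2 ⟨p, hp, rfl⟩, Or.inl rfl⟩, by rw [h, hσ]⟩
        · exact ⟨σ p.2, ⟨_, List.mem_map.2 ⟨p, hp, rfl⟩, Or.inr rfl⟩, by rw [h, hσ]⟩
    rw [← hc, ← e, ← MonoidHom.map_closure]
    conv_rhs => rw [← Subgroup.map_comap_eq_self_of_surjective hφ A, ← Subgroup.map_sup,
      Subgroup.comap_map_eq, sup_assoc, sup_eq_left.2 hker]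
  · intro q hq a haA
    obtain ⟨p, hp, rfl⟩ := List.mem_map.1 hq
    rw [MonoidHom.mem_ker, map_mul, map_mul, map_mul, map_inv, map_inv, FPx.map_cj, FPx.map_cj,
      FPx.map_cj, map_inv, hσ, hσ, hd p hp _ haA]
    exact inv_mul_cancel _

end Pool.Agent.Lib.MP_94a9ea_al.H25
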