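import Pool.Agent.Lib.MP_94a9ea_al.H25.FSt

set_option autoImplicit false

namespace Pool.Agent.Lib.MP_94a9ea_al.H25

namespace Locx

theorem main {A L : Type} [Ring A] [NoZeroDivisors A] [Ring L] {E : Type} [Fintype E]
    [DecidableEq E] (c : E → A) (ι : A →+* L) (hι : Function.Injective ι)
    (hc : ∀ s : Submonoid.closure (Set.range c), ∀ r, s.1 * r = r * s.1)
    (u : Submonoid.closure (Set.range c) → Lˣ) (hu : ∀ s, (u s : L) = ι s.1)
    (hz : ∀ z : L, ∃ s r, z = ((u s)⁻¹ : Lˣ) * ι r) :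
    ∃ ζ : Multiplicative (E → ℤ) →* L, NoZeroDivisors L ∧ (∀ k z, ζ k * z = z * ζ k) ∧
      (∀ e, ζ (Multiplicative.ofAdd (Pi.single e 1)) = ι (c e)) ∧
      (∀ z : L, ∃ k r, z = ζ k * ι r) ∧
      (∀ k, ∃ d ∈ Submonoid.closure (Set.range c), ∃ d' ∈ Submonoid.closure (Set.range c),
        ι d * ζ k = ι d') := by
  have c0 : ∀ s r, Commute (u s : L) (ι r) := fun s r => by
    rw [hu, Commute, SemiconjBy, ← map_mul, ← map_mul, hc]
  have c1 : ∀ s z, Commute (u s : L) z := by
    intro s z
    obtain ⟨t, r, rfl⟩ := hz z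
    refine Commute.mul_right (Commute.units_inv_right ?_) (c0 s r)
    rw [hu t]; exact c0 s _
  have c2 : ∀ s z, Commute (((u s)⁻¹ : Lˣ) : L) z := fun s z => (c1 s z).units_inv_left
  let w : Submonoid.closure (Set.range c) → (Subring.center L)ˣ := fun s =>
    ⟨⟨u s, Subring.mem_center_iff.2 fun z => (c1 s z).symm.eq⟩,
      ⟨((u s)⁻¹ : Lˣ), Subring.mem_center_iff.2 fun z => (c2 s z).symm.eq⟩,
      Subtype.ext (by simp), Subtype.ext (by simp)⟩
  have wv : ∀ s, (((w s : (Subring.center L)ˣ) : Subring.center L) : L) = ι s.1 := fun s => hu s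
  have w1 : w 1 = 1 := Units.ext (Subtype.ext (by rw [wv]; simp))
  have wm : ∀ s t, w (s * t) = w s * w t := fun s t =>
    Units.ext (Subtype.ext (by
      rw [Units.val_mul, Subring.coe_mul, wv, wv, wv, Submonoid.coe_mul, map_mul]))
  let g : E → Submonoid.closure (Set.range c) := fun e => ⟨c e, Submonoid.subset_closure ⟨e, rfl⟩⟩
  let z0 : Multiplicative (E → ℤ) →* (Subring.center L)ˣ :=
    { toFun := fun k => ∏ e, w (g e) ^ (k.toAdd e)
      map_one' := by simp
      map_mul' := fun a b => by simp [zpow_add, Finset.prod_mul_distrib] }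
  have z1 : ∀ e, z0 (Multiplicative.ofAdd (Pi.single e 1)) = w (g e) := by
    intro e
    change ∏ e', w (g e') ^ ((Pi.single e 1 : E → ℤ) e') = _
    rw [Finset.prod_eq_single e (fun b _ hb => by simp [hb]) (by simp)]
    simp
  have z2 : ∀ s, ∃ k, z0 k = w s := by
    rintro ⟨s, hs⟩
    induction hs using Submonoid.closure_induction with
    | mem x hx => obtain ⟨e, rfl⟩ := hx; exact ⟨_, z1 e⟩
    | one => exact ⟨1, by rw [map_one]; exact w1.symm⟩
    | mul x y hx hy ihx ihy =>
      obtain ⟨k, hk⟩ := ihx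
      obtain ⟨l, hl⟩ := ihy
      exact ⟨k * l, by rw [map_mul, hk, hl, ← wm]; rfl⟩
  let T : Subgroup (Subring.center L)ˣ :=
    { carrier := {x | ∃ d d', w d * x = w d'}
      one_mem' := ⟨1, 1, mul_one _⟩
      mul_mem' := by
        rintro x y ⟨a, a', ha⟩ ⟨b, b', hb⟩
        exact ⟨a * b, a' * b', by rw [wm, wm, ← ha, ← hb, mul_mul_mul_comm]⟩
      inv_mem' := by
        rintro x ⟨a, a', ha⟩
        exact ⟨a', a, by rw [← ha, mul_inv_cancel_right]⟩ }
  have z3 : ∀ k, z0 k ∈ T := fun k =>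
    T.prod_mem fun e _ => T.zpow_mem (show w (g e) ∈ T from ⟨1, g e, by rw [w1, one_mul]⟩) _
  refine ⟨((Subring.center L).subtype.toMonoidHom.comp (Units.coeHom _)).comp z0, ⟨?_⟩, ?_, ?_,
    ?_, ?_⟩
  · intro a b h
    obtain ⟨s, r, rfl⟩ := hz a
    obtain ⟨t, r', rfl⟩ := hz b
    rw [mul_assoc, Units.mul_right_eq_zero, ← mul_assoc, ← (c2 t (ι r)).eq, mul_assoc,
      Units.mul_right_eq_zero, ← map_mul, map_eq_zero_iff ι hι] at h
    rcases mul_eq_zero.1 h with h | h
    · left; simp [h]
    · right; simp [h]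
  · intro k z
    exact (Subring.mem_center_iff.1 ((z0 k : (Subring.center L)ˣ) : Subring.center L).2 z).symm
  · intro e
    change (((z0 _ : (Subring.center L)ˣ) : Subring.center L) : L) = _
    rw [z1, wv]
  · intro z
    obtain ⟨s, r, rfl⟩ := hz z
    obtain ⟨k, hk⟩ := z2 s
    refine ⟨k⁻¹, r, ?_⟩
    change _ = (((z0 k⁻¹ : (Subring.center L)ˣ) : Subring.center L) : L) * _
    rw [map_inv, hk]
    rfl
  · intro k
    obtain ⟨d, d', h⟩ := z3 k
    refine ⟨d.1, d.2, d'.1, d'.2, ?_⟩
    rw [← wv, ← wv, ← h]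
    rfl

end Locx

theorem loc_st : LocSt := by
  intro A _ _ E _ _ c h0 hc
  have hS : ∀ s : Submonoid.closure (Set.range c), ∀ r, s.1 * r = r * s.1 := by
    rintro ⟨s, hs⟩ r
    induction hs using Submonoid.closure_induction with
    | mem x hx => obtain ⟨e, rfl⟩ := hx; exact hc e r
    | one => simp
    | mul x y hx hy ihx ihy =>
      have h1 : x * r = r * x := ihx
      have h2 : y * r = r * y := ihy
      change x * y * r = r * (x * y)
      rw [mul_assoc, h2, ← mul_assoc, h1, mul_assoc]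
  have hN : Submonoid.closure (Set.range c) ≤ nonZeroDivisorsLeft A := by
    rw [Submonoid.closure_le]
    rintro _ ⟨e, rfl⟩ x hx
    exact (mul_eq_zero.1 hx).resolve_left (h0 e)
  letI : OreLocalization.OreSet (Submonoid.closure (Set.range c)) :=
    OreLocalization.oreSetOfNoZeroDivisors (fun r _ => r) (fun _ s => s) (fun r s => hS s r)
  have hι : Function.Injective (OreLocalization.numeratorRingHom :
      A →+* OreLocalization (Submonoid.closure (Set.range c)) A) :=
    OreLocalization.numeratorHom_inj hN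
  obtain ⟨ζ, h1, h2, h3, h4, h5⟩ := Locx.main c OreLocalization.numeratorRingHom hι hS
    OreLocalization.numeratorUnit (fun _ => rfl) (fun z => by
      induction z using OreLocalization.ind with
      | _ r s =>
        refine ⟨s, r, ?_⟩
        change _ = OreLocalization.oreDiv (1 : A) s * OreLocalization.oreDiv r 1
        rw [OreLocalization.mul_div_one, one_mul])
  refine ⟨_, inferInstance, _, ζ, h1, hι, h2, h3, h4, h5, fun B _ f hf => ?_⟩
  have hU : ∀ s : Submonoid.closure (Set.range c),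
      IsUnit ((f.toMonoidHom.comp (Submonoid.subtype _)) s) := by
    rintro ⟨s, hs⟩
    change IsUnit (f s)
    induction hs using Submonoid.closure_induction with
    | mem x hx => obtain ⟨e, rfl⟩ := hx; exact hf e
    | one => simp
    | mul x y hx hy ihx ihy => rw [map_mul]; exact ihx.mul ihy
  exact ⟨OreLocalization.universalHom f (IsUnit.liftRight _ hU)
    (fun s => (IsUnit.coe_liftRight _ hU s).symm),
    fun r => OreLocalization.universalHom_commutes _ _ _⟩

end Pool.Agent.Lib.MP_94a9ea_al.H25
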