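import Pool.Agent.Lib.MP_94a9ea_al.H25.Mech
import Pool.Agent.Lib.MP_94a9ea_al.H25.Fin

set_option autoImplicit false

namespace Pool.Agent.Lib.MP_94a9ea_al.H25

/-- A subsemigroup of a virtually abelian group that meets every coset contains a norm. -/
theorem norm_sg {Q : Type} [Group Q] (M : Subgroup Q) [hn : M.Normal] [M.FiniteIndex]
    (hM : ∀ a ∈ M, ∀ b ∈ M, a * b = b * a) (P : Q → Prop) (Pmul : ∀ a b, P a → P b → P (a * b))
    (hs : ∀ q, ∃ w, P w ∧ w⁻¹ * q ∈ M) : ∃ w ∈ M, P w ∧ ∀ h, h * w * h⁻¹ = w := by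
  classical
  let _ : CommGroup M := { (inferInstance : Group M) with
    mul_comm := fun a b => Subtype.ext (hM a a.2 b b.2) }
  have : Fintype (Q ⧸ M) := Fintype.ofFinite _
  have hs' : ∀ t : Q ⧸ M, ∃ w, P w ∧ (w : Q ⧸ M) = t := fun t => by
    obtain ⟨q, rfl⟩ := QuotientGroup.mk_surjective t
    obtain ⟨w, h1, h2⟩ := hs q
    exact ⟨w, h1, QuotientGroup.eq.2 h2⟩
  choose σ hP hσ using hs'
  let c : Q ⧸ M → M := fun t => ⟨σ t * σ t⁻¹, (QuotientGroup.eq_one_iff _).1 (by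
    rw [QuotientGroup.mk_mul, hσ, hσ, mul_inv_cancel])⟩
  have hprod : ∀ f : Q ⧸ M → M, (∀ t, P (f t)) → P ((∏ t, f t : M) : Q) := fun f hf =>
    Finset.prod_induction_nonempty f (fun b : M => P (b : Q))
      (fun b b' h h' => Pmul _ _ h h') Finset.univ_nonempty fun t _ => hf t
  have hc : ∀ t, P (c t) := fun t => Pmul _ _ (hP _) (hP _)
  let l : M := ∏ t, c t
  have hl : P l := hprod c hc
  let v : Q ⧸ M → M := fun t => MulAut.conjNormal (σ t) l
  have hv : ∀ k : Q, (v (k : Q ⧸ M) : Q) = k * l * k⁻¹ := by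
    intro k
    have hb : k⁻¹ * σ (k : Q ⧸ M) ∈ M := QuotientGroup.eq.1 (hσ _).symm
    have e : σ (k : Q ⧸ M) = k * (k⁻¹ * σ (k : Q ⧸ M)) := by group
    change ((MulAut.conjNormal (σ _) l : M) : Q) = _
    rw [MulAut.conjNormal_apply, e, mul_assoc k, hM _ hb l l.2]
    group
  have h1 : ∀ h : Q, MulAut.conjNormal h (∏ t, v t) = ∏ t, v t := by
    intro h
    rw [map_prod, ← Equiv.prod_comp (Equiv.mulLeft (h : Q ⧸ M)) v]
    refine Finset.prod_congr rfl fun q _ => Subtype.ext ?_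
    obtain ⟨k, rfl⟩ := QuotientGroup.mk_surjective q
    rw [MulAut.conjNormal_apply, hv, Equiv.coe_mulLeft]
    simp only [← QuotientGroup.mk_mul, hv]
    group
  have v1 : v 1 = l := Subtype.ext (by simpa using hv 1)
  have h2 : ∏ t, v t = ∏ t, (Function.update v 1 1 t * c t) := by
    rw [Finset.prod_mul_distrib, Finset.prod_update_of_mem (Finset.mem_univ _), one_mul,
      Finset.prod_eq_mul_prod_sdiff_singleton_of_mem (Finset.mem_univ (1 : Q ⧸ M)) v, v1, mul_comm]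
  refine ⟨(∏ t, v t : M), (∏ t, v t).2, ?_, fun h => ?_⟩
  · rw [h2]
    refine hprod _ fun t => ?_
    by_cases ht : t = 1
    · rw [ht, Function.update_self, one_mul]; exact hc 1
    · rw [Function.update_of_ne ht]
      have e : ((v t * c t : M) : Q) = σ t * l * σ t⁻¹ := by
        change ((MulAut.conjNormal (σ t) l : M) : Q) * (σ t * σ t⁻¹) = _
        rw [MulAut.conjNormal_apply]; group
      rw [e]
      exact Pmul _ _ (Pmul _ _ (hP _) hl) (hP _)
  · have := congrArg Subtype.val (h1 h)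
    rwa [MulAut.conjNormal_apply] at this

open Mech in
theorem mech2 (hT : TorSt) {G : Type} [Group G] [Group.FG G]
    (hφ : ∀ φ : G → ℝ, (∀ x y, φ (x * y) = φ x + φ y) → ∀ g, φ g = 0)
    (hR : ∀ g : G, g ≠ 1 → ∀ l : List G, l ≠ [] → (l.map (fun h => h⁻¹ * g * h)).prod ≠ 1)
    (H A : Subgroup G) [hHn : H.Normal] [hAn : A.Normal] [hfi : H.FiniteIndex] (hAH : A ≤ H)
    (hA : ∀ a ∈ A, ∀ b ∈ A, a * b = b * a) (hH : ∀ x ∈ H, ∀ y ∈ H, x * y * x⁻¹ * y⁻¹ ∈ A)
    (y τ : G) (hgen : Subgroup.closure {y, τ} ⊔ H = ⊤) : ∃ m : ℕ, 0 < m ∧ τ ^ m ∈ A := by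
  by_contra hτ
  push Not at hτ
  set e := H.index with he
  have he0 : 0 < e := Nat.pos_of_ne_zero Subgroup.FiniteIndex.index_ne_zero
  have hp : ∀ x : G, x ^ e ∈ H := fun x => Subgroup.pow_index_mem H x
  set g := τ ^ e with hg
  have hgH : g ∈ H := hp τ
  have hτg : τ * g * τ⁻¹ = g := by rw [hg]; group
  set g' := g * (y⁻¹ * g * y)⁻¹ with hg'
  have hg'H : g' ∈ H := H.mul_mem hgH (H.inv_mem (by simpa using hHn.conj_mem g hgH y⁻¹))
  have hyg : y * g * y⁻¹ * g⁻¹ = y * g' * y⁻¹ := by rw [hg']; group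
  have hne : g' ≠ 1 := by
    intro h1
    obtain ⟨m, hm, h2⟩ := hT G hφ H A hH g hgH (cen A H hgen (by rw [hyg, h1]; simp)
      (by rw [hτg]; simp) fun h hh => hH h hh g hgH)
    rw [hg, ← pow_mul] at h2
    exact hτ _ (Nat.mul_pos he0 hm) h2
  -- the semigroup P
  let P : G → Prop := fun w => S g' (g * (w⁻¹ * g * w)⁻¹)
  have Py : P y := (S.conj 1).of_eq (by rw [hg']; group)
  have Pmul : ∀ w w', P w → P w' → P (w * w') := fun w w' h h' =>
    (S.mul h' (S.cj h w'⁻¹)).of_eq (by group)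
  have Pc : ∀ w c, c⁻¹ * g * c = g → P w → P (w * c) := fun w c hc h =>
    (S.cj h c⁻¹).of_eq (by
      calc _ = c⁻¹ * g * c * ((w * c)⁻¹ * g * (w * c))⁻¹ := by group
        _ = _ := by rw [hc])
  have Ppow : ∀ w (k : ℕ), P w → P (w ^ (k + 1)) := by
    intro w k h
    induction k with
    | zero => simpa using h
    | succ k ih => rw [pow_succ]; exact Pmul _ _ ih h
  have Ppow' : ∀ w (k : ℕ), 0 < k → P w → P (w ^ k) := by
    intro w k hk h
    obtain ⟨k, rfl⟩ := Nat.exists_eq_succ_of_ne_zero hk.ne'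
    exact Ppow w k h
  have hpq : ∀ x : G, (x : G ⧸ H) ^ e = 1 := fun x => by
    rw [← QuotientGroup.mk_pow]; exact (QuotientGroup.eq_one_iff _).2 (hp x)
  have Pye : P (y ^ e) := Ppow' _ _ he0 Py
  let U : Subgroup G :=
    { carrier := {q | ∃ w, P w ∧ (w : G ⧸ H) = q}
      one_mem' := ⟨_, Pye, by rw [QuotientGroup.mk_pow, hpq, QuotientGroup.mk_one]⟩
      mul_mem' := by
        rintro q q' ⟨w, h1, h2⟩ ⟨w', h3, h4⟩
        exact ⟨w * w', Pmul _ _ h1 h3, by rw [QuotientGroup.mk_mul, QuotientGroup.mk_mul, h2, h4]⟩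
      inv_mem' := by
        rintro q ⟨w, h1, h2⟩
        refine ⟨w ^ (2 * e - 1), Ppow' _ _ (by omega) h1, ?_⟩
        rw [QuotientGroup.mk_pow, QuotientGroup.mk_inv, h2]
        refine eq_inv_of_mul_eq_one_left ?_
        rw [← pow_succ, show 2 * e - 1 + 1 = e * 2 by omega, pow_mul, hpq, one_pow] }
  have hU : ∀ q, q ∈ U := by
    have : (⊤ : Subgroup G) ≤ U := by
      rw [← hgen]
      refine sup_le ((Subgroup.closure_le _).2 ?_) fun h hh => ?_
      · rintro x (hx | hx)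
        · exact ⟨_, Py, by rw [hx]⟩
        · exact ⟨y ^ e * τ, Pc _ τ (by rw [hg]; group) Pye, by
            rw [QuotientGroup.mk_mul, QuotientGroup.mk_pow, hpq, one_mul, hx]⟩
      · exact ⟨_, Pye, by
          rw [QuotientGroup.mk_pow, hpq]; exact ((QuotientGroup.eq_one_iff _).2 hh).symm⟩
    exact fun q => this (Subgroup.mem_top q)
  obtain ⟨w0, hw0H, Pw0, hcen⟩ : ∃ w0 ∈ H, P w0 ∧ ∀ h : G, h * w0 * h⁻¹ * w0⁻¹ ∈ A := by
    have : (H.map (QuotientGroup.mk' A)).Normal := hHn.map _ (QuotientGroup.mk'_surjective A)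
    have : (H.map (QuotientGroup.mk' A)).FiniteIndex :=
      ⟨ne_zero_of_dvd_ne_zero hfi.index_ne_zero
        (H.index_map_dvd (QuotientGroup.mk'_surjective A))⟩
    obtain ⟨_, ⟨w1, h1, rfl⟩, ⟨w0, h2, h3⟩, h4⟩ := norm_sg (H.map (QuotientGroup.mk' A)) (by
        rintro _ ⟨a, ha, rfl⟩ _ ⟨b, hb, rfl⟩
        have := (QuotientGroup.eq_one_iff _).2 (hH a ha b hb)
        rw [← QuotientGroup.mk'_apply, map_mul, map_mul, map_mul, map_inv, map_inv] at this
        rwa [mul_inv_eq_one, mul_inv_eq_iff_eq_mul] at this)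
      (fun q => ∃ w, P w ∧ QuotientGroup.mk' A w = q) (by
        rintro _ _ ⟨w, h1, rfl⟩ ⟨w', h2, rfl⟩
        exact ⟨w * w', Pmul _ _ h1 h2, map_mul _ _ _⟩) (fun q => by
        obtain ⟨q, rfl⟩ := QuotientGroup.mk'_surjective A q
        obtain ⟨w, h1, h2⟩ := hU q
        exact ⟨_, ⟨w, h1, rfl⟩, w⁻¹ * q, QuotientGroup.eq.1 h2, by rw [map_mul, map_inv]⟩)
    refine ⟨w0, ?_, h2, fun h => ?_⟩
    · have h5 : w1⁻¹ * w0 ∈ A := QuotientGroup.eq.1 h3.symm
      simpa using H.mul_mem h1 (hAH h5)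
    · apply (QuotientGroup.eq_one_iff _).1
      rw [← QuotientGroup.mk'_apply, map_mul, map_mul, map_mul, map_inv, map_inv, h3, h4,
        mul_inv_cancel]
  obtain ⟨m, hm, ha⟩ := hT G hφ H A hH w0 hw0H hcen
  have hc0 : S g' (d g (w0 ^ m)⁻¹) := (Ppow' _ _ hm Pw0).of_eq (by simp only [d]; group)
  set a := (w0 ^ m)⁻¹ with hadef
  have haA : a ∈ A := A.inv_mem ha
  have hck : ∀ k : ℕ, S g' (d (g ^ (k + 1)) a) := by
    intro k
    induction k with
    | zero => simpa using hc0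
    | succ k ih =>
      refine ((ih.cj g).mul hc0).of_eq ?_
      simp only [d]
      group
  -- the finite list of conjugates
  have : Fintype (G ⧸ H) := Fintype.ofFinite _
  let L : List G := (Finset.univ : Finset (G ⧸ H)).toList.map fun r => r.out⁻¹ * g' * r.out
  have hL2 : ∀ u ∈ L, ∃ h : G, u = h⁻¹ * g' * h := by
    intro u hu
    obtain ⟨r, -, rfl⟩ := List.mem_map.1 hu
    exact ⟨_, rfl⟩
  have hL1 : ∀ h : G, ∃ u ∈ L, u⁻¹ * (h⁻¹ * g' * h) ∈ A := by
    intro h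
    obtain ⟨x, hx⟩ := QuotientGroup.mk_out_eq_mul H h
    refine ⟨_, List.mem_map.2 ⟨(h : G ⧸ H), by simp, rfl⟩, ?_⟩
    rw [hx]
    have h1 : h⁻¹ * g' * h ∈ H := by simpa using hHn.conj_mem g' hg'H h⁻¹
    have := hH _ (H.inv_mem x.2) _ (H.inv_mem h1)
    convert this using 1
    group
  have hL : ∀ k : G, ∀ x, V A L x → V A L (k * x * k⁻¹) := by
    intro k x hx
    refine V_cj hA L k L (fun u hu => ?_) hx
    obtain ⟨h, rfl⟩ := hL2 u hu
    obtain ⟨u', h1, h2⟩ := hL1 (h * k⁻¹)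
    refine ⟨u', h1, ?_⟩
    convert h2 using 2
    group
  have hDn : (D hA L).Normal := by
    constructor
    intro u hu k b hb
    rw [show d (k * u * k⁻¹) b = k * d u (k⁻¹ * b * k⁻¹⁻¹) * k⁻¹ by simp only [d]; group]
    exact hL k _ (hu _ (hAn.conj_mem b hb k⁻¹))
  have hAD : A ≤ D hA L := by
    intro u hu b hb
    rw [show d u b = 1 by simp only [d]; rw [hA u hu b hb]; group]
    exact V_one L
  have hg'D : g' ∈ D hA L := by
    intro b hb
    refine V_d' hA L ?_ hb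
    simpa using hL1 1
  obtain ⟨n, hn, hgn⟩ := hT G hφ H (D hA L) (fun x hx w hw => hAD (hH x hx w hw)) g hgH
    (cen (D hA L) H hgen (by rw [hyg]; exact hDn.conj_mem _ hg'D y) (by rw [hτg]; simp)
      fun h hh => hAD (hH h hh g hgH))
  obtain ⟨n, rfl⟩ := Nat.exists_eq_succ_of_ne_zero hn.ne'
  obtain ⟨l, h1, h2⟩ := (one_mem_S hA g' L hL hL2 (hgn a haA) (hck n)).list
  exact hR g' hne l h1 h2


open Mech in
/-- Centralisers in an R* group are isolated. -/
theorem iso_comm {G : Type} [Group G]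
    (hR : ∀ g : G, g ≠ 1 → ∀ l : List G, l ≠ [] → (l.map (fun h => h⁻¹ * g * h)).prod ≠ 1)
    {x z : G} {m : ℕ} (hm : 0 < m) (h : z * x ^ m = x ^ m * z) : z * x = x * z := by
  obtain ⟨m, rfl⟩ := Nat.exists_eq_succ_of_ne_zero hm.ne'
  have h1 : ∀ k : ℕ, S (x⁻¹ * (z * x * z⁻¹)) ((x ^ (k + 1))⁻¹ * (z * x ^ (k + 1) * z⁻¹)) := by
    intro k
    induction k with
    | zero => exact (S.conj 1).of_eq (by group)
    | succ k ih => exact ((ih.cj x⁻¹).mul (S.conj 1)).of_eq (by group)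
  by_contra hc
  obtain ⟨l, h2, h3⟩ := ((h1 m).of_eq (y := 1) (by rw [h, mul_inv_cancel_right, inv_mul_cancel])).list
  refine hR _ (fun e => hc ?_) l h2 h3
  calc z * x = x * (x⁻¹ * (z * x * z⁻¹)) * z := by group
    _ = x * z := by rw [e, mul_one]

theorem triv2 (hT : TorSt) {G : Type} [Group G] [Group.FG G]
    (hφ : ∀ φ : G → ℝ, (∀ x y, φ (x * y) = φ x + φ y) → ∀ g, φ g = 0)
    (hR : ∀ g : G, g ≠ 1 → ∀ l : List G, l ≠ [] → (l.map (fun h => h⁻¹ * g * h)).prod ≠ 1)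
    (H A : Subgroup G) [H.Normal] [A.Normal] [H.FiniteIndex] (hAH : A ≤ H)
    (hA : ∀ a ∈ A, ∀ b ∈ A, a * b = b * a) (hH : ∀ x ∈ H, ∀ y ∈ H, x * y * x⁻¹ * y⁻¹ ∈ A)
    (s t : G) (hgen : Subgroup.closure {s, t} ⊔ H = ⊤) (g : G) : g = 1 := by
  obtain ⟨m, hm, ht⟩ := mech2 hT hφ hR H A hAH hA hH s t hgen
  obtain ⟨n, hn, hs⟩ := mech2 hT hφ hR H A hAH hA hH t s (by rw [Set.pair_comm]; exact hgen)
  have hfi := finiteIndex_commutator hφ
  have hi : 0 < (commutator G).index := Nat.pos_of_ne_zero hfi.index_ne_zero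
  have key : ∀ B : Subgroup G, B.Normal → (∀ a ∈ A, ∀ b ∈ B, b * a = a * b) →
      ∀ x, ∀ b ∈ B, b * x = x * b := by
    intro B _ hB
    let N := Subgroup.centralizer (B : Set G)
    have hAN : A ≤ N := fun a ha b hb => hB a ha b hb
    have h1 : ∀ x : G, QuotientGroup.mk' N x ∈ H.map (QuotientGroup.mk' N) := by
      have : (⊤ : Subgroup G) ≤ (H.map (QuotientGroup.mk' N)).comap (QuotientGroup.mk' N) := by
        rw [← hgen]
        refine sup_le ((Subgroup.closure_le _).2 ?_) (Subgroup.le_comap_map _ _)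
        have h2 : ∀ (x : G) (k : ℕ), 0 < k → x ^ k ∈ A →
            QuotientGroup.mk' N x ∈ H.map (QuotientGroup.mk' N) := fun x k hk hx => by
          have : x ∈ N := fun b hb => iso_comm hR hk (hB _ hx b hb)
          rw [QuotientGroup.mk'_apply, (QuotientGroup.eq_one_iff _).2 this]
          exact one_mem _
        rintro _ (rfl | rfl)
        · exact h2 _ n hn hs
        · exact h2 _ m hm ht
      exact fun x => this (Subgroup.mem_top x)
    have h2 : commutator G ≤ N := by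
      rw [commutator_def, Subgroup.commutator_le]
      intro x _ y _
      obtain ⟨x', hx, ex⟩ := h1 x
      obtain ⟨y', hy, ey⟩ := h1 y
      apply (QuotientGroup.eq_one_iff _).1
      rw [← QuotientGroup.mk'_apply, map_commutatorElement, ← ex, ← ey, ← map_commutatorElement]
      exact (QuotientGroup.eq_one_iff _).2 (hAN (hH x' hx y' hy))
    exact fun x b hb => iso_comm hR hi (h2 (Subgroup.pow_index_mem _ x) b hb)
  have h1 := key A inferInstance fun a ha b hb => hA b hb a ha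
  have h2 := key ⊤ inferInstance fun a ha b _ => (h1 b a ha).symm
  have h3 : commutator G ≤ ⊥ := by
    rw [commutator_def, Subgroup.commutator_le]
    intro x _ y _
    rw [Subgroup.mem_bot, commutatorElement_eq_one_iff_mul_comm]
    exact h2 y x (Subgroup.mem_top x)
  have h4 : g ^ (commutator G).index = 1 := h3 (Subgroup.pow_index_mem _ g)
  by_contra hg
  refine hR g hg (List.replicate (commutator G).index 1) (by simp [hi.ne']) ?_
  simpa using h4

theorem pos2 (hB : BHSt) (hT : TorSt) (G : Type) [Group G]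
    (H : Subgroup G) [hH : H.Normal] (hd : derivedSeries H 2 = ⊥)
    (hst : ∀ K : Subgroup (G ⧸ H), K.FG → (Finite K ∧ ∃ s t, Subgroup.closure {s, t} = K) ∨
      ∃ φ : K →* Multiplicative ℤ, Function.Surjective φ)
    (hR : ∀ g : G, g ≠ 1 → ∀ l : List G, l ≠ [] → (l.map (fun h => h⁻¹ * g * h)).prod ≠ 1) :
    ∃ o : LinearOrder G, ∀ a b c : G, o.le a b → o.le (a * c) (b * c) := by
  classical
  refine hB G fun K hK hne => ?_
  by_contra hcon
  have : Group.FG K := (Group.fg_iff_subgroup_fg K).2 hK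
  have hφ : ∀ φ : K → ℝ, (∀ x y, φ (x * y) = φ x + φ y) → ∀ g, φ g = 0 := by
    intro φ h g
    by_contra hg
    refine hcon ⟨fun x => if hx : x ∈ K then φ ⟨x, hx⟩ else 0, fun x hx y hy => ?_, g, g.2, ?_⟩
    · simp only [hx, hy, K.mul_mem hx hy, dif_pos]
      exact h ⟨x, hx⟩ ⟨y, hy⟩
    · simpa using hg
  have hRK : ∀ g : K, g ≠ 1 → ∀ l : List K, l ≠ [] →
      (l.map (fun h => h⁻¹ * g * h)).prod ≠ 1 := by
    intro g hg l hl h
    refine hR g (fun e => hg (Subtype.ext e)) (l.map K.subtype)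
      (fun e => hl (List.map_eq_nil_iff.1 e)) ?_
    have := congrArg K.subtype h
    rw [map_list_prod, List.map_map, map_one] at this
    rw [List.map_map]
    exact this
  let A0 : Subgroup G := ⁅H, H⁆
  have hA0 : ∀ a ∈ A0, ∀ b ∈ A0, a * b = b * a := by
    have e : A0 = (derivedSeries H 1).map H.subtype := by
      rw [derivedSeries_one, commutator_def, Subgroup.map_commutator, ← MonoidHom.range_eq_map,
        Subgroup.range_subtype]
    rw [e]
    rintro _ ⟨a, ha, rfl⟩ _ ⟨b, hb, rfl⟩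
    have h1 := Subgroup.commutator_mem_commutator ha hb
    rw [← derivedSeries_succ, hd, Subgroup.mem_bot, commutatorElement_eq_one_iff_mul_comm] at h1
    rw [← map_mul, h1, map_mul]
  have hA0H : A0 ≤ H := Subgroup.commutator_le_left H H
  have hA : ∀ a ∈ A0.subgroupOf K, ∀ b ∈ A0.subgroupOf K, a * b = b * a := fun a ha b hb =>
    Subtype.ext (hA0 a ha b hb)
  have hAH : A0.subgroupOf K ≤ H.subgroupOf K := fun a ha => hA0H ha
  have hHc : ∀ x ∈ H.subgroupOf K, ∀ y ∈ H.subgroupOf K, x * y * x⁻¹ * y⁻¹ ∈ A0.subgroupOf K :=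
    fun x hx y hy => Subgroup.commutator_mem_commutator (H₁ := H) (H₂ := H) hx hy
  let π : K →* G ⧸ H := (QuotientGroup.mk' H).comp K.subtype
  have hker : π.ker = H.subgroupOf K := by
    ext x
    exact QuotientGroup.eq_one_iff (x : G)
  rcases hst π.range ((Group.fg_iff_subgroup_fg _).1 (Group.fg_range π)) with
    ⟨hfin, s, t, h0⟩ | ⟨φ, h0⟩
  · have : (H.subgroupOf K).FiniteIndex := by
      rw [← hker]; infer_instance
    obtain ⟨s', rfl⟩ : s ∈ π.range := h0 ▸ Subgroup.subset_closure (by simp)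
    obtain ⟨t', rfl⟩ : t ∈ π.range := h0 ▸ Subgroup.subset_closure (by simp)
    have h1 : Subgroup.closure {s', t'} ⊔ H.subgroupOf K = ⊤ := by
      rw [← hker, ← Subgroup.comap_map_eq, MonoidHom.map_closure, Set.image_pair, h0, eq_top_iff]
      exact fun x _ => ⟨x, rfl⟩
    apply hne
    rw [eq_bot_iff]
    intro g hg
    exact congrArg Subtype.val
      (triv2 hT hφ hRK (H.subgroupOf K) (A0.subgroupOf K) hAH hA hHc s' t' h1 ⟨g, hg⟩)
  · obtain ⟨g, hg⟩ := (h0.comp π.rangeRestrict_surjective) (Multiplicative.ofAdd 1)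
    have := hφ (fun x => ((φ (π.rangeRestrict x)).toAdd : ℝ)) (fun x y => by
      rw [map_mul, map_mul, toAdd_mul, Int.cast_add]) g
    rw [show φ (π.rangeRestrict g) = Multiplicative.ofAdd 1 from hg] at this
    simp at this

end Pool.Agent.Lib.MP_94a9ea_al.H25
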