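import Pool.Agent.Lib.MP_94a9ea_al.H25.St

/-! A finitely generated solvable group with a nontrivial left invariant total preorder is
indicable. -/

set_option autoImplicit false

namespace Pool.Agent.Lib.MP_94a9ea_al.H25

namespace Ordx

open Filter

theorem nonneg_of {x C : ℝ} (N : ℕ) (h : ∀ q : ℕ, N ≤ q → -C ≤ q * x) : 0 ≤ x := by
  by_contra hx
  push Not at hx
  obtain ⟨q, hq⟩ := exists_nat_gt (C / (-x))
  have h1 := h (q + N) (by omega)
  rw [div_lt_iff₀ (by linarith)] at hq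
  have h2 : (0 : ℝ) ≤ N := Nat.cast_nonneg _
  push_cast at h1
  nlinarith

variable {G : Type} [Group G]

theorem add_zpow (A : Subgroup G) (τ : G → ℝ) (hτ : ∀ x ∈ A, ∀ y ∈ A, τ (x * y) = τ x + τ y)
    {b : G} (hb : b ∈ A) (k : ℤ) : τ (b ^ k) = k * τ b := by
  have h1 : τ 1 = 0 := by
    have := hτ 1 A.one_mem 1 A.one_mem
    rw [mul_one] at this; linarith
  induction k using Int.induction_on with
  | zero => simpa using h1
  | succ k ih => rw [zpow_add_one, hτ _ (A.zpow_mem hb _) _ hb, ih]; push_cast; ring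
  | pred k ih =>
    have := hτ _ (A.zpow_mem hb (-(k : ℤ) - 1)) _ hb
    rw [← zpow_add_one, sub_add_cancel, ih] at this
    push_cast at this ⊢
    linarith

theorem eq_one_of {x C : ℝ} (h : ∀ k : ℤ, |k * x - k| ≤ C) : x = 1 := by
  have h1 : 0 ≤ x - 1 := nonneg_of (C := C) 0 fun q _ => by
    have := (abs_le.1 (h q)).1
    push_cast at this; linarith
  have h2 : 0 ≤ 1 - x := nonneg_of (C := C) 0 fun q _ => by
    have := (abs_le.1 (h q)).2
    push_cast at this; linarith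
  linarith

/-- The case of a cofinal element of the abelian normal subgroup. -/
theorem caseA (hQ : QmSt) (n : ℕ) (hd : derivedSeries G n = ⊥) (A : Subgroup G) (hN : A.Normal)
    (hc : ∀ x ∈ A, ∀ y ∈ A, x * y = y * x) (r : G → G → Prop) (tot : ∀ x y, r x y ∨ r y x)
    (tr : ∀ x y z, r x y → r y z → r x z) (li : ∀ c x y, r x y → r (c * x) (c * y))
    (a : G) (ha : a ∈ A) (h1a : r 1 a) (cof : ∀ u, ∃ k : ℤ, ¬ r (a ^ k) u) :
    ∃ φ : G → ℝ, (∀ x y, φ (x * y) = φ x + φ y) ∧ ∃ g, φ g ≠ 0 := by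
  classical
  have rf : ∀ x, r x x := fun x => (tot x x).elim id id
  have li' : ∀ c x y, r (c * x) (c * y) → r x y := fun c x y h => by
    simpa using li c⁻¹ _ _ h
  have mono : ∀ k l : ℤ, k ≤ l → r (a ^ k) (a ^ l) := by
    intro k l hkl
    induction l, hkl using Int.leInduction with
    | base => exact rf _
    | succ l _ ih => exact tr _ _ _ ih (by simpa [zpow_add_one] using li (a ^ l) _ _ h1a)
  have lowA : ∀ g ∈ A, ∃ k : ℤ, r (a ^ k) g := by
    intro g hg
    obtain ⟨k, hk⟩ := cof g⁻¹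
    have h1 := li g _ _ ((tot _ _).resolve_left hk)
    rw [mul_inv_cancel, hc g hg _ (A.zpow_mem ha k)] at h1
    exact ⟨-k, by simpa using li (a ^ k)⁻¹ _ _ h1⟩
  have low : ∀ g, ∃ k : ℤ, r (a ^ k) g := by
    intro g
    obtain ⟨k, hk⟩ := cof g⁻¹
    have h1 := li g _ _ ((tot _ _).resolve_left hk)
    obtain ⟨l, hl⟩ := lowA (g * a ^ k * g⁻¹)⁻¹ (A.inv_mem (hN.conj_mem _ (A.zpow_mem ha k) g))
    refine ⟨l, tr _ _ _ hl ?_⟩
    have h2 := li (g * a ^ k * g⁻¹)⁻¹ _ _ h1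
    rw [mul_inv_cancel, mul_one] at h2
    have e : (g * a ^ k * g⁻¹)⁻¹ * (g * a ^ k) = g := by group
    rwa [e] at h2
  have exh : ∀ y, ∃ m : ℤ, ∀ k, r (a ^ k) y ↔ k ≤ m := by
    intro y
    obtain ⟨k, hk⟩ := cof y
    obtain ⟨m, hm, hm'⟩ := Int.exists_greatest_of_bdd (P := fun k => r (a ^ k) y)
      ⟨k, fun z hz => by
        by_contra hlt
        exact hk (tr _ _ _ (mono k z (by omega)) hz)⟩ (low y)
    exact ⟨m, fun k => ⟨hm' k, fun h => tr _ _ _ (mono k m h) hm⟩⟩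
  choose h hh using exh
  have hlo : ∀ y, r (a ^ h y) y := fun y => (hh y _).2 le_rfl
  have hno : ∀ y, ¬ r (a ^ (h y + 1)) y := fun y e => by have := (hh y _).1 e; omega
  have hup : ∀ y, r y (a ^ (h y + 1)) := fun y => (tot _ _).resolve_left (hno y)
  have hmono : ∀ x y, r x y → h x ≤ h y := fun x y e => (hh y _).1 (tr _ _ _ (hlo x) e)
  have hb1 : ∀ b ∈ A, ∀ y, h b + h y ≤ h (b * y) := by
    intro b hb y
    refine (hh _ _).1 (tr _ _ _ ?_ (li b _ _ (hlo y)))
    rw [hc b hb _ (A.zpow_mem ha _), add_comm, zpow_add]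
    exact li _ _ _ (hlo b)
  have hb2 : ∀ b ∈ A, ∀ y, h (b * y) ≤ h b + h y + 1 := by
    intro b hb y
    by_contra hlt
    have e1 : r (a ^ (h y + 1 + (h b + 1))) (b * y) := (hh _ _).2 (by omega)
    have e2 := tr _ _ _ e1 (li b _ _ (hup y))
    rw [hc b hb _ (A.zpow_mem ha _), zpow_add] at e2
    exact hno b (li' _ _ _ e2)
  have h0 : h 1 = 0 := by
    have e1 := hb1 1 A.one_mem 1
    have e2 := (hh 1 0).1 (by simpa using rf 1)
    rw [mul_one] at e1; omega
  have hpow : ∀ k : ℤ, h (a ^ k) = k := by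
    intro k
    refine le_antisymm ?_ ((hh _ _).1 (rf _))
    by_contra hlt
    have e1 : r (a ^ (k + 1)) (a ^ k) := (hh _ _).2 (by omega)
    have e2 : r (a ^ (1 : ℤ)) 1 := li' (a ^ k) _ _ (by rwa [← zpow_add, mul_one])
    have := (hh 1 1).1 e2
    omega
  have hdA : derivedSeries A n = ⊥ := by
    have := map_derivedSeries_le_derivedSeries A.subtype n
    rw [hd, le_bot_iff] at this
    exact (Subgroup.map_eq_bot_iff_of_injective _ A.subtype_injective).1 this
  obtain ⟨τ₀, t1, t2⟩ := hQ n A hdA (fun b => (h b : ℝ)) 1 (fun x y => by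
    have e1 : ((h x + h y : ℤ) : ℝ) ≤ h (x * y : G) := by exact_mod_cast hb1 x x.2 y
    have e2 : (h (x * y : G) : ℝ) ≤ ((h x + h y + 1 : ℤ) : ℝ) := by exact_mod_cast hb2 x x.2 y
    push_cast at e1 e2 ⊢
    rw [abs_le]; constructor <;> linarith)
  obtain ⟨τ, ta, tb⟩ : ∃ τ : G → ℝ, (∀ x ∈ A, ∀ y ∈ A, τ (x * y) = τ x + τ y) ∧
      ∀ x ∈ A, |τ x - h x| ≤ 1 := by
    refine ⟨fun g => if hg : g ∈ A then τ₀ ⟨g, hg⟩ else 0, fun x hx y hy => ?_, fun x hx => ?_⟩
    · simp only [hx, hy, A.mul_mem hx hy, dite_true]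
      exact t1 ⟨x, hx⟩ ⟨y, hy⟩
    · simp only [hx, dite_true]
      exact t2 ⟨x, hx⟩
  have tz := fun {b : G} (hb : b ∈ A) (k : ℤ) => add_zpow A τ ta hb k
  have t_a : τ a = 1 := eq_one_of (C := 1) fun k => by
    have := tb _ (A.zpow_mem ha k)
    rwa [tz ha, hpow] at this
  have pos : ∀ g, ∀ b ∈ A, 0 < τ b → 0 ≤ τ (g * b * g⁻¹) := by
    intro g b hb hp
    obtain ⟨N, hN'⟩ := exists_nat_gt (1 / τ b)
    rw [div_lt_iff₀ hp] at hN'
    refine nonneg_of (C := 1) N fun q hq => ?_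
    have hq' : (N : ℝ) ≤ q := by exact_mod_cast hq
    have e1 := (abs_le.1 (tb _ (A.zpow_mem hb q))).2
    rw [tz hb] at e1
    have e2 : (0 : ℝ) < h (b ^ (q : ℤ)) := by push_cast at e1 ⊢; nlinarith
    have e3 : 0 < h (b ^ (q : ℤ)) := by exact_mod_cast e2
    have e4 := hb1 _ (A.zpow_mem hb q) g⁻¹
    have e5 : r g⁻¹ (b ^ (q : ℤ) * g⁻¹) :=
      (tot _ _).resolve_right fun e => by have := hmono _ _ e; omega
    have e6 := hmono _ _ (li g _ _ e5)
    rw [mul_inv_cancel, h0, ← mul_assoc, ← conj_zpow] at e6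
    have e7 := (abs_le.1 (tb _ (A.zpow_mem (hN.conj_mem _ hb g) q))).1
    rw [tz (hN.conj_mem _ hb g)] at e7
    have e8 : (0 : ℝ) ≤ h ((g * b * g⁻¹) ^ (q : ℤ)) := by exact_mod_cast e6
    push_cast at e7 e8 ⊢
    linarith
  have l0 : ∀ g, 0 ≤ τ (g * a * g⁻¹) := fun g => pos g a ha (by rw [t_a]; exact one_pos)
  have half : ∀ g, ∀ b ∈ A, τ (g * a * g⁻¹) * τ b ≤ τ (g * b * g⁻¹) := by
    intro g b hb
    rw [← sub_nonneg]
    refine nonneg_of (C := τ (g * a * g⁻¹)) 0 fun q _ => ?_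
    have c1 := Int.ceil_lt_add_one ((q : ℝ) * τ b)
    have c2 := Int.le_ceil ((q : ℝ) * τ b)
    generalize ⌈(q : ℝ) * τ b⌉ = p at c1 c2
    have m1 := A.zpow_mem hb (q : ℤ)
    have m2 := A.zpow_mem ha (1 - p)
    have e1 := pos g _ (A.mul_mem m1 m2) (by
      rw [ta _ m1 _ m2, tz hb, tz ha, t_a]; push_cast; linarith)
    have e : g * (b ^ (q : ℤ) * a ^ (1 - p)) * g⁻¹ =
        (g * b * g⁻¹) ^ (q : ℤ) * (g * a * g⁻¹) ^ (1 - p) := by
      rw [conj_zpow, conj_zpow]; group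
    rw [e, ta _ (A.zpow_mem (hN.conj_mem _ hb g) _) _ (A.zpow_mem (hN.conj_mem _ ha g) _),
      tz (hN.conj_mem _ hb g), tz (hN.conj_mem _ ha g)] at e1
    have e2 := mul_le_mul_of_nonneg_right c2 (l0 g)
    push_cast at e1
    nlinarith
  have full : ∀ g, ∀ b ∈ A, τ (g * b * g⁻¹) = τ (g * a * g⁻¹) * τ b := by
    intro g b hb
    refine le_antisymm ?_ (half g b hb)
    have e1 := half g _ (A.zpow_mem hb (-1))
    rw [← conj_zpow, tz hb, tz (hN.conj_mem _ hb g)] at e1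
    push_cast at e1
    linarith
  have lmul : ∀ g g', τ (g * g' * a * (g * g')⁻¹) = τ (g * a * g⁻¹) * τ (g' * a * g'⁻¹) := by
    intro g g'
    rw [← full g _ (hN.conj_mem _ ha g')]
    congr 1; group
  have lne : ∀ g, τ (g * a * g⁻¹) ≠ 0 := by
    intro g e
    have := lmul g g⁻¹
    rw [e, zero_mul] at this
    simp [t_a] at this
  by_cases hl : ∀ g, τ (g * a * g⁻¹) = 1
  · have tc : ∀ x (k : ℤ), τ (x * a ^ k * x⁻¹) = k := by
      intro x k
      rw [full x _ (A.zpow_mem ha k), hl, tz ha, t_a]; ring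
    obtain ⟨ρ, r1, r2⟩ := hQ n G hd (fun y => (h y : ℝ)) 3 (fun x y => by
      have m1 := hN.conj_mem _ (A.zpow_mem ha (h y)) x
      have m2 := hN.conj_mem _ (A.zpow_mem ha (h y + 1)) x
      have e1 := hmono _ _ (li x _ _ (hlo y))
      have e2 := hmono _ _ (li x _ _ (hup y))
      have e3 := hb1 _ m1 x
      have e4 := hb2 _ m2 x
      rw [inv_mul_cancel_right] at e3 e4
      have e5 := (abs_le.1 (tb _ m1)).2
      have e6 := (abs_le.1 (tb _ m2)).1
      rw [tc] at e5 e6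
      have e7 : ((h (x * a ^ h y * x⁻¹) + h x : ℤ) : ℝ) ≤ h (x * y) := by
        exact_mod_cast e3.trans e1
      have e8 : (h (x * y) : ℝ) ≤ ((h (x * a ^ (h y + 1) * x⁻¹) + h x + 1 : ℤ) : ℝ) := by
        exact_mod_cast e2.trans e4
      push_cast at e6 e7 e8
      rw [abs_le]; constructor <;> linarith)
    refine ⟨ρ, r1, a, ?_⟩
    have : ρ a = 1 := eq_one_of (C := 3) fun k => by
      have := r2 (a ^ k)
      rwa [add_zpow ⊤ ρ (fun x _ y _ => r1 x y) (Subgroup.mem_top a), hpow] at this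
    rw [this]; exact one_ne_zero
  · push Not at hl
    obtain ⟨g, hg⟩ := hl
    refine ⟨fun g => Real.log (τ (g * a * g⁻¹)), fun x y => ?_, g, ?_⟩
    · simp only [lmul]
      exact Real.log_mul (lne x) (lne y)
    · exact Real.log_ne_zero_of_pos_of_ne_one (lt_of_le_of_ne (l0 g) (lne g).symm) hg

/-- The case of bounded cyclic orbits: a coarser preorder that does not see `A`. -/
theorem caseB [Group.FG G] (A : Subgroup G) (hc : ∀ x ∈ A, ∀ y ∈ A, x * y = y * x)
    (r : G → G → Prop) (tot : ∀ x y, r x y ∨ r y x)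
    (tr : ∀ x y z, r x y → r y z → r x z) (li : ∀ c x y, r x y → r (c * x) (c * y))
    (nt : ∃ g, ¬ r g 1) (bd : ∀ a ∈ A, ∀ x, ∃ u, ∀ k : ℤ, r (a ^ k * x) u) :
    ∃ r' : G → G → Prop, (∀ x y, r' x y ∨ r' y x) ∧ (∀ x y z, r' x y → r' y z → r' x z) ∧
      (∀ c x y, r' x y → r' (c * x) (c * y)) ∧ (∀ g, ∀ a ∈ A, r' (g * a) g) ∧ ∃ g, ¬ r' g 1 := by
  classical
  have rf : ∀ x, r x x := fun x => (tot x x).elim id id
  let H : Finset A → Subgroup G := fun Y => Subgroup.closure (Subtype.val '' (Y : Set A))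
  have HA : ∀ Y, H Y ≤ A := fun Y => (Subgroup.closure_le _).2 (by
    rintro _ ⟨y, -, rfl⟩; exact y.2)
  have bdY : ∀ Y : Finset A, ∃ u, ∀ b ∈ H Y, r b u := by
    intro Y
    induction Y using Finset.induction_on with
    | empty => exact ⟨1, fun b hb => by
        have : b = 1 := by simpa [H] using hb
        rw [this]; exact rf 1⟩
    | insert a Y _ ih =>
      obtain ⟨u, hu⟩ := ih
      obtain ⟨v, hv⟩ := bd a a.2 u
      have key : ∀ b ∈ H (insert a Y), ∃ k : ℤ, ∃ c ∈ H Y, b = (a : G) ^ k * c := by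
        intro b hb
        induction hb using Subgroup.closure_induction with
        | mem x hx =>
          obtain ⟨y, hy, rfl⟩ := hx
          rcases Finset.mem_insert.1 (Finset.mem_coe.1 hy) with rfl | hy
          · exact ⟨1, 1, (H Y).one_mem, by simp⟩
          · exact ⟨0, y, Subgroup.subset_closure ⟨y, hy, rfl⟩, by simp⟩
        | one => exact ⟨0, 1, (H Y).one_mem, by simp⟩
        | mul x y _ _ hx hy =>
          obtain ⟨k, c, hc1, rfl⟩ := hx
          obtain ⟨l, d, hd1, rfl⟩ := hy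
          refine ⟨k + l, c * d, (H Y).mul_mem hc1 hd1, ?_⟩
          rw [zpow_add, mul_assoc, ← mul_assoc c, hc c (HA Y hc1) _ (A.zpow_mem a.2 l)]
          simp only [mul_assoc]
        | inv x _ hx =>
          obtain ⟨k, c, hc1, rfl⟩ := hx
          refine ⟨-k, c⁻¹, (H Y).inv_mem hc1, ?_⟩
          rw [← hc c (HA Y hc1) _ (A.zpow_mem a.2 k), mul_inv_rev, zpow_neg]
      refine ⟨v, fun b hb => ?_⟩
      obtain ⟨k, c, hc1, rfl⟩ := key b hb
      exact tr _ _ _ (li _ _ _ (hu c hc1)) (hv k)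
  let U : Ultrafilter (Finset A) := Ultrafilter.of atTop
  have hU : (U : Filter (Finset A)) ≤ atTop := Ultrafilter.of_le _
  refine ⟨fun g g' => ∀ᶠ Y in (U : Filter (Finset A)), ∀ b ∈ H Y, ∃ b' ∈ H Y, r (g * b) (g' * b'),
    fun x y => ?_, fun x y z h1 h2 => ?_, fun c x y h1 => ?_, fun g a ha => ?_, ?_⟩
  · refine Ultrafilter.eventually_or.1 (Eventually.of_forall fun Y => ?_)
    by_cases h : ∀ b ∈ H Y, ∃ b' ∈ H Y, r (x * b) (y * b')
    · exact Or.inl h
    · push Not at h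
      obtain ⟨b, hb, h⟩ := h
      exact Or.inr fun b' hb' => ⟨b, hb, (tot _ _).resolve_left (h b' hb')⟩
  · filter_upwards [h1, h2] with Y e1 e2 b hb
    obtain ⟨b', hb', f1⟩ := e1 b hb
    obtain ⟨b'', hb'', f2⟩ := e2 b' hb'
    exact ⟨b'', hb'', tr _ _ _ f1 f2⟩
  · filter_upwards [h1] with Y e1 b hb
    obtain ⟨b', hb', f1⟩ := e1 b hb
    exact ⟨b', hb', by simpa only [mul_assoc] using li c _ _ f1⟩
  · filter_upwards [hU (eventually_ge_atTop ({⟨a, ha⟩} : Finset A))] with Y hY b hb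
    have : a ∈ H Y := Subgroup.subset_closure ⟨⟨a, ha⟩, hY (Finset.mem_singleton_self _), rfl⟩
    exact ⟨a * b, (H Y).mul_mem this hb, by rw [mul_assoc]; exact rf _⟩
  · by_contra hall
    push Not at hall
    obtain ⟨S, hS⟩ := Group.fg_def.1 (inferInstance : Group.FG G)
    have ev : ∀ᶠ Y in (U : Filter (Finset A)), ∀ s ∈ S,
        (∀ b ∈ H Y, ∃ b' ∈ H Y, r (s * b) (1 * b')) ∧
        ∀ b ∈ H Y, ∃ b' ∈ H Y, r (s⁻¹ * b) (1 * b') :=
      (eventually_all_finset S).2 fun s _ => (hall s).and (hall s⁻¹)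
    obtain ⟨Y, hY⟩ := ev.exists
    obtain ⟨u, hu⟩ := bdY Y
    have step : ∀ s x : G, (∀ b ∈ H Y, ∃ b' ∈ H Y, r (s * b) (1 * b')) →
        (∃ b ∈ H Y, r x b) → ∃ b ∈ H Y, r (s * x) b := by
      rintro s x hs ⟨b, hb, e⟩
      obtain ⟨b', hb', e'⟩ := hs b hb
      exact ⟨b', hb', tr _ _ _ (li s _ _ e) (by simpa using e')⟩
    have all : ∀ x ∈ Subgroup.closure (S : Set G), ∃ b ∈ H Y, r x b := by
      intro x hx
      induction hx using Subgroup.closure_induction_left with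
      | one => exact ⟨1, (H Y).one_mem, rf 1⟩
      | mul_left s hs y _ ih => exact step s y (hY s hs).1 ih
      | inv_mul_cancel s hs y _ ih => exact step s⁻¹ y (hY s hs).2 ih
    obtain ⟨g, hg⟩ := nt
    obtain ⟨b, hb, e⟩ := all (u * g) (hS ▸ Subgroup.mem_top _)
    exact hg (by simpa using li u⁻¹ _ _ (tr _ _ _ e (hu b hb)))

end Ordx

theorem ord_st (hQ : QmSt) : OrdSt := by
  intro n
  induction n with
  | zero =>
    rintro G _ _ hd r tot - - ⟨g, hg⟩
    have : g = 1 := Subgroup.mem_bot.1 (hd ▸ (Subgroup.mem_top g : g ∈ derivedSeries G 0))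
    exact absurd ((tot g 1).elim id (by rw [this]; exact id)) hg
  | succ n ih =>
    intro G _ _ hd r tot tr li nt
    have hN : (derivedSeries G n).Normal := inferInstance
    have hc : ∀ x ∈ derivedSeries G n, ∀ y ∈ derivedSeries G n, x * y = y * x := by
      intro x hx y hy
      have := Subgroup.commutator_mem_commutator hx hy
      rw [← derivedSeries_succ, hd, Subgroup.mem_bot] at this
      exact commutatorElement_eq_one_iff_mul_comm.1 this
    by_cases bd : ∀ a ∈ derivedSeries G n, ∀ x, ∃ u, ∀ k : ℤ, r (a ^ k * x) u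
    · obtain ⟨r', t1, t2, t3, t4, g₀, t5⟩ := Ordx.caseB _ hc r tot tr li nt bd
      have same : ∀ g g' : G, (g : G ⧸ derivedSeries G n) = g' → r' g' g := by
        intro g g' e
        have := t4 g _ (QuotientGroup.eq.1 e)
        rwa [mul_inv_cancel_left] at this
      have hsur := QuotientGroup.mk'_surjective (derivedSeries G n)
      have hfg : Group.FG (G ⧸ derivedSeries G n) := Group.fg_of_surjective hsur
      have hd' : derivedSeries (G ⧸ derivedSeries G n) n = ⊥ := by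
        rw [← map_derivedSeries_eq hsur n]
        exact QuotientGroup.map_mk'_self _
      obtain ⟨φ, p1, q, p2⟩ := ih (G ⧸ derivedSeries G n) hd' (fun x y => r' x.out y.out)
        (fun x y => t1 _ _) (fun x y z => t2 _ _ _) (fun c x y h => by
          refine t2 _ _ _ (same _ _ ?_) (t2 _ _ _ (t3 c.out _ _ h) (same _ _ ?_)) <;> simp)
        ⟨g₀, fun h => t5 (t2 _ _ _ (same _ _ (by simp)) (t2 _ _ _ h (same _ _ (by simp))))⟩
      obtain ⟨g, rfl⟩ := hsur q
      exact ⟨fun x => φ (QuotientGroup.mk' _ x), fun x y => by simp only [map_mul, p1], g, p2⟩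
    · push Not at bd
      obtain ⟨a, ha, x, hx⟩ := bd
      have hc' : x⁻¹ * a * x⁻¹⁻¹ ∈ derivedSeries G n := hN.conj_mem _ ha x⁻¹
      have cof : ∀ u, ∃ k : ℤ, ¬ r ((x⁻¹ * a * x⁻¹⁻¹) ^ k) u := by
        intro u
        obtain ⟨k, hk⟩ := hx (x * u)
        refine ⟨k, fun e => hk ?_⟩
        have := li x _ _ e
        rwa [conj_zpow, inv_inv, mul_assoc, mul_inv_cancel_left] at this
      generalize x⁻¹ * a * x⁻¹⁻¹ = c at hc' cof
      rcases tot 1 c with h | h
      · exact Ordx.caseA hQ _ hd _ hN hc r tot tr li c hc' h cof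
      · refine Ordx.caseA hQ _ hd _ hN hc r tot tr li c⁻¹ (inv_mem hc')
          (by simpa using li c⁻¹ _ _ h) fun u => ?_
        obtain ⟨k, hk⟩ := cof u
        exact ⟨-k, by simpa using hk⟩

end Pool.Agent.Lib.MP_94a9ea_al.H25
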