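import Pool.Agent.Lib.MP_94a9ea_al.H25.St

set_option autoImplicit false

namespace Pool.Agent.Lib.MP_94a9ea_al.H25

namespace Orex

/-- A group that is a finite union of cosets of a finitely generated subgroup. -/
theorem fg_of_cover {W N : Type} [Group W] [Group N] [Group.FG N] (j : N →* W) (T : Set W)
    (hT : T.Finite) (hc : ∀ w, ∃ n, ∃ t ∈ T, w = j n * t) : Group.FG W := by
  obtain ⟨S, hS, hSf⟩ := Group.fg_iff.1 (inferInstance : Group.FG N)
  refine Group.fg_iff.2 ⟨j '' S ∪ T, ?_, (hSf.image _).union hT⟩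
  rw [eq_top_iff]
  intro w _
  obtain ⟨n, t, ht, rfl⟩ := hc w
  refine Subgroup.mul_mem _ ?_ (Subgroup.subset_closure (Or.inr ht))
  have h1 : j n ∈ (Subgroup.closure S).map j := ⟨n, by rw [hS]; trivial, rfl⟩
  rw [MonoidHom.map_closure] at h1
  exact Subgroup.closure_mono Set.subset_union_left h1

theorem main {W N : Type} [Group W] [CommGroup N] [Group.FG N] [UniqueProds N] (j : N →* W)
    (T : Set W) (hT : T.Finite) (hc : ∀ w, ∃ n, ∃ t ∈ T, w = j n * t) :
    IsNoetherianRing (MonoidAlgebra ℤ W) ∧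
      ∀ c : MonoidAlgebra ℤ W, (∀ y, y * c = 0 → y = 0) → ∀ y : MonoidAlgebra ℤ W,
        ∃ (z : MonoidAlgebra ℤ N) (y' : MonoidAlgebra ℤ W), z ≠ 0 ∧
          y' * c = MonoidAlgebra.mapDomain j z * y := by
  letI : Module (MonoidAlgebra ℤ N) (MonoidAlgebra ℤ W) :=
    Module.compHom _ (MonoidAlgebra.mapDomainRingHom ℤ j)
  have hsm : ∀ (z : MonoidAlgebra ℤ N) (y : MonoidAlgebra ℤ W),
      z • y = MonoidAlgebra.mapDomain j z * y := fun _ _ => rfl
  have hN : IsNoetherianRing (MonoidAlgebra ℤ N) := Algebra.FiniteType.isNoetherianRing ℤ _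
  have hfin : Module.Finite (MonoidAlgebra ℤ N) (MonoidAlgebra ℤ W) := by
    refine ⟨Submodule.fg_def.2 ⟨(fun t => MonoidAlgebra.single t (1 : ℤ)) '' T, hT.image _, ?_⟩⟩
    rw [eq_top_iff]
    intro x hx
    clear hx
    induction x using MonoidAlgebra.induction_linear with
    | zero => exact Submodule.zero_mem _
    | add x y hx hy => exact Submodule.add_mem _ hx hy
    | single w r =>
      obtain ⟨n, t, ht, rfl⟩ := hc w
      have e : (MonoidAlgebra.single (j n * t) r : MonoidAlgebra ℤ W) =
          (MonoidAlgebra.single n r : MonoidAlgebra ℤ N) • MonoidAlgebra.single t (1 : ℤ) := by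
        rw [hsm, MonoidAlgebra.mapDomain_single, MonoidAlgebra.single_mul_single, mul_one]
      rw [e]
      exact Submodule.smul_mem _ _ (Submodule.subset_span ⟨t, ht, rfl⟩)
  have htow : IsScalarTower (MonoidAlgebra ℤ N) (MonoidAlgebra ℤ W) (MonoidAlgebra ℤ W) :=
    ⟨fun z x y => by rw [hsm, hsm, smul_eq_mul, smul_eq_mul, mul_assoc]⟩
  refine ⟨isNoetherianRing_iff.2 (isNoetherian_of_tower (MonoidAlgebra ℤ N) inferInstance), ?_⟩
  intro c hcreg y
  let R : MonoidAlgebra ℤ W →ₗ[MonoidAlgebra ℤ N] MonoidAlgebra ℤ W :=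
    { toFun := fun y => y * c
      map_add' := fun x y => add_mul x y c
      map_smul' := fun z y => by
        simp only [RingHom.id_apply]
        rw [hsm, hsm, mul_assoc] }
  have hR : Function.Injective R := by
    rw [injective_iff_map_eq_zero]
    exact fun y hy => hcreg y hy
  have h1 := (LinearMap.range R).finrank_quotient_add_finrank
  rw [LinearMap.finrank_range_of_inj hR] at h1
  have h2 : Module.finrank (MonoidAlgebra ℤ N) (MonoidAlgebra ℤ W ⧸ LinearMap.range R) = 0 := by
    omega
  obtain ⟨z, hz, hzy⟩ := Module.finrank_eq_zero_iff.1 h2 (Submodule.Quotient.mk y)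
  rw [← Submodule.Quotient.mk_smul, Submodule.Quotient.mk_eq_zero] at hzy
  obtain ⟨y', hy'⟩ := hzy
  exact ⟨z, y', hz, hy'⟩

end Orex

theorem ore_st : OreSt := by
  intro W _ ι _ s a hc hf
  classical
  let σ : W →* (ι → ℤˣ) := MonoidHom.pi s
  have hker : ∀ g : W, g ∈ σ.ker ↔ ∀ i, s i g = 1 := fun g => by
    rw [MonoidHom.mem_ker, funext_iff]
    rfl
  have ha1 : ∀ i, a i 1 = 0 := fun i => by
    have := hc i 1 1
    simp only [mul_one, map_one, Units.val_one, one_mul] at this
    omega
  let φ : σ.ker →* Multiplicative (ι → ℤ) :=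
    { toFun := fun g => Multiplicative.ofAdd fun i => a i g
      map_one' := by
        apply Multiplicative.toAdd.injective
        funext i
        exact ha1 i
      map_mul' := fun g h => by
        apply Multiplicative.toAdd.injective
        funext i
        have h1 := hc i g h
        rw [(hker g).1 g.2 i] at h1
        simpa using h1 }
  have hφ : Function.Injective φ := by
    rw [injective_iff_map_eq_one]
    intro g hg
    apply Subtype.ext
    refine hf g fun i => ⟨(hker g).1 g.2 i, ?_⟩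
    exact congrFun (congrArg Multiplicative.toAdd hg) i
  let e : σ.ker ≃* φ.range := MonoidHom.ofInjective hφ
  let j : φ.range →* W := σ.ker.subtype.comp e.symm.toMonoidHom
  have hj : Function.Injective j := Subtype.val_injective.comp e.symm.injective
  have hjk : ∀ n, j n ∈ σ.ker := fun n => (e.symm n).2
  have hFG : Group.FG φ.range := by
    rw [Group.fg_iff_subgroup_fg, Subgroup.fg_iff_add_fg]
    have h1 : (AddSubgroup.toIntSubmodule (Subgroup.toAddSubgroup φ.range)).FG := by
      have : Module.Finite ℤ (Additive (Multiplicative (ι → ℤ))) :=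
        inferInstanceAs (Module.Finite ℤ (ι → ℤ))
      exact IsNoetherian.noetherian _
    exact (Submodule.fg_iff_addSubgroup_fg _).1 h1
  have hU : UniqueProds φ.range :=
    UniqueProds.of_injective_mulHom φ.range.subtype.toMulHom Subtype.val_injective inferInstance
  let T : Set W := Set.range fun v : σ.range => Classical.choose v.2
  have hT : T.Finite := Set.finite_range _
  have hcov : ∀ w, ∃ n, ∃ t ∈ T, w = j n * t := by
    intro w
    have hv : σ w ∈ σ.range := ⟨w, rfl⟩
    have ht : σ (Classical.choose hv) = σ w := Classical.choose_spec hv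
    have hk : w * (Classical.choose hv)⁻¹ ∈ σ.ker := by
      rw [MonoidHom.mem_ker, map_mul, map_inv, ht, mul_inv_cancel]
    refine ⟨e ⟨_, hk⟩, Classical.choose hv, ⟨⟨σ w, hv⟩, rfl⟩, ?_⟩
    have : j (e ⟨_, hk⟩) = w * (Classical.choose hv)⁻¹ := by
      change ((e.symm (e ⟨_, hk⟩) : σ.ker) : W) = _
      rw [e.symm_apply_apply]
    rw [this, inv_mul_cancel_right]
  obtain ⟨h1, h2⟩ := Orex.main j T hT hcov
  refine ⟨Orex.fg_of_cover j T hT hcov, h1, fun c hcr y => ?_⟩
  obtain ⟨z, y', hz, hy⟩ := h2 c hcr y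
  refine ⟨MonoidAlgebra.mapDomain j z, y', fun h0 => hz ?_, fun g hg => ?_, hy⟩
  · apply MonoidAlgebra.mapDomain_injective hj
    rw [h0, MonoidAlgebra.mapDomain_zero]
  · have h3 := Finsupp.mapDomain_support (f := j) (s := z.coeff) hg
    obtain ⟨n, _, rfl⟩ := Finset.mem_image.1 h3
    exact (hker _).1 (hjk n)

end Pool.Agent.Lib.MP_94a9ea_al.H25
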