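import Pool.Agent.Lib.MP_94a9ea_al.H25.Dom

set_option autoImplicit false

namespace Pool.Agent.Lib.MP_94a9ea_al.H25
namespace TopG
open Dom

/-- The common kernel of a family of maps to the infinite dihedral group. -/
def Ker {G : Type} [Group G] {ι : Type} (s : ι → G →* ℤˣ) (a : ι → G → ℤ)
    (hc : ∀ i, Coc (s i) (a i)) : Subgroup G where
  carrier := {g | ∀ i, s i g = 1 ∧ a i g = 0}
  one_mem' := fun i => ⟨map_one _, a_one (hc i)⟩
  mul_mem' := by
    intro g w hg hw i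
    refine ⟨by rw [map_mul, (hg i).1, (hw i).1, mul_one], ?_⟩
    rw [hc, (hg i).2, (hw i).2]; simp
  inv_mem' := by
    intro g hg i
    refine ⟨by rw [map_inv, (hg i).1, inv_one], ?_⟩
    rw [a_inv (hc i), (hg i).2]; simp

lemma quot (hD : DomSt) {G : Type} [Group G] {ι : Type} [Fintype ι] (s : ι → G →* ℤˣ)
    (a : ι → G → ℤ) (hc : ∀ i, Coc (s i) (a i))
    (h2 : ∀ g, (∀ i, s i (g * g) = 1 ∧ a i (g * g) = 0) → ∀ i, s i g = 1 ∧ a i g = 0) :
    ∃ (W : Type) (_ : Group W) (p : G →* W) (s' : ι → W →* ℤˣ),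
      NoZeroDivisors (MonoidAlgebra ℤ W) ∧ (∀ i, (s' i).comp p = s i) ∧
      ∀ g, (∀ i, s i g = 1 ∧ a i g = 0) → p g = 1 := by
  have hN : (Ker s a hc).Normal := by
    constructor
    intro n hn g i
    refine ⟨by rw [map_mul, map_mul, (hn i).1, map_inv, mul_one, mul_inv_cancel], ?_⟩
    rw [hc, hc, (hn i).2, a_inv (hc i), sgn_mul, (hn i).1]
    rcases sgn (s i) g with e | e <;> rw [e] <;> simp
  let s' : ι → G ⧸ Ker s a hc →* ℤˣ := fun i =>
    QuotientGroup.lift (Ker s a hc) (s i) fun g hg => (hg i).1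
  let a' : ι → G ⧸ Ker s a hc → ℤ := fun i w => a i w.out
  have ha' : ∀ i (g : G), a' i (g : G ⧸ Ker s a hc) = a i g := by
    intro i g
    obtain ⟨n, hn⟩ := QuotientGroup.mk_out_eq_mul (Ker s a hc) g
    change a i (Quotient.out _) = _
    rw [hn, hc, (n.2 i).2]; simp
  have hs' : ∀ i (g : G), s' i (g : G ⧸ Ker s a hc) = s i g := fun i g => rfl
  refine ⟨G ⧸ Ker s a hc, inferInstance, QuotientGroup.mk' _, s', ?_, fun i => ?_, fun g hg => ?_⟩
  · refine hD _ ι s' a' (fun i g w => ?_) (fun g => ?_) (fun g => ?_)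
    · obtain ⟨g, rfl⟩ := QuotientGroup.mk_surjective g
      obtain ⟨w, rfl⟩ := QuotientGroup.mk_surjective w
      rw [← QuotientGroup.mk_mul, ha', ha', ha', hs', hc]
    · obtain ⟨g, rfl⟩ := QuotientGroup.mk_surjective g
      intro hg
      refine (QuotientGroup.eq_one_iff g).2 fun i => ?_
      rw [← hs', ← ha']
      exact hg i
    · obtain ⟨g, rfl⟩ := QuotientGroup.mk_surjective g
      intro hg
      rw [← QuotientGroup.mk_mul] at hg
      exact (QuotientGroup.eq_one_iff g).2 (h2 g ((QuotientGroup.eq_one_iff _).1 hg))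
  · ext g
    rfl
  · exact (QuotientGroup.eq_one_iff g).2 hg

/-- The point group. -/
abbrev T : Type := Fin 3 → ZMod 2

/-- The pairing. -/
def dot (c t : T) : ZMod 2 := c 0 * t 0 + c 1 * t 1 + c 2 * t 2

/-- The sign of a residue. -/
def sg (z : ZMod 2) : ℤˣ := if z = 0 then 1 else -1

/-- Nonzero characters. -/
abbrev X : Type := {c : T // c ≠ 0}

lemma dot_add (c t t' : T) : dot c (t + t') = dot c t + dot c t' := by
  simp only [dot, Pi.add_apply]; ring

lemma dot_zero (c : T) : dot c 0 = 0 := by simp [dot]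

lemma zero_dot (t : T) : dot 0 t = 0 := by simp [dot]

lemma sg_add : ∀ z w : ZMod 2, sg (z + w) = sg z * sg w := by decide

lemma sg_zero : sg 0 = 1 := by decide

lemma sg_cast : ∀ z : ZMod 2, (((sg z : ℤˣ) : ℤ) : ZMod 2) = 1 := by decide

lemma sg_sq : ∀ z : ZMod 2, ((sg z : ℤˣ) : ℤ) * (sg z : ℤˣ) = 1 := by decide

lemma sg_eq_one : ∀ z : ZMod 2, sg z = 1 → z = 0 := by decide

lemma two_t : ∀ t : T, t + t = 0 := by decide

lemma sep : ∀ t t' : T, (∀ c, dot c t = dot c t') → t = t' := by decide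

lemma sep1 : ∀ t : T, t ≠ 0 → ∃ c, dot c t = 1 := by decide

lemma sep2 : ∀ t t' : T, ∃ c : T, c ≠ 0 ∧ dot c t = 0 ∧ dot c t' = 0 := by decide

lemma sep3 : ∀ t : T, (∀ c : T, c ≠ 0 → dot c t = 0) → t = 0 := by decide

lemma norm0 : ∀ c : T, c ≠ 0 → (1 + ((sg (dot c ![0, 0, 1]) : ℤˣ) : ℤ)) *
    ((1 + ((sg (dot c ![0, 1, 0]) : ℤˣ) : ℤ)) * (1 + ((sg (dot c ![1, 0, 0]) : ℤˣ) : ℤ))) = 0 := by
  decide

/-- The top group. -/
@[ext] structure Q where
  /-- image in the point group -/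
  t : T
  /-- translation parts -/
  x : X → T → ℤ
  hx : ∀ c d, ((x c d : ℤ) : ZMod 2) = dot d t

instance : Mul Q := ⟨fun g h => ⟨g.t + h.t, fun c d => g.x c d + (sg (dot c.1 g.t) : ℤˣ) * h.x c d,
  fun c d => by rw [Int.cast_add, Int.cast_mul, sg_cast, g.hx, h.hx, dot_add, one_mul]⟩⟩

instance : One Q := ⟨⟨0, fun _ _ => 0, fun c d => by rw [dot_zero]; simp⟩⟩

instance : Inv Q := ⟨fun g => ⟨g.t, fun c d => - ((sg (dot c.1 g.t) : ℤˣ) * g.x c d),
  fun c d => by rw [Int.cast_neg, Int.cast_mul, sg_cast, g.hx, one_mul, ZMod.neg_eq_self_mod_two]⟩⟩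

lemma mul_t (g h : Q) : (g * h).t = g.t + h.t := rfl
lemma mul_x (g h : Q) (c : X) (d : T) :
    (g * h).x c d = g.x c d + (sg (dot c.1 g.t) : ℤˣ) * h.x c d := rfl
lemma one_t : (1 : Q).t = 0 := rfl
lemma one_x (c : X) (d : T) : (1 : Q).x c d = 0 := rfl
lemma inv_t (g : Q) : g⁻¹.t = g.t := rfl
lemma inv_x (g : Q) (c : X) (d : T) : g⁻¹.x c d = - ((sg (dot c.1 g.t) : ℤˣ) * g.x c d) := rfl

instance : Group Q := Group.ofLeftAxioms
  (fun g h k => by
    ext c d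
    · simp only [mul_t, add_assoc]
    · simp only [mul_x, mul_t, dot_add, sg_add, Units.val_mul]; ring)
  (fun g => by
    ext c d
    · simp only [mul_t, one_t, zero_add]
    · simp only [mul_x, one_x, one_t, dot_zero, sg_zero]; simp)
  (fun g => by
    ext c d
    · simp only [mul_t, inv_t, one_t, two_t]
    · simp only [mul_x, inv_x, inv_t, one_x]; ring)

/-- The sign character. -/
def sc (c : X) : Q →* ℤˣ := MonoidHom.mk' (fun g => sg (dot c.1 g.t)) fun g h => by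
  simp only [mul_t, dot_add, sg_add]

lemma sc_apply (c : X) (g : Q) : sc c g = sg (dot c.1 g.t) := rfl

lemma coc_x (c : X) (d : T) : Coc (sc c) (fun g => g.x c d) := fun _ _ => rfl

/-- A lift of an element of the point group. -/
def lift (t : T) : Q := ⟨t, fun _ d => ((dot d t).val : ℤ), fun c d => by simp⟩

lemma inj (g : Q) (h : ∀ i : X × T, sc i.1 g = 1 ∧ g.x i.1 i.2 = 0) : g = 1 := by
  ext c d
  · rw [sep3 g.t fun c hc => sg_eq_one _ (h (⟨c, hc⟩, 0)).1, one_t]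
  · exact (h (c, d)).2

lemma no_inv (g : Q) (h : g * g = 1) : g = 1 := by
  have key : ∀ (c : X) (d : T), dot c.1 g.t = 0 → g.x c d = 0 := by
    intro c d hc
    have : (g * g).x c d = 0 := by rw [h, one_x]
    rw [mul_x, hc, sg_zero] at this
    simp only [Units.val_one] at this
    omega
  have ht : g.t = 0 := by
    by_contra ht
    obtain ⟨c, hc, h1, -⟩ := sep2 g.t g.t
    obtain ⟨d, hd⟩ := sep1 g.t ht
    have := g.hx ⟨c, hc⟩ d
    rw [key ⟨c, hc⟩ d h1, hd] at this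
    simp at this
  ext c d
  · rw [ht, one_t]
  · exact key c d (by rw [ht, dot_zero])

lemma cj (t : T) (m : Q) (hm : m.t = 0) : ∃ m' : Q, m'.t = 0 ∧
    (∀ c d, m'.x c d = (1 + ((sg (dot c.1 t) : ℤˣ) : ℤ)) * m.x c d) ∧
    Abelianization.of m' = Abelianization.of m ^ 2 := by
  refine ⟨m * (lift t * m * (lift t)⁻¹), ?_, fun c d => ?_, ?_⟩
  · rw [mul_t, mul_t, mul_t, inv_t, hm, zero_add, add_zero, two_t]
  · have e : (lift t).t = t := rfl
    rw [mul_x, mul_x, mul_x, inv_x, mul_t, hm, add_zero, dot_zero, sg_zero, e]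
    have := sg_sq (dot c.1 t)
    simp only [Units.val_one]
    linear_combination (- (lift t).x c d) * this
  · rw [map_mul, map_mul, map_mul, map_inv, mul_inv_cancel_comm, sq]

lemma pow_mem (q : Q) : q ^ 16 ∈ commutator Q := by
  have h0 : (q * q).t = 0 := by rw [mul_t, two_t]
  obtain ⟨m1, t1, x1, f1⟩ := cj ![1, 0, 0] _ h0
  obtain ⟨m2, t2, x2, f2⟩ := cj ![0, 1, 0] _ t1
  obtain ⟨m3, t3, x3, f3⟩ := cj ![0, 0, 1] _ t2
  have e : m3 = 1 := by
    ext c d
    · rw [t3, one_t]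
    · rw [x3, x2, x1, one_x]
      linear_combination ((q * q).x c d) * norm0 c.1 c.2
  rw [← Abelianization.ker_of, MonoidHom.mem_ker, map_pow]
  rw [e, map_one, f2, f1, map_mul] at f3
  rw [f3, ← sq, ← pow_mul, ← pow_mul, ← pow_mul]

lemma der2 : derivedSeries Q 2 = ⊥ := by
  have h1 : ∀ g ∈ derivedSeries Q 1, g.t = 0 := by
    let f : Q →* Multiplicative T := MonoidHom.mk' (fun g => Multiplicative.ofAdd g.t) fun _ _ => rfl
    intro g hg
    rw [derivedSeries_one] at hg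
    exact Abelianization.commutator_subset_ker f hg
  rw [derivedSeries_succ, eq_bot_iff, Subgroup.commutator_le]
  intro g hg w hw
  rw [Subgroup.mem_bot, commutatorElement_eq_one_iff_mul_comm]
  ext c d
  · rw [mul_t, mul_t, add_comm]
  · rw [mul_x, mul_x, h1 g hg, h1 w hw, dot_zero, sg_zero]
    simp only [Units.val_one]
    ring

lemma ex_u0 (n : ℕ) : ∀ (v : T → ℤ) (d0 : T), v d0 ≠ 0 → (v d0).natAbs ≤ n →
    ∃ u : T → ℤ, (∃ d, ((u d : ℤ) : ZMod 2) = 1) ∧ ∃ k : ℤ, ∀ d, v d = k * u d := by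
  induction n with
  | zero => intro v d0 h1 h2; omega
  | succ n ih =>
    intro v d0 h1 h2
    by_cases h : ∃ d, ((v d : ℤ) : ZMod 2) = 1
    · exact ⟨v, h, 1, fun d => by simp⟩
    · have h3 : ∀ d, (2 : ℤ) ∣ v d := by
        intro d
        have e : ∀ z : ZMod 2, z ≠ 1 → z = 0 := by decide
        exact (ZMod.intCast_zmod_eq_zero_iff_dvd (v d) 2).1 (e _ fun h' => h ⟨d, h'⟩)
      have h4 := h3 d0
      obtain ⟨u, hu, k, hk⟩ := ih (fun d => v d / 2) d0 (by omega) (by omega)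
      refine ⟨u, hu, 2 * k, fun d => ?_⟩
      have h5 := h3 d
      have h6 : v d / 2 = k * u d := hk d
      rw [mul_assoc, ← h6]
      omega

lemma ex_u (v : T → ℤ) : ∃ u : T → ℤ, (∃ d, ((u d : ℤ) : ZMod 2) = 1) ∧
    (∀ d d', u d * v d' - u d' * v d = 0) ∧ ((∀ d, v d = 0) → ((u 0 : ℤ) : ZMod 2) = 1) := by
  by_cases h : ∀ d, v d = 0
  · exact ⟨fun _ => 1, ⟨0, by simp⟩, fun d d' => by simp [h], fun _ => by simp⟩
  · push Not at h
    obtain ⟨d0, h0⟩ := h
    obtain ⟨u, hu, k, hk⟩ := ex_u0 _ v d0 h0 le_rfl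
    exact ⟨u, hu, fun d d' => by rw [hk d, hk d']; ring, fun h => absurd (h d0) h0⟩

/-- The vector `u` reduces to the evaluation at `t`. -/
def Serves (u : T → ℤ) (t : T) : Prop := ∀ d, ((u d : ℤ) : ZMod 2) = dot d t

lemma par {u y : T → ℤ} {t : T} (hu : ∃ d, ((u d : ℤ) : ZMod 2) = 1)
    (h : ∀ d d', u d * y d' - u d' * y d = 0) (hy : Serves y t) (ht : t ≠ 0) : Serves u t := by
  obtain ⟨d0, h0⟩ := hu
  obtain ⟨d1, h1⟩ := sep1 t ht
  have key : ∀ d, dot d t = ((u d : ℤ) : ZMod 2) * dot d0 t := by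
    intro d
    have := congrArg (fun z : ℤ => (z : ZMod 2)) (h d0 d)
    simp only [Int.cast_sub, Int.cast_mul, Int.cast_zero] at this
    rw [h0, hy d, hy d0, one_mul] at this
    exact sub_eq_zero.1 this
  have e : ∀ z w : ZMod 2, 1 = z * w → w = 1 := by decide
  have h2 : dot d0 t = 1 := e _ _ (by rw [← key d1, h1])
  intro d
  rw [key d, h2, mul_one]

lemma build (hD : DomSt) (q : Q) (u : X → T → ℤ) (hu : ∀ c, ∃ d, ((u c d : ℤ) : ZMod 2) = 1)
    (hp : ∀ c d d', u c d * q.x c d' - u c d' * q.x c d = 0) (C : X → Prop)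
    (hC : ∀ t : T, t ≠ 0 → (∀ c, C c → dot c.1 t = 0 → Serves (u c) t) →
      ∀ c, C c → dot c.1 t = 0)
    (hq : ∀ c, C c → dot c.1 q.t = 0) (c0 : X) (d0 : T) (h0 : C c0) (h1 : q.x c0 d0 ≠ 0) :
    ∃ (W : Type) (_ : Group W) (p : Q →* W) (s : W →* ℤˣ) (a : Q → ℤ),
      NoZeroDivisors (MonoidAlgebra ℤ W) ∧ p q = 1 ∧ Coc (s.comp p) a ∧ a q ≠ 0 := by
  classical
  obtain ⟨W, _, p, s', hW, hs, hp1⟩ := quot hD (ι := {c // C c} × T × T) (fun i => sc i.1.1)
    (fun i g => u i.1.1 i.2.1 * g.x i.1.1 i.2.2 - u i.1.1 i.2.2 * g.x i.1.1 i.2.1)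
    (fun i g w => by simp only [mul_x, sc_apply]; ring) (by
      intro g hg
      have key : ∀ c, C c → dot c.1 g.t = 0 → ∀ d d', u c d * g.x c d' - u c d' * g.x c d = 0 := by
        intro c hc h d d'
        have := (hg (⟨c, hc⟩, d, d')).2
        simp only [mul_x, h, sg_zero, Units.val_one] at this
        linarith
      have k2 : ∀ c, C c → dot c.1 g.t = 0 := by
        by_cases ht : g.t = 0
        · intro c _
          rw [ht, dot_zero]
        · exact hC g.t ht fun c hc h => par (hu c) (key c hc h) (g.hx c) ht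
      rintro ⟨⟨c, hc⟩, d, d'⟩
      exact ⟨by rw [sc_apply, k2 c hc, sg_zero], key c hc (k2 c hc) d d'⟩)
  refine ⟨W, inferInstance, p, s' (⟨c0, h0⟩, 0, 0), fun g => g.x c0 d0, hW, hp1 q ?_, ?_, h1⟩
  · rintro ⟨⟨c, hc⟩, d, d'⟩
    exact ⟨by rw [sc_apply, hq c hc, sg_zero], hp c d d'⟩
  · rw [hs]
    exact coc_x c0 d0

lemma det (hD : DomSt) (q : Q) (hq : q ≠ 1) :
    ∃ (W : Type) (_ : Group W) (p : Q →* W) (s : W →* ℤˣ) (a : Q → ℤ),
      NoZeroDivisors (MonoidAlgebra ℤ W) ∧ p q = 1 ∧ Coc (s.comp p) a ∧ a q ≠ 0 := by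
  choose u hu hp hz using fun c : X => ex_u (q.x c)
  have caseA : ∀ t0 : T, (∀ c : X, dot c.1 t0 = 0 → Serves (u c) t0) →
      (q.t = 0 ∨ q.t = t0) →
      ∃ (W : Type) (_ : Group W) (p : Q →* W) (s : W →* ℤˣ) (a : Q → ℤ),
        NoZeroDivisors (MonoidAlgebra ℤ W) ∧ p q = 1 ∧ Coc (s.comp p) a ∧ a q ≠ 0 := by
    intro t0 hs ht
    obtain ⟨c0, hc0, h0, -⟩ := sep2 t0 t0
    have h1 : ¬ ∀ d, q.x ⟨c0, hc0⟩ d = 0 := by
      intro h
      have e1 := hz _ h
      rw [hs ⟨c0, hc0⟩ h0 0, zero_dot] at e1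
      simp at e1
    push Not at h1
    obtain ⟨d0, hd0⟩ := h1
    refine build hD q u hu hp (fun c => dot c.1 t0 = 0) ?_ ?_ ⟨c0, hc0⟩ d0 h0 hd0
    · intro t _ h c hc
      obtain ⟨c1, hc1, e1, e2⟩ := sep2 t0 t
      have e3 : t = t0 := sep _ _ fun d => by
        rw [← h ⟨c1, hc1⟩ e1 e2 d, ← hs ⟨c1, hc1⟩ e1 d]
      rw [e3]; exact hc
    · intro c hc
      rcases ht with e | e <;> rw [e]
      · exact dot_zero _
      · exact hc
  by_cases ht : q.t = 0
  · by_cases h : ∃ t0 : T, t0 ≠ 0 ∧ ∀ c : X, dot c.1 t0 = 0 → Serves (u c) t0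
    · obtain ⟨t0, -, h⟩ := h
      exact caseA t0 h (Or.inl ht)
    · have h1 : ¬ ∀ c d, q.x c d = 0 := by
        intro h2
        apply hq
        ext c d
        · rw [ht, one_t]
        · exact h2 c d
      push Not at h1
      obtain ⟨c0, d0, h1⟩ := h1
      refine build hD q u hu hp (fun _ => True) ?_ ?_ c0 d0 trivial h1
      · intro t h0 h2
        exact absurd ⟨t, h0, fun c hc => h2 c trivial hc⟩ h
      · intro c _
        rw [ht, dot_zero]
  · exact caseA q.t (fun c _ => par (hu c) (hp c) (q.hx c) ht) (Or.inr rfl)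

end TopG

theorem top_st (hO : OreSt) (hD : DomSt) : TopSt := by
  obtain ⟨h1, h2, -⟩ := hO TopG.Q (TopG.X × TopG.T) (fun i => TopG.sc i.1) (fun i g => g.x i.1 i.2)
    (fun i => TopG.coc_x i.1 i.2) TopG.inj
  refine ⟨TopG.Q, inferInstance, 16, h1, h2, ⟨TopG.lift ![1, 0, 0], 1, fun h => ?_⟩, by norm_num,
    TopG.pow_mem, TopG.der2, hD TopG.Q (TopG.X × TopG.T) (fun i => TopG.sc i.1)
      (fun i g => g.x i.1 i.2) (fun i => TopG.coc_x i.1 i.2) TopG.inj TopG.no_inv, TopG.det hD⟩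
  have : (![1, 0, 0] : TopG.T) = 0 := congrArg TopG.Q.t h
  revert this
  decide

end Pool.Agent.Lib.MP_94a9ea_al.H25
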