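import Pool.Agent.Lib.MP_94a9ea_al.H25.Qm
import Pool.Agent.Lib.MP_94a9ea_al.H25.Ord
import Pool.Agent.Lib.MP_94a9ea_al.H25.Ore
import Pool.Agent.Lib.MP_94a9ea_al.H25.Top
import Pool.Agent.Lib.MP_94a9ea_al.H25.Abs
import Pool.Agent.Lib.MP_94a9ea_al.H25.Fin

set_option autoImplicit false

namespace Pool.Agent.Lib.MP_94a9ea_al.H25

theorem top_Q : Top TopG.Q 16 := by
  have hD := dom_st ore_st
  obtain ⟨h1, h2, -⟩ := ore_st TopG.Q (TopG.X × TopG.T) (fun i => TopG.sc i.1)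
    (fun i g => g.x i.1 i.2) (fun i => TopG.coc_x i.1 i.2) TopG.inj
  refine ⟨h1, h2, ⟨TopG.lift ![1, 0, 0], 1, fun h => ?_⟩, by norm_num,
    TopG.pow_mem, TopG.der2, hD TopG.Q (TopG.X × TopG.T) (fun i => TopG.sc i.1)
      (fun i g => g.x i.1 i.2) (fun i => TopG.coc_x i.1 i.2) TopG.inj TopG.no_inv, TopG.det hD⟩
  have : (![1, 0, 0] : TopG.T) = 0 := congrArg TopG.Q.t h
  revert this
  decide

theorem comm_Q (g w : TopG.Q) (hg : g.t = 0) (hw : w.t = 0) : g * w = w * g := by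
  ext c d
  · rw [TopG.mul_t, TopG.mul_t, add_comm]
  · rw [TopG.mul_x, TopG.mul_x, hg, hw, TopG.dot_zero, TopG.sg_zero]
    simp only [Units.val_one]
    ring

theorem not_ro {G : Type} [Group G] [Group.FG G] [Nontrivial G] (hd : derivedSeries G 3 = ⊥)
    (hφ : ∀ φ : G → ℝ, (∀ x y, φ (x * y) = φ x + φ y) → ∀ g, φ g = 0) :
    ¬ ∃ o : LinearOrder G, ∀ a b c : G, o.le a b → o.le (a * c) (b * c) := by
  rintro ⟨o, ho⟩
  let _ := o
  have ho' : ∀ a b c : G, a ≤ b → a * c ≤ b * c := ho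
  obtain ⟨φ, h1, g, h2⟩ := ord_st qm_st 3 G hd (fun x y => x⁻¹ ≤ y⁻¹) (fun x y => le_total _ _)
    (fun x y z => le_trans) (fun c x y h => by simpa [mul_inv_rev] using ho' _ _ c⁻¹ h) (by
      obtain ⟨g, hg⟩ := exists_ne (1 : G)
      by_contra hcon
      push Not at hcon
      have h1 : g⁻¹ ≤ 1 := by simpa using hcon g
      have h2 : g ≤ 1 := by simpa using hcon g⁻¹
      have h3 : (1 : G) ≤ g := by simpa using ho' _ _ g h1
      exact hg (le_antisymm h2 h3))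
  exact h2 (hφ φ h1 g)

open Absx in
theorem neg :
    ∃ (G : Type) (_ : Group G), Group.FG G ∧ derivedSeries G 3 = ⊥ ∧ (commutator G).FiniteIndex ∧
      (∃ f : G →* Multiplicative (Fin 3 → ZMod 2), Function.Surjective f ∧
        derivedSeries f.ker 2 = ⊥) ∧
      (∀ g : G, g ≠ 1 → ∀ l : List G, l ≠ [] → (l.map (fun h => h⁻¹ * g * h)).prod ≠ 1) ∧
      ¬ ∃ o : LinearOrder G, ∀ a b c : G, o.le a b → o.le (a * c) (b * c) := by
  have hQ := top_Q
  obtain ⟨S, hS⟩ := hQ.1.out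
  have hx : Subgroup.closure (Set.range (Subtype.val : S → TopG.Q)) = ⊤ := by
    rw [Subtype.range_coe]; exact hS
  have hs := pr_surj hx hQ.2.2.2.2.1
  have := hQ.2.1
  have := hQ.2.2.1
  have hfg := fg hx hs
  have hnt := hs.nontrivial
  have hd := solv (Subtype.val : S → TopG.Q) 16 hQ.2.2.2.2.2.1
  have hφ := nohom hQ.2.2.2.1 hQ.2.2.2.2.1 hs
  let f0 : TopG.Q →* Multiplicative TopG.T :=
    MonoidHom.mk' (fun g => Multiplicative.ofAdd g.t) fun _ _ => rfl
  let f := f0.comp (pr (Subtype.val : S → TopG.Q) 16)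
  refine ⟨Ex (Subtype.val : S → TopG.Q) 16, inferInstance, hfg, hd, finiteIndex_commutator hφ,
    ⟨f, ?_, ?_⟩, rstar _ hQ, not_ro hd hφ⟩
  · intro t
    obtain ⟨g, hg⟩ := hs (TopG.lift t.toAdd)
    exact ⟨g, by
      change f0 (pr _ 16 g) = t
      rw [hg]; rfl⟩
  · have h2 : ∀ g ∈ derivedSeries f.ker 1, g.1.1.q = 1 := by
      have : derivedSeries f.ker 1 ≤
          ((pr (Subtype.val : S → TopG.Q) 16).comp f.ker.subtype).ker := by
        rw [derivedSeries_one, commutator_def, Subgroup.commutator_le]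
        intro a _ b _
        rw [MonoidHom.mem_ker, map_commutatorElement, commutatorElement_eq_one_iff_mul_comm]
        exact comm_Q _ _ a.2 b.2
      exact fun g hg => this hg
    rw [derivedSeries_succ, eq_bot_iff, Subgroup.commutator_le]
    intro a ha b hb
    rw [Subgroup.mem_bot, commutatorElement_eq_one_iff_mul_comm]
    refine Subtype.ext (Subtype.ext (Sd.eq ?_ ?_))
    · show a.1.1.j + o TopG.Q a.1.1.q • b.1.1.j = b.1.1.j + o TopG.Q b.1.1.q • a.1.1.j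
      rw [h2 a ha, h2 b hb, map_one, one_smul, one_smul, add_comm]
    · show a.1.1.q * b.1.1.q = b.1.1.q * a.1.1.q
      rw [h2 a ha, h2 b hb]

end Pool.Agent.Lib.MP_94a9ea_al.H25
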