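import Mathlib
import Pool.Agent.Lib.MP_94a9ea_al.H25.FSt

/-! Normal subgroups inside a finitely generated module over a commutative operator ring. -/

set_option autoImplicit false

namespace Pool.Agent.Lib.MP_94a9ea_al.H25

namespace Noex

/-- The module statement: commuting operators, finitely many of them, finitely many generators. -/
theorem core {M : Type} [AddCommGroup M] (S : Set (Module.End ℤ M)) (hS : S.Finite)
    (hc : ∀ x ∈ S, ∀ y ∈ S, x * y = y * x) (A : Set M) (hA : A.Finite)
    (hgen : ∀ W : AddSubgroup M, A ⊆ W → (∀ f ∈ S, ∀ m ∈ W, f m ∈ W) → W = ⊤)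
    (N : AddSubgroup M) (hN : ∀ f ∈ S, ∀ m ∈ N, f m ∈ N) :
    ∃ T : Set M, T.Finite ∧ T ⊆ N ∧
      ∀ W : AddSubgroup M, T ⊆ W → (∀ f ∈ S, ∀ m ∈ W, f m ∈ W) → N ≤ W := by
  have hmc := Algebra.isMulCommutative_adjoin ℤ hc
  have hft : Algebra.FiniteType ℤ (Algebra.adjoin ℤ S) :=
    ⟨(Subalgebra.fg_top _).2 ⟨hS.toFinset, by simp⟩⟩
  have hno : IsNoetherianRing (Algebra.adjoin ℤ S) := by
    let _ : CommRing (Algebra.adjoin ℤ S) :=
      { (inferInstance : Ring (Algebra.adjoin ℤ S)) with mul_comm := fun a b => hmc.is_comm.comm a b }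
    exact Algebra.FiniteType.isNoetherianRing ℤ (Algebra.adjoin ℤ S)
  have hsub : ∀ W : AddSubgroup M, (∀ f ∈ S, ∀ m ∈ W, f m ∈ W) →
      ∃ V : Submodule (Algebra.adjoin ℤ S) M, (V : Set M) = W := by
    intro W hW
    have key : ∀ f ∈ Algebra.adjoin ℤ S, ∀ m ∈ W, f m ∈ W := by
      intro f hf
      induction hf using Algebra.adjoin_induction with
      | mem f hf => exact hW f hf
      | algebraMap z => intro m hm; exact W.zsmul_mem hm z
      | add f g _ _ h1 h2 => intro m hm; exact W.add_mem (h1 m hm) (h2 m hm)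
      | mul f g _ _ h1 h2 => intro m hm; exact h1 _ (h2 m hm)
    exact ⟨{ carrier := W
             add_mem' := fun ha hb => W.add_mem ha hb
             zero_mem' := W.zero_mem
             smul_mem' := fun c x hx => key c c.2 x hx }, rfl⟩
  have hfin : Module.Finite (Algebra.adjoin ℤ S) M := by
    refine ⟨Submodule.fg_def.2 ⟨A, hA, ?_⟩⟩
    have h1 := hgen (Submodule.span (Algebra.adjoin ℤ S) A).toAddSubgroup Submodule.subset_span
      (fun f hf m hm => (Submodule.span (Algebra.adjoin ℤ S) A).smul_mem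
        ⟨f, Algebra.subset_adjoin hf⟩ hm)
    rw [eq_top_iff]
    intro m _
    have h2 : m ∈ (Submodule.span (Algebra.adjoin ℤ S) A).toAddSubgroup := by
      rw [h1]; trivial
    exact h2
  obtain ⟨V, hV⟩ := hsub N hN
  obtain ⟨T, hT, hTV⟩ := Submodule.fg_def.1 (IsNoetherian.noetherian V)
  refine ⟨T, hT, ?_, fun W hTW hW m hm => ?_⟩
  · rw [← hV, ← hTV]
    exact Submodule.subset_span
  · obtain ⟨V', hV'⟩ := hsub W hW
    have h1 : V ≤ V' := by
      rw [← hTV, Submodule.span_le, hV']
      exact hTW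
    have h2 : m ∈ (V : Set M) := by rw [hV]; exact hm
    have h3 : m ∈ (V' : Set M) := h1 h2
    rw [hV'] at h3
    exact h3

end Noex

theorem noe_st : NoeSt := by
  intro G _ Y A hY hA U hU hcm hYY N hN hNU
  have hnorm : ∀ y ∈ Subgroup.closure Y, ∀ g ∈ U, cj g y ∈ U := by
    intro y hy g hg
    rw [hU] at hg ⊢
    induction hg using Subgroup.closure_induction with
    | mem g hg =>
      obtain ⟨a, ha, u, hu, rfl⟩ := hg
      exact Subgroup.subset_closure ⟨a, ha, u * y, Subgroup.mul_mem _ hu hy, by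
        simp only [cj]; group⟩
    | one => simp [cj]
    | mul a b _ _ h1 h2 =>
      have h3 : cj (a * b) y = cj a y * cj b y := by simp only [cj]; group
      rw [h3]
      exact Subgroup.mul_mem _ h1 h2
    | inv a _ h1 =>
      have h3 : cj a⁻¹ y = (cj a y)⁻¹ := by simp only [cj]; group
      rw [h3]
      exact Subgroup.inv_mem _ h1
  let _ : CommGroup U := { (inferInstance : Group U) with
    mul_comm := fun a b => Subtype.ext (hcm a a.2 b b.2) }
  let c : Subgroup.closure Y → U →* U := fun y =>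
    { toFun := fun g => ⟨cj g y, hnorm y y.2 g g.2⟩
      map_one' := Subtype.ext (by simp [cj])
      map_mul' := fun a b => Subtype.ext (by
        simp only [cj, Subgroup.coe_mul]; group) }
  let φ : Subgroup.closure Y → Module.End ℤ (Additive U) := fun y =>
    (MonoidHom.toAdditive (c y)).toIntLinearMap
  let Y' : Set (Subgroup.closure Y) := {y | (y : G) ∈ Y ∨ (y : G)⁻¹ ∈ Y}
  have hY' : Y'.Finite := by
    apply Set.Finite.of_finite_image (f := Subtype.val) _ Subtype.val_injective.injOn
    refine (hY.union hY.inv).subset ?_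
    rintro _ ⟨y, hy, rfl⟩
    exact hy
  have hbase : ∀ y ∈ Y, ∀ y' ∈ Y, ∀ g ∈ U, cj (cj g y) y' = cj (cj g y') y := by
    intro y hy y' hy' g hg
    have h1 := hcm _ (hYY y hy y' hy') _
      (hnorm y (Subgroup.subset_closure hy) _ (hnorm y' (Subgroup.subset_closure hy') g hg))
    simp only [cj] at h1 ⊢
    have h2 : y'⁻¹ * (y⁻¹ * g * y) * y' =
        (y⁻¹ * (y'⁻¹ * y * y'))⁻¹ * (y⁻¹ * (y'⁻¹ * g * y') * y * (y⁻¹ * (y'⁻¹ * y * y'))) := by
      group
    rw [h2, ← h1]
    group
  have hinv : ∀ y y' : Subgroup.closure Y, (∀ g ∈ U, cj (cj g y) y' = cj (cj g y') y) →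
      ∀ g ∈ U, cj (cj g (y : G)⁻¹) y' = cj (cj g y') (y : G)⁻¹ := by
    intro y y' h g hg
    have h1 := h _ (hnorm _ (Subgroup.inv_mem _ y.2) g hg)
    have h2 : cj (cj g (y : G)⁻¹) y = g := by simp only [cj]; group
    rw [h2] at h1
    rw [h1]
    simp only [cj]
    group
  have hcomm : ∀ y ∈ Y', ∀ y' ∈ Y', ∀ g ∈ U, cj (cj g y) y' = cj (cj g y') y := by
    have h1 : ∀ y ∈ Y', ∀ y' : Subgroup.closure Y, (y' : G) ∈ Y →
        ∀ g ∈ U, cj (cj g y) y' = cj (cj g y') y := by
      intro y hy y' hy'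
      rcases hy with hy | hy
      · exact hbase _ hy _ hy'
      · have h2 := hinv y⁻¹ y' (hbase _ hy _ hy')
        simpa using h2
    intro y hy y' hy' g hg
    rcases hy' with hy' | hy'
    · exact h1 y hy y' hy' g hg
    · have h2 := hinv y'⁻¹ y (fun g hg => (h1 y hy y'⁻¹ hy' g hg).symm) g hg
      simpa using h2.symm
  have hAU : ∀ a ∈ A, a ∈ U := fun a ha => by
    rw [hU]
    exact Subgroup.subset_closure ⟨a, ha, 1, Subgroup.one_mem _, by simp [cj]⟩
  obtain ⟨T, hT, hTN, hW⟩ := Noex.core (φ '' Y') (hY'.image φ) (by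
      rintro _ ⟨y, hy, rfl⟩ _ ⟨y', hy', rfl⟩
      refine LinearMap.ext fun g => ?_
      exact congrArg Additive.ofMul (Subtype.ext (hcomm y' hy' y hy g.toMul g.toMul.2)))
    {g | (g.toMul : G) ∈ A} (by
      apply Set.Finite.of_finite_image (f := fun g : Additive U => (g.toMul : G))
        (hA.subset (by rintro _ ⟨g, hg, rfl⟩; exact hg))
      exact fun a _ b _ h => congrArg Additive.ofMul (Subtype.ext h)) (by
      intro W hAW hW
      have h1 : ∀ u (hu : u ∈ Subgroup.closure Y), ∀ m ∈ W, φ ⟨u, hu⟩ m ∈ W := by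
        intro u hu
        induction hu using Subgroup.closure_induction'' with
        | one =>
          intro m hm
          have h2 : φ ⟨1, Subgroup.one_mem _⟩ m = m :=
            congrArg Additive.ofMul (Subtype.ext (by
              change cj (m.toMul : G) 1 = (m.toMul : G)
              simp only [cj, inv_one, one_mul, mul_one]))
          rwa [h2]
        | mem y hy => exact hW _ ⟨_, Or.inl hy, rfl⟩
        | inv_mem y hy => exact hW _ ⟨_, Or.inr (by simpa using hy), rfl⟩
        | mul a b ha hb h2 h3 =>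
          intro m hm
          have h4 : φ ⟨a * b, Subgroup.mul_mem _ ha hb⟩ m = φ ⟨b, hb⟩ (φ ⟨a, ha⟩ m) :=
            congrArg Additive.ofMul (Subtype.ext (by
              change cj (m.toMul : G) (a * b) = cj (cj (m.toMul : G) a) b
              simp only [cj]
              group))
          rw [h4]
          exact h3 _ (h2 m hm)
      have h2 : ∀ g (hg : g ∈ Subgroup.closure
          {g | ∃ a ∈ A, ∃ u ∈ Subgroup.closure Y, g = cj a u}),
          Additive.ofMul (⟨g, hU ▸ hg⟩ : U) ∈ W := by
        intro g hg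
        induction hg using Subgroup.closure_induction with
        | mem g hg =>
          obtain ⟨a, ha, u, hu, rfl⟩ := hg
          exact h1 u hu (Additive.ofMul ⟨a, hAU a ha⟩) (hAW ha)
        | one => exact W.zero_mem
        | mul a b _ _ h3 h4 => exact W.add_mem h3 h4
        | inv a _ h3 => exact W.neg_mem h3
      rw [eq_top_iff]
      intro m _
      exact h2 m.toMul (hU ▸ m.toMul.2))
    (N.subgroupOf U).toAddSubgroup (by
      rintro _ ⟨y, -, rfl⟩ m hm
      have h1 := hN.conj_mem _ hm (y : G)⁻¹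
      rw [inv_inv] at h1
      exact h1)
  refine ⟨(fun g : Additive U => (g.toMul : G)) '' T, hT.image _, le_antisymm ?_ ?_⟩
  · refine Subgroup.normalClosure_le_normal ?_
    rintro _ ⟨g, hg, rfl⟩
    exact hTN hg
  · intro g hg
    exact hW ((Subgroup.normalClosure ((fun g : Additive U => (g.toMul : G)) '' T)).subgroupOf
      U).toAddSubgroup (fun t ht => Subgroup.subset_normalClosure ⟨t, ht, rfl⟩) (by
        rintro _ ⟨y, -, rfl⟩ m hm
        have h1 := Subgroup.normalClosure_normal.conj_mem _ hm (y : G)⁻¹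
        rw [inv_inv] at h1
        exact h1) (x := Additive.ofMul ⟨g, hNU hg⟩) hg

end Pool.Agent.Lib.MP_94a9ea_al.H25
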