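import Mathlib
import Pool.Agent.Lib.MP_94a9ea_al.H25.FSt

/-! Finitely many relations give all commutation relations. -/

set_option autoImplicit false

namespace Pool.Agent.Lib.MP_94a9ea_al.H25

namespace PKx

theorem map_cj {F Q : Type} [Group F] [Group Q] (f : F →* Q) (a w : F) :
    f (cj a w) = cj (f a) (f w) := by
  simp [cj]

theorem comm_iff {F : Type} [Group F] (K : Subgroup F) [K.Normal] (g h : F) :
    Commute (QuotientGroup.mk' K g) (QuotientGroup.mk' K h) ↔ g * h * g⁻¹ * h⁻¹ ∈ K := by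
  rw [← commutatorElement_eq_one_iff_commute, ← map_commutatorElement, commutatorElement_def,
    QuotientGroup.mk'_apply, QuotientGroup.eq_one_iff]

theorem ys_cons {F : Type} (x s : F) (l : List (F × F)) :
    Ys ((x, s) :: l) = Ys l ∪ {x, s} := by
  ext y
  simp only [Ys, List.mem_cons, Set.mem_ofPred_eq, Set.mem_union, Set.mem_insert_iff,
    Set.mem_singleton_iff]
  constructor
  · rintro ⟨p, rfl | hp, h⟩
    · exact Or.inr h
    · exact Or.inl ⟨p, hp, h⟩
  · rintro (⟨p, hp, h⟩ | h)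
    · exact ⟨p, Or.inr hp, h⟩
    · exact ⟨(x, s), Or.inl rfl, h⟩

theorem ys_nil {F : Type} : Ys ([] : List (F × F)) = ∅ := by
  ext y
  simp [Ys]

theorem ys_fin {F : Type} (l : List (F × F)) : (Ys l).Finite := by
  induction l with
  | nil => rw [ys_nil]; exact Set.finite_empty
  | cons p l ih =>
    obtain ⟨x, s⟩ := p
    rw [ys_cons]
    exact ih.union (Set.toFinite _)

theorem cj_mem {F : Type} [Group F] (B : Subgroup F) [hB : B.Normal] {a : F} (ha : a ∈ B) (w : F) :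
    cj a w ∈ B := by
  have h := hB.conj_mem a ha w⁻¹
  rwa [inv_inv] at h

end PKx

open PKx in
theorem pk_st (h : BSSt) : PKSt := by
  intro F _ N B _ _ hB l
  induction l with
  | nil =>
    intro _ _ A hA hAB
    refine ⟨Set.image2 (fun a b => a * b * a⁻¹ * b⁻¹) A A, hA.image2 _ hA, ?_, ?_⟩
    · rintro _ ⟨a, ha, b, hb, rfl⟩
      exact hB a (hAB ha) b (hAB hb)
    · intro a ha b hb u hu v hv
      rw [ys_nil, Subgroup.closure_empty, Subgroup.mem_bot] at hu hv
      subst hu hv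
      simp only [cj, inv_one, one_mul, mul_one]
      exact Subgroup.subset_normalClosure ⟨a, ha, b, hb, rfl⟩
  | cons p l ih =>
    obtain ⟨x, s⟩ := p
    intro h1 h2 A hA hAB
    rw [ys_cons] at h1 ⊢
    have hsub : Subgroup.closure (Ys l) ≤ Subgroup.closure (Ys l ∪ {x, s}) :=
      Subgroup.closure_mono Set.subset_union_left
    have hx : x ∈ Subgroup.closure (Ys l ∪ {x, s}) := Subgroup.subset_closure (by simp)
    have hs : s ∈ Subgroup.closure (Ys l ∪ {x, s}) := Subgroup.subset_closure (by simp)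
    obtain ⟨A1, hA1⟩ : ∃ A1 : Set F, A1 = (A ∪ Set.image2 (fun y w => y⁻¹ * cj y w) (Ys l)
      ({x, x⁻¹, s} : Set F)) ∪ {x⁻¹ * cj x s} := ⟨_, rfl⟩
    have f1 : A1.Finite := by
      rw [hA1]
      exact (hA.union ((ys_fin l).image2 _ (Set.toFinite _))).union (Set.finite_singleton _)
    have b1 : A1 ⊆ B := by
      rw [hA1]
      rintro z ((hz | ⟨y, hy, w, hw, rfl⟩) | hz)
      · exact hAB hz
      · refine h1 y (hsub (Subgroup.subset_closure hy)) w ?_
        rcases hw with rfl | rfl | rfl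
        · exact hx
        · exact Subgroup.inv_mem _ hx
        · exact hs
      · rw [Set.mem_singleton_iff.1 hz]
        exact h1 x hx s hs
    obtain ⟨R0, r1, r2, r3⟩ := ih (fun y hy y' hy' => h1 y (hsub hy) y' (hsub hy'))
      (fun p hp => h2 p (List.mem_cons_of_mem _ hp))
      (Set.image2 cj A1 ({1, x, x⁻¹, s} : Set F)) (f1.image2 _ (Set.toFinite _))
      (by
        rintro _ ⟨a, ha, w, -, rfl⟩
        exact cj_mem B (b1 ha) w)
    obtain ⟨R, hR⟩ : ∃ R : Set F, R = R0 ∪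
      (fun a => (cj a s)⁻¹ * (cj a x * a⁻¹ * cj a x⁻¹)) '' A1 := ⟨_, rfl⟩
    refine ⟨R, by rw [hR]; exact r1.union (f1.image _), ?_, ?_⟩
    · rw [hR]
      rintro z (hz | ⟨a, ha, rfl⟩)
      · exact r2 hz
      · exact h2 (x, s) List.mem_cons_self a (b1 ha)
    have hR0 : Subgroup.normalClosure R0 ≤ Subgroup.normalClosure R :=
      Subgroup.normalClosure_mono (by rw [hR]; exact Set.subset_union_left)
    obtain ⟨π, hπ⟩ : ∃ π : F →* F ⧸ Subgroup.normalClosure R,
      π = QuotientGroup.mk' (Subgroup.normalClosure R) := ⟨_, rfl⟩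
    have hc : ∀ g k : F, Commute (π g) (π k) ↔ g * k * g⁻¹ * k⁻¹ ∈ Subgroup.normalClosure R := by
      rw [hπ]; exact comm_iff _
    have hw : ∀ w ∈ ({1, π x, (π x)⁻¹, π s} : Set (F ⧸ Subgroup.normalClosure R)),
        ∃ w0 ∈ ({1, x, x⁻¹, s} : Set F), π w0 = w := by
      rintro w (rfl | rfl | rfl | rfl)
      · exact ⟨1, by simp, map_one π⟩
      · exact ⟨x, by simp, rfl⟩
      · exact ⟨x⁻¹, by simp, map_inv π x⟩
      · exact ⟨s, by simp, rfl⟩
    have key := h (F ⧸ Subgroup.normalClosure R) (π '' Ys l) (π '' A1) (π x) (π s)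
      (by
        rintro _ ⟨a, ha, rfl⟩ _ ⟨b, hb, rfl⟩ w hw1 w' hw2 u hu v hv
        obtain ⟨w0, m1, rfl⟩ := hw w hw1
        obtain ⟨w1, m2, rfl⟩ := hw w' hw2
        rw [← MonoidHom.map_closure] at hu hv
        obtain ⟨u0, hu0, rfl⟩ := hu
        obtain ⟨v0, hv0, rfl⟩ := hv
        rw [← map_cj, ← map_cj, ← map_cj, ← map_cj, hc]
        exact hR0 (r3 _ ⟨a, ha, w0, m1, rfl⟩ _ ⟨b, hb, w1, m2, rfl⟩ u0 hu0 v0 hv0))
      (by
        rintro _ ⟨y, hy, rfl⟩ w hw1
        have h3 : ∃ w0 ∈ ({x, x⁻¹, s} : Set F), π w0 = w := by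
          rcases hw1 with rfl | rfl | rfl
          · exact ⟨x, by simp, rfl⟩
          · exact ⟨x⁻¹, by simp, map_inv π x⟩
          · exact ⟨s, by simp, rfl⟩
        obtain ⟨w0, m1, rfl⟩ := h3
        refine ⟨y⁻¹ * cj y w0, ?_, by rw [map_mul, map_inv, map_cj]⟩
        rw [hA1]
        exact Or.inl (Or.inr ⟨y, hy, w0, m1, rfl⟩))
      ⟨x⁻¹ * cj x s, by rw [hA1]; exact Or.inr rfl, by rw [map_mul, map_inv, map_cj]⟩
      (by
        rintro _ ⟨a, ha, rfl⟩
        have h3 : π ((cj a s)⁻¹ * (cj a x * a⁻¹ * cj a x⁻¹)) = 1 := by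
          rw [hπ, QuotientGroup.mk'_apply, QuotientGroup.eq_one_iff]
          exact Subgroup.subset_normalClosure (by rw [hR]; exact Or.inr ⟨a, ha, rfl⟩)
        rw [map_mul, map_inv, inv_mul_eq_one, map_mul, map_mul, map_inv, map_cj, map_cj, map_cj,
          map_inv] at h3
        exact h3)
    intro a ha b hb u hu v hv
    have himg : π '' Ys l ∪ {π x, π s} = π '' (Ys l ∪ {x, s}) := by
      rw [Set.image_union, Set.image_pair]
    rw [himg, ← MonoidHom.map_closure] at key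
    have hAA : A ⊆ A1 := by
      rw [hA1]
      exact fun z hz => Or.inl (Or.inl hz)
    rw [← hc, map_cj, map_cj]
    exact key _ ⟨a, hAA ha, rfl⟩ _ ⟨b, hAA hb, rfl⟩ _ ⟨u, hu, rfl⟩ _ ⟨v, hv, rfl⟩

end Pool.Agent.Lib.MP_94a9ea_al.H25
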