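import Pool.Agent.Lib.MP_94a9ea_al.H25.St

/-! A quasimorphism of a solvable group is at bounded distance from a homomorphism. -/

set_option autoImplicit false

open scoped commutatorElement

namespace Pool.Agent.Lib.MP_94a9ea_al.H25

namespace Qmx

theorem zero_of_bdd {a C : ℝ} (h : ∀ n : ℕ, 1 ≤ n → |(n : ℝ) * a| ≤ C) : a = 0 := by
  by_contra hne
  have hp : 0 < |a| := abs_pos.2 hne
  obtain ⟨n, hn⟩ := exists_nat_gt (C / |a|)
  have h1 := h (n + 1) (by omega)
  rw [abs_mul, abs_of_nonneg (Nat.cast_nonneg _)] at h1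
  rw [div_lt_iff₀ hp] at hn
  push_cast at h1
  nlinarith

variable {G : Type} [Group G]

theorem pow_bd {f : G → ℝ} {D : ℝ} (h : ∀ x y, |f (x * y) - f x - f y| ≤ D) (x : G) (m : ℕ) :
    |f (x ^ (m + 1)) - ((m : ℝ) + 1) * f x| ≤ m * D := by
  induction m with
  | zero => simp
  | succ m ih =>
    have h1 := h (x ^ (m + 1)) x
    rw [← pow_succ] at h1
    rw [abs_le] at h1 ih ⊢
    push_cast
    constructor <;> linarith [h1.1, h1.2, ih.1, ih.2]

theorem exists_rho {f : G → ℝ} {D : ℝ} (h : ∀ x y, |f (x * y) - f x - f y| ≤ D) (x : G) :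
    ∃ r : ℝ, ∀ n : ℕ, 1 ≤ n → |f (x ^ n) - (n : ℝ) * r| ≤ D := by
  have hD : 0 ≤ D := (abs_nonneg _).trans (h 1 1)
  obtain ⟨r, h1, h2⟩ := exists_between_of_forall_le
    (s := Set.range fun n : ℕ => (f (x ^ (n + 1)) - D) / ((n : ℝ) + 1))
    (t := Set.range fun n : ℕ => (f (x ^ (n + 1)) + D) / ((n : ℝ) + 1))
    (Set.range_nonempty _) (Set.range_nonempty _) (by
      rintro _ ⟨n, rfl⟩ _ ⟨m, rfl⟩
      have a1 := pow_bd h (x ^ (n + 1)) m
      have a2 := pow_bd h (x ^ (m + 1)) n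
      rw [← pow_mul] at a1 a2
      rw [mul_comm (m + 1) (n + 1)] at a2
      rw [abs_le] at a1 a2
      dsimp only
      rw [div_le_div_iff₀ (by positivity) (by positivity)]
      linarith [a1.1, a2.2])
  refine ⟨r, fun n hn => ?_⟩
  obtain ⟨k, rfl⟩ : ∃ k, n = k + 1 := ⟨n - 1, by omega⟩
  have b1 := h1 ⟨k, rfl⟩
  have b2 := h2 ⟨k, rfl⟩
  dsimp only at b1 b2
  rw [div_le_iff₀ (by positivity)] at b1
  rw [le_div_iff₀ (by positivity)] at b2
  rw [abs_le]
  push_cast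
  constructor <;> linarith

section
variable {ρ : G → ℝ} {E : ℝ} (h : ∀ x y, |ρ (x * y) - ρ x - ρ y| ≤ E)
  (hp : ∀ x (m : ℕ), ρ (x ^ m) = m * ρ x)
include h hp

theorem rho_inv (x : G) : ρ x⁻¹ = -ρ x := by
  have h1 : ρ 1 = 0 := by simpa using hp 1 0
  have : ρ x + ρ x⁻¹ = 0 := zero_of_bdd (C := E) fun n _ => by
    have := h (x ^ n) (x⁻¹ ^ n)
    rw [hp, hp, inv_pow, mul_inv_cancel, h1, abs_le] at this
    rw [abs_le]
    constructor <;> linarith [this.1, this.2]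
  linarith

theorem rho_conj (g x : G) : ρ (g * x * g⁻¹) = ρ x := by
  have : ρ (g * x * g⁻¹) - ρ x = 0 := zero_of_bdd (C := 2 * E) fun n _ => by
    have a1 := h (g * x ^ n) g⁻¹
    have a2 := h g (x ^ n)
    rw [← conj_pow, hp, rho_inv h hp, abs_le] at a1
    rw [hp, abs_le] at a2
    rw [abs_le]
    constructor <;> linarith [a1.1, a1.2, a2.1, a2.2]
  linarith

theorem step (S : Subgroup G) [S.Normal]
    (ih : ∀ x ∈ ⁅S, S⁆, ∀ y ∈ ⁅S, S⁆, ρ (x * y) = ρ x + ρ y) :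
    ∀ x ∈ S, ∀ y ∈ S, ρ (x * y) = ρ x + ρ y := by
  have h1 : ρ 1 = 0 := by simpa using hp 1 0
  have hN : (⁅S, S⁆ : Subgroup G).Normal := inferInstance
  have c1 : ∀ x ∈ S, ∀ y ∈ S, ∀ n : ℕ, ρ ⁅x ^ n, y⁆ = n * ρ ⁅x, y⁆ := by
    intro x hx y hy n
    induction n with
    | zero => simp [h1]
    | succ n hn =>
      have e : ⁅x ^ (n + 1), y⁆ = x * ⁅x ^ n, y⁆ * x⁻¹ * ⁅x, y⁆ := by
        simp only [commutatorElement_def]
        group
      rw [e, ih _ (hN.conj_mem _ (Subgroup.commutator_mem_commutator (S.pow_mem hx n) hy) x) _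
        (Subgroup.commutator_mem_commutator hx hy), rho_conj h hp, hn]
      push_cast; ring
  have c2 : ∀ x y : G, |ρ ⁅x, y⁆| ≤ E := by
    intro x y
    have e : ⁅x, y⁆ = x * (y * x⁻¹ * y⁻¹) := by
      simp only [commutatorElement_def]
      group
    have := h x (y * x⁻¹ * y⁻¹)
    rw [← e, rho_conj h hp, rho_inv h hp] at this
    simpa using this
  have c3 : ∀ x ∈ S, ∀ y ∈ S, ρ ⁅x, y⁆ = 0 := fun x hx y hy =>
    zero_of_bdd (C := E) fun n _ => by rw [← c1 x hx y hy]; exact c2 _ _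
  have c4 : ∀ k ∈ (⁅S, S⁆ : Subgroup G), ρ k = 0 := by
    intro k hk
    rw [Subgroup.commutator_def] at hk
    induction hk using Subgroup.closure_induction with
    | mem k hk =>
      obtain ⟨x, hx, y, hy, rfl⟩ := hk
      exact c3 x hx y hy
    | one => exact h1
    | mul a b ha hb h2 h3 => rw [ih a ha b hb, h2, h3, add_zero]
    | inv a _ h2 => rw [rho_inv h hp, h2, neg_zero]
  intro x hx y hy
  have hc : Commute (QuotientGroup.mk' ⁅S, S⁆ x) (QuotientGroup.mk' ⁅S, S⁆ y) := by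
    rw [← commutatorElement_eq_one_iff_commute, ← map_commutatorElement]
    exact (QuotientGroup.eq_one_iff _).2 (Subgroup.commutator_mem_commutator hx hy)
  have : ρ (x * y) - ρ x - ρ y = 0 := zero_of_bdd (C := 2 * E) fun n _ => by
    have hk : (x ^ n * y ^ n)⁻¹ * (x * y) ^ n ∈ (⁅S, S⁆ : Subgroup G) := by
      refine QuotientGroup.eq.1 ?_
      show QuotientGroup.mk' ⁅S, S⁆ (x ^ n * y ^ n) = QuotientGroup.mk' ⁅S, S⁆ ((x * y) ^ n)
      rw [map_mul, map_pow, map_pow, map_pow, map_mul, hc.mul_pow]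
    have a1 := h (x ^ n * y ^ n) ((x ^ n * y ^ n)⁻¹ * (x * y) ^ n)
    have a2 := h (x ^ n) (y ^ n)
    rw [c4 _ hk, mul_inv_cancel_left, hp, abs_le] at a1
    rw [hp, hp, abs_le] at a2
    rw [abs_le]
    constructor <;> linarith [a1.1, a1.2, a2.1, a2.2]
  linarith

theorem all (n : ℕ)
    (hn : ∀ x ∈ derivedSeries G n, ∀ y ∈ derivedSeries G n, ρ (x * y) = ρ x + ρ y) (x y : G) :
    ρ (x * y) = ρ x + ρ y := by
  induction n with
  | zero => exact hn x (Subgroup.mem_top x) y (Subgroup.mem_top y)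
  | succ n ih =>
    haveI := derivedSeries_normal G n
    exact ih (step h hp (derivedSeries G n) hn)

end

end Qmx

theorem qm_st : QmSt := by
  intro n G _ hn f D h
  choose ρ hρ using Qmx.exists_rho h
  have h1 : ∀ x, |ρ x - f x| ≤ D := fun x => by
    have := hρ x 1 le_rfl
    rw [abs_sub_comm]
    simpa using this
  have h2 : ∀ x (m : ℕ), 1 ≤ m → ρ (x ^ m) = m * ρ x := by
    intro x m hm
    have : ρ (x ^ m) - m * ρ x = 0 := Qmx.zero_of_bdd (C := 2 * D) fun k hk => by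
      have a1 := hρ (x ^ m) k hk
      have a2 := hρ x (m * k) (Nat.mul_pos hm hk)
      rw [← pow_mul, abs_le] at a1
      rw [abs_le] at a2 ⊢
      push_cast at a2
      constructor <;> linarith [a1.1, a1.2, a2.1, a2.2]
    linarith
  have h3 : ρ 1 = 0 := by
    have := h2 1 2 (by norm_num)
    rw [one_pow] at this
    push_cast at this
    linarith
  have h4 : ∀ x (m : ℕ), ρ (x ^ m) = m * ρ x := by
    intro x m
    rcases Nat.eq_zero_or_pos m with rfl | hm
    · simpa using h3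
    · exact h2 x m hm
  have h5 : ∀ x y, |ρ (x * y) - ρ x - ρ y| ≤ 4 * D := by
    intro x y
    have a1 := h1 (x * y)
    have a2 := h1 x
    have a3 := h1 y
    have a4 := h x y
    rw [abs_le] at a1 a2 a3 a4 ⊢
    constructor <;> linarith [a1.1, a1.2, a2.1, a2.2, a3.1, a3.2, a4.1, a4.2]
  refine ⟨ρ, Qmx.all h5 h4 n ?_, h1⟩
  intro x hx y hy
  rw [hn, Subgroup.mem_bot] at hx hy
  rw [hx, hy, mul_one, h3, add_zero]

end Pool.Agent.Lib.MP_94a9ea_al.H25
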