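import Mathlib

/-! Statements of the five steps for the solvable R* group that is not right orderable. -/

set_option autoImplicit false

namespace Pool.Agent.Lib.MP_94a9ea_al.H25

/-- `(s, a)` is a homomorphism to the infinite dihedral group: `g` acts by `y ↦ s g * y + a g`. -/
def Coc {W : Type} [Group W] (s : W →* ℤˣ) (a : W → ℤ) : Prop :=
  ∀ g h, a (g * h) = a g + (s g : ℤ) * a h

/-- A quasimorphism of a solvable group is at bounded distance from a homomorphism. -/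
def QmSt : Prop :=
  ∀ (n : ℕ) (G : Type) [Group G], derivedSeries G n = ⊥ → ∀ (f : G → ℝ) (D : ℝ),
    (∀ x y, |f (x * y) - f x - f y| ≤ D) →
    ∃ ρ : G → ℝ, (∀ x y, ρ (x * y) = ρ x + ρ y) ∧ ∀ x, |ρ x - f x| ≤ D

/-- A finitely generated solvable group with a nontrivial left invariant total preorder has a
nonzero homomorphism to the reals. -/
def OrdSt : Prop :=
  ∀ (n : ℕ) (G : Type) [Group G] [Group.FG G], derivedSeries G n = ⊥ →
    ∀ r : G → G → Prop, (∀ x y, r x y ∨ r y x) → (∀ x y z, r x y → r y z → r x z) →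
      (∀ c x y, r x y → r (c * x) (c * y)) → (∃ g, ¬ r g 1) →
      ∃ φ : G → ℝ, (∀ x y, φ (x * y) = φ x + φ y) ∧ ∃ g, φ g ≠ 0

/-- Finiteness facts for subgroups of a finite power of the infinite dihedral group. -/
def OreSt : Prop :=
  ∀ (W : Type) [Group W] (ι : Type) [Fintype ι] (s : ι → W →* ℤˣ) (a : ι → W → ℤ),
    (∀ i, Coc (s i) (a i)) → (∀ g, (∀ i, s i g = 1 ∧ a i g = 0) → g = 1) →
    Group.FG W ∧ IsNoetherianRing (MonoidAlgebra ℤ W) ∧
      ∀ c : MonoidAlgebra ℤ W, (∀ y, y * c = 0 → y = 0) → ∀ y : MonoidAlgebra ℤ W,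
        ∃ z y' : MonoidAlgebra ℤ W, z ≠ 0 ∧ (∀ g ∈ z.coeff.support, ∀ i, s i g = 1) ∧
          y' * c = z * y

/-- The integral group ring of a subgroup without involutions of a finite power of the infinite
dihedral group has no zero divisors. -/
def DomSt : Prop :=
  ∀ (W : Type) [Group W] (ι : Type) [Fintype ι] (s : ι → W →* ℤˣ) (a : ι → W → ℤ),
    (∀ i, Coc (s i) (a i)) → (∀ g, (∀ i, s i g = 1 ∧ a i g = 0) → g = 1) →
    (∀ g : W, g * g = 1 → g = 1) → NoZeroDivisors (MonoidAlgebra ℤ W)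

/-- What is needed of the top group. -/
def Top (Q : Type) [Group Q] (n : ℕ) : Prop :=
  Group.FG Q ∧ IsNoetherianRing (MonoidAlgebra ℤ Q) ∧ Nontrivial Q ∧ 0 < n ∧
    (∀ q : Q, q ^ n ∈ commutator Q) ∧ derivedSeries Q 2 = ⊥ ∧
    NoZeroDivisors (MonoidAlgebra ℤ Q) ∧
    ∀ q : Q, q ≠ 1 → ∃ (W : Type) (_ : Group W) (p : Q →* W) (s : W →* ℤˣ) (a : Q → ℤ),
      NoZeroDivisors (MonoidAlgebra ℤ W) ∧ p q = 1 ∧ Coc (s.comp p) a ∧ a q ≠ 0

/-- The top group exists. -/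
def TopSt : Prop := ∃ (Q : Type) (_ : Group Q) (n : ℕ), Top Q n

/-- From the top group to the example. -/
def AbsSt : Prop :=
  ∀ (Q : Type) [Group Q] (n : ℕ), Top Q n →
    ∃ (G : Type) (_ : Group G), Group.FG G ∧ derivedSeries G 3 = ⊥ ∧ Nontrivial G ∧
      (∀ g : G, g ≠ 1 → ∀ l : List G, l ≠ [] → (l.map (fun h => h⁻¹ * g * h)).prod ≠ 1) ∧
      ∀ φ : G → ℝ, (∀ x y, φ (x * y) = φ x + φ y) → ∀ g, φ g = 0

theorem final (hO : OrdSt) (hT : TopSt) (hA : AbsSt) :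
    ∃ (G : Type) (_ : Group G), Group.FG G ∧ derivedSeries G 3 = ⊥ ∧
      (∀ g : G, g ≠ 1 → ∀ l : List G, l ≠ [] → (l.map (fun h => h⁻¹ * g * h)).prod ≠ 1) ∧
      ¬ ∃ o : LinearOrder G, ∀ a b c : G, o.le a b → o.le (a * c) (b * c) := by
  obtain ⟨Q, _, n, hQ⟩ := hT
  obtain ⟨G, _, hfg, hd, hnt, hR, hφ⟩ := hA Q n hQ
  refine ⟨G, inferInstance, hfg, hd, hR, ?_⟩
  rintro ⟨o, ho⟩
  letI := o
  have ho' : ∀ a b c : G, a ≤ b → a * c ≤ b * c := ho
  obtain ⟨φ, h1, g, h2⟩ := hO 3 G hd (fun x y => x⁻¹ ≤ y⁻¹) (fun x y => le_total _ _)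
    (fun x y z => le_trans) (fun c x y h => by simpa [mul_inv_rev] using ho' _ _ c⁻¹ h) (by
      obtain ⟨g, hg⟩ := exists_ne (1 : G)
      by_contra hcon
      push Not at hcon
      have h1 : g⁻¹ ≤ 1 := by simpa using hcon g
      have h2 : g ≤ 1 := by simpa using hcon g⁻¹
      have h3 : (1 : G) ≤ g := by simpa using ho' _ _ g h1
      exact hg (le_antisymm h2 h3))
  exact h2 (hφ φ h1 g)

end Pool.Agent.Lib.MP_94a9ea_al.H25
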