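import Mathlib
import Pool.Agent.Lib.MP_94a9ea_al.H25.PSt

/-! Two generators modulo `H` pass to subgroups when the quotient is abelian. -/

set_option autoImplicit false

namespace Pool.Agent.Lib.MP_94a9ea_al.H25

/-- A subgroup of an abelian group on two generators has two generators. -/
theorem sub_two_gen {Q : Type} [CommGroup Q] (a b : Q) (M : Subgroup Q) :
    ∃ u ∈ M, ∃ v ∈ M, ∀ i j : ℤ, a ^ i * b ^ j ∈ M → ∃ n k : ℤ, a ^ i * b ^ j = u ^ n * v ^ k := by
  let L1 : AddSubgroup ℤ :=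
    { carrier := {i | ∃ j : ℤ, a ^ i * b ^ j ∈ M}
      zero_mem' := ⟨0, by simp⟩
      add_mem' := by
        rintro i i' ⟨j, hj⟩ ⟨j', hj'⟩
        refine ⟨j + j', ?_⟩
        have h := M.mul_mem hj hj'
        rw [mul_mul_mul_comm, ← zpow_add, ← zpow_add] at h
        exact h
      neg_mem' := by
        rintro i ⟨j, hj⟩
        refine ⟨-j, ?_⟩
        have h := M.inv_mem hj
        rw [mul_inv, ← zpow_neg, ← zpow_neg] at h
        exact h }
  let L2 : AddSubgroup ℤ :=
    { carrier := {j | b ^ j ∈ M}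
      zero_mem' := by simp
      add_mem' := by
        intro j j' hj hj'
        have h := M.mul_mem hj hj'
        rw [← zpow_add] at h
        exact h
      neg_mem' := by
        intro j hj
        have h := M.inv_mem hj
        rw [← zpow_neg] at h
        exact h }
  obtain ⟨i0, hi0⟩ := Int.subgroup_cyclic L1
  obtain ⟨j1, hj1⟩ := Int.subgroup_cyclic L2
  have m1 : i0 ∈ L1 := by rw [hi0]; exact AddSubgroup.mem_closure_singleton_self i0
  have m2 : j1 ∈ L2 := by rw [hj1]; exact AddSubgroup.mem_closure_singleton_self j1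
  obtain ⟨j0, hj0⟩ := m1
  refine ⟨a ^ i0 * b ^ j0, hj0, b ^ j1, m2, fun i j hij => ?_⟩
  have h1 : i ∈ L1 := ⟨j, hij⟩
  rw [hi0, AddSubgroup.mem_closure_singleton] at h1
  obtain ⟨n, hn⟩ := h1
  have hn' : i0 * n = i := by rw [← hn, smul_eq_mul, mul_comm]
  have e1 : a ^ i * b ^ j = (a ^ i0 * b ^ j0) ^ n * b ^ (j - j0 * n) := by
    rw [mul_zpow, ← zpow_mul, ← zpow_mul, hn', mul_assoc, ← zpow_add]
    congr 2
    ring
  have h2 : (j - j0 * n) ∈ L2 := by
    have h3 : (a ^ i0 * b ^ j0) ^ n ∈ M := M.zpow_mem hj0 n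
    rw [e1] at hij
    exact (M.mul_mem_cancel_left h3).mp hij
  rw [hj1, AddSubgroup.mem_closure_singleton] at h2
  obtain ⟨k, hk⟩ := h2
  have hk' : j1 * k = j - j0 * n := by rw [← hk, smul_eq_mul, mul_comm]
  exact ⟨n, k, by rw [e1, ← zpow_mul b j1 k, hk']⟩

/-- The statement for a homomorphism to an abelian group with kernel `H`. -/
theorem sub_hom {G Q : Type} [Group G] [CommGroup Q] (f : G →* Q) (s t : G)
    (h : Subgroup.closure {s, t} ⊔ f.ker = ⊤) (K : Subgroup G) :
    ∃ s' t' : K, Subgroup.closure {s', t'} ⊔ f.ker.subgroupOf K = ⊤ := by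
  have hall : ∀ g : G, ∃ i j : ℤ, f g = f s ^ i * f t ^ j := by
    intro g
    have hle : Subgroup.closure {s, t} ⊔ f.ker ≤ (Subgroup.closure {f s, f t}).comap f := by
      refine sup_le ?_ ?_
      · rw [Subgroup.closure_le]
        rintro x (rfl | rfl)
        · exact Subgroup.subset_closure (by simp)
        · exact Subgroup.subset_closure (by simp)
      · intro x hx
        rw [Subgroup.mem_comap, MonoidHom.mem_ker.mp hx]
        exact Subgroup.one_mem _
    have hg : f g ∈ Subgroup.closure {f s, f t} := hle (h ▸ Subgroup.mem_top g)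
    obtain ⟨i, j, hij⟩ := Subgroup.mem_closure_pair.mp hg
    exact ⟨i, j, hij.symm⟩
  obtain ⟨u, ⟨s', hs', rfl⟩, v, ⟨t', ht', rfl⟩, huv⟩ := sub_two_gen (f s) (f t) (K.map f)
  refine ⟨⟨s', hs'⟩, ⟨t', ht'⟩, ?_⟩
  rw [eq_top_iff]
  intro x _
  obtain ⟨i, j, hij⟩ := hall x
  obtain ⟨n, k, hnk⟩ := huv i j (hij ▸ Subgroup.mem_map_of_mem f x.2)
  let w : K := (⟨s', hs'⟩ : K) ^ n * (⟨t', ht'⟩ : K) ^ k
  have hw : w ∈ Subgroup.closure ({⟨s', hs'⟩, ⟨t', ht'⟩} : Set K) :=
    Subgroup.mul_mem _ (Subgroup.zpow_mem _ (Subgroup.subset_closure (by simp)) n)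
      (Subgroup.zpow_mem _ (Subgroup.subset_closure (by simp)) k)
  have hfw : f (w : G) = f x := by
    rw [hij, hnk]
    simp [w]
  have hk : w⁻¹ * x ∈ f.ker.subgroupOf K := by
    rw [Subgroup.mem_subgroupOf, MonoidHom.mem_ker]
    simp only [Subgroup.coe_mul, Subgroup.coe_inv, map_mul, map_inv]
    rw [hfw, inv_mul_cancel]
  have hx : x = w * (w⁻¹ * x) := by group
  rw [hx]
  exact Subgroup.mul_mem _ (Subgroup.mem_sup_left hw) (Subgroup.mem_sup_right hk)

theorem sub_st : SubSt := by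
  intro G _ H hH s t hst K
  have : H.Normal := Subgroup.Normal.of_commutator_le G hH
  have hc : IsMulCommutative (G ⧸ H) :=
    Subgroup.Normal.quotient_commutative_iff_commutator_le.mpr hH
  let _ : CommGroup (G ⧸ H) :=
    { (inferInstance : Group (G ⧸ H)) with mul_comm := fun x y => hc.is_comm.comm x y }
  have hk : (QuotientGroup.mk' H).ker = H := QuotientGroup.ker_mk' H
  have h := sub_hom (QuotientGroup.mk' H) s t (by rw [hk]; exact hst) K
  rw [hk] at h
  exact h

end Pool.Agent.Lib.MP_94a9ea_al.H25
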